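import Mathlib
import Pool.Agent.H374R2.W.Glue
import Pool.Agent.TH888.F.Boot

/-!
Uniqueness of a solution of `U ^ q - a V ^ q = T` with `T` highly divisible by `p`; variant of the
starting theorem `Pool.Agent.H374R2.W.UP` in which `p` may divide `q`.
-/

set_option autoImplicit false

namespace Pool.Agent.TH888.G

open Finset Polynomial
open Pool.Agent.H374R2.V (HH)
open Pool.Agent.H374R2.W (SolP SolR Form cst val exists_form)
open Pool.Agent.H374R2.W.UP (cross_ne val_le pow_bound dvd_sub_of_pow)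

/-- the first solution is the smaller one -/
theorem aux {κ : ℝ} {q p U V U' V' : ℕ} {a T T' : ℤ} (hκ0 : 0 < κ) (hκ1 : κ ≤ 1)
    (hq : IsPrimePow q) (hqκ : 100 / κ ^ 2 ≤ q) (hp : p.Prime)
    (S : SolP κ q p a U V T) (S' : SolP κ q p a U' V' T')
    (hgap : ∃ e : ℕ, (p : ℤ) ^ e ∣ ((U' * V : ℕ) : ℤ) - ((U * V' : ℕ) : ℤ) ∧
      κ * Real.log (HH q a U V) ≤ e * Real.log p)
    (hH : HH q a U V ≤ HH q a U' V') : U = U' ∧ V = V' := by
  by_contra hne
  have hcross : U * V' ≠ U' * V := cross_ne S.U0 S.UV S'.UV hne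
  have hq0 : 0 < q := hq.pos
  have hqR : (0 : ℝ) < q := by exact_mod_cast hq0
  set H := HH q a U V with hHdef
  set H' := HH q a U' V' with hHdef'
  have hU1 : U ^ q ≤ H := le_max_left _ _
  have hV1 : a.natAbs * V ^ q ≤ H := le_max_right _ _
  have hU1' : U' ^ q ≤ H' := le_max_left _ _
  have hV1' : a.natAbs * V' ^ q ≤ H' := le_max_right _ _
  have ha1 : 1 ≤ a.natAbs := Int.natAbs_pos.mpr S.a0
  have hV2 : V ^ q ≤ H := (Nat.le_mul_of_pos_left _ ha1).trans hV1
  have hV2' : V' ^ q ≤ H' := (Nat.le_mul_of_pos_left _ ha1).trans hV1'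
  have hHpos : 0 < H := lt_of_lt_of_le (pow_pos S.U0 q) hU1
  have hHpos' : 0 < H' := lt_of_lt_of_le (pow_pos S'.U0 q) hU1'
  set h := Real.log (H : ℝ) with hh
  set h' := Real.log (H' : ℝ) with hh'
  have hle : h ≤ h' := Real.log_le_log (by exact_mod_cast hHpos) (by exact_mod_cast hH)
  -- the large height
  set Lg := Real.log (10 ^ 8 * (q : ℝ) ^ 9) with hLg
  have hq1 : (1 : ℝ) ≤ q := by exact_mod_cast hq0
  have hq9 : (1 : ℝ) ≤ (q : ℝ) ^ 9 := one_le_pow₀ hq1
  have hLg0 : 0 < Lg := Real.log_pos (by nlinarith)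
  have hlarge : 50 * (3 / κ + 1) * Lg ≤ h := S.large
  have h3κ : 0 < 3 / κ := by positivity
  have h0 : 0 < h := lt_of_lt_of_le (by positivity) hlarge
  -- the exponents
  obtain ⟨y, hy1, hy2⟩ := S.good
  obtain ⟨y', hy1', hy2'⟩ := S'.good
  have hlp : 0 < Real.log (p : ℝ) := Real.log_pos (by exact_mod_cast hp.one_lt)
  obtain ⟨e, hgap1', hee⟩ := hgap
  set u := U' * V with hu
  set v := U * V' with hv
  have hpu : ¬ p ∣ u := fun h1 => (hp.dvd_mul.mp h1).elim S'.Up S.Vp
  have hpv : ¬ p ∣ v := fun h1 => (hp.dvd_mul.mp h1).elim S.Up S'.Vp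
  have hu0 : 0 < u := Nat.mul_pos S'.U0 S.V0
  have hv0 : 0 < v := Nat.mul_pos S.U0 S'.V0
  have hgap1 : (p : ℤ) ^ e ∣ (u : ℤ) - (v : ℤ) := hgap1'
  -- sizes
  set M := max u v with hM
  have huM : u ≤ M := le_max_left _ _
  have hvM : v ≤ M := le_max_right _ _
  have hM0 : 0 < M := lt_of_lt_of_le hu0 huM
  have hMq : M ^ q ≤ H * H' := by
    rcases max_choice u v with h1 | h1
    · rw [hM, h1, hu, mul_pow, mul_comm H]
      exact Nat.mul_le_mul hU1' hV2
    · rw [hM, h1, hv, mul_pow]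
      exact Nat.mul_le_mul hU1 hV2'
  have hlM : Real.log (M : ℝ) ≤ (h + h') / q := by
    rw [le_div_iff₀ hqR]
    have h1 : Real.log ((M : ℝ) ^ q) ≤ Real.log ((H : ℝ) * H') :=
      Real.log_le_log (by positivity) (by exact_mod_cast hMq)
    rw [Real.log_pow, Real.log_mul (by positivity) (by positivity)] at h1
    linarith
  have hpeM : p ^ e ≤ M := by
    have h1 : (u : ℤ) - (v : ℤ) ≠ 0 := by
      intro h1
      apply hcross
      have : (u : ℤ) = (v : ℤ) := by linarith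
      have h2 : u = v := by exact_mod_cast this
      exact h2.symm
    have h2 : (p : ℤ) ^ e ≤ |(u : ℤ) - (v : ℤ)| :=
      Int.le_of_dvd (abs_pos.mpr h1) ((dvd_abs _ _).mpr hgap1)
    have h3 : |(u : ℤ) - (v : ℤ)| ≤ (M : ℤ) := by
      have e1 : (u : ℤ) ≤ M := by exact_mod_cast huM
      have e2 : (v : ℤ) ≤ M := by exact_mod_cast hvM
      have e3 : (0 : ℤ) ≤ u := by positivity
      have e4 : (0 : ℤ) ≤ v := by positivity
      rw [abs_le]
      constructor <;> linarith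
    exact_mod_cast h2.trans h3
  have hpeM2 : (e : ℝ) * Real.log p ≤ Real.log M := by
    rw [← Real.log_pow]
    exact Real.log_le_log (by have := hp.pos; positivity) (by exact_mod_cast hpeM)
  -- the parameter `m`
  set m := ⌊3 / κ⌋₊ with hm
  have hm1 : (m : ℝ) ≤ 3 / κ := Nat.floor_le h3κ.le
  have hm2 : 3 / κ ≤ (m : ℝ) + 1 := (Nat.lt_floor_add_one _).le
  have hmq : m < q := by
    have h1 : 3 / κ < 100 / κ ^ 2 := by
      rw [div_lt_div_iff₀ hκ0 (by positivity)]
      nlinarith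
    exact_mod_cast lt_of_le_of_lt hm1 (h1.trans_le hqκ)
  refine Pool.Agent.H374R2.W.AR.arith hκ0 hκ1 hm2 hm1 hqκ h0 hle ?_ ?_
  · have := hee.trans (hpeM2.trans hlM)
    have h1 : 0 ≤ κ * h := by positivity
    linarith
  · intro n hn
    choose! c hc using fun (k : ℕ) (hk : k ≤ m) => exists_form (q := q) (n := n) hq hmq hk hn
    have hX : ((U : ℤ) ^ q) ≠ 0 := pow_ne_zero _ (by exact_mod_cast S.U0.ne')
    have hXY : (U : ℤ) ^ q ≠ a * (V : ℤ) ^ q := by
      intro h1
      apply S.T0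
      rw [← S.eq, h1, sub_self]
    have hx0 : (fun j => (u : ℤ) ^ j * (v : ℤ) ^ (m - j)) 0 ≠ 0 := by
      simp only [pow_zero, one_mul]
      exact pow_ne_zero _ (by exact_mod_cast hv0.ne')
    obtain ⟨k, hk, hval⟩ := Pool.Agent.H374R2.W.B.exists_ne hq0 c hc hX hXY
      (fun j => (u : ℤ) ^ j * (v : ℤ) ^ (m - j)) hx0
    have hcop : IsCoprime (v : ℤ) (p : ℤ) :=
      Nat.isCoprime_iff_coprime.mpr ((Nat.Prime.coprime_iff_not_dvd hp).2 hpv).symm
    have hdiv2 : (p : ℤ) ^ y' ∣ (U : ℤ) ^ q * (u : ℤ) ^ q - a * (V : ℤ) ^ q * (v : ℤ) ^ q := by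
      have e1 : (U : ℤ) ^ q * (u : ℤ) ^ q - a * (V : ℤ) ^ q * (v : ℤ) ^ q =
          T' * ((U : ℤ) ^ q * (V : ℤ) ^ q) := by
        rw [hu, hv]
        push_cast
        rw [mul_pow, mul_pow, ← S'.eq]
        ring
      rw [e1]
      exact hy1'.mul_right _
    have hdvd := Pool.Agent.H374R2.W.P.val_dvd (hc k hk) hcop hgap1 hdiv2
    set Z := val m n (c k) ((U : ℤ) ^ q) (a * (V : ℤ) ^ q)
      (fun j => (u : ℤ) ^ j * (v : ℤ) ^ (m - j)) with hZ
    have hlow : (p : ℤ) ^ (min y' ((m + 1) * n * e)) ≤ |Z| :=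
      Int.le_of_dvd (abs_pos.mpr hval) ((dvd_abs _ _).mpr hdvd)
    have hXH : |(U : ℤ) ^ q| ≤ (H : ℤ) := by
      rw [abs_of_nonneg (by positivity)]
      exact_mod_cast hU1
    have hYH : |a * (V : ℤ) ^ q| ≤ (H : ℤ) := by
      rw [abs_mul, abs_of_nonneg (by positivity : (0 : ℤ) ≤ (V : ℤ) ^ q), Int.abs_eq_natAbs]
      exact_mod_cast hV1
    have hup := val_le (hc k hk) hXH hYH huM hvM
    rw [← hZ] at hup
    have hnat : p ^ (min y' ((m + 1) * n * e)) ≤
        (m + 1) * (n + 1) * (cst m q ^ n * H ^ n * M ^ m) := by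
      exact_mod_cast hlow.trans hup
    have hnat2 : p ^ (min y' ((m + 1) * n * e)) ≤
        4 ^ ((m + 1) * n) * (cst m q ^ n * H ^ n * M ^ m) := by
      refine hnat.trans (Nat.mul_le_mul_right _ ?_)
      have h1 : 1 ≤ (m + 1) * n := Nat.mul_pos (Nat.succ_pos _) hn
      calc (m + 1) * (n + 1) ≤ (m + 1) * (2 * n) := Nat.mul_le_mul_left _ (by omega)
        _ = 2 * ((m + 1) * n) := by ring
        _ ≤ 4 ^ ((m + 1) * n) := pow_bound h1
    have hcpos : 0 < cst m q := by
      unfold cst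
      positivity
    have hlog : ((min y' ((m + 1) * n * e) : ℕ) : ℝ) * Real.log p ≤
        ((m + 1) * n : ℕ) * Real.log 4 + (n * Real.log (cst m q) + n * h + m * Real.log M) := by
      have h1 : Real.log (((p ^ (min y' ((m + 1) * n * e)) : ℕ) : ℝ)) ≤
          Real.log (((4 ^ ((m + 1) * n) * (cst m q ^ n * H ^ n * M ^ m) : ℕ) : ℝ)) :=
        Real.log_le_log (by have := hp.pos; positivity) (by exact_mod_cast hnat2)
      have hc0 : (cst m q : ℝ) ≠ 0 := by exact_mod_cast hcpos.ne'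
      have hH0 : (H : ℝ) ≠ 0 := by exact_mod_cast hHpos.ne'
      have hM0' : (M : ℝ) ≠ 0 := by exact_mod_cast hM0.ne'
      rw [Nat.cast_pow, Real.log_pow, Nat.cast_mul, Nat.cast_mul, Nat.cast_mul, Nat.cast_pow,
        Nat.cast_pow, Nat.cast_pow, Nat.cast_pow,
        Real.log_mul (by positivity) (by positivity),
        Real.log_mul (by positivity) (by positivity),
        Real.log_mul (by positivity) (by positivity), Real.log_pow, Real.log_pow, Real.log_pow,
        Real.log_pow] at h1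
      exact_mod_cast h1
    have hlc : Real.log (cst m q : ℝ) = (m + 1) * Real.log (15000 * (q : ℝ) ^ 9) := by
      unfold cst
      push_cast
      rw [Real.log_pow]
      push_cast
      rfl
    have hsum : Real.log 4 + Real.log (15000 * (q : ℝ) ^ 9) ≤ Lg := by
      rw [← Real.log_mul (by norm_num) (by positivity)]
      refine Real.log_le_log (by positivity) ?_
      nlinarith
    have hlowr : min (κ * (((m : ℝ) + 1) * n) * h) (κ * h') ≤
        ((min y' ((m + 1) * n * e) : ℕ) : ℝ) * Real.log p := by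
      rcases min_choice y' ((m + 1) * n * e) with h1 | h1
      · rw [h1]
        exact (min_le_right _ _).trans hy2'
      · rw [h1]
        refine (min_le_left _ _).trans ?_
        push_cast
        have h2 := mul_le_mul_of_nonneg_left hee (by positivity : (0 : ℝ) ≤ ((m : ℝ) + 1) * n)
        linarith
    refine hlowr.trans (hlog.trans ?_)
    rw [hlc]
    push_cast
    have hmM : (m : ℝ) * Real.log M ≤ (m / q) * (h + h') := by
      calc (m : ℝ) * Real.log M ≤ m * ((h + h') / q) :=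
            mul_le_mul_of_nonneg_left hlM (by positivity)
        _ = (m / q) * (h + h') := by ring
    have hmain : ((m : ℝ) + 1) * n * Real.log 4 +
        n * ((m + 1) * Real.log (15000 * (q : ℝ) ^ 9)) ≤ n * (h / 50) := by
      have h1 : ((m : ℝ) + 1) * (Real.log 4 + Real.log (15000 * (q : ℝ) ^ 9)) ≤ h / 50 := by
        calc ((m : ℝ) + 1) * (Real.log 4 + Real.log (15000 * (q : ℝ) ^ 9))
            ≤ (3 / κ + 1) * Lg :=
              mul_le_mul (by linarith) hsum (by
                have := Real.log_nonneg (by norm_num : (1 : ℝ) ≤ 4)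
                have := Real.log_nonneg (by nlinarith : (1 : ℝ) ≤ 15000 * (q : ℝ) ^ 9)
                linarith) (by positivity)
          _ ≤ h / 50 := by linarith
      have h2 := mul_le_mul_of_nonneg_left h1 (by positivity : (0 : ℝ) ≤ (n : ℝ))
      linarith
    linarith


/-- the power of `p` in `w₁ - w₂` when `p` may divide `q` -/
theorem lte_gap {q p y : ℕ} (hp : p.Prime) (hq : 0 < q) {w₁ w₂ : ℤ} (h1 : ¬ (p : ℤ) ∣ w₁)
    (h2 : (p : ℤ) ^ 2 ∣ w₁ - w₂) (hpow : (p : ℤ) ^ y ∣ w₁ ^ q - w₂ ^ q) :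
    (p : ℤ) ^ (y - padicValNat p q) ∣ w₁ - w₂ := by
  have : Fact p.Prime := ⟨hp⟩
  rcases eq_or_ne w₁ w₂ with rfl | hne
  · simp
  have hpd : (p : ℤ) ∣ w₁ - w₂ := (dvd_pow_self _ (by norm_num)).trans h2
  have hfin : FiniteMultiplicity (p : ℤ) (w₁ - w₂) :=
    Int.finiteMultiplicity_iff.mpr ⟨by rw [Int.natAbs_natCast]; exact hp.ne_one, sub_ne_zero.mpr hne⟩
  have key : emultiplicity (p : ℤ) (w₁ ^ q - w₂ ^ q) =
      emultiplicity (p : ℤ) (w₁ - w₂) + emultiplicity p q := by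
    rcases hp.eq_two_or_odd' with rfl | hodd
    · have h4 : 4 ∣ w₁ - w₂ := by norm_num at h2; exact h2
      have := Int.two_pow_sub_pow' q h4 (by exact_mod_cast h1)
      rw [show ((2 : ℕ) : ℤ) = 2 by norm_num, this, show (2 : ℤ) = ((2 : ℕ) : ℤ) by norm_num,
        Int.natCast_emultiplicity]
    · exact Int.emultiplicity_pow_sub_pow hp hodd hpd h1 q
  have hy : (y : ℕ∞) ≤ emultiplicity (p : ℤ) (w₁ ^ q - w₂ ^ q) := le_emultiplicity_of_pow_dvd hpow
  rw [key, padicValNat_eq_emultiplicity hq.ne' |>.symm, hfin.emultiplicity_eq_multiplicity] at hy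
  have hy' : y ≤ multiplicity (p : ℤ) (w₁ - w₂) + padicValNat p q := by exact_mod_cast hy
  exact pow_dvd_of_le_multiplicity (by omega)

/-- uniqueness, `p` may divide `q` -/
theorem unique_p' {κ : ℝ} {q p U V U' V' : ℕ} {a T T' : ℤ} (hκ0 : 0 < κ) (hκ1 : 2 * κ ≤ 1)
    (hq : IsPrimePow q) (hqκ : 100 / κ ^ 2 ≤ q) (hp : p.Prime)
    (S : SolP (2 * κ) q p a U V T) (S' : SolP (2 * κ) q p a U' V' T')
    (hlS : 50 * (3 / κ + 1) * Real.log (10 ^ 8 * (q : ℝ) ^ 9) ≤ Real.log (HH q a U V))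
    (hlS' : 50 * (3 / κ + 1) * Real.log (10 ^ 8 * (q : ℝ) ^ 9) ≤ Real.log (HH q a U' V'))
    (hU : U ≡ U' [MOD p ^ 2]) (hV : V ≡ V' [MOD p ^ 2]) :
    U = U' ∧ V = V' := by
  have hq0 : 0 < q := hq.pos
  have hq1 : (1 : ℝ) ≤ q := by exact_mod_cast hq0
  have hq9 : (1 : ℝ) ≤ (q : ℝ) ^ 9 := one_le_pow₀ hq1
  have hlp : 0 < Real.log (p : ℝ) := Real.log_pos (by exact_mod_cast hp.one_lt)
  have down : ∀ {U V : ℕ} {T : ℤ}, SolP (2 * κ) q p a U V T →
      50 * (3 / κ + 1) * Real.log (10 ^ 8 * (q : ℝ) ^ 9) ≤ Real.log (HH q a U V) →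
      SolP κ q p a U V T := by
    intro U V T h hl
    obtain ⟨y, hy1, hy2⟩ := h.good
    have h0 : 0 ≤ Real.log (HH q a U V) := Real.log_natCast_nonneg _
    exact ⟨h.U0, h.V0, h.T0, h.a0, h.eq, h.UV, h.Up, h.Vp, ⟨y, hy1, by nlinarith⟩, hl⟩
  have gap : ∀ {U V U' V' : ℕ} {T T' : ℤ}, SolP (2 * κ) q p a U V T → SolP (2 * κ) q p a U' V' T' →
      50 * (3 / κ + 1) * Real.log (10 ^ 8 * (q : ℝ) ^ 9) ≤ Real.log (HH q a U V) →
      HH q a U V ≤ HH q a U' V' → U ≡ U' [MOD p ^ 2] → V ≡ V' [MOD p ^ 2] →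
      ∃ e : ℕ, (p : ℤ) ^ e ∣ ((U' * V : ℕ) : ℤ) - ((U * V' : ℕ) : ℤ) ∧
      κ * Real.log (HH q a U V) ≤ e * Real.log p := by
    intro U V U' V' T T' S S' hl hH hU hV
    obtain ⟨y, hy1, hy2⟩ := S.good
    obtain ⟨y', hy1', hy2'⟩ := S'.good
    have hHpos : 0 < HH q a U V := lt_of_lt_of_le (pow_pos S.U0 q) (le_max_left _ _)
    have hle : Real.log (HH q a U V) ≤ Real.log (HH q a U' V') :=
      Real.log_le_log (by exact_mod_cast hHpos) (by exact_mod_cast hH)
    obtain ⟨e, he⟩ : ∃ e, e = min y y' := ⟨_, rfl⟩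
    have hee : 2 * κ * Real.log (HH q a U V) ≤ (e : ℝ) * Real.log p := by
      rcases min_choice y y' with h1 | h1
      · rw [he, h1]; exact hy2
      · rw [he, h1]
        exact (mul_le_mul_of_nonneg_left hle (by positivity)).trans hy2'
    have hpe : (p : ℤ) ^ e ∣ T := (pow_dvd_pow _ (by rw [he]; exact min_le_left _ _)).trans hy1
    have hpe' : (p : ℤ) ^ e ∣ T' := (pow_dvd_pow _ (by rw [he]; exact min_le_right _ _)).trans hy1'
    refine ⟨e - padicValNat p q, ?_, ?_⟩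
    · apply lte_gap hp hq0
      · intro h1
        have h2 : p ∣ U' * V := by exact_mod_cast h1
        exact (hp.dvd_mul.mp h2).elim S'.Up S.Vp
      · have h1 : U * V' ≡ U' * V [MOD p ^ 2] := Nat.ModEq.mul hU hV.symm
        have := Nat.modEq_iff_dvd.mp h1
        push_cast at this ⊢
        exact this
      · have e1 : (((U' * V : ℕ) : ℤ)) ^ q - (((U * V' : ℕ) : ℤ)) ^ q =
            T' * (V : ℤ) ^ q - T * (V' : ℤ) ^ q := by
          push_cast
          rw [mul_pow, mul_pow, ← S.eq, ← S'.eq]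
          ring
        rw [e1]
        exact dvd_sub (hpe'.mul_right _) (hpe.mul_right _)
    · -- the loss is small
      have h1 : (padicValNat p q : ℝ) * Real.log p ≤ Real.log q := by
        rw [← Real.log_pow]
        apply Real.log_le_log (by have := hp.pos; positivity)
        exact_mod_cast Nat.le_of_dvd hq0 pow_padicValNat_dvd
      have h2 : Real.log q ≤ κ * Real.log (HH q a U V) := by
        have h3 : Real.log q ≤ Real.log (10 ^ 8 * (q : ℝ) ^ 9) := by
          apply Real.log_le_log (by linarith)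
          have : (q : ℝ) ≤ (q : ℝ) ^ 9 := le_self_pow₀ hq1 (by norm_num)
          nlinarith
        have h0 : 0 ≤ Real.log q := Real.log_nonneg hq1
        have h4 : κ * (50 * (3 / κ + 1) * Real.log (10 ^ 8 * (q : ℝ) ^ 9)) =
            (150 + 50 * κ) * Real.log (10 ^ 8 * (q : ℝ) ^ 9) := by
          field_simp
          ring
        have h5 := mul_le_mul_of_nonneg_left hl hκ0.le
        rw [h4] at h5
        nlinarith
      have h3 : ((e - padicValNat p q : ℕ) : ℝ) ≥ (e : ℝ) - padicValNat p q := by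
        rw [ge_iff_le, sub_le_iff_le_add]
        exact_mod_cast (show e ≤ e - padicValNat p q + padicValNat p q by omega)
      nlinarith
  rcases le_total (HH q a U V) (HH q a U' V') with h | h
  · exact aux hκ0 (by linarith) hq hqκ hp (down S hlS) (down S' hlS') (gap S S' hlS h hU hV) h
  · have h1 := aux hκ0 (by linarith) hq hqκ hp (down S' hlS') (down S hlS)
      (gap S' S hlS' h hU.symm hV.symm) h
    exact ⟨h1.1.symm, h1.2.symm⟩

end Pool.Agent.TH888.G
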