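import Mathlib
import Pool.Agent.TH888.G.Uniq1
import Pool.Agent.TH888.W2.SInt

/-!
`S`-units modulo `q`-th powers, and the number of `B` with `β B ^ y = M`, `β` an `S`-unit.
-/

set_option autoImplicit false

namespace Pool.Agent.TH888.G

open Finset
open Pool.Agent.TH888.W2 (Su)

theorem su_of_dvd {P : Finset ℕ} {m n : ℕ} (hn : Su P n) (h : m ∣ n) : Su P m :=
  ⟨fun h0 => hn.1 (Nat.eq_zero_of_zero_dvd (h0 ▸ h)), fun l hl hlm => hn.2 l hl (hlm.trans h)⟩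

theorem su_mul {P : Finset ℕ} {m n : ℕ} (hm : Su P m) (hn : Su P n) : Su P (m * n) :=
  ⟨mul_ne_zero hm.1 hn.1, fun l hl h => (hl.dvd_mul.mp h).elim (hm.2 l hl) (hn.2 l hl)⟩

theorem su_pow {P : Finset ℕ} {m : ℕ} (hm : Su P m) (k : ℕ) : Su P (m ^ k) :=
  ⟨pow_ne_zero _ hm.1, fun l hl h => hm.2 l hl (hl.dvd_of_dvd_pow h)⟩

/-- `α = α₀ α₁ ^ q` with small exponents in `α₀` -/
theorem su_split {P : Finset ℕ} {q α : ℕ} (hq : 0 < q) (h : Su P α) : ∃ α₀ α₁ : ℕ,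
    Su P α₀ ∧ (∀ r, α₀.factorization r ≤ q) ∧ 0 < α₁ ∧ α = α₀ * α₁ ^ q ∧ α₁ ∣ α := by
  obtain ⟨α₁, hα₁⟩ : ∃ α₁, α₁ = Nat.floorRoot q α := ⟨_, rfl⟩
  have h1 : α₁ ^ q ∣ α := by rw [hα₁]; exact Nat.floorRoot_pow_dvd
  have h2 : α₁ ≠ 0 := by rw [hα₁]; exact Nat.floorRoot_ne_zero.mpr ⟨hq.ne', h.1⟩
  obtain ⟨α₀, hα₀⟩ := h1
  have hα0 : α₀ ≠ 0 := by rintro rfl; exact h.1 (by rw [hα₀, mul_zero])
  refine ⟨α₀, α₁, su_of_dvd h ⟨α₁ ^ q, by rw [hα₀, mul_comm]⟩, fun r => ?_, Nat.pos_of_ne_zero h2,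
    by rw [hα₀, mul_comm], (dvd_pow_self α₁ hq.ne').trans ⟨α₀, hα₀⟩⟩
  have h3 : α.factorization r = q * α₁.factorization r + α₀.factorization r := by
    conv_lhs => rw [hα₀, Nat.factorization_mul (pow_ne_zero _ h2) hα0, Nat.factorization_pow]
    simp
  have h4 : α₁.factorization r = α.factorization r / q := by
    rw [hα₁, Nat.factorization_floorRoot]
    simp [Finsupp.floorDiv_apply, Nat.floorDiv_eq_div]
  have h5 := Nat.div_add_mod (α.factorization r) q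
  have h6 := Nat.mod_lt (α.factorization r) hq
  rw [h4] at h3
  omega

/-- `γ d₀ = γ₂ ^ q` with small exponents in `d₀` -/
theorem su_comp {P : Finset ℕ} {q γ : ℕ} (hq : 0 < q) (h : Su P γ) : ∃ d₀ γ₂ : ℕ,
    Su P d₀ ∧ (∀ r, d₀.factorization r ≤ q) ∧ 0 < γ₂ ∧ d₀ * γ = γ₂ ^ q ∧
      (∀ r : ℕ, r.Prime → r ∣ γ₂ → r ∣ γ) ∧ (∀ r : ℕ, r.Prime → r ∣ d₀ → r ∣ γ) := by
  obtain ⟨γ₂, hγ₂⟩ : ∃ γ₂, γ₂ = Nat.ceilRoot q γ := ⟨_, rfl⟩
  have h1 : γ ∣ γ₂ ^ q := by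
    rw [hγ₂]; exact Nat.dvd_ceilRoot_pow hq.ne'
  have h2 : γ₂ ≠ 0 := by rw [hγ₂]; exact Nat.ceilRoot_ne_zero.mpr ⟨hq.ne', h.1⟩
  obtain ⟨d₀, hd₀⟩ := h1
  have hd0 : d₀ ≠ 0 := by rintro rfl; rw [mul_zero] at hd₀; exact pow_ne_zero _ h2 hd₀
  have h4 : ∀ r, γ₂.factorization r = (γ.factorization r + q - 1) / q := by
    intro r
    rw [hγ₂, Nat.factorization_ceilRoot]
    simp [Finsupp.ceilDiv_apply, Nat.ceilDiv_eq_add_pred_div]
  have h3 : ∀ r, q * γ₂.factorization r = γ.factorization r + d₀.factorization r := by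
    intro r
    have := congrArg (fun n => n.factorization r) hd₀
    rw [Nat.factorization_mul h.1 hd0, Nat.factorization_pow] at this
    simpa using this
  have hγ2 : ∀ r : ℕ, r.Prime → r ∣ γ₂ → r ∣ γ := by
    intro r hr hrd
    by_contra hcon
    have h5 : γ.factorization r = 0 := Nat.factorization_eq_zero_of_not_dvd hcon
    have h6 := h4 r
    rw [h5, zero_add, Nat.div_eq_of_lt (by omega)] at h6
    have h7 := (hr.dvd_iff_one_le_factorization h2).mp hrd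
    omega
  refine ⟨d₀, γ₂, ⟨hd0, fun l hl hld => h.2 l hl (hγ2 l hl (hl.dvd_of_dvd_pow
    (hd₀ ▸ (hld.mul_left γ) : l ∣ γ₂ ^ q)))⟩, fun r => ?_,
    Nat.pos_of_ne_zero h2, by rw [hd₀, mul_comm], hγ2, fun l hl hld => hγ2 l hl (hl.dvd_of_dvd_pow
    (hd₀ ▸ (hld.mul_left γ) : l ∣ γ₂ ^ q))⟩
  have h5 := h3 r
  have h6 := h4 r
  have h7 := Nat.div_mul_le_self (γ.factorization r + q - 1) q
  rw [← h6, mul_comm] at h7
  omega

theorem su_le_pow {P : Finset ℕ} (hP : ∀ l ∈ P, l.Prime) {n q : ℕ} (h : Su P n)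
    (hq : ∀ r, n.factorization r ≤ q) : n ≤ (∏ l ∈ P, l) ^ q := by
  rw [← h.prod, ← Finset.prod_pow]
  exact Finset.prod_le_prod' fun l hl => Nat.pow_le_pow_right (hP l hl).pos (hq l)

/-- the number of `B` with `β B ^ y = M` -/
theorem count_M (P : Finset ℕ) (N M : ℕ) :
    {B : ℕ | 0 < B ∧ B ≤ N ∧ (∃ r, r.Prime ∧ r ∉ P ∧ r ∣ B) ∧
      ∃ β y : ℕ, Su P β ∧ 0 < y ∧ β * B ^ y = M}.ncard ≤ (Nat.log 2 N + 1) ^ (P.card + 1) := by
  classical
  set E := {B : ℕ | 0 < B ∧ B ≤ N ∧ (∃ r, r.Prime ∧ r ∉ P ∧ r ∣ B) ∧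
      ∃ β y : ℕ, Su P β ∧ 0 < y ∧ β * B ^ y = M} with hE
  rcases E.eq_empty_or_nonempty with h0 | ⟨B₀, hB₀⟩
  · rw [h0, Set.ncard_empty]; exact Nat.zero_le _
  obtain ⟨hB00, hB0N, ⟨r₀, hr₀, hr₀P, hr₀B⟩, β₀, y₀, hβ₀, hy₀, hM⟩ := hB₀
  have hr₀M : r₀ ∣ M := by rw [← hM]; exact (dvd_pow hr₀B hy₀.ne').mul_left _
  have hM0 : M ≠ 0 := by rw [← hM]; exact mul_ne_zero hβ₀.1 (pow_ne_zero _ hB00.ne')
  have hfB : ∀ B ∈ E, ∀ β y : ℕ, Su P β → 0 < y → β * B ^ y = M → ∀ r, r.Prime → r ∉ P →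
      M.factorization r = y * B.factorization r := by
    intro B hB β y hβ hy hMB r hr hrP
    rw [← hMB, Nat.factorization_mul hβ.1 (pow_ne_zero _ hB.1.ne'), Nat.factorization_pow]
    have : β.factorization r = 0 := Nat.factorization_eq_zero_of_not_dvd fun h => hrP (hβ.2 r hr h)
    simp [this]
  have hlog : ∀ B ∈ E, ∀ r, B.factorization r < Nat.log 2 N + 1 := by
    intro B hB r
    by_cases hr : r.Prime
    · have h1 : r ^ B.factorization r ≤ B := Nat.le_of_dvd hB.1 (Nat.ordProj_dvd B r)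
      have h2 : 2 ^ B.factorization r ≤ B := (Nat.pow_le_pow_left hr.two_le _).trans h1
      have h3 : B.factorization r ≤ Nat.log 2 N :=
        Nat.le_log_of_pow_le (by norm_num) (h2.trans hB.2.1)
      omega
    · rw [Nat.factorization_eq_zero_of_not_prime _ hr]
      omega
  let f : ℕ → (P → Fin (Nat.log 2 N + 1)) × Fin (Nat.log 2 N + 1) := fun B =>
    (fun l => Fin.ofNat _ (B.factorization l), Fin.ofNat _ (B.factorization r₀))
  have hinj : Set.InjOn f E := by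
    intro B₁ hB₁ B₂ hB₂ h
    have hfin : ∀ r, (Fin.ofNat (Nat.log 2 N + 1) (B₁.factorization r)) =
        Fin.ofNat (Nat.log 2 N + 1) (B₂.factorization r) → B₁.factorization r = B₂.factorization r := by
      intro r hr
      have h1 := congrArg Fin.val hr
      simp only [Fin.ofNat] at h1
      rwa [Nat.mod_eq_of_lt (hlog B₁ hB₁ r), Nat.mod_eq_of_lt (hlog B₂ hB₂ r)] at h1
    have h1 : ∀ l : P, B₁.factorization l = B₂.factorization l := fun l =>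
      hfin l (congrFun (congrArg Prod.fst h) l)
    have h2 : B₁.factorization r₀ = B₂.factorization r₀ := hfin r₀ (congrArg Prod.snd h)
    obtain ⟨β₁, y₁, hβ₁, hy₁, hM₁⟩ := hB₁.2.2.2
    obtain ⟨β₂, y₂, hβ₂, hy₂, hM₂⟩ := hB₂.2.2.2
    have e1 := hfB B₁ hB₁ β₁ y₁ hβ₁ hy₁ hM₁
    have e2 := hfB B₂ hB₂ β₂ y₂ hβ₂ hy₂ hM₂
    have h3 : 1 ≤ M.factorization r₀ := (hr₀.dvd_iff_one_le_factorization hM0).mp hr₀M
    have h4 := e1 r₀ hr₀ hr₀P
    have h5 := e2 r₀ hr₀ hr₀P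
    have hpos : 0 < B₁.factorization r₀ := by
      rcases Nat.eq_zero_or_pos (B₁.factorization r₀) with h | h
      · rw [h] at h4; omega
      · exact h
    have hyy : y₁ = y₂ := by
      rw [← h2] at h5
      exact Nat.eq_of_mul_eq_mul_right hpos (h4.symm.trans h5)
    apply Nat.eq_of_factorization_eq hB₁.1.ne' hB₂.1.ne'
    intro r
    by_cases hr : r.Prime
    · by_cases hrP : r ∈ P
      · exact h1 ⟨r, hrP⟩
      · have h6 := e1 r hr hrP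
        have h7 := e2 r hr hrP
        rw [← hyy] at h7
        exact Nat.eq_of_mul_eq_mul_left hy₁ (h6.symm.trans h7)
    · rw [Nat.factorization_eq_zero_of_not_prime _ hr, Nat.factorization_eq_zero_of_not_prime _ hr]
  have h1 := Set.ncard_le_ncard_of_injOn (t := Set.univ) f (fun _ _ => Set.mem_univ _) hinj
    Set.finite_univ
  refine h1.trans (le_of_eq ?_)
  rw [Set.ncard_univ, Nat.card_eq_fintype_card, Fintype.card_prod, Fintype.card_fun, Fintype.card_fin,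
    Fintype.card_coe, pow_succ]

end Pool.Agent.TH888.G
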