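import Mathlib
import Pool.Agent.TH888.G.Cls1

/-!
The place at which `γ C ^ z ∓ α A ^ x = ± β B ^ y` is a good approximation: the real place, a prime
factor of `B`, or a prime of `P`.
-/

set_option autoImplicit false

namespace Pool.Agent.TH888.G

open Finset
open Pool.Agent.TH888.W2 (Su SF sf_mem)
open Pool.Agent.H374R2.V (HH)
open Pool.Agent.H374R2.W (SolP SolR)

theorem places {P : Finset ℕ} (hP : ∀ l ∈ P, l.Prime) {ρ κ κ₁ : ℝ}
    (hρ : ρ = Real.log ((∏ l ∈ P, l : ℕ) : ℝ) / Real.log 2) (hκ0 : 0 < κ)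
    (hκ1 : 16 * κ * (1 + ρ) ≤ κ₁) (hκ2 : 16 * κ * (1 + ρ) * (P.card + 1) ≤ 1) (hκ₁ : κ₁ ≤ 1)
    {q Q N A B C x y z α β γ p : ℕ} {s σ : ℤ} (hq : IsPrimePow q) (hqQ : q ≤ Q) (hqz : q ∣ z)
    (hC : 0 < C) (hA : 0 < A) (hB : 0 < B) (hBN : B ≤ N) (hy : 0 < y) (hα : Su P α)
    (hβ : Su P β) (hγ : Su P γ) (c1 : Nat.Coprime (γ * C) (α * A)) (c2 : Nat.Coprime (α * A) (β * B))
    (c3 : Nat.Coprime (γ * C) (β * B)) (hs : s = 1 ∨ s = -1) (hσ : σ = 1 ∨ σ = -1)
    (heq : (γ : ℤ) * (C : ℤ) ^ z - s * (α * (A : ℤ) ^ x) = σ * (β * (B : ℤ) ^ y))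
    (hp : p.Prime) (hpB : p ∣ B) (hpN : κ₁ * Real.log N ≤ Real.log p)
    (hlarge : 50 * (3 / κ + 1) * Real.log (10 ^ 8 * (q : ℝ) ^ 9) ≤
      Real.log ((max (γ * C ^ z) (α * A ^ x) : ℕ) : ℝ))
    (hlq : (q : ℝ) * Real.log 2 ≤ Real.log ((max (γ * C ^ z) (α * A ^ x) : ℕ) : ℝ)) :
    ∃ (i : ℕ) (a₀ : ℤ) (d₀ U V : ℕ), i < q ∧ a₀ ∈ SF P Q ∧ (d₀ : ℤ) ∈ SF P Q ∧ 0 < d₀ ∧
      50 * (3 / κ + 1) * Real.log (10 ^ 8 * (q : ℝ) ^ 9) ≤
        Real.log (HH q (a₀ * d₀ * (A : ℤ) ^ i) U V) ∧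
      (SolR κ q (a₀ * d₀ * (A : ℤ) ^ i) U V (σ * (d₀ * (β * (B : ℤ) ^ y))) ∨
        SolP (2 * κ) q p (a₀ * d₀ * (A : ℤ) ^ i) U V (σ * (d₀ * (β * (B : ℤ) ^ y))) ∨
        ∃ l ∈ P, SolP (2 * κ) q l (a₀ * d₀ * (A : ℤ) ^ i) U V (σ * (d₀ * (β * (B : ℤ) ^ y)))) := by
  have hq0 : 0 < q := hq.pos
  obtain ⟨α₀, α₁, hα₀, hα₀f, hα₁, hαe, hα₁d⟩ := su_split hq0 hα
  obtain ⟨d₀, γ₂, hd₀, hd₀f, hγ₂, hγe, hγ₂p, hd₀p⟩ := su_comp hq0 hγ
  have hd0pos : 0 < d₀ := Nat.pos_of_ne_zero hd₀.1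
  have hα0pos : 0 < α₀ := Nat.pos_of_ne_zero hα₀.1
  have hβ0 : 0 < β := Nat.pos_of_ne_zero hβ.1
  have hγ0 : 0 < γ := Nat.pos_of_ne_zero hγ.1
  have hα0 : 0 < α := Nat.pos_of_ne_zero hα.1
  obtain ⟨U, hU⟩ : ∃ U, U = γ₂ * C ^ (z / q) := ⟨_, rfl⟩
  obtain ⟨V, hV⟩ : ∃ V, V = α₁ * A ^ (x / q) := ⟨_, rfl⟩
  have hU0 : 0 < U := by rw [hU]; positivity
  have hV0 : 0 < V := by rw [hV]; positivity
  have hUq : U ^ q = d₀ * (γ * C ^ z) := by
    rw [hU, mul_pow, ← hγe, ← pow_mul, Nat.div_mul_cancel hqz]; ring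
  have hVq : α₀ * A ^ (x % q) * V ^ q = α * A ^ x := by
    have h1 : A ^ x = A ^ (x % q) * (A ^ (x / q)) ^ q := by
      rw [← pow_mul, ← pow_add]
      congr 1
      have := Nat.mod_add_div x q
      rw [mul_comm (x / q) q]
      exact this.symm
    rw [hV, mul_pow, h1, hαe]; ring
  have hs0 : s ≠ 0 := by rcases hs with rfl | rfl <;> norm_num
  have hσ0 : σ ≠ 0 := by rcases hσ with rfl | rfl <;> norm_num
  have hsn : s.natAbs = 1 := by rcases hs with rfl | rfl <;> rfl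
  have hσn : |(σ : ℝ)| = 1 := by rcases hσ with rfl | rfl <;> simp
  obtain ⟨H, hH⟩ : ∃ H, H = max (γ * C ^ z) (α * A ^ x) := ⟨_, rfl⟩
  rw [← hH] at hlarge hlq
  have hHH : HH q ((s * α₀) * d₀ * (A : ℤ) ^ (x % q)) U V = d₀ * H := by
    unfold HH
    have h1 : ((s * α₀) * d₀ * (A : ℤ) ^ (x % q)).natAbs = d₀ * (α₀ * A ^ (x % q)) := by
      rw [Int.natAbs_mul, Int.natAbs_mul, Int.natAbs_mul, hsn, Int.natAbs_pow, Int.natAbs_natCast,
        Int.natAbs_natCast, Int.natAbs_natCast]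
      ring
    rw [h1, hUq, mul_assoc, hVq, hH]
    exact Nat.mul_max_mul_left _ _ _
  have heq2 : (U : ℤ) ^ q - ((s * α₀) * d₀ * (A : ℤ) ^ (x % q)) * (V : ℤ) ^ q =
      σ * (d₀ * (β * (B : ℤ) ^ y)) := by
    have h1 : (U : ℤ) ^ q = d₀ * (γ * (C : ℤ) ^ z) := by exact_mod_cast hUq
    have h2 : (α₀ : ℤ) * (A : ℤ) ^ (x % q) * (V : ℤ) ^ q = α * (A : ℤ) ^ x := by exact_mod_cast hVq
    rw [h1]
    linear_combination (d₀ : ℤ) * heq - s * d₀ * h2
  -- divisibility facts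
  have hnd : ∀ {r m n : ℕ}, r.Prime → Nat.Coprime m n → r ∣ m → r ∣ n → False := by
    intro r m n hr hc h1 h2
    have h3 := Nat.dvd_gcd h1 h2
    rw [hc] at h3
    exact hr.one_lt.ne' (Nat.dvd_one.mp h3)
  have hrU : ∀ r : ℕ, r.Prime → r ∣ U → r ∣ γ * C := by
    intro r hr h1
    rw [hU] at h1
    rcases hr.dvd_mul.mp h1 with h2 | h2
    · exact (hγ₂p r hr h2).mul_right _
    · exact (hr.dvd_of_dvd_pow h2).mul_left _
  have hrV : ∀ r : ℕ, r.Prime → r ∣ V → r ∣ α * A := by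
    intro r hr h1
    rw [hV] at h1
    rcases hr.dvd_mul.mp h1 with h2 | h2
    · exact (h2.trans hα₁d).mul_right _
    · exact (hr.dvd_of_dvd_pow h2).mul_left _
  have hcUV : Nat.Coprime U V := Nat.coprime_of_dvd fun r hr h1 h2 => hnd hr c1 (hrU r hr h1) (hrV r hr h2)
  -- logarithms
  have hH0 : 0 < H := by
    rw [hH]; exact lt_of_lt_of_le (by positivity) (le_max_left _ _)
  have hHR : (0 : ℝ) < H := by exact_mod_cast hH0
  obtain ⟨h, hh⟩ : ∃ h, h = Real.log (H : ℝ) := ⟨_, rfl⟩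
  rw [← hh] at hlarge
  have hq1 : (1 : ℝ) ≤ q := by exact_mod_cast hq0
  have hq9 : (1 : ℝ) ≤ (q : ℝ) ^ 9 := one_le_pow₀ hq1
  have hLg0 : 0 < Real.log (10 ^ 8 * (q : ℝ) ^ 9) := Real.log_pos (by nlinarith)
  have h3κ : 0 < 3 / κ := by positivity
  have h0 : 0 < h := lt_of_lt_of_le (by positivity) hlarge
  have hl2 : 0 < Real.log 2 := Real.log_pos (by norm_num)
  have hR1 : 1 ≤ ∏ l ∈ P, l := Nat.one_le_iff_ne_zero.mpr (Finset.prod_ne_zero_iff.mpr fun l hl =>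
    (hP l hl).ne_zero)
  have hlR : 0 ≤ Real.log ((∏ l ∈ P, l : ℕ) : ℝ) := Real.log_nonneg (by exact_mod_cast hR1)
  have hρ0 : 0 ≤ ρ := by rw [hρ]; positivity
  have hldle : Real.log d₀ ≤ ρ * h := by
    have h1 : d₀ ≤ (∏ l ∈ P, l) ^ q := su_le_pow hP hd₀ hd₀f
    have h2 : Real.log d₀ ≤ q * Real.log ((∏ l ∈ P, l : ℕ) : ℝ) := by
      rw [← Real.log_pow]
      exact Real.log_le_log (by exact_mod_cast hd0pos) (by exact_mod_cast h1)
    have h3 : (q : ℝ) * Real.log 2 ≤ h := by rw [hh]; exact hlq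
    calc Real.log d₀ ≤ q * Real.log ((∏ l ∈ P, l : ℕ) : ℝ) := h2
      _ = ρ * (q * Real.log 2) := by rw [hρ]; field_simp
      _ ≤ ρ * h := mul_le_mul_of_nonneg_left h3 hρ0
  have hld0 : 0 ≤ Real.log (d₀ : ℝ) := Real.log_natCast_nonneg _
  have hlHH : Real.log ((HH q ((s * α₀) * d₀ * (A : ℤ) ^ (x % q)) U V : ℕ) : ℝ) = Real.log d₀ + h := by
    rw [hHH, Nat.cast_mul, Real.log_mul (by exact_mod_cast hd0pos.ne') hHR.ne', hh]
  have hBR : (0 : ℝ) < B := by exact_mod_cast hB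
  have hβR : (0 : ℝ) < β := by exact_mod_cast hβ0
  have hlB0 : 0 ≤ Real.log (B : ℝ) := Real.log_natCast_nonneg _
  have hlβ0 : 0 ≤ Real.log (β : ℝ) := Real.log_natCast_nonneg _
  have hκρ : κ * (1 + ρ) ≤ 1 / 16 := by nlinarith [hκ1, hκ₁]
  have hlarge2 : 50 * (3 / κ + 1) * Real.log (10 ^ 8 * (q : ℝ) ^ 9) ≤ Real.log d₀ + h := by linarith
  have hlarge3 : 50 * (3 / (2 * κ) + 1) * Real.log (10 ^ 8 * (q : ℝ) ^ 9) ≤ Real.log d₀ + h := by
    refine le_trans ?_ hlarge2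
    refine mul_le_mul_of_nonneg_right ?_ hLg0.le
    have : 3 / (2 * κ) ≤ 3 / κ := by
      apply div_le_div_of_nonneg_left (by norm_num) hκ0
      linarith
    linarith
  have hAne : (A : ℤ) ^ (x % q) ≠ 0 := pow_ne_zero _ (by exact_mod_cast hA.ne')
  have ha' : (s * α₀) * d₀ * (A : ℤ) ^ (x % q) ≠ 0 := by
    refine mul_ne_zero (mul_ne_zero (mul_ne_zero hs0 ?_) ?_) hAne
    · exact_mod_cast hα0pos.ne'
    · exact_mod_cast hd0pos.ne'
  have hT0 : σ * (d₀ * (β * (B : ℤ) ^ y)) ≠ 0 := by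
    refine mul_ne_zero hσ0 (mul_ne_zero ?_ (mul_ne_zero ?_ (pow_ne_zero _ ?_)))
    · exact_mod_cast hd0pos.ne'
    · exact_mod_cast hβ0.ne'
    · exact_mod_cast hB.ne'
  have hSP : ∀ (r e : ℕ), r.Prime → r ∣ β * B → r ^ e ∣ β * B ^ y →
      2 * κ * (Real.log d₀ + h) ≤ e * Real.log r →
      SolP (2 * κ) q r ((s * α₀) * d₀ * (A : ℤ) ^ (x % q)) U V (σ * (d₀ * (β * (B : ℤ) ^ y))) := by
    intro r e hr hrB hre hlog
    refine ⟨hU0, hV0, hT0, ha', heq2, hcUV, fun h1 => hnd hr c3 (hrU r hr h1) hrB,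
      fun h1 => hnd hr c2 (hrV r hr h1) hrB, ⟨e, ?_, by rw [hlHH]; exact hlog⟩, by
        rw [hlHH]; exact hlarge3⟩
    have h1 : (r : ℤ) ^ e ∣ β * (B : ℤ) ^ y := by exact_mod_cast hre
    exact (h1.mul_left _).mul_left _
  refine ⟨x % q, s * α₀, d₀, U, V, Nat.mod_lt _ hq0, ?_, ?_, hd0pos, by rw [hlHH]; exact hlarge2, ?_⟩
  · apply sf_mem
    · rw [Int.natAbs_mul, hsn, one_mul, Int.natAbs_natCast]; exact hα₀
    · rw [Int.natAbs_mul, hsn, one_mul, Int.natAbs_natCast]; exact fun r => (hα₀f r).trans hqQ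
  · apply sf_mem
    · rw [Int.natAbs_natCast]; exact hd₀
    · rw [Int.natAbs_natCast]; exact fun r => (hd₀f r).trans hqQ
  rcases le_or_gt (Real.log β + y * Real.log B) (h / 2) with hcase | hcase
  · -- the real place
    left
    have hs1 : s = 1 := by
      rcases hs with h1 | h1
      · exact h1
      · exfalso
        rw [h1] at heq
        have h2 : γ * C ^ z + α * A ^ x ≤ β * B ^ y := by
          have g1 : (0 : ℤ) ≤ γ * (C : ℤ) ^ z := by positivity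
          have g2 : (0 : ℤ) ≤ α * (A : ℤ) ^ x := by positivity
          have g3 : (0 : ℤ) ≤ β * (B : ℤ) ^ y := by positivity
          have : (γ : ℤ) * (C : ℤ) ^ z + α * (A : ℤ) ^ x ≤ β * (B : ℤ) ^ y := by
            rcases hσ with rfl | rfl <;> linarith
          exact_mod_cast this
        have h3 : H ≤ β * B ^ y := by
          rw [hH]
          apply max_le <;> omega
        have h4 : h ≤ Real.log β + y * Real.log B := by
          rw [hh, ← Real.log_pow, ← Real.log_mul hβR.ne' (by positivity)]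
          apply Real.log_le_log hHR
          exact_mod_cast h3
        linarith
    subst hs1
    refine ⟨hU0, hV0, hT0, by positivity, heq2, hcUV, ?_, by rw [hlHH]; exact hlarge2⟩
    · rw [hlHH]
      have h1 : Real.log |((σ * (d₀ * (β * (B : ℤ) ^ y)) : ℤ) : ℝ)| =
          Real.log d₀ + (Real.log β + y * Real.log B) := by
        push_cast
        rw [abs_mul, hσn, one_mul, abs_of_nonneg (by positivity),
          Real.log_mul (by exact_mod_cast hd0pos.ne') (by positivity),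
          Real.log_mul hβR.ne' (by positivity), Real.log_pow]
      rw [h1]
      have h2 : κ * (Real.log d₀ + h) ≤ h / 2 := by
        calc κ * (Real.log d₀ + h) ≤ κ * (ρ * h + h) := by
              apply mul_le_mul_of_nonneg_left _ hκ0.le
              linarith
          _ = (κ * (1 + ρ)) * h := by ring
          _ ≤ 1 / 16 * h := mul_le_mul_of_nonneg_right hκρ h0.le
          _ ≤ h / 2 := by linarith
      linarith
  · right
    have hup : 2 * κ * (Real.log d₀ + h) ≤ 2 * (κ * (1 + ρ)) * h := by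
      calc 2 * κ * (Real.log d₀ + h) ≤ 2 * κ * (ρ * h + h) := by
            apply mul_le_mul_of_nonneg_left _ (by positivity)
            linarith
        _ = _ := by ring
    rcases le_or_gt (h / 4) (y * Real.log B) with hy4 | hy4
    · left
      apply hSP p y hp (hpB.mul_left _) ((pow_dvd_pow_of_dvd hpB y).mul_left _)
      have h1 : Real.log B ≤ Real.log N := Real.log_le_log hBR (by exact_mod_cast hBN)
      have hκ1' : 0 ≤ κ₁ := le_trans (by positivity) hκ1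
      have h2 : κ₁ * (h / 4) ≤ y * Real.log p := by
        calc κ₁ * (h / 4) ≤ κ₁ * (y * Real.log B) := mul_le_mul_of_nonneg_left hy4 hκ1'
          _ = y * (κ₁ * Real.log B) := by ring
          _ ≤ y * (κ₁ * Real.log N) := by gcongr
          _ ≤ y * Real.log p := by gcongr
      have h3 : 2 * (κ * (1 + ρ)) * h ≤ κ₁ * (h / 4) := by
        have : 16 * κ * (1 + ρ) * h ≤ κ₁ * h := mul_le_mul_of_nonneg_right hκ1 h0.le
        nlinarith
      linarith
    · right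
      have h1 : h / 4 < Real.log β := by linarith
      have h2 : Real.log β = ∑ l ∈ P, (β.factorization l : ℝ) * Real.log l := by
        have h3 : ((β : ℕ) : ℝ) = ∏ l ∈ P, ((l : ℝ) ^ β.factorization l) := by
          conv_lhs => rw [← hβ.prod]
          push_cast
          rfl
        rw [h3, Real.log_prod (fun l hl => pow_ne_zero _ (by
          exact_mod_cast (hP l hl).ne_zero))]
        exact Finset.sum_congr rfl fun l _ => Real.log_pow _ _
      have hc0 : (0 : ℝ) < (P.card : ℝ) + 1 := by positivity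
      obtain ⟨l, hl, hlβ⟩ : ∃ l ∈ P, h / (4 * (P.card + 1)) ≤ (β.factorization l : ℝ) * Real.log l := by
        by_contra hcon
        push Not at hcon
        have h4 : Real.log β ≤ ∑ _l ∈ P, h / (4 * ((P.card : ℝ) + 1)) := by
          rw [h2]
          exact Finset.sum_le_sum fun l hl => (hcon l hl).le
        rw [sum_const, nsmul_eq_mul] at h4
        have h5 : (P.card : ℝ) * (h / (4 * ((P.card : ℝ) + 1))) ≤ h / 4 := by
          rw [mul_div_assoc', div_le_div_iff₀ (by positivity) (by norm_num)]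
          nlinarith
        linarith
      have hlpos : 0 < β.factorization l := by
        rcases Nat.eq_zero_or_pos (β.factorization l) with h5 | h5
        · rw [h5, Nat.cast_zero, zero_mul] at hlβ
          have : 0 < h / (4 * ((P.card : ℝ) + 1)) := by positivity
          linarith
        · exact h5
      have hldvd : l ∣ β := by
        by_contra hcon
        rw [Nat.factorization_eq_zero_of_not_dvd hcon] at hlpos
        omega
      refine ⟨l, hl, hSP l (β.factorization l) (hP l hl) (hldvd.mul_right _)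
        ((Nat.ordProj_dvd β l).mul_right _) ?_⟩
      have h3 : 2 * (κ * (1 + ρ)) * h ≤ h / (4 * (P.card + 1)) := by
        rw [le_div_iff₀ (by positivity)]
        have : 16 * κ * (1 + ρ) * (P.card + 1) * h ≤ 1 * h := mul_le_mul_of_nonneg_right hκ2 h0.le
        nlinarith
      linarith

end Pool.Agent.TH888.G
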