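import Mathlib
import Pool.Agent.TH888.G.Place
import Pool.Agent.H374R2.V.Final

/-!
Classes of solutions and the number of `B`.
-/

set_option autoImplicit false

namespace Pool.Agent.TH888.G

open Finset
open Pool.Agent.TH888.W2 (Su SF sf_mem sf_card)
open Pool.Agent.H374R2.V (HH)
open Pool.Agent.H374R2.W (SolP SolR unique_r)

/-- The `B` in a solution of one class; `p = 0` is the real place. -/
def BX (P : Finset ℕ) (κ : ℝ) (N A q i : ℕ) (a₀ d₀ σ : ℤ) (p u v : ℕ) : Set ℕ :=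
  {B | (0 < B ∧ B ≤ N ∧ ∃ r, r.Prime ∧ r ∉ P ∧ r ∣ B) ∧ IsPrimePow q ∧ 100 / κ ^ 2 ≤ (q : ℝ) ∧
    ∃ U V β y : ℕ, Su P β ∧ 0 < y ∧
      50 * (3 / κ + 1) * Real.log (10 ^ 8 * (q : ℝ) ^ 9) ≤
        Real.log (HH q (a₀ * d₀ * (A : ℤ) ^ i) U V) ∧
      ((p = 0 ∧ SolR κ q (a₀ * d₀ * (A : ℤ) ^ i) U V (σ * (d₀ * (β * (B : ℤ) ^ y)))) ∨
        (p.Prime ∧ U % p ^ 2 = u ∧ V % p ^ 2 = v ∧
          SolP (2 * κ) q p (a₀ * d₀ * (A : ℤ) ^ i) U V (σ * (d₀ * (β * (B : ℤ) ^ y)))))}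

theorem bx_card {P : Finset ℕ} {κ : ℝ} (hκ0 : 0 < κ) (hκ1 : 2 * κ ≤ 1) (N A q i : ℕ)
    (a₀ d₀ σ : ℤ) (p u v : ℕ) : (BX P κ N A q i a₀ d₀ σ p u v).Finite ∧
      (BX P κ N A q i a₀ d₀ σ p u v).ncard ≤ (Nat.log 2 N + 1) ^ (P.card + 1) := by
  have hfin : ∀ E : Set ℕ, (∀ B ∈ E, B ≤ N) → E.Finite := fun E h =>
    (Set.finite_Iic N).subset h
  refine ⟨hfin _ fun B hB => hB.1.2.1, ?_⟩
  rcases (BX P κ N A q i a₀ d₀ σ p u v).eq_empty_or_nonempty with h0 | ⟨B₀, hB₀⟩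
  · rw [h0, Set.ncard_empty]; exact Nat.zero_le _
  obtain ⟨hb₀, hq, hqκ, U₀, V₀, β₀, y₀, hβ₀, hy₀, hl₀, hS₀⟩ := hB₀
  refine le_trans (Set.ncard_le_ncard (t := {B : ℕ | 0 < B ∧ B ≤ N ∧
    (∃ r, r.Prime ∧ r ∉ P ∧ r ∣ B) ∧ ∃ β y : ℕ, Su P β ∧ 0 < y ∧ β * B ^ y = β₀ * B₀ ^ y₀}) ?_
    (hfin _ fun B hB => hB.2.1)) (count_M P N (β₀ * B₀ ^ y₀))
  rintro B ⟨⟨hB0, hBN, hr⟩, -, -, U, V, β, y, hβ, hy, hl, hS⟩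
  refine ⟨hB0, hBN, hr, β, y, hβ, hy, ?_⟩
  have key : σ * (d₀ * (β * (B : ℤ) ^ y)) = σ * (d₀ * (β₀ * (B₀ : ℤ) ^ y₀)) →
      σ * (d₀ * (β₀ * (B₀ : ℤ) ^ y₀)) ≠ 0 → β * B ^ y = β₀ * B₀ ^ y₀ := by
    intro h1 h2
    have h3 : σ ≠ 0 := left_ne_zero_of_mul h2
    have h4 : d₀ ≠ 0 := left_ne_zero_of_mul (right_ne_zero_of_mul h2)
    have h5 := mul_left_cancel₀ h4 (mul_left_cancel₀ h3 h1)
    exact_mod_cast h5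
  rcases hS₀ with ⟨hp0, hR₀⟩ | ⟨hp, hu₀, hv₀, hP₀⟩
  · rcases hS with ⟨-, hR⟩ | ⟨hp, -, -, -⟩
    · obtain ⟨e1, e2⟩ := unique_r hκ0 (by linarith) hq hqκ hR hR₀
      apply key _ hR₀.T0
      rw [← hR.eq, ← hR₀.eq, e1, e2]
    · rw [hp0] at hp; exact absurd hp Nat.not_prime_zero
  · rcases hS with ⟨hp0, -⟩ | ⟨-, hu, hv, hP'⟩
    · rw [hp0] at hp; exact absurd hp Nat.not_prime_zero
    · obtain ⟨e1, e2⟩ := unique_p' hκ0 hκ1 hq hqκ hp hP' hP₀ hl hl₀ (hu.trans hu₀.symm)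
        (hv.trans hv₀.symm)
      apply key _ hP₀.T0
      rw [← hP'.eq, ← hP₀.eq, e1, e2]

/-- the index set -/
noncomputable def JJ (P : Finset ℕ) (Q M : ℕ) : Finset (ℕ × ℕ × ℤ × ℤ × ℤ × ℕ × ℕ × ℕ) :=
  range (Q + 1) ×ˢ range (Q + 1) ×ˢ SF P Q ×ˢ SF P Q ×ˢ ({1, -1} : Finset ℤ) ×ˢ range (M + 1) ×ˢ
    range (M ^ 2 + 1) ×ˢ range (M ^ 2 + 1)

theorem jj_card (P : Finset ℕ) (Q M : ℕ) : (JJ P Q M).card ≤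
    8 * (Q + 1) ^ (2 * P.card + 2) * (M + 1) ^ 5 := by
  unfold JJ
  simp only [card_product, card_range]
  have h1 := sf_card P Q
  have h2 : ({1, -1} : Finset ℤ).card ≤ 2 := card_le_two
  have h3 : M ^ 2 + 1 ≤ (M + 1) ^ 2 := by
    have : (M + 1) ^ 2 = M ^ 2 + 2 * M + 1 := by ring
    omega
  calc (Q + 1) * ((Q + 1) * ((SF P Q).card * ((SF P Q).card * (({1, -1} : Finset ℤ).card *
        ((M + 1) * ((M ^ 2 + 1) * (M ^ 2 + 1)))))))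
      ≤ (Q + 1) * ((Q + 1) * ((2 * (Q + 1) ^ P.card) * ((2 * (Q + 1) ^ P.card) * (2 *
        ((M + 1) * ((M + 1) ^ 2 * (M + 1) ^ 2)))))) := by gcongr
    _ = 8 * (Q + 1) ^ (2 * P.card + 2) * (M + 1) ^ 5 := by
      rw [pow_add, mul_comm 2 P.card, pow_mul]; ring

/-- The integers `B ≤ N` of a solution with third exponent divisible by a prime power
`q ∈ [q₀, Q]`, of large height, with a prime factor `p ≤ M`, `p > N ^ κ₁`. -/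
def EB (P : Finset ℕ) (κ κ₁ : ℝ) (N A q₀ Q M : ℕ) : Set ℕ :=
  {B | 0 < B ∧ B ≤ N ∧ (∃ r, r.Prime ∧ r ∉ P ∧ r ∣ B) ∧
    (∃ p, p.Prime ∧ p ∣ B ∧ κ₁ * Real.log N ≤ Real.log p ∧ p ≤ M) ∧
    ∃ (q C x y z α β γ : ℕ) (s σ : ℤ), IsPrimePow q ∧ q₀ ≤ q ∧ q ≤ Q ∧ q ∣ z ∧ 0 < C ∧
      0 < y ∧ Su P α ∧ Su P β ∧ Su P γ ∧ Nat.Coprime (γ * C) (α * A) ∧
      Nat.Coprime (α * A) (β * B) ∧ Nat.Coprime (γ * C) (β * B) ∧ (s = 1 ∨ s = -1) ∧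
      (σ = 1 ∨ σ = -1) ∧
      (γ : ℤ) * (C : ℤ) ^ z - s * (α * (A : ℤ) ^ x) = σ * (β * (B : ℤ) ^ y) ∧
      50 * (3 / κ + 1) * Real.log (10 ^ 8 * (q : ℝ) ^ 9) ≤
        Real.log ((max (γ * C ^ z) (α * A ^ x) : ℕ) : ℝ) ∧
      (q : ℝ) * Real.log 2 ≤ Real.log ((max (γ * C ^ z) (α * A ^ x) : ℕ) : ℝ)}

theorem eb_card {P : Finset ℕ} (hP : ∀ l ∈ P, l.Prime) {ρ κ κ₁ : ℝ}
    (hρ : ρ = Real.log ((∏ l ∈ P, l : ℕ) : ℝ) / Real.log 2) (hκ0 : 0 < κ)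
    (hκ1 : 16 * κ * (1 + ρ) ≤ κ₁) (hκ2 : 16 * κ * (1 + ρ) * (P.card + 1) ≤ 1) (hκ₁ : κ₁ ≤ 1)
    (hκ3 : 2 * κ ≤ 1) {N A q₀ Q M : ℕ} (hA : 0 < A) (hq₀ : 100 / κ ^ 2 ≤ (q₀ : ℝ))
    (hPM : ∀ l ∈ P, l ≤ M) :
    (EB P κ κ₁ N A q₀ Q M).Finite ∧ (EB P κ κ₁ N A q₀ Q M).ncard ≤
      8 * (Q + 1) ^ (2 * P.card + 2) * (M + 1) ^ 5 * (Nat.log 2 N + 1) ^ (P.card + 1) := by
  have h := Pool.Agent.H374R2.V.ncard_le_of_cover (K := (Nat.log 2 N + 1) ^ (P.card + 1)) (JJ P Q M)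
    (fun j => BX P κ N A j.1 j.2.1 j.2.2.1 j.2.2.2.1 j.2.2.2.2.1 j.2.2.2.2.2.1 j.2.2.2.2.2.2.1
      j.2.2.2.2.2.2.2) (fun j _ => bx_card hκ0 hκ3 _ _ _ _ _ _ _ _ _ _)
    (EB P κ κ₁ N A q₀ Q M) (by
      rintro B ⟨hB0, hBN, hr, ⟨p, hp, hpB, hpN, hpM⟩, q, C, x, y, z, α, β, γ, s, σ, hq, hqq, hqQ, hqz,
        hC, hy, hα, hβ, hγ, c1, c2, c3, hs, hσ, heq, hlarge, hlq⟩
      obtain ⟨i, a₀, d₀, U, V, hi, ha₀, hd₀, hd0, hlg, hcase⟩ := places hP hρ hκ0 hκ1 hκ2 hκ₁ hq hqQ hqz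
        hC hA hB0 hBN hy hα hβ hγ c1 c2 c3 hs hσ heq hp hpB hpN hlarge hlq
      have hqκ : 100 / κ ^ 2 ≤ (q : ℝ) := hq₀.trans (by exact_mod_cast hqq)
      have hσm : σ ∈ ({1, -1} : Finset ℤ) := by rcases hσ with rfl | rfl <;> simp
      have hadic : ∀ l : ℕ, l.Prime → l ≤ M →
          SolP (2 * κ) q l (a₀ * d₀ * (A : ℤ) ^ i) U V (σ * (d₀ * (β * (B : ℤ) ^ y))) →
          ∃ j ∈ JJ P Q M, B ∈ BX P κ N A j.1 j.2.1 j.2.2.1 j.2.2.2.1 j.2.2.2.2.1 j.2.2.2.2.2.1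
            j.2.2.2.2.2.2.1 j.2.2.2.2.2.2.2 := by
        intro l hl hlM hS
        have hl2 : l ^ 2 ≤ M ^ 2 := Nat.pow_le_pow_left hlM 2
        have hl0 : 0 < l ^ 2 := pow_pos hl.pos 2
        have h1 := Nat.mod_lt U hl0
        have h2 := Nat.mod_lt V hl0
        refine ⟨(q, i, a₀, (d₀ : ℤ), σ, l, U % l ^ 2, V % l ^ 2), ?_, ⟨hB0, hBN, hr⟩, hq, hqκ, U, V, β,
          y, hβ, hy, hlg, Or.inr ⟨hl, rfl, rfl, hS⟩⟩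
        unfold JJ
        simp only [mem_product, mem_range]
        exact ⟨by omega, by omega, ha₀, hd₀, hσm, by omega, by omega, by omega⟩
      rcases hcase with hS | hS | ⟨l, hlP, hS⟩
      · refine ⟨(q, i, a₀, (d₀ : ℤ), σ, 0, 0, 0), ?_, ⟨hB0, hBN, hr⟩, hq, hqκ, U, V, β,
          y, hβ, hy, hlg, Or.inl ⟨rfl, hS⟩⟩
        unfold JJ
        simp only [mem_product, mem_range]
        exact ⟨by omega, by omega, ha₀, hd₀, hσm, by omega, by omega, by omega⟩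
      · exact hadic p hp hpM hS
      · exact hadic l (hP l hlP) (hPM l hlP) hS)
  exact ⟨h.1, h.2.trans (Nat.mul_le_mul_right _ (jj_card P Q M))⟩

end Pool.Agent.TH888.G
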