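import Mathlib
import Pool.Agent.H374R2.T.TaskD1

/-!
In every interval of length `Y` almost all integers have a prime factor between `Y ^ κ` and `Y ^ θ`.
-/

set_option autoImplicit false

namespace Pool.Agent.TH888.G

open Finset Filter Topology Pool.Agent.H374R2 Pool.Agent.Helper923.HMertens

theorem cnt_dvd (b Y d : ℕ) : ((Ioc b (b + Y)).filter (fun B => d ∣ B)).card + b / d = (b + Y) / d := by
  have h1 := Nat.Ioc_filter_dvd_card_eq_div b d
  have h2 := Nat.Ioc_filter_dvd_card_eq_div (b + Y) d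
  have h3 : (Ioc 0 (b + Y)).filter (fun B => d ∣ B) =
      (Ioc 0 b).filter (fun B => d ∣ B) ∪ (Ioc b (b + Y)).filter (fun B => d ∣ B) := by
    rw [← Finset.filter_union]
    congr 1
    exact (Finset.Ioc_union_Ioc_eq_Ioc (Nat.zero_le b) (Nat.le_add_right b Y)).symm
  have h4 : Disjoint ((Ioc 0 b).filter (fun B => d ∣ B))
      ((Ioc b (b + Y)).filter (fun B => d ∣ B)) := by
    apply Finset.disjoint_filter_filter
    rw [Finset.disjoint_left]
    intro x hx hx'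
    rw [mem_Ioc] at hx hx'
    omega
  rw [h3, Finset.card_union_of_disjoint h4, h1] at h2
  omega

theorem cnt_le (b Y : ℕ) {d : ℕ} (hd : 0 < d) :
    (((Ioc b (b + Y)).filter (fun B => d ∣ B)).card : ℝ) ≤ Y * (1 / d) + 1 := by
  have h := cnt_dvd b Y d
  have hdR : (0 : ℝ) < d := by exact_mod_cast hd
  have h1 : (((b + Y) / d : ℕ) : ℝ) ≤ ((b + Y : ℕ) : ℝ) / d := Nat.cast_div_le
  have h2 : (b : ℝ) / d < (b / d : ℕ) + 1 := by
    rw [div_lt_iff₀ hdR]
    have := Nat.lt_div_mul_add (a := b) hd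
    have h3 : (b : ℝ) < (b / d : ℕ) * d + d := by exact_mod_cast this
    linarith
  have h4 : (((Ioc b (b + Y)).filter (fun B => d ∣ B)).card : ℝ) + (b / d : ℕ) = ((b + Y) / d : ℕ) := by
    exact_mod_cast h
  have h5 : ((b + Y : ℕ) : ℝ) / d = b / d + Y * (1 / d) := by push_cast; ring
  linarith

theorem cnt_ge (b Y : ℕ) {d : ℕ} (hd : 0 < d) :
    (Y : ℝ) * (1 / d) - 1 ≤ (((Ioc b (b + Y)).filter (fun B => d ∣ B)).card : ℝ) := by
  have h := cnt_dvd b Y d
  have hdR : (0 : ℝ) < d := by exact_mod_cast hd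
  have h1 : ((b / d : ℕ) : ℝ) ≤ (b : ℝ) / d := Nat.cast_div_le
  have h2 : ((b + Y : ℕ) : ℝ) / d < ((b + Y) / d : ℕ) + 1 := by
    rw [div_lt_iff₀ hdR]
    have := Nat.lt_div_mul_add (a := b + Y) hd
    have h3 : ((b + Y : ℕ) : ℝ) < ((b + Y) / d : ℕ) * d + d := by exact_mod_cast this
    linarith
  have h4 : (((Ioc b (b + Y)).filter (fun B => d ∣ B)).card : ℝ) + (b / d : ℕ) = ((b + Y) / d : ℕ) := by
    exact_mod_cast h
  have h5 : ((b + Y : ℕ) : ℝ) / d = b / d + Y * (1 / d) := by push_cast; ring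
  linarith

/-- Turán–Kubilius in an interval. -/
theorem turan_int {b Y : ℕ} (S : Finset ℕ) (hS : ∀ p ∈ S, p.Prime) (hc : S.card ^ 2 ≤ Y)
    (hμ1 : 1 ≤ ∑ p ∈ S, (1 : ℝ) / p) :
    (((Ioc b (b + Y)).filter (fun B => ∀ p ∈ S, ¬ p ∣ B)).card : ℝ) *
      (∑ p ∈ S, (1 : ℝ) / p) ≤ 4 * Y := by
  classical
  obtain ⟨μ, hμ⟩ : ∃ μ : ℝ, μ = ∑ p ∈ S, (1 : ℝ) / p := ⟨_, rfl⟩
  rw [← hμ] at hμ1 ⊢
  have hμpos : 0 < μ := by linarith
  let w : ℕ → ℝ := fun B => ∑ p ∈ S, if p ∣ B then (1 : ℝ) else 0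
  have hcR : (S.card : ℝ) ^ 2 ≤ Y := by exact_mod_cast hc
  have hcS : (S.card : ℝ) ≤ Y := by
    have : S.card ≤ S.card ^ 2 := Nat.le_self_pow (by norm_num) _
    exact_mod_cast this.trans hc
  have hcnt : ∀ n : ℕ, ∑ B ∈ Ioc b (b + Y), (if n ∣ B then (1 : ℝ) else 0) =
      (((Ioc b (b + Y)).filter (fun B => n ∣ B)).card : ℝ) := by
    intro n
    rw [Finset.sum_boole]
  have hw1 : (Y : ℝ) * μ - S.card ≤ ∑ B ∈ Ioc b (b + Y), w B := by
    have e1 : ∑ B ∈ Ioc b (b + Y), w B =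
        ∑ p ∈ S, (((Ioc b (b + Y)).filter (fun B => p ∣ B)).card : ℝ) := by
      simp only [w]
      rw [Finset.sum_comm]
      exact Finset.sum_congr rfl (fun p _ => hcnt p)
    rw [e1, hμ, Finset.mul_sum, Finset.card_eq_sum_ones]
    push_cast
    rw [← Finset.sum_sub_distrib]
    exact Finset.sum_le_sum fun p hp => cnt_ge b Y (hS p hp).pos
  have hw2 : ∑ B ∈ Ioc b (b + Y), w B ^ 2 ≤ Y * (μ ^ 2 + μ) + (S.card : ℝ) ^ 2 := by
    have e1 : ∑ B ∈ Ioc b (b + Y), w B ^ 2 =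
        ∑ p ∈ S, ∑ q ∈ S, ∑ B ∈ Ioc b (b + Y), (if p ∣ B ∧ q ∣ B then (1 : ℝ) else 0) := by
      simp only [w, pow_two]
      calc ∑ B ∈ Ioc b (b + Y), (∑ p ∈ S, if p ∣ B then (1 : ℝ) else 0) *
            (∑ p ∈ S, if p ∣ B then (1 : ℝ) else 0)
          = ∑ B ∈ Ioc b (b + Y), ∑ p ∈ S, ∑ q ∈ S, (if p ∣ B ∧ q ∣ B then (1 : ℝ) else 0) := by
            apply Finset.sum_congr rfl
            intro B _
            rw [Finset.sum_mul_sum]
            apply Finset.sum_congr rfl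
            intro p _
            apply Finset.sum_congr rfl
            intro q _
            by_cases h1 : p ∣ B <;> by_cases h2 : q ∣ B <;> simp [h1, h2]
        _ = _ := by
            rw [Finset.sum_comm]
            apply Finset.sum_congr rfl
            intro p _
            rw [Finset.sum_comm]
    rw [e1]
    have e2 : ∀ p ∈ S, ∀ q ∈ S, ∑ B ∈ Ioc b (b + Y), (if p ∣ B ∧ q ∣ B then (1 : ℝ) else 0) ≤
        Y * ((1 / p) * (1 / q)) + (if p = q then (Y : ℝ) * (1 / p) else 0) + 1 := by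
      intro p hp q hq
      have hp0 := hS p hp
      have hq0 := hS q hq
      by_cases hpq : p = q
      · subst hpq
        rw [if_pos rfl]
        simp only [and_self]
        rw [hcnt]
        have h1 := cnt_le b Y hp0.pos
        have h2 : 0 ≤ (Y : ℝ) * ((1 / p) * (1 / p)) := by positivity
        linarith
      · rw [if_neg hpq, add_zero]
        have hcop : Nat.Coprime p q := (Nat.coprime_primes hp0 hq0).mpr hpq
        have h1 : ∀ B ∈ Ioc b (b + Y), (if p ∣ B ∧ q ∣ B then (1 : ℝ) else 0) =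
            if p * q ∣ B then (1 : ℝ) else 0 := by
          intro B _
          by_cases h : p * q ∣ B
          · rw [if_pos h, if_pos ⟨(Dvd.intro _ rfl).trans h, (Dvd.intro_left _ rfl).trans h⟩]
          · rw [if_neg h, if_neg (fun h2 => h (hcop.mul_dvd_of_dvd_of_dvd h2.1 h2.2))]
        rw [Finset.sum_congr rfl h1, hcnt]
        have h2 := cnt_le b Y (Nat.mul_pos hp0.pos hq0.pos)
        have h3 : (1 : ℝ) / ((p * q : ℕ) : ℝ) = (1 / p) * (1 / q) := by
          push_cast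
          rw [one_div_mul_one_div]
        rw [h3] at h2
        exact h2
    calc ∑ p ∈ S, ∑ q ∈ S, ∑ B ∈ Ioc b (b + Y), (if p ∣ B ∧ q ∣ B then (1 : ℝ) else 0)
        ≤ ∑ p ∈ S, ∑ q ∈ S, ((Y : ℝ) * ((1 / p) * (1 / q)) +
            (if p = q then (Y : ℝ) * (1 / p) else 0) + 1) :=
          Finset.sum_le_sum fun p hp => Finset.sum_le_sum fun q hq => e2 p hp q hq
      _ = Y * (μ ^ 2 + μ) + (S.card : ℝ) ^ 2 := by
          have f1 : ∀ p ∈ S, ∑ q ∈ S, ((Y : ℝ) * ((1 / p) * (1 / q)) +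
              (if p = q then (Y : ℝ) * (1 / p) else 0) + 1) =
              Y * (1 / p) * μ + Y * (1 / p) + S.card := by
            intro p hp
            rw [Finset.sum_add_distrib, Finset.sum_add_distrib, Finset.sum_ite_eq, if_pos hp,
              Finset.sum_const, nsmul_eq_mul, mul_one, hμ, Finset.mul_sum]
            congr 2
            exact Finset.sum_congr rfl fun q _ => by ring
          rw [Finset.sum_congr rfl f1, Finset.sum_add_distrib, Finset.sum_add_distrib,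
            Finset.sum_const, nsmul_eq_mul, ← Finset.sum_mul, ← Finset.mul_sum, ← hμ]
          ring
  obtain ⟨U, hU⟩ : ∃ U, U = (Ioc b (b + Y)).filter (fun B => ∀ p ∈ S, ¬ p ∣ B) := ⟨_, rfl⟩
  rw [← hU]
  have h1 : (U.card : ℝ) * μ ^ 2 ≤ ∑ B ∈ Ioc b (b + Y), (w B - μ) ^ 2 := by
    have h2 : ∀ B ∈ U, (w B - μ) ^ 2 = μ ^ 2 := by
      intro B hB
      rw [hU, mem_filter] at hB
      have : w B = 0 := Finset.sum_eq_zero fun p hp => if_neg (hB.2 p hp)
      rw [this]; ring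
    calc (U.card : ℝ) * μ ^ 2 = ∑ B ∈ U, (w B - μ) ^ 2 := by
          rw [Finset.sum_congr rfl h2, Finset.sum_const, nsmul_eq_mul]
      _ ≤ _ := Finset.sum_le_sum_of_subset_of_nonneg (by rw [hU]; exact filter_subset _ _)
          (fun _ _ _ => sq_nonneg _)
  have h3 : ∑ B ∈ Ioc b (b + Y), (w B - μ) ^ 2 =
      ∑ B ∈ Ioc b (b + Y), w B ^ 2 - 2 * μ * ∑ B ∈ Ioc b (b + Y), w B + μ ^ 2 * Y := by
    have h4 : ∀ B ∈ Ioc b (b + Y), (w B - μ) ^ 2 = w B ^ 2 - 2 * μ * w B + μ ^ 2 := by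
      intro B _; ring
    rw [Finset.sum_congr rfl h4, Finset.sum_add_distrib, Finset.sum_sub_distrib, ← Finset.mul_sum,
      Finset.sum_const, Nat.card_Ioc, nsmul_eq_mul]
    have : b + Y - b = Y := by omega
    rw [this]; ring
  have h5 : 2 * μ * ((Y : ℝ) * μ - S.card) ≤ 2 * μ * ∑ B ∈ Ioc b (b + Y), w B :=
    mul_le_mul_of_nonneg_left hw1 (by positivity)
  have hY0 : (0 : ℝ) ≤ Y := Nat.cast_nonneg _
  have h6 : (U.card : ℝ) * μ ^ 2 ≤ 4 * Y * μ := by
    have g1 : μ * (S.card : ℝ) ≤ μ * Y := mul_le_mul_of_nonneg_left hcS hμpos.le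
    have g2 : (Y : ℝ) ≤ μ * Y := le_mul_of_one_le_left hY0 hμ1
    nlinarith
  have h7 : (U.card : ℝ) * μ * μ ≤ 4 * Y * μ := by
    calc (U.card : ℝ) * μ * μ = U.card * μ ^ 2 := by ring
      _ ≤ _ := h6
  exact le_of_mul_le_mul_right h7 hμpos

open Classical in
theorem prime_between_int {ε θ : ℝ} (hε : 0 < ε) (hθ : 0 < θ) (hθ1 : θ ≤ 1 / 2) :
    ∃ κ : ℝ, 0 < κ ∧ κ < θ ∧ ∃ Y₀ : ℕ, ∀ Y : ℕ, Y₀ ≤ Y → ∀ c : ℕ,
      ((((Ioc c (c + Y)).filter (fun B => ∀ p : ℕ, p.Prime → (Y : ℝ) ^ κ < p →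
        (p : ℝ) ≤ (Y : ℝ) ^ θ → ¬ p ∣ B)).card : ℕ) : ℝ) ≤ ε * Y := by
  obtain ⟨C, hC0, hC⟩ := mertens_ratio
  obtain ⟨m, hm⟩ := exists_nat_ge ((2 / θ) * Real.exp (4 / ε + 1 + 1))
  have hmR : (0 : ℝ) < m := lt_of_lt_of_le (by positivity) hm
  have hmθ : Real.exp (4 / ε + 1 + 1) ≤ m * θ / 2 := by
    have : (2 / θ) * Real.exp (4 / ε + 1 + 1) * (θ / 2) ≤ m * (θ / 2) := by gcongr
    have e : (2 / θ) * Real.exp (4 / ε + 1 + 1) * (θ / 2) = Real.exp (4 / ε + 1 + 1) := by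
      field_simp
    linarith
  have hlogmθ : 4 / ε + 1 + 1 ≤ Real.log (m * θ / 2) := by
    rw [Real.le_log_iff_exp_le (by positivity)]
    exact hmθ
  have h2e : (1 : ℝ) ≤ Real.exp (4 / ε + 1 + 1) := Real.one_le_exp (by positivity)
  have hmθ1 : 1 / (m : ℝ) < θ := by
    rw [div_lt_iff₀ hmR]
    nlinarith
  have hlog : Tendsto (fun N : ℕ => Real.log N) atTop atTop :=
    Real.tendsto_log_atTop.comp tendsto_natCast_atTop_atTop
  have hl2 : 0 < Real.log 2 := Real.log_pos (by norm_num)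
  have hev1 := hlog.eventually (eventually_ge_atTop (2 * Real.log 2 / θ))
  have hev2 := hlog.eventually (eventually_ge_atTop (m * (C + 1 + Real.log 2)))
  obtain ⟨N₂, hN₂⟩ := eventually_atTop.mp ((hev1.and hev2).and (eventually_ge_atTop 2))
  refine ⟨1 / m, by positivity, hmθ1, N₂, fun N hN2 c => ?_⟩
  obtain ⟨⟨hL1, hL2⟩, hN2'⟩ := hN₂ N hN2
  have hNR : (0 : ℝ) < N := by exact_mod_cast (by omega : 0 < N)
  have hN1R : (1 : ℝ) ≤ N := by exact_mod_cast (by omega : 1 ≤ N)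
  set L := Real.log N with hL
  have hLpos : 0 < L := by
    have : 0 < m * (C + 1 + Real.log 2) := by positivity
    linarith
  rw [div_le_iff₀ hθ] at hL1
  -- the endpoints of the range of primes
  set a : ℕ := ⌊(N : ℝ) ^ ((1 : ℝ) / m)⌋₊ with ha
  set b : ℕ := ⌊(N : ℝ) ^ θ⌋₊ with hb
  have hNm1 : (1 : ℝ) ≤ (N : ℝ) ^ ((1 : ℝ) / m) := Real.one_le_rpow hN1R (by positivity)
  have hNθ1 : (1 : ℝ) ≤ (N : ℝ) ^ θ := Real.one_le_rpow hN1R hθ.le
  have ha_lb : (N : ℝ) ^ ((1 : ℝ) / m) / 2 ≤ a := T.TaskD1.half_le_floor hNm1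
  have ha_ub : (a : ℝ) ≤ (N : ℝ) ^ ((1 : ℝ) / m) := Nat.floor_le (by positivity)
  have hb_lb : (N : ℝ) ^ θ / 2 ≤ b := T.TaskD1.half_le_floor hNθ1
  have hb_ub : (b : ℝ) ≤ (N : ℝ) ^ θ := Nat.floor_le (by positivity)
  have haR : (0 : ℝ) < a := lt_of_lt_of_le (by positivity) ha_lb
  have hbR : (0 : ℝ) < b := lt_of_lt_of_le (by positivity) hb_lb
  have hloga_lb : L / m - Real.log 2 ≤ Real.log a := by
    have h := Real.log_le_log (by positivity) ha_lb
    rw [Real.log_div (by positivity) (by norm_num), Real.log_rpow hNR] at h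
    rw [← hL] at h
    calc L / m - Real.log 2 = 1 / (m : ℝ) * L - Real.log 2 := by ring
      _ ≤ _ := h
  have hloga_ub : Real.log a ≤ L / m := by
    have h := Real.log_le_log haR ha_ub
    rw [Real.log_rpow hNR] at h
    rw [← hL] at h
    calc Real.log a ≤ 1 / (m : ℝ) * L := h
      _ = _ := by ring
  have hlogb_lb : θ * L - Real.log 2 ≤ Real.log b := by
    have h := Real.log_le_log (by positivity) hb_lb
    rw [Real.log_div (by positivity) (by norm_num), Real.log_rpow hNR] at h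
    exact h
  have hLm : C + 1 + Real.log 2 ≤ L / m := by
    rw [le_div_iff₀ hmR]; linarith
  have hlogaC : C + 1 ≤ Real.log a := by linarith
  have hloga0 : 0 < Real.log a := by linarith
  have ha2 : 2 ≤ a := by
    by_contra hcon
    have : a ≤ 1 := by omega
    have h1 : (a : ℝ) ≤ 1 := by exact_mod_cast this
    have h2 := Real.log_nonpos haR.le h1
    linarith
  have hab : a ≤ b := by
    apply Nat.floor_le_floor
    exact Real.rpow_le_rpow_of_exponent_le hN1R hmθ1.le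
  have hsum := (abs_le.mp (hC a b ha2 hab)).1
  set S : Finset ℕ := (Finset.Ioc a b).filter Nat.Prime with hSdef
  have hμ : 4 / ε + 1 ≤ ∑ p ∈ S, (1 : ℝ) / p := by
    have e1 : Real.log (m * θ / 2) ≤ Real.log (Real.log b / Real.log a) := by
      apply Real.log_le_log (by positivity)
      rw [le_div_iff₀ hloga0]
      calc m * θ / 2 * Real.log a ≤ m * θ / 2 * (L / m) := by gcongr
        _ = θ * L / 2 := by field_simp
        _ ≤ Real.log b := by linarith
    have e2 : C / Real.log a ≤ 1 := by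
      rw [div_le_one hloga0]; linarith
    linarith
  have hS : ∀ p ∈ S, p.Prime := by
    intro p hp
    rw [hSdef, Finset.mem_filter, Finset.mem_Ioc] at hp
    exact hp.2
  have hScard : S.card ^ 2 ≤ N := by
    have h1 : S.card ≤ b := by
      refine (Finset.card_filter_le _ _).trans ?_
      rw [Nat.card_Ioc]; omega
    have h2 : (b : ℝ) ^ 2 ≤ N := by
      calc (b : ℝ) ^ 2 ≤ ((N : ℝ) ^ θ) ^ 2 := pow_le_pow_left₀ hbR.le hb_ub 2
        _ = (N : ℝ) ^ (θ * 2) := by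
          rw [← Real.rpow_natCast, ← Real.rpow_mul hNR.le]; norm_num
        _ ≤ (N : ℝ) ^ (1 : ℝ) := Real.rpow_le_rpow_of_exponent_le hN1R (by linarith)
        _ = N := Real.rpow_one _
    have h3 : b ^ 2 ≤ N := by exact_mod_cast h2
    exact (Nat.pow_le_pow_left h1 2).trans h3
  have h4ε : 0 < 4 / ε := by positivity
  have hTK := turan_int (b := c) (Y := N) S hS hScard (by linarith)
  set U := (Finset.Ioc c (c + N)).filter (fun B => ∀ p ∈ S, ¬ p ∣ B) with hU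
  have E3 : (U.card : ℝ) ≤ ε * N := by
    have h1 : (U.card : ℝ) * (4 / ε) ≤ 4 * N := by
      refine le_trans ?_ hTK
      exact mul_le_mul_of_nonneg_left (by linarith) (Nat.cast_nonneg _)
    have h2 : (U.card : ℝ) = (U.card : ℝ) * (4 / ε) * (ε / 4) := by field_simp
    rw [h2]
    calc (U.card : ℝ) * (4 / ε) * (ε / 4) ≤ 4 * N * (ε / 4) := by gcongr
      _ = _ := by ring
  have hsub : (Ioc c (c + N)).filter (fun B => ∀ p : ℕ, p.Prime → (N : ℝ) ^ ((1 : ℝ) / m) < p →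
      (p : ℝ) ≤ (N : ℝ) ^ θ → ¬ p ∣ B) ⊆ U := by
    intro B hB
    rw [Finset.mem_filter] at hB
    rw [hU, Finset.mem_filter]
    refine ⟨hB.1, fun p hp => ?_⟩
    rw [hSdef, Finset.mem_filter, Finset.mem_Ioc] at hp
    obtain ⟨⟨h1, h2⟩, h3⟩ := hp
    refine hB.2 p h3 ?_ ?_
    · have h7 : (N : ℝ) ^ ((1 : ℝ) / m) < (a : ℝ) + 1 := Nat.lt_floor_add_one _
      have h8 : ((a : ℝ) + 1) ≤ p := by exact_mod_cast h1
      linarith
    · have h8 : (p : ℝ) ≤ b := by exact_mod_cast h2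
      linarith
  refine le_trans ?_ E3
  exact_mod_cast Finset.card_le_card hsub

end Pool.Agent.TH888.G
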