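import Mathlib
import Pool.Agent.TH888.G.Count
import Pool.Agent.TH888.G.Inter

/-!
Every base `A`: only few `B` outside a small set are the second base of a solution whose third
exponent has a divisor between `Z₀` and `Y ^ c`.
-/

set_option autoImplicit false

namespace Pool.Agent.TH888.G

open Finset Filter Topology
open Pool.Agent.TH888.W2 (Su cop3)

theorem exists_pp {q₀ n : ℕ} (hq₀ : 2 ≤ q₀) (hn : q₀ ^ q₀ ≤ n) :
    ∃ q, IsPrimePow q ∧ q₀ ≤ q ∧ q ∣ n := by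
  by_contra hcon
  push Not at hcon
  have hn0 : n ≠ 0 := by
    have : 0 < q₀ ^ q₀ := by positivity
    omega
  have h1 : ∀ p ∈ n.primeFactors, p ^ n.factorization p ≤ q₀ := by
    intro p hp
    have hpp := Nat.prime_of_mem_primeFactors hp
    by_contra h
    push Not at h
    refine hcon (p ^ n.factorization p) ?_ h.le (Nat.ordProj_dvd n p)
    exact hpp.isPrimePow.pow (by
      have := (hpp.dvd_iff_one_le_factorization hn0).mp (Nat.dvd_of_mem_primeFactors hp)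
      omega)
  have h2 : n.primeFactors ⊆ Ico 1 q₀ := by
    intro p hp
    have hpp := Nat.prime_of_mem_primeFactors hp
    rw [mem_Ico]
    refine ⟨hpp.one_lt.le, ?_⟩
    by_contra h
    push Not at h
    exact hcon p hpp.isPrimePow h (Nat.dvd_of_mem_primeFactors hp)
  have h3 : n.primeFactors.card ≤ q₀ - 1 := by
    have := card_le_card h2
    rwa [Nat.card_Ico] at this
  have h4 : n ≤ q₀ ^ (q₀ - 1) := by
    calc n = ∏ p ∈ n.primeFactors, p ^ n.factorization p := by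
          conv_lhs => rw [← Nat.prod_factorization_pow_eq_self hn0]
          rfl
      _ ≤ q₀ ^ n.primeFactors.card := Finset.prod_le_pow_card _ _ _ h1
      _ ≤ q₀ ^ (q₀ - 1) := Nat.pow_le_pow_right (by omega) h3
  have h5 : q₀ ^ (q₀ - 1) < q₀ ^ q₀ := Nat.pow_lt_pow_right (by omega) (by omega)
  omega

theorem signs {t₁ t₂ t₃ : ℤ} (h : t₁ + t₂ = t₃) : ∃ s σ : ℤ, (s = 1 ∨ s = -1) ∧
    (σ = 1 ∨ σ = -1) ∧ (t₃.natAbs : ℤ) - s * (t₁.natAbs : ℤ) = σ * (t₂.natAbs : ℤ) := by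
  have key : ∀ t : ℤ, ∃ e : ℤ, (e = 1 ∨ e = -1) ∧ t = e * (t.natAbs : ℤ) := by
    intro t
    rcases Int.natAbs_eq t with h1 | h1
    · exact ⟨1, Or.inl rfl, by rw [one_mul]; exact h1⟩
    · exact ⟨-1, Or.inr rfl, by rw [neg_one_mul]; exact h1⟩
  obtain ⟨e₁, he₁, h1⟩ := key t₁
  obtain ⟨e₂, he₂, h2⟩ := key t₂
  obtain ⟨e₃, he₃, h3⟩ := key t₃
  have hmul : ∀ u v : ℤ, (u = 1 ∨ u = -1) → (v = 1 ∨ v = -1) → (u * v = 1 ∨ u * v = -1) := by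
    rintro u v (rfl | rfl) (rfl | rfl) <;> simp
  refine ⟨e₃ * e₁, e₃ * e₂, hmul _ _ he₃ he₁, hmul _ _ he₃ he₂, ?_⟩
  have he : e₃ * e₃ = 1 := by rcases he₃ with rfl | rfl <;> norm_num
  obtain ⟨n₁, hn₁⟩ : ∃ n : ℤ, n = (t₁.natAbs : ℤ) := ⟨_, rfl⟩
  obtain ⟨n₂, hn₂⟩ : ∃ n : ℤ, n = (t₂.natAbs : ℤ) := ⟨_, rfl⟩
  obtain ⟨n₃, hn₃⟩ : ∃ n : ℤ, n = (t₃.natAbs : ℤ) := ⟨_, rfl⟩
  rw [← hn₁] at h1 ⊢
  rw [← hn₂] at h2 ⊢
  rw [← hn₃] at h3 ⊢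
  rw [h1, h2, h3] at h
  linear_combination (-e₃) * h - n₃ * he

/-- `A`, `B` are two bases of a solution whose third exponent has a divisor in `[Z₀, W]` -/
def Bad (P : Finset ℕ) (Z₀ : ℕ) (W : ℝ) (A B : ℕ) : Prop :=
  ∃ (a b c x y z : ℤ) (p q r n : ℕ), 0 < p ∧ 0 < q ∧ 0 < r ∧ Su P a.natAbs ∧ Su P b.natAbs ∧
    Su P c.natAbs ∧ z ≠ 0 ∧ Int.gcd ((Int.gcd (a * x) (b * y) : ℕ) : ℤ) (c * z) = 1 ∧
    a * x ^ p + b * y ^ q = c * z ^ r ∧ x.natAbs = A ∧ y.natAbs = B ∧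
    Z₀ ≤ n ∧ (n : ℝ) ≤ W ∧ n ∣ r

theorem log_small {D : ℝ} (hD : 0 < D) : ∃ q₀ : ℕ, ∀ q : ℕ, q₀ ≤ q →
    D * Real.log (10 ^ 8 * (q : ℝ) ^ 9) ≤ q * Real.log 2 := by
  have hl2 : 0 < Real.log 2 := Real.log_pos (by norm_num)
  obtain ⟨δ, hδ⟩ : ∃ δ, δ = Real.log 2 / (10 * D) := ⟨_, rfl⟩
  have hδ0 : 0 < δ := by rw [hδ]; positivity
  have h1 := (Real.isLittleO_log_id_atTop.bound hδ0)
  have h2 := tendsto_natCast_atTop_atTop (R := ℝ) |>.eventually h1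
  obtain ⟨L₁, hL₁⟩ := eventually_atTop.mp h2
  obtain ⟨L₂, hL₂⟩ := exists_nat_ge (Real.log (10 ^ 8) / δ)
  refine ⟨L₁ + L₂ + 1, fun q hq => ?_⟩
  have h3 := hL₁ q (by omega)
  have hq0 : (0 : ℝ) < q := by
    have : 0 < q := by omega
    exact_mod_cast this
  rw [id, Real.norm_eq_abs, Real.norm_eq_abs, abs_of_pos hq0] at h3
  have h4 : Real.log (q : ℝ) ≤ δ * q := (le_abs_self _).trans h3
  have h5 : Real.log (10 ^ 8) ≤ δ * q := by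
    have h6 : (L₂ : ℝ) ≤ q := by
      have : L₂ ≤ q := by omega
      exact_mod_cast this
    have h7 := hL₂.trans h6
    rw [div_le_iff₀ hδ0] at h7
    linarith
  rw [Real.log_mul (by positivity) (by positivity), Real.log_pow (q : ℝ) 9]
  have h8 : Real.log (10 ^ 8) + ((9 : ℕ) : ℝ) * Real.log q ≤ 10 * δ * q := by
    push_cast
    linarith
  calc D * (Real.log (10 ^ 8) + ((9 : ℕ) : ℝ) * Real.log q) ≤ D * (10 * δ * q) :=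
        mul_le_mul_of_nonneg_left h8 hD.le
    _ = q * Real.log 2 := by rw [hδ]; field_simp

theorem beta {P : Finset ℕ} (hP : ∀ l ∈ P, l.Prime) (K : ℕ) {c θ ε : ℝ} (hc : 0 < c) (hθ : 0 < θ)
    (hθ1 : θ ≤ 1 / 2) (hε : 0 < ε) : ∃ Z₀ Y₀ : ℕ, ∀ Y : ℕ, Y₀ ≤ Y → ∀ b₀ : ℕ, b₀ ≤ Y ^ K →
      ∃ T : Finset ℕ, (T.card : ℝ) ≤ ε * Y ∧ ∀ A : ℕ, 0 < A → ∀ E : Set ℕ,
        (∀ B ∈ E, b₀ < B ∧ B ≤ b₀ + Y ∧ B ∉ T ∧ Bad P Z₀ ((Y : ℝ) ^ c) A B) →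
        E.Finite ∧ E.ncard ≤ 8 * (⌊(Y : ℝ) ^ c⌋₊ + 1) ^ (2 * P.card + 2) *
          (⌊(Y : ℝ) ^ θ⌋₊ + 1) ^ 5 * (Nat.log 2 (b₀ + Y) + 1) ^ (P.card + 1) := by
  classical
  obtain ⟨κ', hκ'0, hκ'θ, Y₁, hY₁⟩ := prime_between_int (ε := ε / 2) (by positivity) hθ hθ1
  obtain ⟨κ₁, hκ₁⟩ : ∃ κ₁, κ₁ = κ' / ((K : ℝ) + 2) := ⟨_, rfl⟩
  have hK2 : (0 : ℝ) < (K : ℝ) + 2 := by positivity
  have hκ₁0 : 0 < κ₁ := by rw [hκ₁]; positivity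
  have hκ₁' : κ₁ * (K + 2) = κ' := by rw [hκ₁]; field_simp
  have hκ₁1 : κ₁ ≤ 1 / 2 := by
    have : 0 ≤ κ₁ * K := by positivity
    nlinarith
  obtain ⟨ρ, hρ⟩ : ∃ ρ, ρ = Real.log ((∏ l ∈ P, l : ℕ) : ℝ) / Real.log 2 := ⟨_, rfl⟩
  have hl2 : 0 < Real.log 2 := Real.log_pos (by norm_num)
  have hρ0 : 0 ≤ ρ := by
    have hR1 : 1 ≤ ∏ l ∈ P, l := Nat.one_le_iff_ne_zero.mpr (Finset.prod_ne_zero_iff.mpr
      fun l hl => (hP l hl).ne_zero)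
    have hlR : 0 ≤ Real.log ((∏ l ∈ P, l : ℕ) : ℝ) := Real.log_nonneg (by exact_mod_cast hR1)
    rw [hρ]; positivity
  obtain ⟨κ, hκ⟩ : ∃ κ, κ = κ₁ / (16 * (1 + ρ) * ((P.card : ℝ) + 1)) := ⟨_, rfl⟩
  have hden : 0 < 16 * (1 + ρ) * ((P.card : ℝ) + 1) := by positivity
  have hκ0 : 0 < κ := by rw [hκ]; positivity
  have hκe : 16 * κ * (1 + ρ) * (P.card + 1) = κ₁ := by rw [hκ]; field_simp
  have hκ1 : 16 * κ * (1 + ρ) ≤ κ₁ := by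
    have h1 : 0 ≤ 16 * κ * (1 + ρ) * P.card := by positivity
    nlinarith
  have hκ2 : 16 * κ * (1 + ρ) * (P.card + 1) ≤ 1 := by rw [hκe]; linarith
  have hκ3 : 2 * κ ≤ 1 := by
    have h1 : 0 ≤ 16 * κ * ρ := by positivity
    nlinarith
  obtain ⟨L₁, hL₁⟩ := log_small (D := 50 * (3 / κ + 1)) (by positivity)
  obtain ⟨L₂, hL₂⟩ := exists_nat_ge (100 / κ ^ 2)
  obtain ⟨q₀, hq₀⟩ : ∃ q₀, q₀ = L₁ + L₂ + 2 := ⟨_, rfl⟩
  have hq₀κ : 100 / κ ^ 2 ≤ (q₀ : ℝ) := by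
    refine hL₂.trans ?_
    have : L₂ ≤ q₀ := by omega
    exact_mod_cast this
  obtain ⟨q₁, hq₁, hq₁p⟩ := Nat.exists_infinite_primes q₀
  -- large `Y`
  have htc : Tendsto (fun N : ℕ => (N : ℝ) ^ c) atTop atTop :=
    (tendsto_rpow_atTop hc).comp tendsto_natCast_atTop_atTop
  have htκ : Tendsto (fun N : ℕ => (N : ℝ) ^ κ') atTop atTop :=
    (tendsto_rpow_atTop hκ'0).comp tendsto_natCast_atTop_atTop
  obtain ⟨Y₂, hY₂⟩ := eventually_atTop.mp (htc.eventually_ge_atTop (q₁ : ℝ))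
  obtain ⟨Y₃, hY₃⟩ := eventually_atTop.mp (htκ.eventually_ge_atTop ((P.sup id : ℕ) : ℝ))
  obtain ⟨Y₄, hY₄⟩ := exists_nat_ge (((2 : ℝ) ^ (q₁ + 1)) / (ε / 2))
  refine ⟨q₀ ^ q₀, Y₁ + Y₂ + Y₃ + Y₄ + 2, fun Y hY b₀ hb₀ => ?_⟩
  have g1 := hY₁ Y (by omega) b₀
  have g2 := hY₂ Y (by omega)
  have g3 := hY₃ Y (by omega)
  have hY2 : 2 ≤ Y := by omega
  have hYR : (0 : ℝ) < Y := by exact_mod_cast (by omega : 0 < Y)
  have hY1R : (1 : ℝ) ≤ Y := by exact_mod_cast (by omega : 1 ≤ Y)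
  have g4 : (2 : ℝ) ^ (q₁ + 1) ≤ ε / 2 * Y := by
    have h1 : (Y₄ : ℝ) ≤ Y := by exact_mod_cast (by omega : Y₄ ≤ Y)
    have h2 := hY₄.trans h1
    rw [div_le_iff₀ (by positivity)] at h2
    linarith
  obtain ⟨T₁, hT₁⟩ : ∃ T₁ : Finset ℕ, T₁ = (Ioc b₀ (b₀ + Y)).filter (fun B => ∀ p : ℕ, p.Prime →
    (Y : ℝ) ^ κ' < p → (p : ℝ) ≤ (Y : ℝ) ^ θ → ¬ p ∣ B) := ⟨_, rfl⟩
  rw [← hT₁] at g1
  refine ⟨T₁ ∪ range (2 ^ (q₁ + 1)), ?_, ?_⟩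
  · have h1 : ((T₁ ∪ range (2 ^ (q₁ + 1))).card : ℝ) ≤ T₁.card + (2 : ℝ) ^ (q₁ + 1) := by
      have := card_union_le T₁ (range (2 ^ (q₁ + 1)))
      rw [card_range] at this
      exact_mod_cast this
    linarith
  intro A hA E hE
  have hPsup : ∀ l ∈ P, (l : ℝ) ≤ (Y : ℝ) ^ κ' := by
    intro l hl
    refine le_trans ?_ g3
    exact_mod_cast Finset.le_sup (f := id) hl
  have hPM : ∀ l ∈ P, l ≤ ⌊(Y : ℝ) ^ θ⌋₊ := by
    intro l hl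
    apply Nat.le_floor
    exact (hPsup l hl).trans (Real.rpow_le_rpow_of_exponent_le hY1R hκ'θ.le)
  have hN : b₀ + Y ≤ Y ^ (K + 2) := by
    have h1 : Y ^ K ≤ Y ^ (K + 1) := Nat.pow_le_pow_right (by omega) (by omega)
    have h2 : Y ^ 1 ≤ Y ^ (K + 1) := Nat.pow_le_pow_right (by omega) (by omega)
    have h3 : Y ^ (K + 2) = Y * Y ^ (K + 1) := by ring
    rw [h3, pow_one] at *
    nlinarith
  have hmain := eb_card hP hρ hκ0 hκ1 hκ2 (by linarith) hκ3 (N := b₀ + Y) (A := A) (q₀ := q₀)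
    (Q := ⌊(Y : ℝ) ^ c⌋₊) (M := ⌊(Y : ℝ) ^ θ⌋₊) hA hq₀κ hPM
  have hsub : E ⊆ EB P κ κ₁ (b₀ + Y) A q₀ ⌊(Y : ℝ) ^ c⌋₊ ⌊(Y : ℝ) ^ θ⌋₊ := by
    intro B hB
    obtain ⟨hB1, hB2, hBT, a, b, c', x, y, z, p, q, r, n, hp, hq, hr, ha, hb, hc', hz, hgcd, heq, hx,
      hy, hn1, hn2, hn3⟩ := hE B hB
    rw [mem_union, not_or, mem_range, not_lt] at hBT
    obtain ⟨hBT1, hBT2⟩ := hBT
    have hmid : ∃ p : ℕ, p.Prime ∧ (Y : ℝ) ^ κ' < p ∧ (p : ℝ) ≤ (Y : ℝ) ^ θ ∧ p ∣ B := by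
      by_contra hcon
      push Not at hcon
      apply hBT1
      rw [hT₁, mem_filter, mem_Ioc]
      exact ⟨⟨hB1, hB2⟩, fun p h1 h2 h3 => hcon p h1 h2 h3⟩
    obtain ⟨ℓ, hℓ, hℓ1, hℓ2, hℓB⟩ := hmid
    have hℓR : (0 : ℝ) < ℓ := by exact_mod_cast hℓ.pos
    have hℓP : ℓ ∉ P := fun h => absurd (hPsup ℓ h) (not_le.mpr hℓ1)
    have hlN : κ₁ * Real.log ((b₀ + Y : ℕ) : ℝ) ≤ Real.log ℓ := by
      have h1 : Real.log ((b₀ + Y : ℕ) : ℝ) ≤ (K + 2) * Real.log Y := by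
        have h2 : ((b₀ + Y : ℕ) : ℝ) ≤ (Y : ℝ) ^ (K + 2) := by exact_mod_cast hN
        have h3 := Real.log_le_log (by exact_mod_cast (by omega : 0 < b₀ + Y)) h2
        rw [Real.log_pow] at h3
        push_cast at h3 ⊢
        exact h3
      have h4 : κ' * Real.log Y ≤ Real.log ℓ := by
        have := Real.log_le_log (by positivity) hℓ1.le
        rwa [Real.log_rpow hYR] at this
      calc κ₁ * Real.log ((b₀ + Y : ℕ) : ℝ) ≤ κ₁ * ((K + 2) * Real.log Y) :=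
            mul_le_mul_of_nonneg_left h1 hκ₁0.le
        _ = κ' * Real.log Y := by rw [← hκ₁']; ring
        _ ≤ Real.log ℓ := h4
    obtain ⟨c1, c2, c3⟩ := cop3 hp hq hr heq hgcd
    rw [hx, hy] at c1
    rw [hx] at c2
    rw [hy] at c3
    obtain ⟨s, σ, hs, hσ, hsg⟩ := signs heq
    rw [Int.natAbs_mul, Int.natAbs_mul, Int.natAbs_mul, Int.natAbs_pow, Int.natAbs_pow,
      Int.natAbs_pow, hx, hy] at hsg
    simp only [Nat.cast_mul, Nat.cast_pow] at hsg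
    have hz0 : 0 < z.natAbs := Int.natAbs_pos.mpr hz
    have hγ0 : 0 < c'.natAbs := Nat.pos_of_ne_zero hc'.1
    have hβ0 : 0 < b.natAbs := Nat.pos_of_ne_zero hb.1
    have hfin : ∀ (q' z' : ℕ), IsPrimePow q' → q₀ ≤ q' → q' ≤ ⌊(Y : ℝ) ^ c⌋₊ → q' ∣ z' →
        z.natAbs ^ z' = z.natAbs ^ r →
        2 ^ q' ≤ max (c'.natAbs * z.natAbs ^ z') (a.natAbs * A ^ p) →
        B ∈ EB P κ κ₁ (b₀ + Y) A q₀ ⌊(Y : ℝ) ^ c⌋₊ ⌊(Y : ℝ) ^ θ⌋₊ := by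
      intro q' z' h1 h2 h3 h4 h5 h6
      have hlq : (q' : ℝ) * Real.log 2 ≤
          Real.log ((max (c'.natAbs * z.natAbs ^ z') (a.natAbs * A ^ p) : ℕ) : ℝ) := by
        rw [← Real.log_pow]
        exact Real.log_le_log (by positivity) (by exact_mod_cast h6)
      have hL := hL₁ q' (by omega)
      have h5' : (z.natAbs : ℤ) ^ z' = (z.natAbs : ℤ) ^ r := by exact_mod_cast h5
      refine ⟨by omega, hB2, ⟨ℓ, hℓ, hℓP, hℓB⟩, ⟨ℓ, hℓ, hℓB, hlN, Nat.le_floor hℓ2⟩, q', z.natAbs,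
        p, q, z', a.natAbs, b.natAbs, c'.natAbs, s, σ, h1, h2, h3, h4, hz0, hq, ha, hb, hc', c2.symm,
        c1, c3.symm, hs, hσ, ?_, hL.trans hlq, hlq⟩
      rw [h5']
      exact hsg
    rcases Nat.lt_or_ge z.natAbs 2 with h2 | h2
    · have hz1 : z.natAbs = 1 := by omega
      refine hfin q₁ q₁ hq₁p.isPrimePow hq₁ (Nat.le_floor g2) dvd_rfl (by rw [hz1]; simp) ?_
      have h3 : b.natAbs * B ^ q ≤ c'.natAbs * z.natAbs ^ r + a.natAbs * A ^ p := by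
        have g5 : (0 : ℤ) ≤ c'.natAbs * (z.natAbs : ℤ) ^ r := by positivity
        have g6 : (0 : ℤ) ≤ a.natAbs * (A : ℤ) ^ p := by positivity
        have g7 : (0 : ℤ) ≤ b.natAbs * (B : ℤ) ^ q := by positivity
        have : (b.natAbs : ℤ) * (B : ℤ) ^ q ≤
            c'.natAbs * (z.natAbs : ℤ) ^ r + a.natAbs * (A : ℤ) ^ p := by
          rcases hs with rfl | rfl <;> rcases hσ with rfl | rfl <;> linarith
        exact_mod_cast this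
      have h4 : B ≤ b.natAbs * B ^ q :=
        (Nat.le_self_pow hq.ne' B).trans (Nat.le_mul_of_pos_left _ hβ0)
      have h5 : z.natAbs ^ q₁ = z.natAbs ^ r := by rw [hz1]; simp
      rw [h5]
      have h6 := le_max_left (c'.natAbs * z.natAbs ^ r) (a.natAbs * A ^ p)
      have h7 := le_max_right (c'.natAbs * z.natAbs ^ r) (a.natAbs * A ^ p)
      rw [pow_succ] at hBT2
      omega
    · obtain ⟨q', h3, h4, h5⟩ := exists_pp (by omega) hn1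
      have hn0 : 0 < n := Nat.pos_of_dvd_of_pos hn3 hr
      have h6 : q' ≤ n := Nat.le_of_dvd hn0 h5
      have h7 : q' ≤ r := h6.trans (Nat.le_of_dvd hr hn3)
      refine hfin q' r h3 h4 ?_ (h5.trans hn3) rfl ?_
      · apply Nat.le_floor
        refine le_trans ?_ hn2
        exact_mod_cast h6
      · calc 2 ^ q' ≤ 2 ^ r := Nat.pow_le_pow_right (by norm_num) h7
          _ ≤ z.natAbs ^ r := Nat.pow_le_pow_left h2 _
          _ ≤ c'.natAbs * z.natAbs ^ r := Nat.le_mul_of_pos_left _ hγ0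
          _ ≤ _ := le_max_left _ _
  exact ⟨hmain.1.subset hsub, (Set.ncard_le_ncard hsub hmain.1).trans hmain.2⟩

end Pool.Agent.TH888.G
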