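import Mathlib
import Pool.Agent.TH888.G.Beta
import Pool.Agent.TH888.B1.FreeMain

/-!
Almost all pairs: preparations.
-/

set_option autoImplicit false

namespace Pool.Agent.TH888.G

open Finset Filter Topology
open Pool.Agent.TH888.W2 (Su)
open Pool.Agent.TH888.B1 (polylog_rpow)

theorem gcd3_iff (u v w : ℤ) : Int.gcd ((Int.gcd u v : ℕ) : ℤ) w = 1 ↔
    ∀ p : ℕ, p.Prime → (p : ℤ) ∣ u → (p : ℤ) ∣ v → (p : ℤ) ∣ w → False := by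
  constructor
  · intro h p hp h1 h2 h3
    have h4 : (p : ℤ) ∣ ((Int.gcd u v : ℕ) : ℤ) := Int.dvd_coe_gcd h1 h2
    have h5 := Int.dvd_coe_gcd h4 h3
    rw [h] at h5
    have h6 : p ∣ 1 := by exact_mod_cast h5
    exact hp.one_lt.ne' (Nat.dvd_one.mp h6)
  · intro h
    by_contra hcon
    obtain ⟨p, hp, hpd⟩ := Nat.exists_prime_and_dvd hcon
    have h0 : (p : ℤ) ∣ ((Int.gcd ((Int.gcd u v : ℕ) : ℤ) w : ℕ) : ℤ) := by exact_mod_cast hpd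
    have h1 : (p : ℤ) ∣ ((Int.gcd u v : ℕ) : ℤ) := h0.trans (Int.gcd_dvd_left _ _)
    have h2 : (p : ℤ) ∣ w := h0.trans (Int.gcd_dvd_right _ _)
    exact h p hp (h1.trans (Int.gcd_dvd_left _ _)) (h1.trans (Int.gcd_dvd_right _ _)) h2

theorem fiber_bound {D : Set (ℕ × ℕ)} {I : Finset ℕ} {k : ℕ} (h : ∀ w ∈ D, w.1 ∈ I)
    (hk : ∀ u ∈ I, {v : ℕ | (u, v) ∈ D}.Finite ∧ {v : ℕ | (u, v) ∈ D}.ncard ≤ k) :
    D.ncard ≤ I.card * k := by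
  classical
  let F : ℕ → Finset (ℕ × ℕ) := fun u =>
    if h : {v : ℕ | (u, v) ∈ D}.Finite then h.toFinset.image (Prod.mk u) else ∅
  have hF : ∀ u ∈ I, (F u).card ≤ k := by
    intro u hu
    simp only [F]
    rw [dif_pos (hk u hu).1]
    refine card_image_le.trans ?_
    rw [← Set.ncard_eq_toFinset_card _ (hk u hu).1]
    exact (hk u hu).2
  have hsub : D ⊆ ((I.biUnion F : Finset (ℕ × ℕ)) : Set (ℕ × ℕ)) := by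
    rintro ⟨u, v⟩ hw
    have hu : u ∈ I := h _ hw
    rw [Finset.mem_coe, Finset.mem_biUnion]
    refine ⟨u, hu, ?_⟩
    simp only [F]
    rw [dif_pos (hk u hu).1, Finset.mem_image]
    exact ⟨v, (Set.Finite.mem_toFinset _).mpr hw, rfl⟩
  calc D.ncard ≤ ((I.biUnion F : Finset (ℕ × ℕ)) : Set (ℕ × ℕ)).ncard :=
        Set.ncard_le_ncard hsub (Finset.finite_toSet _)
    _ = (I.biUnion F).card := Set.ncard_coe_finset _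
    _ ≤ I.card * k := Finset.card_biUnion_le_card_mul _ _ _ hF

theorem fiber_bound' {D : Set (ℕ × ℕ)} {I : Finset ℕ} {k : ℕ} (h : ∀ w ∈ D, w.2 ∈ I)
    (hk : ∀ v ∈ I, {u : ℕ | (u, v) ∈ D}.Finite ∧ {u : ℕ | (u, v) ∈ D}.ncard ≤ k) :
    D.ncard ≤ I.card * k := by
  have h1 : (Prod.swap '' D).ncard = D.ncard := Set.ncard_image_of_injective _ Prod.swap_injective
  rw [← h1]
  have h2 : ∀ u v : ℕ, (v, u) ∈ Prod.swap '' D ↔ (u, v) ∈ D := by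
    intro u v
    constructor
    · rintro ⟨⟨a, b⟩, h3, h4⟩
      rw [Prod.swap_prod_mk, Prod.mk.injEq] at h4
      rw [← h4.1, ← h4.2]; exact h3
    · intro h3
      exact ⟨(u, v), h3, rfl⟩
  apply fiber_bound
  · rintro ⟨v, u⟩ hw
    exact h _ ((h2 u v).mp hw)
  · intro v hv
    have h3 : {u : ℕ | (v, u) ∈ Prod.swap '' D} = {u : ℕ | (u, v) ∈ D} := by
      ext u
      exact h2 u v
    rw [h3]
    exact hk v hv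

/-- the numerical part -/
theorem bound_small (s K : ℕ) {c ε : ℝ} (hc : 0 < c) (hc1 : c * (2 * s + 2) < 1) (hε : 0 < ε) :
    ∃ θ : ℝ, 0 < θ ∧ θ ≤ 1 / 2 ∧ ∃ L : ℕ, ∀ Y : ℕ, L ≤ Y → ∀ b₀ : ℕ, b₀ ≤ Y ^ K →
      ((8 * (⌊(Y : ℝ) ^ c⌋₊ + 1) ^ (2 * s + 2) * (⌊(Y : ℝ) ^ θ⌋₊ + 1) ^ 5 *
        (Nat.log 2 (b₀ + Y) + 1) ^ (s + 1) : ℕ) : ℝ) ≤ ε * Y := by
  obtain ⟨θ, hθ⟩ : ∃ θ, θ = (1 - c * (2 * s + 2)) / 22 := ⟨_, rfl⟩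
  have hθ0 : 0 < θ := by rw [hθ]; linarith [hc1]
  have hs0 : (0 : ℝ) ≤ s := Nat.cast_nonneg _
  have hθ1 : θ ≤ 1 / 2 := by
    have : 0 < c * (2 * s + 2) := by positivity
    rw [hθ]; linarith
  have hce : c * (2 * s + 2) = 1 - 22 * θ := by rw [hθ]; ring
  refine ⟨θ, hθ0, hθ1, ?_⟩
  obtain ⟨L₁, hL₁⟩ := polylog_rpow ((K + 3) ^ (s + 1)) (s + 1) θ hθ0
  have ht : Tendsto (fun N : ℕ => (N : ℝ) ^ (16 * θ)) atTop atTop :=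
    (tendsto_rpow_atTop (by positivity)).comp tendsto_natCast_atTop_atTop
  obtain ⟨L₂, hL₂⟩ := eventually_atTop.mp
    (ht.eventually_ge_atTop ((8 * 2 ^ (2 * s + 2) * 2 ^ 5 : ℝ) / ε))
  refine ⟨L₁ + L₂ + 2, fun Y hY b₀ hb₀ => ?_⟩
  have h1 := hL₁ Y (by omega)
  have h2 := hL₂ Y (by omega)
  have hY2 : 2 ≤ Y := by omega
  have hYR : (0 : ℝ) < Y := by exact_mod_cast (by omega : 0 < Y)
  have hY1R : (1 : ℝ) ≤ Y := by exact_mod_cast (by omega : 1 ≤ Y)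
  have hfl : ∀ t : ℝ, 0 < t → ((⌊(Y : ℝ) ^ t⌋₊ + 1 : ℕ) : ℝ) ≤ 2 * (Y : ℝ) ^ t := by
    intro t ht
    have g1 : (⌊(Y : ℝ) ^ t⌋₊ : ℝ) ≤ (Y : ℝ) ^ t := Nat.floor_le (by positivity)
    have g2 : 1 ≤ (Y : ℝ) ^ t := Real.one_le_rpow hY1R ht.le
    push_cast
    linarith
  have hN : b₀ + Y ≤ Y ^ (K + 2) := by
    have h1 : Y ^ K ≤ Y ^ (K + 1) := Nat.pow_le_pow_right (by omega) (by omega)
    have h2 : Y ^ 1 ≤ Y ^ (K + 1) := Nat.pow_le_pow_right (by omega) (by omega)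
    have h3 : Y ^ (K + 2) = Y * Y ^ (K + 1) := by ring
    rw [h3]
    rw [pow_one] at h2
    nlinarith
  have hlog : Nat.log 2 (b₀ + Y) + 1 ≤ (K + 3) * (Nat.log 2 Y + 1) := by
    have h3 : Nat.log 2 (b₀ + Y) < (Nat.log 2 Y + 1) * (K + 2) := by
      apply Nat.log_lt_of_lt_pow (by omega)
      calc b₀ + Y ≤ Y ^ (K + 2) := hN
        _ < (2 ^ (Nat.log 2 Y + 1)) ^ (K + 2) :=
          Nat.pow_lt_pow_left (Nat.lt_pow_succ_log_self (by norm_num) Y) (by omega)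
        _ = _ := by rw [← pow_mul]
    nlinarith
  have hlog2 : (((Nat.log 2 (b₀ + Y) + 1) ^ (s + 1) : ℕ) : ℝ) ≤ (Y : ℝ) ^ θ := by
    refine le_trans ?_ h1
    have h3 : (Nat.log 2 (b₀ + Y) + 1) ^ (s + 1) ≤ (K + 3) ^ (s + 1) * (Nat.log 2 Y + 1) ^ (s + 1) := by
      rw [← mul_pow]
      exact Nat.pow_le_pow_left hlog _
    exact_mod_cast h3
  have e1 : (((⌊(Y : ℝ) ^ c⌋₊ + 1) ^ (2 * s + 2) : ℕ) : ℝ) ≤ 2 ^ (2 * s + 2) * (Y : ℝ) ^ (1 - 22 * θ) := by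
    calc (((⌊(Y : ℝ) ^ c⌋₊ + 1) ^ (2 * s + 2) : ℕ) : ℝ) = ((⌊(Y : ℝ) ^ c⌋₊ + 1 : ℕ) : ℝ) ^ (2 * s + 2) := by
          push_cast; rfl
      _ ≤ (2 * (Y : ℝ) ^ c) ^ (2 * s + 2) := pow_le_pow_left₀ (Nat.cast_nonneg _) (hfl c hc) _
      _ = 2 ^ (2 * s + 2) * (Y : ℝ) ^ (1 - 22 * θ) := by
          rw [mul_pow, ← Real.rpow_natCast ((Y : ℝ) ^ c), ← Real.rpow_mul hYR.le, ← hce]
          push_cast
          rfl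
  have e2 : (((⌊(Y : ℝ) ^ θ⌋₊ + 1) ^ 5 : ℕ) : ℝ) ≤ 2 ^ 5 * (Y : ℝ) ^ (5 * θ) := by
    calc (((⌊(Y : ℝ) ^ θ⌋₊ + 1) ^ 5 : ℕ) : ℝ) = ((⌊(Y : ℝ) ^ θ⌋₊ + 1 : ℕ) : ℝ) ^ 5 := by
          push_cast; rfl
      _ ≤ (2 * (Y : ℝ) ^ θ) ^ 5 := pow_le_pow_left₀ (Nat.cast_nonneg _) (hfl θ hθ0) _
      _ = 2 ^ 5 * (Y : ℝ) ^ (5 * θ) := by
          rw [mul_pow, ← Real.rpow_natCast ((Y : ℝ) ^ θ), ← Real.rpow_mul hYR.le]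
          congr 2
          push_cast; ring
  have e3 : (Y : ℝ) ^ (1 - 22 * θ) * (Y : ℝ) ^ (5 * θ) * (Y : ℝ) ^ θ * (Y : ℝ) ^ (16 * θ) = Y := by
    rw [← Real.rpow_add hYR, ← Real.rpow_add hYR, ← Real.rpow_add hYR]
    have : 1 - 22 * θ + 5 * θ + θ + 16 * θ = 1 := by ring
    rw [this, Real.rpow_one]
  rw [div_le_iff₀ hε] at h2
  have p1 : 0 < (Y : ℝ) ^ (1 - 22 * θ) := by positivity
  have p2 : 0 < (Y : ℝ) ^ (5 * θ) := by positivity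
  have p3 : 0 < (Y : ℝ) ^ θ := by positivity
  calc ((8 * (⌊(Y : ℝ) ^ c⌋₊ + 1) ^ (2 * s + 2) * (⌊(Y : ℝ) ^ θ⌋₊ + 1) ^ 5 *
        (Nat.log 2 (b₀ + Y) + 1) ^ (s + 1) : ℕ) : ℝ)
      = 8 * (((⌊(Y : ℝ) ^ c⌋₊ + 1) ^ (2 * s + 2) : ℕ) : ℝ) * (((⌊(Y : ℝ) ^ θ⌋₊ + 1) ^ 5 : ℕ) : ℝ) *
        (((Nat.log 2 (b₀ + Y) + 1) ^ (s + 1) : ℕ) : ℝ) := by push_cast; ring
    _ ≤ 8 * (2 ^ (2 * s + 2) * (Y : ℝ) ^ (1 - 22 * θ)) * (2 ^ 5 * (Y : ℝ) ^ (5 * θ)) *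
        (Y : ℝ) ^ θ := by gcongr
    _ = (8 * 2 ^ (2 * s + 2) * 2 ^ 5) *
        ((Y : ℝ) ^ (1 - 22 * θ) * (Y : ℝ) ^ (5 * θ) * (Y : ℝ) ^ θ) := by ring
    _ ≤ ((Y : ℝ) ^ (16 * θ) * ε) *
        ((Y : ℝ) ^ (1 - 22 * θ) * (Y : ℝ) ^ (5 * θ) * (Y : ℝ) ^ θ) :=
        mul_le_mul_of_nonneg_right h2 (by positivity)
    _ = ε * ((Y : ℝ) ^ (1 - 22 * θ) * (Y : ℝ) ^ (5 * θ) * (Y : ℝ) ^ θ * (Y : ℝ) ^ (16 * θ)) := by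
        ring
    _ = ε * Y := by rw [e3]

end Pool.Agent.TH888.G
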