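import Mathlib
import Pool.Agent.TH888.G.Alpha
import Pool.Agent.H755R5.G2
import Pool.Agent.H755R5.Kum.Final
import Pool.Agent.H755R5.Kum.Final2

/-!
Almost all pairs, with a third exponent that has a divisor up to a power of the side of the box.
-/

set_option autoImplicit false

namespace Pool.Agent.TH888.G

open Finset
open Pool.Agent.TH888.W2 (Su)
open Pool.Agent.H755R5 (SSol SmallDvd ExcA excA_boxes)

/-- `m` is a multiple of some `n` with `2 ≤ n ≤ W` -/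
def MultW (W : ℝ) (m : ℕ) : Prop := ∃ n : ℕ, 2 ≤ n ∧ (n : ℝ) ≤ W ∧ n ∣ m

/-- the pairs of bases of an `S`-solution whose third exponent is a multiple of some `n` with
`2 ≤ n ≤ W` -/
def ExcW (S : Finset ℕ) (W : ℝ) : Set (ℕ × ℕ) :=
  {w | ∃ (a b c x y z : ℤ) (p q r : ℕ), SSol S a b c x y z p q r ∧
    ((x.natAbs = w.1 ∧ y.natAbs = w.2 ∧ MultW W r) ∨
     (x.natAbs = w.1 ∧ z.natAbs = w.2 ∧ MultW W q) ∨
     (y.natAbs = w.1 ∧ z.natAbs = w.2 ∧ MultW W p))}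

theorem bad_of {S : Finset ℕ} {W : ℝ} {Z₀ A B : ℕ} {a b c x y z : ℤ} {p q r n : ℕ} (hp : 0 < p)
    (hq : 0 < q) (hr : 0 < r) (ha : a ≠ 0) (hb : b ≠ 0) (hc : c ≠ 0) (hz : z ≠ 0)
    (hSa : ∀ ℓ : ℕ, ℓ.Prime → (ℓ : ℤ) ∣ a → ℓ ∈ S) (hSb : ∀ ℓ : ℕ, ℓ.Prime → (ℓ : ℤ) ∣ b → ℓ ∈ S)
    (hSc : ∀ ℓ : ℕ, ℓ.Prime → (ℓ : ℤ) ∣ c → ℓ ∈ S)
    (hg : ∀ ℓ : ℕ, ℓ.Prime → (ℓ : ℤ) ∣ a * x → (ℓ : ℤ) ∣ b * y → (ℓ : ℤ) ∣ c * z → False)
    (heq : a * x ^ p + b * y ^ q = c * z ^ r) (hx : x.natAbs = A) (hy : y.natAbs = B)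
    (hn1 : Z₀ ≤ n) (hn2 : (n : ℝ) ≤ W) (hn3 : n ∣ r) : Bad (S.filter Nat.Prime) Z₀ W A B := by
  have hsu : ∀ t : ℤ, t ≠ 0 → (∀ ℓ : ℕ, ℓ.Prime → (ℓ : ℤ) ∣ t → ℓ ∈ S) →
      Su (S.filter Nat.Prime) t.natAbs := by
    intro t ht h
    refine ⟨Int.natAbs_ne_zero.mpr ht, fun ℓ hℓ hd => ?_⟩
    rw [Finset.mem_filter]
    exact ⟨h ℓ hℓ (Int.natCast_dvd.mpr hd), hℓ⟩
  exact ⟨a, b, c, x, y, z, p, q, r, n, hp, hq, hr, hsu a ha hSa, hsu b hb hSb, hsu c hc hSc, hz,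
    (gcd3_iff _ _ _).mpr hg, heq, hx, hy, hn1, hn2, hn3⟩

theorem excW_sub {S : Finset ℕ} {W : ℝ} (Z₀ : ℕ) {u v : ℕ} (h : (u, v) ∈ ExcW S W) :
    (u, v) ∈ ExcA S Z₀ ∨ (Bad (S.filter Nat.Prime) Z₀ W u v ∧ Bad (S.filter Nat.Prime) Z₀ W v u) := by
  obtain ⟨a, b, c, x, y, z, p, q, r, hsol, hcase⟩ := h
  have hsol' := hsol
  obtain ⟨hp, hq, hr, ha, hb, hc, hx, hy, hz, hS, hgcd, heq⟩ := hsol
  simp only at hcase
  have hg := (gcd3_iff _ _ _).mp hgcd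
  have hSa : ∀ ℓ : ℕ, ℓ.Prime → (ℓ : ℤ) ∣ a → ℓ ∈ S := fun ℓ hℓ h => hS ℓ hℓ ((h.mul_right b).mul_right c)
  have hSb : ∀ ℓ : ℕ, ℓ.Prime → (ℓ : ℤ) ∣ b → ℓ ∈ S := fun ℓ hℓ h => hS ℓ hℓ ((h.mul_left a).mul_right c)
  have hSc : ∀ ℓ : ℕ, ℓ.Prime → (ℓ : ℤ) ∣ c → ℓ ∈ S := fun ℓ hℓ h => hS ℓ hℓ (h.mul_left (a * b))
  have hSa' : ∀ ℓ : ℕ, ℓ.Prime → (ℓ : ℤ) ∣ -a → ℓ ∈ S := fun ℓ hℓ h => hSa ℓ hℓ ((dvd_neg).mp h)
  have hSb' : ∀ ℓ : ℕ, ℓ.Prime → (ℓ : ℤ) ∣ -b → ℓ ∈ S := fun ℓ hℓ h => hSb ℓ hℓ ((dvd_neg).mp h)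
  have hSc' : ∀ ℓ : ℕ, ℓ.Prime → (ℓ : ℤ) ∣ -c → ℓ ∈ S := fun ℓ hℓ h => hSc ℓ hℓ ((dvd_neg).mp h)
  have dn : ∀ {ℓ : ℕ} {s t : ℤ}, (ℓ : ℤ) ∣ -s * t → (ℓ : ℤ) ∣ s * t := by
    intro ℓ s t h
    rw [neg_mul, dvd_neg] at h
    exact h
  have small : ∀ {n m : ℕ}, 2 ≤ n → n ≤ Z₀ → n ∣ m → SmallDvd Z₀ m := fun h1 h2 h3 => ⟨_, h1, h2, h3⟩
  rcases hcase with ⟨hxu, hyv, n, hn, hnW, hnd⟩ | ⟨hxu, hzv, n, hn, hnW, hnd⟩ |
    ⟨hyu, hzv, n, hn, hnW, hnd⟩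
  · rcases Nat.lt_or_ge Z₀ n with h1 | h1
    · right
      exact ⟨bad_of hp hq hr ha hb hc hz hSa hSb hSc hg heq hxu hyv h1.le hnW hnd,
        bad_of hq hp hr hb ha hc hz hSb hSa hSc (fun ℓ h1 h2 h3 h4 => hg ℓ h1 h3 h2 h4)
          (by linear_combination heq) hyv hxu h1.le hnW hnd⟩
    · left
      exact ⟨a, b, c, x, y, z, p, q, r, hsol', Or.inl ⟨hxu, hyv, small hn h1 hnd⟩⟩
  · rcases Nat.lt_or_ge Z₀ n with h1 | h1
    · right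
      exact ⟨bad_of hp hr hq ha (neg_ne_zero.mpr hc) (neg_ne_zero.mpr hb) hy hSa hSc' hSb'
          (fun ℓ h1 h2 h3 h4 => hg ℓ h1 h2 (dn h4) (dn h3))
          (by linear_combination heq) hxu hzv h1.le hnW hnd,
        bad_of hr hp hq (neg_ne_zero.mpr hc) ha (neg_ne_zero.mpr hb) hy hSc' hSa hSb'
          (fun ℓ h1 h2 h3 h4 => hg ℓ h1 h3 (dn h4) (dn h2))
          (by linear_combination heq) hzv hxu h1.le hnW hnd⟩
    · left
      exact ⟨a, b, c, x, y, z, p, q, r, hsol', Or.inr (Or.inl ⟨hxu, hzv, small hn h1 hnd⟩)⟩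
  · rcases Nat.lt_or_ge Z₀ n with h1 | h1
    · right
      exact ⟨bad_of hq hr hp hb (neg_ne_zero.mpr hc) (neg_ne_zero.mpr ha) hx hSb hSc' hSa'
          (fun ℓ h1 h2 h3 h4 => hg ℓ h1 (dn h4) h2 (dn h3))
          (by linear_combination heq) hyu hzv h1.le hnW hnd,
        bad_of hr hq hp (neg_ne_zero.mpr hc) hb (neg_ne_zero.mpr ha) hx hSc' hSb hSa'
          (fun ℓ h1 h2 h3 h4 => hg ℓ h1 (dn h4) h3 (dn h2))
          (by linear_combination heq) hzv hyu h1.le hnW hnd⟩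
    · left
      exact ⟨a, b, c, x, y, z, p, q, r, hsol', Or.inr (Or.inr ⟨hyu, hzv, small hn h1 hnd⟩)⟩

theorem alpha (S : Finset ℕ) (K : ℕ) {c ε : ℝ} (hc : 0 < c) (hc1 : c * (2 * S.card + 2) < 1)
    (hε : 0 < ε) : ∃ L : ℕ, ∀ X Y : ℕ, L ≤ X → L ≤ Y → ∀ a b : ℕ, a ≤ (max X Y) ^ K →
      b ≤ (max X Y) ^ K →
      ((ExcW S (((max X Y : ℕ) : ℝ) ^ c) ∩ (Set.Ioc a (a + X) ×ˢ Set.Ioc b (b + Y))).ncard : ℝ) ≤
        ε * (X * Y) := by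
  classical
  obtain ⟨P, hPdef⟩ : ∃ P, P = S.filter Nat.Prime := ⟨_, rfl⟩
  have hP : ∀ l ∈ P, l.Prime := fun l hl => by
    rw [hPdef] at hl; exact (Finset.mem_filter.mp hl).2
  have hPc : (P.card : ℝ) ≤ S.card := by
    have := Finset.card_filter_le S Nat.Prime
    rw [← hPdef] at this
    exact_mod_cast this
  have hc2 : c * (2 * P.card + 2) < 1 := by nlinarith
  obtain ⟨θ, hθ0, hθ1, L₁, hL₁⟩ := bound_small P.card K hc hc2 (ε := ε / 4) (by positivity)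
  obtain ⟨Z₀, L₂, hL₂⟩ := beta hP K hc hθ0 hθ1 (ε := ε / 4) (by positivity)
  obtain ⟨L₃, hL₃⟩ := excA_boxes Pool.Agent.H755R5.Kum.kummer_density
    Pool.Agent.H755R5.Kum.nonsquare_density Pool.Agent.H755R5.Kum.nonsquare_density_four S Z₀ K
    (ε := ε / 2) (by positivity)
  refine ⟨L₁ + L₂ + L₃, fun X Y hX hY a b ha hb => ?_⟩
  have k3 := hL₃ X Y (by omega) (by omega) a b ha hb
  obtain ⟨box, hbox⟩ : ∃ box : Set (ℕ × ℕ), box = Set.Ioc a (a + X) ×ˢ Set.Ioc b (b + Y) := ⟨_, rfl⟩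
  rw [← hbox] at k3 ⊢
  have hbf : box.Finite := by
    rw [hbox]; exact (Set.finite_Ioc _ _).prod (Set.finite_Ioc _ _)
  obtain ⟨W, hW⟩ : ∃ W : ℝ, W = ((max X Y : ℕ) : ℝ) ^ c := ⟨_, rfl⟩
  rw [← hW]
  obtain ⟨D, hD⟩ : ∃ D : Set (ℕ × ℕ), D = {w | w ∈ box ∧ Bad P Z₀ W w.1 w.2 ∧ Bad P Z₀ W w.2 w.1} :=
    ⟨_, rfl⟩
  have hsub : ExcW S W ∩ box ⊆ (ExcA S Z₀ ∩ box) ∪ D := by
    rintro ⟨u, v⟩ ⟨h1, h2⟩
    rcases excW_sub Z₀ h1 with h3 | ⟨h3, h4⟩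
    · exact Or.inl ⟨h3, h2⟩
    · right
      rw [hD, hPdef]
      exact ⟨h2, h3, h4⟩
  have hDf : D.Finite := hbf.subset (by rw [hD]; exact fun w hw => hw.1)
  have h1 := (Set.ncard_le_ncard hsub ((hbf.subset Set.inter_subset_right).union hDf)).trans
    (Set.ncard_union_le _ _)
  have h1R : ((ExcW S W ∩ box).ncard : ℝ) ≤ (ExcA S Z₀ ∩ box).ncard + D.ncard := by exact_mod_cast h1
  have hDc : (D.ncard : ℝ) ≤ ε / 2 * (X * Y) := by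
    rcases le_total Y X with hYX | hXY
    · -- the first coordinate is typical
      have hmax : max X Y = X := max_eq_left hYX
      rw [hmax] at ha hb hW
      obtain ⟨T, hT, hE⟩ := hL₂ X (by omega) a ha
      have hB := hL₁ X (by omega) a ha
      obtain ⟨k, hk⟩ : ∃ k, k = 8 * (⌊(X : ℝ) ^ c⌋₊ + 1) ^ (2 * P.card + 2) *
          (⌊(X : ℝ) ^ θ⌋₊ + 1) ^ 5 * (Nat.log 2 (a + X) + 1) ^ (P.card + 1) := ⟨_, rfl⟩
      rw [← hk] at hB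
      have hfb := fiber_bound' (D := D) (I := Finset.Ioc b (b + Y)) (k := T.card + k) (by
        intro w hw
        rw [hD, hbox] at hw
        rw [Finset.mem_Ioc]
        exact hw.1.2) (by
        intro v hv
        rw [Finset.mem_Ioc] at hv
        have hsub2 : {u : ℕ | (u, v) ∈ D} ⊆ (T : Set ℕ) ∪ {u : ℕ | (u, v) ∈ D ∧ u ∉ T} := by
          intro u hu
          by_cases hT : u ∈ T
          · exact Or.inl hT
          · exact Or.inr ⟨hu, hT⟩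
        have hE2 := hE v (by omega) {u : ℕ | (u, v) ∈ D ∧ u ∉ T} (by
          rintro u ⟨hu, huT⟩
          rw [hD, hbox] at hu
          have h5 := hu.1.1
          rw [Set.mem_Ioc] at h5
          refine ⟨h5.1, h5.2, huT, ?_⟩
          rw [← hW]
          exact hu.2.2)
        have hfin2 := (Finset.finite_toSet T).union hE2.1
        refine ⟨hfin2.subset hsub2, (Set.ncard_le_ncard hsub2 hfin2).trans ?_⟩
        refine (Set.ncard_union_le _ _).trans ?_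
        rw [Set.ncard_coe_finset]
        exact Nat.add_le_add_left (by rw [hk]; exact hE2.2) _)
      rw [Nat.card_Ioc, Nat.add_sub_cancel_left] at hfb
      have hfbR : (D.ncard : ℝ) ≤ Y * (T.card + k) := by exact_mod_cast hfb
      have hY0 : (0 : ℝ) ≤ Y := Nat.cast_nonneg _
      calc (D.ncard : ℝ) ≤ Y * (T.card + k) := hfbR
        _ ≤ Y * (ε / 4 * X + ε / 4 * X) := by
          apply mul_le_mul_of_nonneg_left _ hY0
          linarith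
        _ = ε / 2 * (X * Y) := by ring
    · -- the second coordinate is typical
      have hmax : max X Y = Y := max_eq_right hXY
      rw [hmax] at ha hb hW
      obtain ⟨T, hT, hE⟩ := hL₂ Y (by omega) b hb
      have hB := hL₁ Y (by omega) b hb
      obtain ⟨k, hk⟩ : ∃ k, k = 8 * (⌊(Y : ℝ) ^ c⌋₊ + 1) ^ (2 * P.card + 2) *
          (⌊(Y : ℝ) ^ θ⌋₊ + 1) ^ 5 * (Nat.log 2 (b + Y) + 1) ^ (P.card + 1) := ⟨_, rfl⟩
      rw [← hk] at hB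
      have hfb := fiber_bound (D := D) (I := Finset.Ioc a (a + X)) (k := T.card + k) (by
        intro w hw
        rw [hD, hbox] at hw
        rw [Finset.mem_Ioc]
        exact hw.1.1) (by
        intro u hu
        rw [Finset.mem_Ioc] at hu
        have hsub2 : {v : ℕ | (u, v) ∈ D} ⊆ (T : Set ℕ) ∪ {v : ℕ | (u, v) ∈ D ∧ v ∉ T} := by
          intro v hv
          by_cases hT : v ∈ T
          · exact Or.inl hT
          · exact Or.inr ⟨hv, hT⟩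
        have hE2 := hE u (by omega) {v : ℕ | (u, v) ∈ D ∧ v ∉ T} (by
          rintro v ⟨hv, hvT⟩
          rw [hD, hbox] at hv
          have h5 := hv.1.2
          rw [Set.mem_Ioc] at h5
          refine ⟨h5.1, h5.2, hvT, ?_⟩
          rw [← hW]
          exact hv.2.1)
        have hfin2 := (Finset.finite_toSet T).union hE2.1
        refine ⟨hfin2.subset hsub2, (Set.ncard_le_ncard hsub2 hfin2).trans ?_⟩
        refine (Set.ncard_union_le _ _).trans ?_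
        rw [Set.ncard_coe_finset]
        exact Nat.add_le_add_left (by rw [hk]; exact hE2.2) _)
      rw [Nat.card_Ioc, Nat.add_sub_cancel_left] at hfb
      have hfbR : (D.ncard : ℝ) ≤ X * (T.card + k) := by exact_mod_cast hfb
      have hX0 : (0 : ℝ) ≤ X := Nat.cast_nonneg _
      calc (D.ncard : ℝ) ≤ X * (T.card + k) := hfbR
        _ ≤ X * (ε / 4 * Y + ε / 4 * Y) := by
          apply mul_le_mul_of_nonneg_left _ hX0
          linarith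
        _ = ε / 2 * (X * Y) := by ring
  linarith

end Pool.Agent.TH888.G
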