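import Mathlib
import Pool.Agent.TH888.F.Odd
import Pool.Agent.TH888.G.Cls1
import Pool.Agent.TH888.W2.SExp

/-!
`Z ^ q - W ^ q = v B ^ y` with `S`-units `W`, `v`: factorisation.
-/

set_option autoImplicit false

namespace Pool.Agent.TH888.G

open Finset
open Pool.Agent.TH888.W2 (Su baker_su)
open Pool.Agent.TH888.F (Ph ph_mul ph_mod ph_mod' ph_prime pow_factors)

/-- `m` has no prime factor in `P` -/
def Free (P : Finset ℕ) (m : ℕ) : Prop := ∀ l ∈ P, ¬ l ∣ m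

theorem su_one' (P : Finset ℕ) : Su P 1 :=
  ⟨one_ne_zero, fun _ hl h => absurd (Nat.dvd_one.mp h) hl.one_lt.ne'⟩

theorem su_prime' {P : Finset ℕ} {l : ℕ} (hl : l ∈ P) (hp : l.Prime) : Su P l :=
  ⟨hp.ne_zero, fun _ hr h => ((Nat.prime_dvd_prime_iff_eq hr hp).mp h) ▸ hl⟩

theorem split_su {P : Finset ℕ} (hP : ∀ l ∈ P, l.Prime) (n : ℕ) (hn : 0 < n) :
    ∃ e m : ℕ, Su P e ∧ Free P m ∧ 0 < m ∧ e * m = n := by
  induction n using Nat.strong_induction_on with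
  | _ n ih =>
    by_cases h : ∃ l ∈ P, l ∣ n
    · obtain ⟨l, hl, k, hk⟩ := h
      have hl2 := (hP l hl).two_le
      have hk0 : 0 < k := Nat.pos_of_ne_zero (by rintro rfl; rw [mul_zero] at hk; omega)
      have hkn : k < n := by rw [hk]; nlinarith
      obtain ⟨e, m, he, hm, hm0, hem⟩ := ih k hkn hk0
      exact ⟨l * e, m, su_mul (su_prime' hl (hP l hl)) he, hm, hm0, by rw [mul_assoc, hem, hk]⟩
    · push Not at h
      exact ⟨1, n, su_one' P, h, hn, one_mul n⟩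

theorem cop_su_free {P : Finset ℕ} {a m : ℕ} (ha : Su P a) (hm : Free P m) : Nat.Coprime a m :=
  Nat.coprime_of_dvd fun k hk h1 h2 => hm k (ha.2 k hk h1) h2

theorem su_cancel {P : Finset ℕ} {a b m n : ℕ} (ha : Su P a) (hb : Su P b) (hm : Free P m)
    (hn : Free P n) (h : a * m = b * n) : m = n := by
  have h1 : a ∣ b := (cop_su_free ha hn).dvd_of_dvd_mul_right (h ▸ Dvd.intro m rfl)
  have h2 : b ∣ a := (cop_su_free hb hm).dvd_of_dvd_mul_right (h ▸ Dvd.intro n rfl)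
  have h3 := Nat.dvd_antisymm h1 h2
  rw [h3] at h
  exact Nat.eq_of_mul_eq_mul_left (Nat.pos_of_ne_zero hb.1) h

theorem free_mul {P : Finset ℕ} (hP : ∀ l ∈ P, l.Prime) {m n : ℕ} (hm : Free P m) (hn : Free P n) :
    Free P (m * n) := fun l hl h => ((hP l hl).dvd_mul.mp h).elim (hm l hl) (hn l hl)

theorem free_pow {P : Finset ℕ} (hP : ∀ l ∈ P, l.Prime) {m : ℕ} (hm : Free P m) (k : ℕ) :
    Free P (m ^ k) := fun l hl h => hm l hl ((hP l hl).dvd_of_dvd_pow h)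

theorem sgn_natAbs (t : ℤ) : ∃ σ : ℤ, (σ = 1 ∨ σ = -1) ∧ t = σ * (t.natAbs : ℤ) := by
  rcases Int.natAbs_eq t with h1 | h1
  · exact ⟨1, Or.inl rfl, by rw [one_mul]; exact h1⟩
  · exact ⟨-1, Or.inr rfl, by rw [neg_one_mul]; exact h1⟩

/-- the factorisation -/
theorem fac {P : Finset ℕ} (hP : ∀ l ∈ P, l.Prime) {q B y : ℕ} (hq : q.Prime) (hqP : q ∈ P)
    {Z W v : ℤ} (hy : 0 < y) (hW : Su P W.natAbs) (hv : Su P v.natAbs)
    (hB : 0 < B) (h : Z ^ q - W ^ q = v * (B : ℤ) ^ y) :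
    ∃ (e b₁ b₂ s₁ s₂ : ℕ) (σ₁ σ₂ : ℤ), Su P e ∧ Su P s₁ ∧ Su P s₂ ∧ (σ₁ = 1 ∨ σ₁ = -1) ∧
      (σ₂ = 1 ∨ σ₂ = -1) ∧ e * (b₁ * b₂) = B ∧ Free P b₁ ∧ Free P b₂ ∧ Nat.Coprime b₁ b₂ ∧
      Z - W = σ₁ * (s₁ * (b₁ : ℤ) ^ y) ∧ Ph q Z W = σ₂ * (s₂ * (b₂ : ℤ) ^ y) := by
  obtain ⟨D, hD⟩ : ∃ D, D = Z - W := ⟨_, rfl⟩
  obtain ⟨F, hF⟩ : ∃ F, F = Ph q Z W := ⟨_, rfl⟩
  have hFD : F * D = v * (B : ℤ) ^ y := by rw [hF, hD, ph_mul, h]
  have hv0 : v ≠ 0 := by
    have := hv.1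
    exact Int.natAbs_ne_zero.mp this
  have hne : v * (B : ℤ) ^ y ≠ 0 := mul_ne_zero hv0 (pow_ne_zero _ (by exact_mod_cast hB.ne'))
  have hF0 : F ≠ 0 := by rintro h0; rw [h0, zero_mul] at hFD; exact hne hFD.symm
  have hD0 : D ≠ 0 := by rintro h0; rw [h0, mul_zero] at hFD; exact hne hFD.symm
  obtain ⟨s₁, d, hs₁, hd, hd0, hsd⟩ := split_su hP D.natAbs (Int.natAbs_pos.mpr hD0)
  obtain ⟨s₂, f, hs₂, hf, hf0, hsf⟩ := split_su hP F.natAbs (Int.natAbs_pos.mpr hF0)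
  obtain ⟨e, m, he, hm, hm0, hem⟩ := split_su hP B hB
  have hprod : (s₂ * s₁) * (d * f) = (v.natAbs * e ^ y) * m ^ y := by
    have h1 : F.natAbs * D.natAbs = v.natAbs * B ^ y := by
      rw [← Int.natAbs_mul, hFD, Int.natAbs_mul, Int.natAbs_pow, Int.natAbs_natCast]
    rw [← hsd, ← hsf, ← hem, mul_pow] at h1
    calc (s₂ * s₁) * (d * f) = s₂ * f * (s₁ * d) := by ring
      _ = v.natAbs * (e ^ y * m ^ y) := h1
      _ = _ := by ring
  have hdf : d * f = m ^ y := su_cancel (su_mul hs₂ hs₁) (su_mul hv (su_pow he y))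
    (free_mul hP hd hf) (free_pow hP hm y) hprod
  have hdD : ∀ r : ℕ, r ∣ d → (r : ℤ) ∣ Z - W := by
    intro r hr
    rw [← hD, ← Int.dvd_natAbs]
    exact_mod_cast hr.trans (hsd ▸ Dvd.intro_left s₁ rfl)
  have hfF : ∀ r : ℕ, r ∣ f → (r : ℤ) ∣ Ph q Z W := by
    intro r hr
    rw [← hF, ← Int.dvd_natAbs]
    exact_mod_cast hr.trans (hsf ▸ Dvd.intro_left s₂ rfl)
  have hcdf : Nat.Coprime d f := by
    apply Nat.coprime_of_dvd
    intro r hr h1 h2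
    have h3 := ph_mod (q := q) (hdD r h1)
    have h4 : (r : ℤ) ∣ q * W ^ (q - 1) := (dvd_sub_right (hfF r h2)).mp h3
    rcases (Nat.prime_iff_prime_int.mp hr).dvd_or_dvd h4 with h5 | h5
    · have h6 : r ∣ q := by exact_mod_cast h5
      have h7 := (Nat.prime_dvd_prime_iff_eq hr hq).mp h6
      exact hd r (h7 ▸ hqP) h1
    · have h6 : (r : ℤ) ∣ W := (Nat.prime_iff_prime_int.mp hr).dvd_of_dvd_pow h5
      exact hd r (hW.2 r hr (Int.natCast_dvd.mp h6)) h1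
  obtain ⟨b₁, b₂, hb₁, hb₂, hbm⟩ := pow_factors hy hcdf hdf
  obtain ⟨σ₁, hσ₁, e1⟩ := sgn_natAbs D
  obtain ⟨σ₂, hσ₂, e2⟩ := sgn_natAbs F
  refine ⟨e, b₁, b₂, s₁, s₂, σ₁, σ₂, he, hs₁, hs₂, hσ₁, hσ₂, by rw [hbm, hem], ?_, ?_, ?_, ?_, ?_⟩
  · intro l hl h1
    exact hd l hl (by rw [hb₁]; exact dvd_pow h1 hy.ne')
  · intro l hl h1
    exact hf l hl (by rw [hb₂]; exact dvd_pow h1 hy.ne')
  · have h2 : Nat.Coprime (b₁ ^ y) (b₂ ^ y) := by rw [← hb₁, ← hb₂]; exact hcdf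
    exact (Nat.coprime_pow_left_iff hy _ _).mp ((Nat.coprime_pow_right_iff hy _ _).mp h2)
  · rw [← hD]
    conv_lhs => rw [e1]
    rw [← hsd, hb₁]; push_cast; ring
  · rw [← hF]
    conv_lhs => rw [e2]
    rw [← hsf, hb₂]; push_cast; ring

/-- `|Φ| = q |W| ^ (q - 1)` is impossible when `Z - W` has a prime factor outside `P` -/
theorem not_eq {P : Finset ℕ} {q p y s₂ b₂ : ℕ} (hq : q.Prime) (hqP : q ∈ P)
    (h2P : 2 ∈ P) (h3P : 3 ∈ P) {Z W σ₂ : ℤ} (hcop : IsCoprime Z W)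
    (hW : Su P W.natAbs) (hσ₂ : σ₂ = 1 ∨ σ₂ = -1)
    (hF : Ph q Z W = σ₂ * (s₂ * (b₂ : ℤ) ^ y)) (hp : p.Prime) (hpP : p ∉ P) (hpD : (p : ℤ) ∣ Z - W)
    (hD : Z ≠ W) : s₂ * b₂ ^ y ≠ q * W.natAbs ^ (q - 1) := by
  intro he
  have hpi := Nat.prime_iff_prime_int.mp hp
  have hpW : ¬ (p : ℤ) ∣ W := fun h => hpP (hW.2 p hp (Int.natCast_dvd.mp h))
  -- `W = ± 1`
  have hW1 : W.natAbs = 1 := by
    by_contra hne
    obtain ⟨r, hr, hrW⟩ := Nat.exists_prime_and_dvd hne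
    have hrWi : (r : ℤ) ∣ W := Int.natCast_dvd.mpr hrW
    have h1 := ph_mod' hq.pos (Z := Z) hrWi
    have h2 : (r : ℤ) ∣ Ph q Z W := by
      rw [hF]
      have h3 : r ∣ s₂ * b₂ ^ y := by
        rw [he]
        exact (dvd_pow hrW (by have := hq.two_le; omega)).mul_left q
      exact Dvd.dvd.mul_left (by exact_mod_cast h3) _
    have h3 : (r : ℤ) ∣ Z ^ (q - 1) := (dvd_sub_right h2).mp h1
    have h4 : (r : ℤ) ∣ Z := (Nat.prime_iff_prime_int.mp hr).dvd_of_dvd_pow h3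
    exact (Nat.prime_iff_prime_int.mp hr).not_isUnit (hcop.isUnit_of_dvd' h4 hrWi)
  rw [hW1, one_pow, mul_one] at he
  -- `Φ = q W ^ (q - 1)`
  have hFe : Ph q Z W = σ₂ * q := by
    rw [hF]
    have : ((s₂ * b₂ ^ y : ℕ) : ℤ) = q := by rw [he]
    push_cast at this
    rw [this]
  have hpc : ∀ r ∈ P, r.Prime → ¬ (p : ℤ) ∣ r := by
    intro r hr hrp h
    have h1 : p ∣ r := by exact_mod_cast h
    exact hpP (((Nat.prime_dvd_prime_iff_eq hp hrp).mp h1) ▸ hr)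
  have hWs : W = 1 ∨ W = -1 := Int.natAbs_eq_iff.mp hW1
  have hW2 : W ^ (q - 1) = 1 ∨ W ^ (q - 1) = -1 := by
    rcases hWs with h | h
    · left; rw [h, one_pow]
    · rw [h]; exact neg_one_pow_eq_or ℤ (q - 1)
  have hFq : Ph q Z W = q * W ^ (q - 1) := by
    have h1 := ph_mod (q := q) hpD
    rw [hFe] at h1 ⊢
    have h2 : σ₂ * (q : ℤ) - q * W ^ (q - 1) = 0 ∨ σ₂ * (q : ℤ) - q * W ^ (q - 1) = 2 * q ∨
        σ₂ * (q : ℤ) - q * W ^ (q - 1) = -(2 * q) := by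
      rcases hσ₂ with rfl | rfl <;> rcases hW2 with h | h <;> rw [h]
      · left; ring
      · right; left; ring
      · right; right; ring
      · left; ring
    have hp2q : ¬ (p : ℤ) ∣ 2 * q := by
      intro h3
      rcases hpi.dvd_or_dvd h3 with h4 | h4
      · exact hpc 2 h2P Nat.prime_two (by exact_mod_cast h4)
      · exact hpc q hqP hq h4
    rcases h2 with h2 | h2 | h2
    · linarith
    · rw [h2] at h1; exact absurd h1 hp2q
    · rw [h2] at h1; exact absurd ((dvd_neg).mp h1) hp2q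
  have hm := ph_mul q Z W
  rw [hFq] at hm
  rcases eq_or_ne q 2 with rfl | hq2
  · apply hD
    have h1 : (Z - W) ^ 2 = 0 := by
      have : (((2 : ℕ) : ℤ) * W ^ (2 - 1)) * (Z - W) = Z ^ 2 - W ^ 2 := hm
      norm_num at this
      linear_combination -this
    exact sub_eq_zero.mp (pow_eq_zero_iff two_ne_zero |>.mp h1)
  · have hodd : Odd q := hq.odd_of_ne_two hq2
    have hq3 : 3 ≤ q := by
      have := hq.two_le
      omega
    have hWq : |W ^ q| = 1 := by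
      rw [abs_pow]
      rcases hWs with h | h <;> rw [h] <;> simp
    have hWa : |W| = 1 := by rcases hWs with h | h <;> rw [h] <;> simp
    have h1 : |Z| ^ q ≤ q * (|Z| + 1) + 1 := by
      have h2 : Z ^ q = (q * W ^ (q - 1)) * (Z - W) + W ^ q := by rw [hm]; ring
      rw [← abs_pow, h2]
      calc |(q * W ^ (q - 1)) * (Z - W) + W ^ q| ≤ |(q * W ^ (q - 1)) * (Z - W)| + |W ^ q| :=
            abs_add_le _ _
        _ = q * |Z - W| + 1 := by
            rw [abs_mul, abs_mul, Nat.abs_cast, hWq]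
            rcases hW2 with h | h <;> rw [h] <;> simp
        _ ≤ q * (|Z| + 1) + 1 := by
            have h3 : |Z - W| ≤ |Z| + 1 := by
              calc |Z - W| ≤ |Z| + |W| := abs_sub _ _
                _ = _ := by rw [hWa]
            have : (q : ℤ) * |Z - W| ≤ q * (|Z| + 1) :=
              mul_le_mul_of_nonneg_left h3 (Nat.cast_nonneg _)
            linarith
    have hZ2 : |Z| ≤ 2 := by
      by_contra hcon
      push Not at hcon
      have hZ3 : 3 ≤ |Z| := hcon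
      have h2 : ∀ k : ℕ, 2 ≤ k → (2 * ((k : ℤ) + 1) + 1) ≤ 3 ^ k := by
        intro k hk
        induction k, hk using Nat.le_induction with
        | base => norm_num
        | succ k hk ih =>
          rw [pow_succ]
          push_cast
          have : (0 : ℤ) ≤ k := Nat.cast_nonneg _
          linarith
      have h3 := h2 (q - 1) (by omega)
      have h4 : ((q - 1 : ℕ) : ℤ) = q - 1 := by
        rw [Nat.cast_sub (by omega)]; norm_num
      rw [h4] at h3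
      have h5 : (3 : ℤ) ^ (q - 1) ≤ |Z| ^ (q - 1) := pow_le_pow_left₀ (by norm_num) hZ3 _
      have h6 : |Z| ^ q = |Z| * |Z| ^ (q - 1) := by
        rw [← pow_succ', Nat.sub_add_cancel hq.pos]
      rw [h6] at h1
      have h7 : |Z| * (2 * (q : ℤ) + 1) ≤ |Z| * |Z| ^ (q - 1) :=
        mul_le_mul_of_nonneg_left (by linarith) (by linarith)
      have h8 : (3 : ℤ) ≤ q := by exact_mod_cast hq3
      nlinarith
    -- `p ∣ Z - W` with `0 < |Z - W| ≤ 3`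
    have h2 : |Z - W| ≤ 3 := by
      calc |Z - W| ≤ |Z| + |W| := abs_sub _ _
        _ ≤ 3 := by rw [hWa]; linarith
    have h3 : 0 < |Z - W| := abs_pos.mpr (sub_ne_zero.mpr hD)
    have h4 : (p : ℤ) ∣ |Z - W| := (dvd_abs _ _).mpr hpD
    have h5 : (p : ℤ) ≤ 3 := (Int.le_of_dvd h3 h4).trans h2
    have h6 : p ≤ 3 := by exact_mod_cast h5
    have h7 := hp.two_le
    have h8 : p = 2 ∨ p = 3 := by omega
    rcases h8 with rfl | rfl
    · exact hpP h2P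
    · exact hpP h3P

end Pool.Agent.TH888.G
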