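import Mathlib
import Pool.Agent.TH888.G.Fac
import Pool.Agent.TH888.F.Boot

/-!
`Z ^ q - W ^ q = v B ^ y` with `S`-units `W`, `v`: the exponents are bounded by a power of `log B`.
-/

set_option autoImplicit false

namespace Pool.Agent.TH888.G

open Finset
open Pool.Agent.TH888.W2 (Su baker_su)
open Pool.Agent.TH888.F (Ph ph_mul ph_mod ph_mod' ph_prime boot)

theorem ph_abs {q R : ℕ} {Z W : ℤ} (hZ : Z.natAbs ≤ 2 ^ R) (hW : W.natAbs ≤ 2 ^ R) :
    (Ph q Z W).natAbs ≤ q * 2 ^ (R * (q - 1)) := by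
  have hZ' : |Z| ≤ 2 ^ R := by
    rw [Int.abs_eq_natAbs]; exact_mod_cast hZ
  have hW' : |W| ≤ 2 ^ R := by
    rw [Int.abs_eq_natAbs]; exact_mod_cast hW
  have h1 : |Ph q Z W| ≤ q * 2 ^ (R * (q - 1)) := by
    unfold Ph
    calc |∑ i ∈ range q, Z ^ i * W ^ (q - 1 - i)| ≤ ∑ i ∈ range q, |Z ^ i * W ^ (q - 1 - i)| :=
          Finset.abs_sum_le_sum_abs _ _
      _ ≤ ∑ _i ∈ range q, (2 : ℤ) ^ (R * (q - 1)) := by
          refine Finset.sum_le_sum fun i hi => ?_
          rw [abs_mul, abs_pow, abs_pow]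
          calc |Z| ^ i * |W| ^ (q - 1 - i) ≤ (2 ^ R) ^ i * (2 ^ R) ^ (q - 1 - i) :=
                mul_le_mul (pow_le_pow_left₀ (abs_nonneg _) hZ' _)
                  (pow_le_pow_left₀ (abs_nonneg _) hW' _) (by positivity) (by positivity)
            _ = (2 : ℤ) ^ (R * (q - 1)) := by
                rw [← pow_add, ← pow_mul]
                congr 2
                have := mem_range.mp hi
                omega
      _ = q * 2 ^ (R * (q - 1)) := by rw [sum_const, card_range, nsmul_eq_mul]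
  rw [Int.abs_eq_natAbs] at h1
  exact_mod_cast h1

theorem sq_of_sgn {σ F : ℤ} {n : ℤ} (hσ : σ = 1 ∨ σ = -1) (h : F = σ * n) : n ^ 2 = F ^ 2 := by
  rcases hσ with rfl | rfl <;> rw [h] <;> ring

theorem exp_bound {P : Finset ℕ} (hP : ∀ l ∈ P, l.Prime) {q : ℕ} (hq : q.Prime) (hqP : q ∈ P)
    (h2P : 2 ∈ P) (h3P : 3 ∈ P) : ∃ C κ : ℕ, ∀ (S₀ p B y : ℕ) (Z W v : ℤ), 4 * q + 4 ≤ S₀ →
      (∀ l ∈ P, l ≤ S₀) → p.Prime → p ∉ P → p ≤ S₀ → 0 < B → B ≤ 2 ^ S₀ → 0 < y → IsCoprime Z W →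
      Su P W.natAbs → Su P v.natAbs → Z ^ q - W ^ q = v * (B : ℤ) ^ y → (p : ℤ) ∣ Z - W →
      ¬ (p : ℤ) ∣ Ph q Z W →
      ∃ (e b₁ b₂ s₁ s₂ : ℕ) (σ₁ σ₂ : ℤ), Su P e ∧ Su P s₁ ∧ Su P s₂ ∧ (σ₁ = 1 ∨ σ₁ = -1) ∧
        (σ₂ = 1 ∨ σ₂ = -1) ∧ e * (b₁ * b₂) = B ∧
        Z - W = σ₁ * (s₁ * (b₁ : ℤ) ^ y) ∧ Ph q Z W = σ₂ * (s₂ * (b₂ : ℤ) ^ y) ∧
        y ≤ C * S₀ ^ κ ∧ (∀ l, W.natAbs.factorization l ≤ C * S₀ ^ κ) ∧
        (∀ l, s₁.factorization l ≤ C * S₀ ^ κ) ∧ (∀ l, s₂.factorization l ≤ C * S₀ ^ κ) := by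
  obtain ⟨C₁, κ, hbak⟩ := baker_su P
  obtain ⟨C₂, hC₂⟩ : ∃ C₂, C₂ = (C₁ + 1) * (1 + 2 * P.card) + P.card * q +
    P.card * q * ((C₁ + 1) * (P.card + 2)) := ⟨_, rfl⟩
  obtain ⟨C, hboot⟩ := boot C₂ (κ + 1) (4 * q + 4)
  refine ⟨C, κ + 1, ?_⟩
  intro S₀ p B y Z W v hS₀ hPS hp hpP hpS hB hBS hy hcop hW hv h hpD hpF
  obtain ⟨e, b₁, b₂, s₁, s₂, σ₁, σ₂, he, hs₁, hs₂, hσ₁, hσ₂, hB', hb₁, hb₂, hcb, hD, hF⟩ :=
    fac hP hq hqP hy hW hv hB h
  have hq2 := hq.two_le
  have hpi := Nat.prime_iff_prime_int.mp hp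
  have hb₁0 : 0 < b₁ := Nat.pos_of_ne_zero (by rintro rfl; rw [zero_mul, mul_zero] at hB'; omega)
  have hb₂0 : 0 < b₂ := Nat.pos_of_ne_zero (by rintro rfl; rw [mul_zero, mul_zero] at hB'; omega)
  have he0 : 0 < e := Nat.pos_of_ne_zero he.1
  have hs₁0 : 0 < s₁ := Nat.pos_of_ne_zero hs₁.1
  have hs₂0 : 0 < s₂ := Nat.pos_of_ne_zero hs₂.1
  have hW0 : 0 < W.natAbs := Nat.pos_of_ne_zero hW.1
  have hb₁B : b₁ ≤ B := by
    rw [← hB']
    calc b₁ ≤ b₁ * b₂ := Nat.le_mul_of_pos_right _ hb₂0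
      _ ≤ e * (b₁ * b₂) := Nat.le_mul_of_pos_left _ he0
  have hb₂B : b₂ ≤ B := by
    rw [← hB']
    calc b₂ ≤ b₁ * b₂ := Nat.le_mul_of_pos_left _ hb₁0
      _ ≤ e * (b₁ * b₂) := Nat.le_mul_of_pos_left _ he0
  have hZW : Z ≠ W := by
    intro h0
    rw [h0, sub_self] at hD
    have h1 : (s₁ : ℤ) * (b₁ : ℤ) ^ y ≠ 0 := by positivity
    rcases hσ₁ with rfl | rfl <;> omega
  have hpsu : ∀ {n : ℕ}, Su P n → ¬ p ∣ n := fun hn h1 => hpP (hn.2 p hp h1)
  have hps₁ : ¬ p ∣ s₁ := hpsu hs₁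
  have hps₂ : ¬ p ∣ s₂ := hpsu hs₂
  have hpb₁ : p ∣ b₁ := by
    rw [hD] at hpD
    have h1 : (p : ℤ) ∣ s₁ * (b₁ : ℤ) ^ y := by
      rcases hσ₁ with rfl | rfl
      · rwa [one_mul] at hpD
      · rwa [neg_one_mul, dvd_neg] at hpD
    have h2 : p ∣ s₁ * b₁ ^ y := by exact_mod_cast h1
    exact hp.dvd_of_dvd_pow ((hp.dvd_mul.mp h2).resolve_left hps₁)
  have hpb₂ : ¬ p ∣ b₂ := fun h1 => by
    have h3 := Nat.dvd_gcd hpb₁ h1
    rw [hcb] at h3
    exact hp.one_lt.ne' (Nat.dvd_one.mp h3)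
  have hne1 : s₂ * b₂ ^ y ≠ q * W.natAbs ^ (q - 1) :=
    not_eq hq hqP h2P h3P hcop hW hσ₂ hF hp hpP hpD hZW
  have hsqF : (((s₂ * b₂ ^ y : ℕ)) : ℤ) ^ 2 = Ph q Z W ^ 2 := by
    refine sq_of_sgn hσ₂ ?_
    rw [hF]; push_cast; rfl
  have hsqD : (((s₁ * b₁ ^ y : ℕ)) : ℤ) ^ 2 = (Z - W) ^ 2 := by
    refine sq_of_sgn hσ₁ ?_
    rw [hD]; push_cast; rfl
  have hsqW : ∀ k : ℕ, ((W.natAbs ^ k : ℕ) : ℤ) ^ 2 = (W ^ k) ^ 2 := by
    intro k
    rw [Nat.cast_pow, Int.natCast_natAbs, ← abs_pow, sq_abs]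
  have hsWq : (((q * W.natAbs ^ (q - 1) : ℕ)) : ℤ) ^ 2 = (q * W ^ (q - 1)) ^ 2 := by
    rw [Nat.cast_mul, mul_pow, hsqW, mul_pow]
  have hsqD' : (((s₁ ^ (q - 1) * b₁ ^ (y * (q - 1)) : ℕ)) : ℤ) ^ 2 = ((Z - W) ^ (q - 1)) ^ 2 := by
    rw [pow_mul, ← mul_pow, Nat.cast_pow, ← pow_mul, mul_comm (q - 1) 2, pow_mul, hsqD, ← pow_mul,
      ← pow_mul, mul_comm 2 (q - 1)]
  -- primes of `P`
  have hlW : ∀ l ∈ P, l ∣ W.natAbs → ¬ l ∣ s₁ ∧ ¬ l ∣ s₂ := by
    intro l hl h1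
    have hlp := hP l hl
    have hli := Nat.prime_iff_prime_int.mp hlp
    have h1' : (l : ℤ) ∣ W := Int.natCast_dvd.mpr h1
    have hlZ : ¬ (l : ℤ) ∣ Z := fun h2 => hli.not_isUnit (hcop.isUnit_of_dvd' h2 h1')
    constructor
    · intro h2
      apply hlZ
      have h3 : (l : ℤ) ∣ Z - W := by
        rw [hD]
        exact Dvd.dvd.mul_left (Dvd.dvd.mul_right (by exact_mod_cast h2) _) _
      exact (dvd_sub_left h1').mp h3
    · intro h2
      apply hlZ
      have h3 : (l : ℤ) ∣ Ph q Z W := by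
        rw [hF]
        exact Dvd.dvd.mul_left (Dvd.dvd.mul_right (by exact_mod_cast h2) _) _
      exact hli.dvd_of_dvd_pow ((dvd_sub_right h3).mp (ph_mod' hq.pos h1'))
  have hlD : ∀ l ∈ P, l ∣ s₁ → ¬ l ∣ W.natAbs := fun l hl h1 h2 => (hlW l hl h2).1 h1
  obtain ⟨X, hX⟩ : ∃ X, X = y + ∑ l ∈ P, W.natAbs.factorization l + ∑ l ∈ P, s₁.factorization l +
    ∑ l ∈ P, s₂.factorization l := ⟨_, rfl⟩
  have hyX : y ≤ X := by omega
  have hX1 : 1 ≤ X := by omega
  have hWX : ∀ l, W.natAbs.factorization l ≤ X := fun l => (hW.fact_le l).trans (by omega)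
  have hs₁X : ∀ l, s₁.factorization l ≤ X := fun l => (hs₁.fact_le l).trans (by omega)
  have hs₂X : ∀ l, s₂.factorization l ≤ X := fun l => (hs₂.fact_le l).trans (by omega)
  have hmain : X ≤ C * S₀ ^ (κ + 1) := by
    apply hboot S₀ X (by omega)
    intro S hS hXS
    have hBS' : B ≤ 2 ^ S := hBS.trans (Nat.pow_le_pow_right (by norm_num) hS)
    have hSS : S ≤ 2 ^ S := Nat.lt_two_pow_self.le
    have hlS : ∀ l ∈ P, l ≤ 2 ^ S := fun l hl => ((hPS l hl).trans hS).trans hSS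
    have hqX : 2 * (q * X) ≤ 2 ^ S := by
      refine le_trans ?_ hXS
      have : (4 * q + 4) * X = 4 * (q * X) + 4 * X := by ring
      omega
    have hX2 : X ≤ q * X := Nat.le_mul_of_pos_left _ hq.pos
    have hq1X : (q - 1) * X + X = q * X := by
      have : q = (q - 1) + 1 := by omega
      calc (q - 1) * X + X = ((q - 1) + 1) * X := by ring
        _ = q * X := by rw [← this]
    have hfs₂ : ∀ l, 2 * s₂.factorization l ≤ 2 ^ S := fun l => by
      have := hs₂X l; omega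
    have hfW : ∀ l, 2 * (W.natAbs ^ (q - 1)).factorization l ≤ 2 ^ S := by
      intro l
      rw [Nat.factorization_pow]
      simp only [Finsupp.smul_apply, smul_eq_mul]
      have : (q - 1) * W.natAbs.factorization l ≤ (q - 1) * X := Nat.mul_le_mul_left _ (hWX l)
      omega
    have hfqW : ∀ l, 2 * (q * W.natAbs ^ (q - 1)).factorization l ≤ 2 ^ S := by
      intro l
      rw [Nat.factorization_mul hq.ne_zero (pow_ne_zero _ hW0.ne'), Nat.factorization_pow]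
      simp only [Finsupp.add_apply, Finsupp.smul_apply, smul_eq_mul]
      have h1 : (q - 1) * W.natAbs.factorization l ≤ (q - 1) * X := Nat.mul_le_mul_left _ (hWX l)
      have h2 : q.factorization l ≤ 1 := by
        rw [hq.factorization]
        by_cases h : q = l
        · rw [h]; simp
        · rw [Finsupp.single_eq_of_ne (Ne.symm h)]; exact Nat.zero_le _
      omega
    have hfs₁ : ∀ l, 2 * (s₁ ^ (q - 1)).factorization l ≤ 2 ^ S := by
      intro l
      rw [Nat.factorization_pow]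
      simp only [Finsupp.smul_apply, smul_eq_mul]
      have : (q - 1) * s₁.factorization l ≤ (q - 1) * X := Nat.mul_le_mul_left _ (hs₁X l)
      omega
    have h2y : 2 * y ≤ 2 ^ S := by omega
    have h2yq : 2 * (y * (q - 1)) ≤ 2 ^ S := by
      have : y * (q - 1) ≤ X * (q - 1) := Nat.mul_le_mul_right _ hyX
      rw [mul_comm X] at this
      omega
    have h1S : 1 ≤ 2 ^ S := Nat.one_le_two_pow
    have hSuW : ∀ k, Su P (W.natAbs ^ k) := fun k => su_pow hW k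
    have hSuq : Su P q := su_prime' hqP hq
    have hn1 : ∀ {l : ℕ}, l.Prime → ¬ l ∣ 1 := fun hl => hl.one_lt.ne' ∘ Nat.dvd_one.mp
    -- `y`
    have b1 : y ≤ C₁ * S ^ κ := by
      refine hbak p S hp (hpS.trans hS) hlS s₂ (q * W.natAbs ^ (q - 1)) b₂ 1 y 0 y hs₂
        (su_mul hSuq (hSuW _)) hb₂0 one_pos hps₂ (hpsu (su_mul hSuq (hSuW _))) hpb₂ (hn1 hp)
        (hb₂B.trans hBS') h1S hfs₂ hfqW h2y (by omega) (by rw [pow_zero, mul_one]; exact hne1) ?_
      rw [pow_zero, mul_one, hsqF, hsWq, sq_sub_sq]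
      refine Dvd.dvd.mul_left (ph_mod ?_) _
      rw [hD]
      exact Dvd.dvd.mul_left (Dvd.dvd.mul_left (pow_dvd_pow_of_dvd (by exact_mod_cast hpb₁) y) _) _
    -- the exponents of `W`
    have b2 : ∀ l, W.natAbs.factorization l ≤ C₁ * S ^ κ := by
      intro l
      by_cases h0 : W.natAbs.factorization l = 0
      · rw [h0]; exact Nat.zero_le _
      have hl1 : l.Prime := by
        by_contra hcon
        exact h0 (Nat.factorization_eq_zero_of_not_prime _ hcon)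
      have hl2 : l ∣ W.natAbs := by
        by_contra hcon
        exact h0 (Nat.factorization_eq_zero_of_not_dvd hcon)
      have hlP : l ∈ P := hW.2 l hl1 hl2
      obtain ⟨g1, g2⟩ := hlW l hlP hl2
      refine hbak l S hl1 ((hPS l hlP).trans hS) hlS s₂ (s₁ ^ (q - 1)) b₂ b₁ y (y * (q - 1))
        (W.natAbs.factorization l) hs₂ (su_pow hs₁ _) hb₂0 hb₁0 g2
        (fun h1 => g1 (hl1.dvd_of_dvd_pow h1)) (hb₂ l hlP) (hb₁ l hlP) (hb₂B.trans hBS')
        (hb₁B.trans hBS') hfs₂ hfs₁ h2y h2yq ?_ ?_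
      · intro he
        have h1 : p ∣ s₂ * b₂ ^ y := by
          rw [he]
          exact (dvd_pow hpb₁ (Nat.mul_pos hy (by omega)).ne').mul_left _
        rcases hp.dvd_mul.mp h1 with h2 | h2
        · exact hps₂ h2
        · exact hpb₂ (hp.dvd_of_dvd_pow h2)
      · rw [hsqF, hsqD', sq_sub_sq]
        refine Dvd.dvd.mul_left ?_ _
        have h1 : (l : ℤ) ^ W.natAbs.factorization l ∣ W := by
          rw [← Int.dvd_natAbs]
          exact_mod_cast Nat.ordProj_dvd W.natAbs l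
        have h2 := ph_mod' hq.pos (Z := Z) h1
        have h3 : (l : ℤ) ^ W.natAbs.factorization l ∣ Z ^ (q - 1) - (Z - W) ^ (q - 1) := by
          refine dvd_trans ?_ (sub_dvd_pow_sub_pow _ _ _)
          rw [sub_sub_cancel]; exact h1
        have h4 := dvd_add h2 h3
        rwa [sub_add_sub_cancel] at h4
    -- the exponents of `s₁`
    have b3 : ∀ l, s₁.factorization l ≤ C₁ * S ^ κ + 1 := by
      intro l
      by_cases h0 : s₁.factorization l = 0
      · rw [h0]; exact Nat.zero_le _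
      have hl1 : l.Prime := by
        by_contra hcon
        exact h0 (Nat.factorization_eq_zero_of_not_prime _ hcon)
      have hli := Nat.prime_iff_prime_int.mp hl1
      have hl2 : l ∣ s₁ := by
        by_contra hcon
        exact h0 (Nat.factorization_eq_zero_of_not_dvd hcon)
      have hlP : l ∈ P := hs₁.2 l hl1 hl2
      have hlWn : ¬ l ∣ W.natAbs := hlD l hlP hl2
      have hlWi : ¬ (l : ℤ) ∣ W := fun h1 => hlWn (Int.natCast_dvd.mp h1)
      have hdD : (l : ℤ) ^ s₁.factorization l ∣ Z - W := by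
        rw [hD]
        exact Dvd.dvd.mul_left (Dvd.dvd.mul_right (by exact_mod_cast Nat.ordProj_dvd s₁ l) _) _
      have hcong := ph_mod (q := q) hdD
      rcases eq_or_ne l q with hlq | hlq
      · subst hlq
        rcases Nat.lt_or_ge (s₁.factorization l) 2 with hlt | hge
        · omega
        obtain ⟨k, hk⟩ : ∃ k, s₁.factorization l = k + 2 := ⟨s₁.factorization l - 2, by omega⟩
        rw [hk] at hcong ⊢
        have hl2d : (l : ℤ) ^ 2 ∣ Ph l Z W - l * W ^ (l - 1) := (pow_dvd_pow _ (by omega)).trans hcong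
        have hlF : (l : ℤ) ∣ Ph l Z W := by
          have h1 : (l : ℤ) ∣ Ph l Z W - l * W ^ (l - 1) := (dvd_pow_self _ two_ne_zero).trans hl2d
          exact (dvd_sub_left (Dvd.intro _ rfl)).mp h1
        have hls₂ : l ∣ s₂ := by
          rw [hF] at hlF
          have h1 : (l : ℤ) ∣ s₂ * (b₂ : ℤ) ^ y := by
            rcases hσ₂ with rfl | rfl
            · rwa [one_mul] at hlF
            · rwa [neg_one_mul, dvd_neg] at hlF
          have h2 : l ∣ s₂ * b₂ ^ y := by exact_mod_cast h1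
          exact (hl1.dvd_mul.mp h2).resolve_right fun h3 => hb₂ l hlP (hl1.dvd_of_dvd_pow h3)
        obtain ⟨t, ht⟩ := hls₂
        have ht0 : t ≠ 0 := by rintro rfl; rw [mul_zero] at ht; omega
        have hFt : Ph l Z W = l * (σ₂ * (t * (b₂ : ℤ) ^ y)) := by
          rw [hF, ht]; push_cast; ring
        have hlt' : ¬ l ∣ t := by
          rintro ⟨t', ht'⟩
          have h1 : (l : ℤ) ^ 2 ∣ Ph l Z W := by
            rw [hFt, ht']
            exact ⟨σ₂ * (t' * (b₂ : ℤ) ^ y), by push_cast; ring⟩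
          have h2 : (l : ℤ) ^ 2 ∣ l * W ^ (l - 1) := (dvd_sub_right h1).mp hl2d
          rw [pow_two] at h2
          have h3 : (l : ℤ) ∣ W ^ (l - 1) :=
            (mul_dvd_mul_iff_left (by exact_mod_cast hl1.ne_zero)).mp h2
          exact hlWi (hli.dvd_of_dvd_pow h3)
        have hcong2 : (l : ℤ) ^ (k + 1) ∣ σ₂ * (t * (b₂ : ℤ) ^ y) - W ^ (l - 1) := by
          have h1 : (l : ℤ) * l ^ (k + 1) ∣ l * (σ₂ * (t * (b₂ : ℤ) ^ y) - W ^ (l - 1)) := by
            rw [← pow_succ', mul_sub, ← hFt]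
            exact hcong
          exact (mul_dvd_mul_iff_left (by exact_mod_cast hl1.ne_zero)).mp h1
        have hts₂ : t ∣ s₂ := ⟨l, by rw [ht, mul_comm]⟩
        have hft : ∀ r, 2 * t.factorization r ≤ 2 ^ S := by
          intro r
          have h1 := (Nat.factorization_le_iff_dvd ht0 hs₂.1).mpr hts₂ r
          have h2 := hfs₂ r
          omega
        have hsqt : (((t * b₂ ^ y : ℕ)) : ℤ) ^ 2 = (σ₂ * (t * (b₂ : ℤ) ^ y)) ^ 2 := by
          refine sq_of_sgn hσ₂ ?_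
          push_cast; rfl
        have := hbak l S hl1 ((hPS l hlP).trans hS) hlS t (W.natAbs ^ (l - 1)) b₂ 1 y 0 (k + 1)
          (su_of_dvd hs₂ hts₂) (hSuW _) hb₂0 one_pos hlt' (fun h1 => hlWn (hl1.dvd_of_dvd_pow h1))
          (hb₂ l hlP) (hn1 hl1) (hb₂B.trans hBS') h1S hft hfW h2y (by omega) (by
            rw [pow_zero, mul_one]
            intro h1
            apply hne1
            rw [ht, mul_assoc, h1]) (by
            rw [pow_zero, mul_one, hsqt, hsqW, sq_sub_sq]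
            exact Dvd.dvd.mul_left hcong2 _)
        omega
      · have hlF : ¬ l ∣ s₂ := by
          intro h1
          have h2 : (l : ℤ) ∣ Ph q Z W := by
            rw [hF]
            exact Dvd.dvd.mul_left (Dvd.dvd.mul_right (by exact_mod_cast h1) _) _
          have h3 : (l : ℤ) ∣ Ph q Z W - q * W ^ (q - 1) := (dvd_pow_self _ h0).trans hcong
          have h4 : (l : ℤ) ∣ q * W ^ (q - 1) := (dvd_sub_right h2).mp h3
          rcases hli.dvd_or_dvd h4 with h5 | h5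
          · have h6 : l ∣ q := by exact_mod_cast h5
            exact hlq ((Nat.prime_dvd_prime_iff_eq hl1 hq).mp h6)
          · exact hlWi (hli.dvd_of_dvd_pow h5)
        have hlqW : ¬ l ∣ q * W.natAbs ^ (q - 1) := by
          intro h1
          rcases hl1.dvd_mul.mp h1 with h2 | h2
          · exact hlq ((Nat.prime_dvd_prime_iff_eq hl1 hq).mp h2)
          · exact hlWn (hl1.dvd_of_dvd_pow h2)
        have := hbak l S hl1 ((hPS l hlP).trans hS) hlS s₂ (q * W.natAbs ^ (q - 1)) b₂ 1 y 0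
          (s₁.factorization l) hs₂ (su_mul hSuq (hSuW _)) hb₂0 one_pos hlF hlqW (hb₂ l hlP)
          (hn1 hl1) (hb₂B.trans hBS') h1S hfs₂ hfqW h2y (by omega)
          (by rw [pow_zero, mul_one]; exact hne1) (by
            rw [pow_zero, mul_one, hsqF, hsWq, sq_sub_sq]
            exact Dvd.dvd.mul_left hcong _)
        omega
    -- sizes
    obtain ⟨Y, hY⟩ : ∃ Y, Y = C₁ * S ^ κ + 1 := ⟨_, rfl⟩
    have c1 : y ≤ Y := by omega
    have c2 : ∀ l, W.natAbs.factorization l ≤ Y := fun l => by have := b2 l; omega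
    have c3 : ∀ l, s₁.factorization l ≤ Y := fun l => by have := b3 l; omega
    have d1 : W.natAbs ≤ 2 ^ (S * Y * P.card) := hW.le_pow hlS c2
    have d2 : s₁ ≤ 2 ^ (S * Y * P.card) := hs₁.le_pow hlS c3
    have d3 : b₁ ^ y ≤ 2 ^ (S * Y) := by
      calc b₁ ^ y ≤ (2 ^ S) ^ y := Nat.pow_le_pow_left (hb₁B.trans hBS') _
        _ ≤ (2 ^ S) ^ Y := Nat.pow_le_pow_right (by positivity) c1
        _ = _ := by rw [← pow_mul]
    obtain ⟨R, hR⟩ : ∃ R, R = S * Y * P.card + S * Y + 1 := ⟨_, rfl⟩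
    have d4 : (Z - W).natAbs ≤ 2 ^ (S * Y * P.card + S * Y) := by
      have h1 : (Z - W).natAbs = s₁ * b₁ ^ y := by
        rw [hD, Int.natAbs_mul]
        have : σ₁.natAbs = 1 := by rcases hσ₁ with rfl | rfl <;> rfl
        rw [this, one_mul, Int.natAbs_mul, Int.natAbs_pow, Int.natAbs_natCast, Int.natAbs_natCast]
      rw [h1, pow_add]
      exact Nat.mul_le_mul d2 d3
    have d5 : Z.natAbs ≤ 2 ^ R := by
      have h1 : Z.natAbs ≤ (Z - W).natAbs + W.natAbs := by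
        have := Int.natAbs_add_le (Z - W) W
        rwa [sub_add_cancel] at this
      have h2 : 2 ^ (S * Y * P.card) ≤ 2 ^ (S * Y * P.card + S * Y) :=
        Nat.pow_le_pow_right (by norm_num) (by omega)
      rw [hR, pow_succ]
      omega
    have d6 : W.natAbs ≤ 2 ^ R := d1.trans (Nat.pow_le_pow_right (by norm_num) (by omega))
    have d7 : s₂ ≤ q * 2 ^ (R * (q - 1)) := by
      have h1 : (Ph q Z W).natAbs = s₂ * b₂ ^ y := by
        rw [hF, Int.natAbs_mul]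
        have : σ₂.natAbs = 1 := by rcases hσ₂ with rfl | rfl <;> rfl
        rw [this, one_mul, Int.natAbs_mul, Int.natAbs_pow, Int.natAbs_natCast, Int.natAbs_natCast]
      calc s₂ ≤ s₂ * b₂ ^ y := Nat.le_mul_of_pos_right _ (by positivity)
        _ ≤ _ := by rw [← h1]; exact ph_abs d5 d6
    have b4 : ∀ l, s₂.factorization l ≤ q + R * (q - 1) := by
      intro l
      by_cases h0 : s₂.factorization l = 0
      · rw [h0]; exact Nat.zero_le _
      have hl1 : l.Prime := by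
        by_contra hcon
        exact h0 (Nat.factorization_eq_zero_of_not_prime _ hcon)
      have h1 : 2 ^ s₂.factorization l ≤ 2 ^ (q + R * (q - 1)) := by
        calc 2 ^ s₂.factorization l ≤ l ^ s₂.factorization l := Nat.pow_le_pow_left hl1.two_le _
          _ ≤ s₂ := Nat.le_of_dvd hs₂0 (Nat.ordProj_dvd _ _)
          _ ≤ q * 2 ^ (R * (q - 1)) := d7
          _ ≤ 2 ^ q * 2 ^ (R * (q - 1)) := Nat.mul_le_mul_right _ Nat.lt_two_pow_self.le
          _ = _ := by rw [← pow_add]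
      exact (Nat.pow_le_pow_iff_right (by norm_num)).mp h1
    have hsum : ∀ {f : ℕ → ℕ} {M : ℕ}, (∀ l, f l ≤ M) → ∑ l ∈ P, f l ≤ P.card * M := by
      intro f M hf
      calc ∑ l ∈ P, f l ≤ ∑ _l ∈ P, M := Finset.sum_le_sum fun l _ => hf l
        _ = _ := by rw [sum_const, smul_eq_mul]
    have t1 := hsum c2
    have t2 := hsum c3
    have t3 := hsum b4
    have hS1 : 1 ≤ S ^ κ := Nat.one_le_pow _ _ (by omega)
    have hY' : Y ≤ (C₁ + 1) * S ^ κ := by rw [hY]; nlinarith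
    have hSκ : S ^ κ ≤ S ^ (κ + 1) := Nat.pow_le_pow_right (by omega) (by omega)
    have hR' : R ≤ (C₁ + 1) * (P.card + 2) * S ^ (κ + 1) := by
      have h1 : S * Y ≤ (C₁ + 1) * S ^ (κ + 1) := by
        calc S * Y ≤ S * ((C₁ + 1) * S ^ κ) := Nat.mul_le_mul_left _ hY'
          _ = _ := by rw [pow_succ]; ring
      have h2 : 1 ≤ (C₁ + 1) * S ^ (κ + 1) := by
        have : 1 ≤ S ^ (κ + 1) := Nat.one_le_pow _ _ (by omega)
        nlinarith
      calc R = (S * Y) * P.card + S * Y + 1 := hR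
        _ ≤ ((C₁ + 1) * S ^ (κ + 1)) * P.card + (C₁ + 1) * S ^ (κ + 1) + (C₁ + 1) * S ^ (κ + 1) := by
          have h3 := Nat.mul_le_mul_right P.card h1
          omega
        _ = _ := by ring
    have hb : X ≤ Y + P.card * Y + P.card * Y + P.card * (q + R * (q - 1)) := by omega
    have hY'' : Y ≤ (C₁ + 1) * S ^ (κ + 1) := hY'.trans (Nat.mul_le_mul_left _ hSκ)
    have hS1' : 1 ≤ S ^ (κ + 1) := Nat.one_le_pow _ _ (by omega)
    calc X ≤ Y + P.card * Y + P.card * Y + P.card * (q + R * (q - 1)) := hb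
      _ ≤ Y + P.card * Y + P.card * Y + P.card * (q + R * q) := by
        have : R * (q - 1) ≤ R * q := Nat.mul_le_mul_left _ (by omega)
        have := Nat.mul_le_mul_left P.card (show q + R * (q - 1) ≤ q + R * q by omega)
        omega
      _ ≤ (C₁ + 1) * S ^ (κ + 1) + P.card * ((C₁ + 1) * S ^ (κ + 1)) +
          P.card * ((C₁ + 1) * S ^ (κ + 1)) + P.card * (q * S ^ (κ + 1) +
            ((C₁ + 1) * (P.card + 2) * S ^ (κ + 1)) * q) := by
        have e1 := Nat.mul_le_mul_left P.card hY''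
        have e2 : q ≤ q * S ^ (κ + 1) := Nat.le_mul_of_pos_right _ (by omega)
        have e3 := Nat.mul_le_mul_right q hR'
        have e4 := Nat.mul_le_mul_left P.card (Nat.add_le_add e2 e3)
        omega
      _ = C₂ * S ^ (κ + 1) := by rw [hC₂]; ring
  exact ⟨e, b₁, b₂, s₁, s₂, σ₁, σ₂, he, hs₁, hs₂, hσ₁, hσ₂, hB', hD, hF, hyX.trans hmain,
    fun l => (hWX l).trans hmain, fun l => (hs₁X l).trans hmain, fun l => (hs₂X l).trans hmain⟩

end Pool.Agent.TH888.G
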