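import Mathlib
import Pool.Agent.TH888.G.FacB
import Pool.Agent.TH888.W2.SInt
import Pool.Agent.H374R2.V.Final

/-!
Counting the `B` with `Z ^ q - W ^ q = v B ^ y`, `W`, `v` `S`-units.
-/

set_option autoImplicit false

namespace Pool.Agent.TH888.G

open Finset
open Pool.Agent.TH888.W2 (Su SF sf_mem sf_card)
open Pool.Agent.TH888.F (Ph ph_mul ph_mod ph_prime count_rel)

/-- `Z ^ q - W ^ q = v B ^ y` with `S`-units `W`, `v` -/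
def SolG (P : Finset ℕ) (q B : ℕ) : Prop := ∃ (Z W v : ℤ) (y : ℕ), 0 < y ∧ IsCoprime Z W ∧
  Su P W.natAbs ∧ Su P v.natAbs ∧ Z ^ q - W ^ q = v * (B : ℤ) ^ y

theorem not_both {P : Finset ℕ} {q p : ℕ} (hq : q.Prime) (hqP : q ∈ P) {Z W : ℤ}
    (hW : Su P W.natAbs) (hp : p.Prime) (hpP : p ∉ P) (h : (p : ℤ) ∣ Z - W) :
    ¬ (p : ℤ) ∣ Ph q Z W := by
  intro h2
  have h1 := ph_mod (q := q) h
  have h4 : (p : ℤ) ∣ q * W ^ (q - 1) := (dvd_sub_right h2).mp h1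
  rcases (Nat.prime_iff_prime_int.mp hp).dvd_or_dvd h4 with h5 | h5
  · have h6 : p ∣ q := by exact_mod_cast h5
    exact hpP (((Nat.prime_dvd_prime_iff_eq hp hq).mp h6) ▸ hqP)
  · have h6 : (p : ℤ) ∣ W := (Nat.prime_iff_prime_int.mp hp).dvd_of_dvd_pow h5
    exact hpP (hW.2 p hp (Int.natCast_dvd.mp h6))

theorem wlog_sign {P : Finset ℕ} {q p B : ℕ} (hq : q.Prime) (hqP : q ∈ P)
    (hp : p.Prime) (hpP : p ∉ P) (hp1 : q ≠ 2 → ¬ q ∣ p - 1) (hpB : p ∣ B) (h : SolG P q B) :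
    ∃ (Z W v : ℤ) (y : ℕ), 0 < y ∧ IsCoprime Z W ∧
      Su P W.natAbs ∧ Su P v.natAbs ∧ Z ^ q - W ^ q = v * (B : ℤ) ^ y ∧ (p : ℤ) ∣ Z - W ∧
      ¬ (p : ℤ) ∣ Ph q Z W := by
  obtain ⟨Z, W, v, y, hy, hcop, hW, hv, h⟩ := h
  by_cases hd : (p : ℤ) ∣ Z - W
  · exact ⟨Z, W, v, y, hy, hcop, hW, hv, h, hd, not_both hq hqP hW hp hpP hd⟩
  have hpF : (p : ℤ) ∣ Ph q Z W := by
    have h1 : (p : ℤ) ∣ Ph q Z W * (Z - W) := by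
      rw [ph_mul, h]
      exact Dvd.dvd.mul_left (dvd_pow (by exact_mod_cast hpB) hy.ne') _
    exact ((Nat.prime_iff_prime_int.mp hp).dvd_or_dvd h1).resolve_right hd
  rcases eq_or_ne q 2 with rfl | hq2
  · have hd' : (p : ℤ) ∣ Z - -W := by
      have : Ph 2 Z W = Z - -W := by
        unfold Ph
        simp [Finset.sum_range_succ]
        ring
      rwa [this] at hpF
    have hW' : Su P (-W).natAbs := by rw [Int.natAbs_neg]; exact hW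
    refine ⟨Z, -W, v, y, hy, hcop.neg_right, hW', hv, by rw [neg_sq]; exact h, hd',
      not_both hq hqP hW' hp hpP hd'⟩
  · exact absurd (ph_prime hq hp (hp1 hq2) hcop hpF) hd

theorem roots_bound {q : ℕ} (hq : 2 ≤ q) (W c : ℤ) : ∃ R : Finset ℤ, R.card ≤ q ∧
    ∀ Z : ℤ, Ph q Z W = c → Z ∈ R := by
  classical
  obtain ⟨f, hf⟩ : ∃ f : Polynomial ℤ, f = (∑ i ∈ range q, Polynomial.C (W ^ (q - 1 - i)) *
    Polynomial.X ^ i) - Polynomial.C c := ⟨_, rfl⟩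
  have hdeg : f.natDegree ≤ q := by
    rw [hf]
    refine (Polynomial.natDegree_sub_le_of_le (m := q) (n := q) ?_
      ((Polynomial.natDegree_C c).le.trans (Nat.zero_le q))).trans (max_self q).le
    refine Polynomial.natDegree_sum_le_of_forall_le _ _ fun i hi => ?_
    exact (Polynomial.natDegree_C_mul_X_pow_le _ _).trans (mem_range.mp hi).le
  have hne : f ≠ 0 := by
    intro h0
    have h1 : f.coeff (q - 1) = 1 := by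
      rw [hf, Polynomial.coeff_sub, Polynomial.finsetSum_coeff, Polynomial.coeff_C,
        if_neg (by omega), sub_zero]
      simp only [Polynomial.coeff_C_mul_X_pow]
      rw [Finset.sum_ite_eq, if_pos (mem_range.mpr (by omega)), Nat.sub_self, pow_zero]
    rw [h0, Polynomial.coeff_zero] at h1
    exact zero_ne_one h1
  refine ⟨f.roots.toFinset, ?_, fun Z hZ => ?_⟩
  · exact (Multiset.toFinset_card_le _).trans ((Polynomial.card_roots' f).trans hdeg)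
  · rw [Multiset.mem_toFinset, Polynomial.mem_roots hne, Polynomial.IsRoot.def, hf,
      Polynomial.eval_sub, Polynomial.eval_finsetSum, Polynomial.eval_C]
    simp only [Polynomial.eval_mul, Polynomial.eval_C, Polynomial.eval_pow, Polynomial.eval_X]
    rw [← hZ]
    unfold Ph
    rw [sub_eq_zero]
    exact Finset.sum_congr rfl fun i _ => mul_comm _ _

theorem pow_inj' {b b' y : ℕ} (hy : 0 < y) {t : ℤ} (ht : t ≠ 0)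
    (h : t * (b : ℤ) ^ y = t * (b' : ℤ) ^ y) : b = b' := by
  have h1 := mul_left_cancel₀ ht h
  have h2 : b ^ y = b' ^ y := by exact_mod_cast h1
  exact Nat.pow_left_injective (n := y) hy.ne' h2

theorem su_sgn {P : Finset ℕ} {s : ℕ} {σ : ℤ} (hs : Su P s) (hσ : σ = 1 ∨ σ = -1) {X : ℕ}
    (hX : ∀ l, s.factorization l ≤ X) : σ * s ∈ SF P X := by
  have h1 : (σ * (s : ℤ)).natAbs = s := by
    rw [Int.natAbs_mul, Int.natAbs_natCast]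
    rcases hσ with rfl | rfl <;> simp
  exact sf_mem (by rw [h1]; exact hs) (by rw [h1]; exact hX)

theorem count_nat {P : Finset ℕ} (hP : ∀ l ∈ P, l.Prime) {q : ℕ} (hq : q.Prime) (hqP : q ∈ P)
    (h2P : 2 ∈ P) (h3P : 3 ∈ P) : ∃ C κ : ℕ, ∀ S₀ N : ℕ, 4 * q + 4 + P.sup id ≤ S₀ → N ≤ 2 ^ S₀ →
      {B : ℕ | 0 < B ∧ B ≤ N ∧ (∃ p, p.Prime ∧ p ∉ P ∧ (q ≠ 2 → ¬ q ∣ p - 1) ∧ p ∣ B ∧ p ≤ S₀) ∧
        SolG P q B}.Finite ∧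
      {B : ℕ | 0 < B ∧ B ≤ N ∧ (∃ p, p.Prime ∧ p ∉ P ∧ (q ≠ 2 → ¬ q ∣ p - 1) ∧ p ∣ B ∧ p ≤ S₀) ∧
        SolG P q B}.ncard ≤ (q + 1) * ((Nat.sqrt N + 1) * ((C * S₀ ^ κ + 1) *
          ((2 * (C * S₀ ^ κ + 1) ^ P.card) * ((2 * (C * S₀ ^ κ + 1) ^ P.card) *
            ((2 * (C * S₀ ^ κ + 1) ^ P.card) * (2 * (S₀ + 1) ^ P.card)))))) := by
  classical
  obtain ⟨C, κ, hC⟩ := exp_bound hP hq hqP h2P h3P
  refine ⟨C, κ, fun S₀ N hS₀ hN => ?_⟩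
  obtain ⟨X, hX⟩ : ∃ X, X = C * S₀ ^ κ := ⟨_, rfl⟩
  rw [← hX]
  obtain ⟨I, hI⟩ : ∃ I : Finset (ℕ × ℕ × ℤ × ℤ × ℤ × ℤ), I = range (Nat.sqrt N + 1) ×ˢ
    range (X + 1) ×ˢ SF P X ×ˢ SF P X ×ˢ SF P X ×ˢ SF P S₀ := ⟨_, rfl⟩
  have hIc : I.card ≤ (Nat.sqrt N + 1) * ((X + 1) * ((2 * (X + 1) ^ P.card) *
      ((2 * (X + 1) ^ P.card) * ((2 * (X + 1) ^ P.card) * (2 * (S₀ + 1) ^ P.card))))) := by
    rw [hI]
    simp only [card_product, card_range]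
    have h1 := sf_card P X
    have h2 := sf_card P S₀
    gcongr
  -- the two kinds
  obtain ⟨R₁, hR₁⟩ : ∃ R₁ : (ℕ × ℕ × ℤ × ℤ × ℤ × ℤ) → ℕ → Prop, R₁ = fun (i : ℕ × ℕ × ℤ × ℤ × ℤ × ℤ) (B : ℕ) => 0 < i.2.1 ∧
    i.2.2.2.2.1 ≠ 0 ∧ ∃ b₂ : ℕ, (B : ℤ) = i.2.2.2.2.2 * (i.1 * b₂) ∧
      Ph q (i.2.2.1 + i.2.2.2.1 * (i.1 : ℤ) ^ i.2.1) i.2.2.1 = i.2.2.2.2.1 * (b₂ : ℤ) ^ i.2.1 :=
    ⟨_, rfl⟩
  obtain ⟨R₂, hR₂⟩ : ∃ R₂ : (ℕ × ℕ × ℤ × ℤ × ℤ × ℤ) → ℕ → Prop, R₂ = fun (i : ℕ × ℕ × ℤ × ℤ × ℤ × ℤ) (B : ℕ) => 0 < i.2.1 ∧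
    i.2.2.2.1 ≠ 0 ∧ ∃ (b₁ : ℕ) (Z : ℤ), (B : ℤ) = i.2.2.2.2.2 * (b₁ * i.1) ∧
      Z - i.2.2.1 = i.2.2.2.1 * (b₁ : ℤ) ^ i.2.1 ∧
      Ph q Z i.2.2.1 = i.2.2.2.2.1 * (i.1 : ℤ) ^ i.2.1 := ⟨_, rfl⟩
  obtain ⟨E₁, hE₁⟩ : ∃ E₁ : Set ℕ, E₁ = {B | ∃ i ∈ I, R₁ i B} := ⟨_, rfl⟩
  obtain ⟨E₂, hE₂⟩ : ∃ E₂ : Set ℕ, E₂ = {B | ∃ i ∈ I, R₂ i B} := ⟨_, rfl⟩
  have c1 := count_rel E₁ I R₁ (fun B hB => by rw [hE₁] at hB; exact hB) (by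
    rintro ⟨b₁, y, W, t₁, t₂, e⟩ - B B' hB hB'
    rw [hR₁] at hB hB'
    obtain ⟨hy, ht, b₂, h1, h2⟩ := hB
    obtain ⟨-, -, b₂', h1', h2'⟩ := hB'
    simp only at h1 h2 h1' h2' hy ht
    have h3 := pow_inj' hy ht (h2.symm.trans h2')
    have h4 : (B : ℤ) = B' := by rw [h1, h1', h3]
    exact_mod_cast h4)
  have c2 := Pool.Agent.H374R2.V.ncard_le_of_cover (K := q) I (fun i => {B | R₂ i B}) (by
    rintro ⟨b₂, y, W, t₁, t₂, e⟩ -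
    obtain ⟨R, hRc, hR⟩ := roots_bound hq.two_le W (t₂ * (b₂ : ℤ) ^ y)
    have := count_rel {B | R₂ (b₂, y, W, t₁, t₂, e) B} R (fun Z B => 0 < y ∧ t₁ ≠ 0 ∧
      ∃ b₁ : ℕ, (B : ℤ) = e * (b₁ * b₂) ∧ Z - W = t₁ * (b₁ : ℤ) ^ y) (by
        intro B hB
        rw [Set.mem_ofPred_eq, hR₂] at hB
        obtain ⟨hy, ht, b₁, Z, h1, h2, h3⟩ := hB
        simp only at h1 h2 h3 hy ht
        exact ⟨Z, hR Z h3, hy, ht, b₁, h1, h2⟩) (by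
        rintro Z - B B' ⟨hy, ht, b₁, h1, h2⟩ ⟨-, -, b₁', h1', h2'⟩
        have h3 := pow_inj' hy ht (h2.symm.trans h2')
        have h4 : (B : ℤ) = B' := by rw [h1, h1', h3]
        exact_mod_cast h4)
    exact ⟨this.1, this.2.trans hRc⟩) E₂ (fun B hB => by rw [hE₂] at hB; exact hB)
  obtain ⟨E, hE⟩ : ∃ E : Set ℕ, E = {B : ℕ | 0 < B ∧ B ≤ N ∧ (∃ p, p.Prime ∧ p ∉ P ∧
    (q ≠ 2 → ¬ q ∣ p - 1) ∧ p ∣ B ∧ p ≤ S₀) ∧ SolG P q B} := ⟨_, rfl⟩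
  rw [← hE]
  have hsub : E ⊆ E₁ ∪ E₂ := by
    intro B hB
    rw [hE] at hB
    obtain ⟨hB0, hBN, ⟨p, hp, hpP, hp1, hpB, hpS⟩, hsol⟩ := hB
    obtain ⟨Z, W, v, y, hy, hcop, hW, hv, h, hpD, hpF⟩ := wlog_sign hq hqP hp hpP hp1 hpB hsol
    obtain ⟨e, b₁, b₂, s₁, s₂, σ₁, σ₂, he, hs₁, hs₂, hσ₁, hσ₂, hB', hD, hF, hyX, hWX, hs₁X, hs₂X⟩ :=
      hC S₀ p B y Z W v (by omega) (fun l hl => by
        have := Finset.le_sup (f := id) hl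
        simp only [id] at this
        omega) hp hpP hpS hB0 (hBN.trans hN) hy hcop hW hv h hpD hpF
    rw [← hX] at hyX hWX hs₁X hs₂X
    have hWm : W ∈ SF P X := sf_mem hW hWX
    have hm₁ := su_sgn hs₁ hσ₁ hs₁X
    have hm₂ := su_sgn hs₂ hσ₂ hs₂X
    have heX : ∀ l, e.factorization l ≤ S₀ := by
      intro l
      by_cases h0 : e.factorization l = 0
      · rw [h0]; exact Nat.zero_le _
      have hl1 : l.Prime := by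
        by_contra hcon
        exact h0 (Nat.factorization_eq_zero_of_not_prime _ hcon)
      have h1 : 2 ^ e.factorization l ≤ 2 ^ S₀ := by
        calc 2 ^ e.factorization l ≤ l ^ e.factorization l := Nat.pow_le_pow_left hl1.two_le _
          _ ≤ B := Nat.le_of_dvd hB0 ((Nat.ordProj_dvd _ _).trans (hB' ▸ Dvd.intro _ rfl))
          _ ≤ 2 ^ S₀ := hBN.trans hN
      exact (Nat.pow_le_pow_iff_right (by norm_num)).mp h1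
    have hem : (e : ℤ) ∈ SF P S₀ := sf_mem (by rw [Int.natAbs_natCast]; exact he)
      (by rw [Int.natAbs_natCast]; exact heX)
    have hσ0 : ∀ {σ : ℤ}, σ = 1 ∨ σ = -1 → σ ≠ 0 := by
      rintro σ (rfl | rfl) <;> norm_num
    have ht₁ : σ₁ * (s₁ : ℤ) ≠ 0 := mul_ne_zero (hσ0 hσ₁) (by exact_mod_cast hs₁.1)
    have ht₂ : σ₂ * (s₂ : ℤ) ≠ 0 := mul_ne_zero (hσ0 hσ₂) (by exact_mod_cast hs₂.1)
    have he0 : 0 < e := Nat.pos_of_ne_zero he.1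
    have hbb : b₁ * b₂ ≤ N := (Nat.le_mul_of_pos_left _ he0).trans (hB' ▸ hBN)
    have hBz : (B : ℤ) = e * (b₁ * b₂) := by rw [← hB']; push_cast; ring
    rcases le_total b₁ b₂ with hle | hle
    · left
      rw [hE₁]
      refine ⟨(b₁, y, W, σ₁ * s₁, σ₂ * s₂, (e : ℤ)), ?_, ?_⟩
      · rw [hI]
        simp only [mem_product, mem_range]
        refine ⟨?_, by omega, hWm, hm₁, hm₂, hem⟩
        exact Nat.lt_succ_of_le (Nat.le_sqrt.mpr ((Nat.mul_le_mul_left _ hle).trans hbb))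
      · rw [hR₁]
        refine ⟨hy, ht₂, b₂, hBz, ?_⟩
        simp only
        have : W + σ₁ * s₁ * (b₁ : ℤ) ^ y = Z := by rw [mul_assoc, ← hD]; ring
        rw [this, hF]; ring
    · right
      rw [hE₂]
      refine ⟨(b₂, y, W, σ₁ * s₁, σ₂ * s₂, (e : ℤ)), ?_, ?_⟩
      · rw [hI]
        simp only [mem_product, mem_range]
        refine ⟨?_, by omega, hWm, hm₁, hm₂, hem⟩
        exact Nat.lt_succ_of_le (Nat.le_sqrt.mpr ((Nat.mul_le_mul_right _ hle).trans hbb))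
      · rw [hR₂]
        refine ⟨hy, ht₁, b₁, Z, hBz, ?_, ?_⟩
        · simp only
          rw [hD]; ring
        · simp only
          rw [hF]; ring
  have hfin := c1.1.union c2.1
  refine ⟨hfin.subset hsub, ?_⟩
  calc E.ncard ≤ (E₁ ∪ E₂).ncard := Set.ncard_le_ncard hsub hfin
    _ ≤ E₁.ncard + E₂.ncard := Set.ncard_union_le _ _
    _ ≤ I.card + I.card * q := Nat.add_le_add c1.2 c2.2
    _ = (q + 1) * I.card := by ring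
    _ ≤ _ := Nat.mul_le_mul_left _ hIc

theorem count_g {P : Finset ℕ} (hP : ∀ l ∈ P, l.Prime) {q : ℕ} (hq : q.Prime) (hqP : q ∈ P)
    (h2P : 2 ∈ P) (h3P : 3 ∈ P) : ∃ C κ : ℕ, ∀ S₀ N : ℕ, 4 * q + 4 + P.sup id ≤ S₀ → 1 ≤ N →
      N ≤ 2 ^ S₀ →
      {B : ℕ | 0 < B ∧ B ≤ N ∧ (∃ p, p.Prime ∧ p ∉ P ∧ (q ≠ 2 → ¬ q ∣ p - 1) ∧ p ∣ B ∧ p ≤ S₀) ∧
        SolG P q B}.Finite ∧
      (({B : ℕ | 0 < B ∧ B ≤ N ∧ (∃ p, p.Prime ∧ p ∉ P ∧ (q ≠ 2 → ¬ q ∣ p - 1) ∧ p ∣ B ∧ p ≤ S₀) ∧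
        SolG P q B}.ncard : ℕ) : ℝ) ≤ C * (S₀ : ℝ) ^ κ * Real.sqrt N := by
  obtain ⟨C, κ, hC⟩ := count_nat hP hq hqP h2P h3P
  obtain ⟨s, hs⟩ : ∃ s, s = P.card := ⟨_, rfl⟩
  rw [← hs] at hC
  refine ⟨32 * (q + 1) * (C + 1) ^ (3 * s + 1) * 2 ^ s, κ * (3 * s + 1) + s, ?_⟩
  intro S₀ N hS₀ hN1 hN
  obtain ⟨h1, h2⟩ := hC S₀ N hS₀ hN
  refine ⟨h1, ?_⟩
  have hS1 : 1 ≤ S₀ := by omega
  have hS1R : (1 : ℝ) ≤ S₀ := by exact_mod_cast hS1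
  have e1 : ((C * S₀ ^ κ + 1 : ℕ) : ℝ) ≤ (C + 1) * (S₀ : ℝ) ^ κ := by
    have : (1 : ℝ) ≤ (S₀ : ℝ) ^ κ := one_le_pow₀ hS1R
    push_cast; linarith
  have e2 : ((S₀ + 1 : ℕ) : ℝ) ≤ 2 * S₀ := by push_cast; linarith
  have e3 : ((Nat.sqrt N + 1 : ℕ) : ℝ) ≤ 2 * Real.sqrt N := by
    have h3 : ((Nat.sqrt N : ℕ) : ℝ) ≤ Real.sqrt (N : ℝ) := Real.nat_sqrt_le_real_sqrt
    have h4 : (1 : ℝ) ≤ Real.sqrt N := by
      rw [Real.one_le_sqrt]; exact_mod_cast hN1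
    push_cast
    linarith
  obtain ⟨u, hu⟩ : ∃ u : ℝ, u = ((C * S₀ ^ κ + 1 : ℕ) : ℝ) := ⟨_, rfl⟩
  obtain ⟨w, hw⟩ : ∃ w : ℝ, w = ((S₀ + 1 : ℕ) : ℝ) := ⟨_, rfl⟩
  obtain ⟨r, hr⟩ : ∃ r : ℝ, r = ((Nat.sqrt N + 1 : ℕ) : ℝ) := ⟨_, rfl⟩
  rw [← hu] at e1
  rw [← hw] at e2
  rw [← hr] at e3
  have hu0 : 0 ≤ u := by rw [hu]; exact Nat.cast_nonneg _
  have hw0 : 0 ≤ w := by rw [hw]; exact Nat.cast_nonneg _
  have hr0 : 0 ≤ r := by rw [hr]; exact Nat.cast_nonneg _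
  calc _ ≤ (((q + 1) * ((Nat.sqrt N + 1) * ((C * S₀ ^ κ + 1) *
          ((2 * (C * S₀ ^ κ + 1) ^ s) * ((2 * (C * S₀ ^ κ + 1) ^ s) *
            ((2 * (C * S₀ ^ κ + 1) ^ s) * (2 * (S₀ + 1) ^ s)))))) : ℕ) : ℝ) := Nat.cast_le.mpr h2
    _ = 16 * (q + 1) * r * u ^ (3 * s + 1) * w ^ s := by
      rw [hu, hw, hr]; push_cast; ring
    _ ≤ 16 * (q + 1) * (2 * Real.sqrt N) * ((C + 1) * (S₀ : ℝ) ^ κ) ^ (3 * s + 1) *
        (2 * S₀) ^ s := by gcongr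
    _ = _ := by
      push_cast
      rw [mul_pow, mul_pow, ← pow_mul, pow_add (S₀ : ℝ)]
      ring

end Pool.Agent.TH888.G
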