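import Mathlib
import Pool.Agent.TH888.B1.Core
import Pool.Agent.TH888.B1.FreeMain
import Pool.Agent.Helper379.Div3

/-!
Almost all integers have a small prime factor of a given kind.
-/

set_option autoImplicit false

namespace Pool.Agent.TH888.G

open Finset Filter Topology
open Pool.Agent.TH888.B1 (class_fin polylog_rpow)

theorem not_summable_diff {S : Set ℕ} (P : Finset ℕ) {f : ℕ → ℝ}
    (h : ¬ Summable (fun r => S.indicator f r)) :
    ¬ Summable (fun r => (S \ (P : Set ℕ)).indicator f r) := by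
  intro hs
  apply h
  have h1 : Summable (fun r => (S ∩ (P : Set ℕ)).indicator f r) := by
    apply summable_of_ne_finset_zero (s := P)
    intro r hr
    exact Set.indicator_of_notMem (fun h2 => hr (by exact_mod_cast h2.2)) _
  refine (hs.add h1).congr fun r => ?_
  by_cases hS : r ∈ S
  · by_cases hP : r ∈ (P : Set ℕ)
    · rw [Set.indicator_of_notMem (fun h2 => h2.2 hP),
        Set.indicator_of_mem (show r ∈ S ∩ (P : Set ℕ) from ⟨hS, hP⟩),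
        Set.indicator_of_mem hS, zero_add]
    · rw [Set.indicator_of_mem (show r ∈ S \ (P : Set ℕ) from ⟨hS, hP⟩),
        Set.indicator_of_notMem (fun h2 => hP h2.2), Set.indicator_of_mem hS, add_zero]
  · rw [Set.indicator_of_notMem (fun h2 => hS h2.1), Set.indicator_of_notMem (fun h2 => hS h2.1),
      Set.indicator_of_notMem hS, add_zero]

/-- small primes of the second kind outside `P` -/
theorem kind_two' {q : ℕ} (hq : q.Prime) (P : Finset ℕ) (ε : ℝ) (hε : 0 < ε) :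
    ∃ F : Finset ℕ, (∀ p ∈ F, p.Prime ∧ p ∉ P ∧ (q ≠ 2 → ¬ q ∣ p - 1)) ∧
      ∃ L : ℕ, ∀ X : ℕ, L ≤ X → ∀ a : ℕ,
      (({n : ℕ | ∀ r ∈ F, ¬ r ∣ n} ∩ Set.Ioc a (a + X)).ncard : ℝ) ≤ ε * X := by
  have hdvd : ∀ F : Finset ℕ, {n : ℕ | ∀ r ∈ F, (n : ZMod r) ≠ 0} = {n : ℕ | ∀ r ∈ F, ¬ r ∣ n} := by
    intro F
    ext n
    simp only [Set.mem_ofPred_eq, ne_eq, ZMod.natCast_eq_zero_iff]
  obtain ⟨m, hm⟩ : ∃ m, m = if q = 2 then 4 else q := ⟨_, rfl⟩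
  have hm0 : m ≠ 0 := by
    rw [hm]; split_ifs
    · norm_num
    · exact hq.ne_zero
  have : NeZero m := ⟨hm0⟩
  have hdiv := Pool.Agent.Helper379.Div3.not_summable_inv_primes_mod (q := m) (a := -1)
    isUnit_one.neg
  have hdiv' : ¬ Summable (fun r : ℕ => {r : ℕ | r.Prime ∧ (r : ZMod m) = -1}.indicator
      (fun n : ℕ => (1 : ℝ) / n) r) := by
    intro hs
    apply hdiv
    refine hs.congr ?_
    intro r
    rw [Set.indicator_apply]
    simp only [Set.mem_ofPred_eq]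
  obtain ⟨F, hF, L, hL⟩ := class_fin ({r : ℕ | r.Prime ∧ (r : ZMod m) = -1} \ (P : Set ℕ))
    (fun r hr => hr.1.1) (not_summable_diff P hdiv') (fun _ => 0) ε hε
  refine ⟨F, fun p hp => ?_, L, by rw [← hdvd]; exact hL⟩
  obtain ⟨⟨h1, h2⟩, h2'⟩ := hF p hp
  refine ⟨h1, fun h => h2' (by exact_mod_cast h), fun hq2 h5 => ?_⟩
  have h3 : m ∣ p + 1 := by
    rw [← ZMod.natCast_eq_zero_iff]
    push_cast
    rw [h2]; ring
  have hp2 := h1.two_le
  rw [if_neg hq2] at hm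
  subst hm
  have hq3 : 3 ≤ m := by
    have := hq.two_le
    omega
  have h6 : m ∣ (p + 1) - (p - 1) := Nat.dvd_sub h3 h5
  have h7 : (p + 1) - (p - 1) = 2 := by omega
  rw [h7] at h6
  have := Nat.le_of_dvd (by norm_num) h6
  omega


theorem small_par' (Cst K c₀ : ℕ) {δ : ℝ} (hδ : 0 < δ) : ∃ L : ℕ, ∀ N : ℕ, L ≤ N →
    ∃ T : ℕ, 1 ≤ T ∧ c₀ * (Nat.log 2 N + 1) ≤ T ∧
      Real.exp ((N : ℝ) ^ (δ / (8 * (K + 1)))) ≤ ((2 ^ T : ℕ) : ℝ) ∧
      ((Cst * T ^ K : ℕ) : ℝ) ≤ (N : ℝ) ^ (δ / 2) := by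
  obtain ⟨c, hc⟩ : ∃ c, c = δ / (8 * ((K : ℝ) + 1)) := ⟨_, rfl⟩
  have hK : (0 : ℝ) < (K : ℝ) + 1 := by positivity
  have hc0 : 0 < c := by rw [hc]; positivity
  have hcK : c * (K + 1) = δ / 8 := by rw [hc]; field_simp
  obtain ⟨L₁, hL₁⟩ := polylog_rpow c₀ 1 (2 * c) (by positivity)
  have ht1 : Tendsto (fun N : ℕ => (N : ℝ) ^ c) atTop atTop :=
    (tendsto_rpow_atTop hc0).comp tendsto_natCast_atTop_atTop
  have ht2 : Tendsto (fun N : ℕ => (N : ℝ) ^ (δ / 4)) atTop atTop :=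
    (tendsto_rpow_atTop (by positivity)).comp tendsto_natCast_atTop_atTop
  obtain ⟨L₂, hL₂⟩ := eventually_atTop.mp (ht1.eventually_ge_atTop 2)
  obtain ⟨L₃, hL₃⟩ := eventually_atTop.mp (ht2.eventually_ge_atTop ((Cst : ℝ) * 2 ^ K))
  refine ⟨L₁ + L₂ + L₃ + 2, fun N hN => ?_⟩
  have hNpos : (0 : ℝ) < N := by
    have : 0 < N := by omega
    exact_mod_cast this
  have hN1 : (1 : ℝ) ≤ N := by
    have : 1 ≤ N := by omega
    exact_mod_cast this
  have h1 := hL₁ N (by omega)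
  have h2 := hL₂ N (by omega)
  have h3 := hL₃ N (by omega)
  have hle : (N : ℝ) ^ (2 * c) ≤ (⌈(N : ℝ) ^ (2 * c)⌉₊ : ℝ) := Nat.le_ceil _
  have hge1 : 1 ≤ (N : ℝ) ^ (2 * c) := Real.one_le_rpow hN1 (by positivity)
  have hlt : (⌈(N : ℝ) ^ (2 * c)⌉₊ : ℝ) < (N : ℝ) ^ (2 * c) + 1 := Nat.ceil_lt_add_one (by linarith)
  obtain ⟨T, hT⟩ : ∃ T, T = ⌈(N : ℝ) ^ (2 * c)⌉₊ := ⟨_, rfl⟩
  rw [← hT] at hle hlt
  refine ⟨T, ?_, ?_, ?_, ?_⟩
  · have : (1 : ℝ) ≤ T := by linarith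
    exact_mod_cast this
  · rw [pow_one] at h1
    have : ((c₀ * (Nat.log 2 N + 1) : ℕ) : ℝ) ≤ T := by
      push_cast at h1 ⊢
      linarith
    exact_mod_cast this
  · rw [← hc]
    have e1 : (N : ℝ) ^ (2 * c) = (N : ℝ) ^ c * (N : ℝ) ^ c := by
      rw [← Real.rpow_add hNpos]; congr 1; ring
    have e2 : 2 * (N : ℝ) ^ c ≤ T := by
      have : 2 * (N : ℝ) ^ c ≤ (N : ℝ) ^ c * (N : ℝ) ^ c :=
        mul_le_mul_of_nonneg_right h2 (by linarith)
      linarith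
    have e3 : (N : ℝ) ^ c ≤ T * Real.log 2 := by
      have := Real.log_two_gt_d9
      have hS0 : (0 : ℝ) ≤ T := Nat.cast_nonneg _
      have : (T : ℝ) * (1 / 2) ≤ T * Real.log 2 := mul_le_mul_of_nonneg_left (by linarith) hS0
      linarith
    calc Real.exp ((N : ℝ) ^ c) ≤ Real.exp (T * Real.log 2) := Real.exp_le_exp.mpr e3
      _ = (2 : ℝ) ^ T := by
        rw [mul_comm, Real.exp_mul, Real.exp_log (by norm_num), Real.rpow_natCast]
      _ = _ := by push_cast; rfl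
  · have e1 : (T : ℝ) ≤ 2 * (N : ℝ) ^ (2 * c) := by linarith
    have e2 : (T : ℝ) ^ K ≤ 2 ^ K * (N : ℝ) ^ (δ / 4) := by
      calc (T : ℝ) ^ K ≤ (2 * (N : ℝ) ^ (2 * c)) ^ K := pow_le_pow_left₀ (Nat.cast_nonneg _) e1 _
        _ = 2 ^ K * (N : ℝ) ^ (2 * c * K) := by
          rw [mul_pow, ← Real.rpow_natCast ((N : ℝ) ^ (2 * c)), ← Real.rpow_mul hNpos.le]
        _ ≤ 2 ^ K * (N : ℝ) ^ (δ / 4) := by
          apply mul_le_mul_of_nonneg_left _ (by positivity)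
          apply Real.rpow_le_rpow_of_exponent_le hN1
          nlinarith
    have e4 : (N : ℝ) ^ (δ / 2) = (N : ℝ) ^ (δ / 4) * (N : ℝ) ^ (δ / 4) := by
      rw [← Real.rpow_add hNpos]; congr 1; ring
    rw [e4]
    push_cast
    calc (Cst : ℝ) * (T : ℝ) ^ K ≤ Cst * (2 ^ K * (N : ℝ) ^ (δ / 4)) :=
          mul_le_mul_of_nonneg_left e2 (Nat.cast_nonneg _)
      _ = (Cst * 2 ^ K) * (N : ℝ) ^ (δ / 4) := by ring
      _ ≤ _ := mul_le_mul_of_nonneg_right h3 (by positivity)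

end Pool.Agent.TH888.G
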