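import Mathlib
import Pool.Agent.TH888.G.FacC
import Pool.Agent.TH888.G.Beta
import Pool.Agent.TH888.G.Alpha
import Pool.Agent.TH888.F.Main
import Pool.Agent.TH888.G.Kind

/-!
One base an `S`-unit: reduction.
-/

set_option autoImplicit false

namespace Pool.Agent.TH888.G

open Finset Filter Topology
open Pool.Agent.TH888.W2 (Su SF sf_mem cop3)
open Pool.Agent.TH888.B1 (class_fin)
open Pool.Agent.TH888.F (pow_factors asym)

/-- uniform density zero -/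
def Null (E : Set ℕ) : Prop := ∀ ε : ℝ, 0 < ε → ∃ L : ℕ, ∀ X : ℕ, L ≤ X → ∀ a : ℕ,
  ((E ∩ Set.Ioc a (a + X)).ncard : ℝ) ≤ ε * X

theorem null_union {E F : Set ℕ} (hE : Null E) (hF : Null F) : Null (E ∪ F) := by
  intro ε hε
  obtain ⟨L₁, h1⟩ := hE (ε / 2) (by positivity)
  obtain ⟨L₂, h2⟩ := hF (ε / 2) (by positivity)
  refine ⟨L₁ + L₂, fun X hX a => ?_⟩
  have g1 := h1 X (by omega) a
  have g2 := h2 X (by omega) a
  rw [Set.union_inter_distrib_right]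
  have h3 : (((E ∩ Set.Ioc a (a + X)) ∪ (F ∩ Set.Ioc a (a + X))).ncard : ℝ) ≤
      (E ∩ Set.Ioc a (a + X)).ncard + (F ∩ Set.Ioc a (a + X)).ncard := by
    exact_mod_cast Set.ncard_union_le _ _
  linarith

theorem null_biUnion {ι : Type*} [DecidableEq ι] (I : Finset ι) (E : ι → Set ℕ)
    (h : ∀ i ∈ I, Null (E i)) : Null (⋃ i ∈ I, E i) := by
  induction I using Finset.induction_on with
  | empty =>
    intro ε hε
    refine ⟨0, fun X _ a => ?_⟩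
    simp
    positivity
  | insert a I _ ih =>
    rw [Finset.set_biUnion_insert]
    exact null_union (h a (Finset.mem_insert_self _ _))
      (ih fun i hi => h i (Finset.mem_insert_of_mem hi))

theorem null_class {q : ℕ} (hq : q.Prime) {η : ℤ} (hn : ¬ ∃ t : ℤ, t ^ q = η) :
    Null {n : ℕ | ∀ r : ℕ, r.Prime → r ∣ n → ∃ t : ZMod r, t ^ q = (η : ZMod r)} := by
  have h0 : η ≠ 0 := by
    rintro rfl
    exact hn ⟨0, zero_pow hq.ne_zero⟩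
  obtain ⟨R, hR, hdiv⟩ : ∃ R : Set ℕ, (∀ r ∈ R, r.Prime ∧ ¬ ∃ t : ZMod r, t ^ q = (η : ZMod r)) ∧
      ¬ Summable (fun r : ℕ => R.indicator (fun n : ℕ => (1 : ℝ) / n) r) := by
    rcases eq_or_ne q 2 with rfl | hq2
    · exact ⟨_, fun r hr => hr, Pool.Agent.H755R5.Kum.nonsquare_density η hn⟩
    · have hodd : Odd q := hq.odd_of_ne_two hq2
      obtain ⟨σ, hσ, hση⟩ := sgn_natAbs η
      have hσq : σ ^ q = σ := by
        rcases hσ with rfl | rfl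
        · exact one_pow _
        · exact hodd.neg_one_pow
      have hσσ : σ * σ = 1 := by rcases hσ with rfl | rfl <;> norm_num
      refine ⟨_, fun r hr => ⟨hr.1.1, ?_⟩, Pool.Agent.H755R5.Kum.kummer_density q η.natAbs hq
        (Int.natAbs_pos.mpr h0) ?_⟩
      · rintro ⟨t, ht⟩
        apply hr.2
        refine ⟨(σ : ZMod r) * t, ?_⟩
        have h1 : ((η.natAbs : ℕ) : ℤ) = σ * η := by
          conv_rhs => rw [hση]
          rw [← mul_assoc, hσσ, one_mul]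
        have h2 : ((η.natAbs : ℕ) : ZMod r) = (σ : ZMod r) * (η : ZMod r) := by
          have := congrArg (fun n : ℤ => (n : ZMod r)) h1
          push_cast at this
          rw [← this]
          simp
        have h3 : (σ : ZMod r) ^ q = σ := by
          have := congrArg (fun n : ℤ => (n : ZMod r)) hσq
          push_cast at this
          exact this
        rw [mul_pow, ht, h3, h2]
      · rintro ⟨t, ht⟩
        apply hn
        refine ⟨σ * t, ?_⟩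
        rw [mul_pow, hσq]
        conv_rhs => rw [hση]
        rw [← ht]; push_cast; rfl
  intro ε hε
  obtain ⟨F, hF, L, hL⟩ := class_fin R (fun r hr => (hR r hr).1) hdiv (fun _ => 0) ε hε
  refine ⟨L, fun X hX a => le_trans ?_ (hL X hX a)⟩
  refine Nat.cast_le.mpr (Set.ncard_le_ncard ?_ ((Set.finite_Ioc _ _).subset Set.inter_subset_right))
  rintro n ⟨hn1, hn2⟩
  refine ⟨fun r hr h => ?_, hn2⟩
  exact (hR r (hF r hr)).2 (hn1 r (hR r (hF r hr)).1 ((ZMod.natCast_eq_zero_iff n r).mp h))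

theorem to_solg {P : Finset ℕ} {q B : ℕ} (hq : q.Prime) {u v w C : ℤ} {y z : ℕ}
    (hy : 0 < y) (hqz : q ∣ z) (hu : Su P u.natAbs) (hv : Su P v.natAbs) (hw : Su P w.natAbs)
    (c1 : Nat.Coprime u.natAbs (v.natAbs * B)) (c2 : Nat.Coprime u.natAbs (w.natAbs * C.natAbs))
    (c3 : Nat.Coprime (v.natAbs * B) (w.natAbs * C.natAbs))
    (heq : u + v * (B : ℤ) ^ y = w * C ^ z)
    (hcl : ∀ η ∈ SF P q, (¬ ∃ t : ℤ, t ^ q = η) → ∃ r : ℕ, r.Prime ∧ r ∣ B ∧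
      ¬ ∃ t : ZMod r, t ^ q = (η : ZMod r)) : SolG P q B := by
  obtain ⟨z', rfl⟩ := hqz
  have hq1 : q = (q - 1) + 1 := by have := hq.two_le; omega
  have nd : ∀ {r m n : ℕ}, r.Prime → Nat.Coprime m n → r ∣ m → r ∣ n → False := by
    intro r m n hr hc h1 h2
    have h3 := Nat.dvd_gcd h1 h2
    rw [hc] at h3
    exact hr.one_lt.ne' (Nat.dvd_one.mp h3)
  have htS : Su P (u * w ^ (q - 1)).natAbs := by
    rw [Int.natAbs_mul, Int.natAbs_pow]; exact su_mul hu (su_pow hw _)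
  obtain ⟨η₀, g, hη₀, hη₀q, hg0, hηg, hgd⟩ := su_split hq.pos htS
  obtain ⟨σ, hσ, hσe⟩ := sgn_natAbs (u * w ^ (q - 1))
  have hη : σ * (η₀ : ℤ) ∈ SF P q := su_sgn hη₀ hσ hη₀q
  have hse : (σ * η₀) * (g : ℤ) ^ q = u * w ^ (q - 1) := by
    rw [hσe, hηg]; push_cast; ring
  have hpow : ∃ t : ℤ, t ^ q = σ * η₀ := by
    by_contra hcon
    obtain ⟨r, hr, hrB, hrn⟩ := hcl _ hη hcon
    apply hrn
    have : Fact r.Prime := ⟨hr⟩
    have hrg : (g : ZMod r) ≠ 0 := by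
      intro h0
      have h1 : r ∣ g := (ZMod.natCast_eq_zero_iff g r).mp h0
      have h2 : r ∣ u.natAbs * w.natAbs ^ (q - 1) := by
        have := h1.trans hgd
        rwa [Int.natAbs_mul, Int.natAbs_pow] at this
      have hrvB : r ∣ v.natAbs * B := hrB.mul_left _
      rcases hr.dvd_mul.mp h2 with h3 | h3
      · exact nd hr c1 h3 hrvB
      · exact nd hr c3 hrvB ((hr.dvd_of_dvd_pow h3).mul_right _)
    refine ⟨((w : ZMod r) * (C : ZMod r) ^ z') / (g : ZMod r), ?_⟩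
    have e1 : (u : ZMod r) = (w : ZMod r) * (C : ZMod r) ^ (q * z') := by
      have := congrArg (fun n : ℤ => (n : ZMod r)) heq
      push_cast at this
      rw [(ZMod.natCast_eq_zero_iff B r).mpr hrB, zero_pow hy.ne', mul_zero, add_zero] at this
      exact this
    have e2 : ((σ : ZMod r) * (η₀ : ZMod r)) * (g : ZMod r) ^ q = (u : ZMod r) * (w : ZMod r) ^ (q - 1) := by
      have := congrArg (fun n : ℤ => (n : ZMod r)) hse
      push_cast at this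
      exact this
    rw [div_pow, div_eq_iff (pow_ne_zero _ hrg)]
    push_cast
    have hwq : (w : ZMod r) ^ q = (w : ZMod r) ^ (q - 1) * w := by
      conv_lhs => rw [hq1, pow_succ]
    rw [e2, e1, mul_pow, ← pow_mul, mul_comm z' q, hwq]
    ring
  obtain ⟨t, ht⟩ := hpow
  have hN : u.natAbs * w.natAbs ^ (q - 1) = (t.natAbs * g) ^ q := by
    have h1 : (u * w ^ (q - 1)).natAbs = (t ^ q * (g : ℤ) ^ q).natAbs := by rw [ht, hse]
    rw [Int.natAbs_mul, Int.natAbs_pow, Int.natAbs_mul, Int.natAbs_pow, Int.natAbs_pow,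
      Int.natAbs_natCast, ← mul_pow] at h1
    exact h1
  have hcuw : Nat.Coprime u.natAbs (w.natAbs ^ (q - 1)) :=
    (Nat.Coprime.coprime_mul_right_right c2).pow_right _
  obtain ⟨U, V, hU, hV, -⟩ := pow_factors hq.pos hcuw hN
  have hw0 : 0 < w.natAbs := Nat.pos_of_ne_zero hw.1
  have hu0 : 0 < u.natAbs := Nat.pos_of_ne_zero hu.1
  have hV0 : 0 < V := Nat.pos_of_ne_zero (by
    rintro rfl
    rw [zero_pow hq.ne_zero] at hV
    exact (pow_pos hw0 _).ne' hV)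
  have hVw : V ∣ w.natAbs := by
    rw [← Nat.pow_dvd_pow_iff hq.ne_zero, ← hV]
    exact pow_dvd_pow _ (by omega)
  obtain ⟨k, hk⟩ := hVw
  have hkV : k ^ (q - 1) = V := by
    rw [hk, mul_pow] at hV
    have h1 : V ^ q = V ^ (q - 1) * V := by conv_lhs => rw [hq1, pow_succ]
    rw [h1] at hV
    exact Nat.eq_of_mul_eq_mul_left (pow_pos hV0 _) hV
  have hwk : w.natAbs = k ^ q := by
    rw [hk, ← hkV, ← pow_succ, ← hq1]
  have hk0 : 0 < k := Nat.pos_of_ne_zero (by rintro rfl; rw [mul_zero] at hk; omega)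
  have hU0 : 0 < U := Nat.pos_of_ne_zero (by rintro rfl; rw [zero_pow hq.ne_zero] at hU; omega)
  have hUS : Su P U := su_of_dvd hu (by rw [hU]; exact dvd_pow_self U hq.ne_zero)
  have hcopN : Nat.Coprime (k * C.natAbs ^ z') U := by
    apply Nat.coprime_of_dvd
    intro r hr h1 h2
    refine nd hr c2 (by rw [hU]; exact dvd_pow h2 hq.ne_zero) ?_
    rcases hr.dvd_mul.mp h1 with h3 | h3
    · exact Dvd.dvd.mul_right (by rw [hwk]; exact dvd_pow h3 hq.ne_zero) _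
    · exact (hr.dvd_of_dvd_pow h3).mul_left _
  have hcopI : ∀ {Z W : ℤ}, Z.natAbs = k * C.natAbs ^ z' → W.natAbs = U → IsCoprime Z W := by
    intro Z W h1 h2
    rw [Int.isCoprime_iff_gcd_eq_one]
    show Nat.gcd Z.natAbs W.natAbs = 1
    rw [h1, h2]; exact hcopN
  obtain ⟨σu, hσu, hu'⟩ := sgn_natAbs u
  obtain ⟨σw, hσw, hw'⟩ := sgn_natAbs w
  rw [hU] at hu'
  rw [hwk] at hw'
  push_cast at hu' hw'
  have hnσ : ∀ {σ : ℤ}, σ = 1 ∨ σ = -1 → σ.natAbs = 1 := by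
    rintro σ (rfl | rfl) <;> rfl
  rcases eq_or_ne q 2 with rfl | hq2
  · have hsame : σu = σw := by
      by_contra hne
      have h1 : (t * g) ^ 2 = u * w := by
        have h2 : t ^ 2 * (g : ℤ) ^ 2 = u * w ^ (2 - 1) := by rw [ht, hse]
        rw [mul_pow, h2]; norm_num
      have h3 : 0 ≤ u * w := by rw [← h1]; positivity
      have h4 : (0 : ℤ) < (U : ℤ) ^ 2 * (k : ℤ) ^ 2 := by positivity
      rw [hu', hw'] at h3
      rcases hσu with rfl | rfl <;> rcases hσw with rfl | rfl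
      · exact hne rfl
      · nlinarith
      · nlinarith
      · exact hne rfl
    refine ⟨k * C ^ z', U, σu * v, y, hy, hcopI ?_ (Int.natAbs_natCast U), ?_, ?_, ?_⟩
    · rw [Int.natAbs_mul, Int.natAbs_pow, Int.natAbs_natCast]
    · rw [Int.natAbs_natCast]; exact hUS
    · rw [Int.natAbs_mul, hnσ hσu, one_mul]; exact hv
    · have h1 : v * (B : ℤ) ^ y = w * C ^ (2 * z') - u := by rw [← heq]; ring
      have hss : σu * σu = 1 := by rcases hσu with rfl | rfl <;> norm_num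
      rw [mul_assoc, h1, hw', hu', ← hsame]
      linear_combination (-((k : ℤ) ^ 2 * C ^ (2 * z') - (U : ℤ) ^ 2)) * hss
  · have hodd : Odd q := hq.odd_of_ne_two hq2
    have hσq : ∀ {σ : ℤ}, σ = 1 ∨ σ = -1 → σ ^ q = σ := by
      rintro σ (rfl | rfl)
      · exact one_pow _
      · exact hodd.neg_one_pow
    refine ⟨σw * k * C ^ z', σu * U, v, y, hy, hcopI ?_ ?_, ?_, hv, ?_⟩
    · rw [Int.natAbs_mul, Int.natAbs_mul, hnσ hσw, one_mul, Int.natAbs_pow, Int.natAbs_natCast]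
    · rw [Int.natAbs_mul, hnσ hσu, one_mul, Int.natAbs_natCast]
    · rw [Int.natAbs_mul, hnσ hσu, one_mul, Int.natAbs_natCast]; exact hUS
    · have h1 : v * (B : ℤ) ^ y = w * C ^ (q * z') - u := by rw [← heq]; ring
      rw [h1, mul_pow, mul_pow, mul_pow, hσq hσw, hσq hσu, ← pow_mul, mul_comm z' q]
      conv_rhs => rw [hw', hu']

/-- `u + v B ^ y = w C ^ z` with `S`-units `u`, `v`, `w` -/
def EqU (P : Finset ℕ) (B z : ℕ) : Prop := ∃ (u v w C : ℤ) (y : ℕ), 0 < y ∧ 0 < z ∧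
  Su P u.natAbs ∧ Su P v.natAbs ∧ Su P w.natAbs ∧ C ≠ 0 ∧
  Int.gcd ((Int.gcd u (v * B) : ℕ) : ℤ) (w * C) = 1 ∧ u + v * (B : ℤ) ^ y = w * C ^ z

theorem q_part {P : Finset ℕ} (hP : ∀ l ∈ P, l.Prime) {q : ℕ} (hq : q.Prime) (hqP : q ∈ P)
    (h2P : 2 ∈ P) (h3P : 3 ∈ P) {ε δ : ℝ} (hε : 0 < ε) (hδ : 0 < δ) (hδ1 : δ ≤ 1) : ∃ L : ℕ,
    ∀ Y : ℕ, L ≤ Y → ∀ b : ℕ, (b : ℝ) ≤ (Y : ℝ) ^ (2 - δ) →
      (({B : ℕ | B ∈ Set.Ioc b (b + Y) ∧ ∃ z : ℕ, q ∣ z ∧ EqU P B z}.ncard : ℕ) : ℝ) ≤ ε * Y := by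
  classical
  obtain ⟨Cl, hCl⟩ : ∃ Cl : Finset ℤ, Cl = (SF P q).filter (fun η => ¬ ∃ t : ℤ, t ^ q = η) := ⟨_, rfl⟩
  obtain ⟨N₁, hN₁⟩ : ∃ N₁ : Set ℕ, N₁ = ⋃ η ∈ Cl,
    {n : ℕ | ∀ r : ℕ, r.Prime → r ∣ n → ∃ t : ZMod r, t ^ q = (η : ZMod r)} := ⟨_, rfl⟩
  have hnull : Null N₁ := by
    rw [hN₁]
    exact null_biUnion Cl _ fun η hη => null_class hq (by rw [hCl, mem_filter] at hη; exact hη.2)
  obtain ⟨L₁, hL₁⟩ := hnull (ε / 3) (by positivity)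
  obtain ⟨F₂, hF₂, L₂, hL₂⟩ := kind_two' hq P (ε / 3) (by positivity)
  obtain ⟨C₀, κ, hC⟩ := count_g hP hq hqP h2P h3P
  obtain ⟨c₀, hc₀⟩ : ∃ c₀, c₀ = 4 * q + 4 + P.sup id + F₂.sup id := ⟨_, rfl⟩
  obtain ⟨L₃, hL₃⟩ := asym C₀ κ c₀ (show 0 < ε / 3 by positivity) hδ hδ1
  refine ⟨L₁ + L₂ + L₃ + 1, fun Y hY b hb => ?_⟩
  obtain ⟨S₀, hS₀, hNS, hfin⟩ := hL₃ Y (by omega) (b + Y) (by push_cast; linarith)
  obtain ⟨hf, hcount⟩ := hC S₀ (b + Y) (by omega) (by omega) hNS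
  obtain ⟨E₃, hE₃⟩ : ∃ E₃ : Set ℕ, E₃ = {B : ℕ | 0 < B ∧ B ≤ b + Y ∧ (∃ p, p.Prime ∧ p ∉ P ∧
    (q ≠ 2 → ¬ q ∣ p - 1) ∧ p ∣ B ∧ p ≤ S₀) ∧ SolG P q B} := ⟨_, rfl⟩
  rw [← hE₃] at hf hcount
  have hsub : {B : ℕ | B ∈ Set.Ioc b (b + Y) ∧ ∃ z : ℕ, q ∣ z ∧ EqU P B z} ⊆
      ((N₁ ∩ Set.Ioc b (b + Y)) ∪ ({n : ℕ | ∀ r ∈ F₂, ¬ r ∣ n} ∩ Set.Ioc b (b + Y))) ∪ E₃ := by
    rintro B ⟨hB, z, hqz, u, v, w, C, y, hy, hz, hu, hv, hw, hC0, hg, heq⟩
    by_cases h1 : B ∈ N₁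
    · exact Or.inl (Or.inl ⟨h1, hB⟩)
    by_cases h2 : ∀ r ∈ F₂, ¬ r ∣ B
    · exact Or.inl (Or.inr ⟨h2, hB⟩)
    right
    push Not at h2
    obtain ⟨p, hp, hpB⟩ := h2
    obtain ⟨p1, p2, p3⟩ := hF₂ p hp
    obtain ⟨c1, c2, c3⟩ := cop3 (a := u) (x := 1) (b := v) (y := (B : ℤ)) (c := w) (w := C) (l := 1)
      (m := y) (k := z) one_pos hy hz (by rw [one_pow, mul_one]; exact heq)
      (by rw [mul_one]; exact hg)
    simp only [Int.natAbs_one, mul_one, Int.natAbs_natCast] at c1 c2 c3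
    rw [hE₃]
    refine ⟨by have := hB.1; omega, hB.2, ⟨p, p1, p2, p3, hpB, ?_⟩,
      to_solg hq hy hqz hu hv hw c1 c2 c3 heq ?_⟩
    · have h3 : p ≤ F₂.sup id := Finset.le_sup (f := id) hp
      omega
    · intro η hη hnp
      by_contra hcon
      push Not at hcon
      apply h1
      rw [hN₁, Set.mem_iUnion₂]
      refine ⟨η, by rw [hCl, mem_filter]; exact ⟨hη, hnp⟩, fun r hr hrB => ?_⟩
      exact hcon r hr hrB
  have hfin' : (((N₁ ∩ Set.Ioc b (b + Y)) ∪ ({n : ℕ | ∀ r ∈ F₂, ¬ r ∣ n} ∩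
      Set.Ioc b (b + Y))) ∪ E₃).Finite :=
    (((Set.finite_Ioc _ _).subset Set.inter_subset_right).union
      ((Set.finite_Ioc _ _).subset Set.inter_subset_right)).union hf
  have h1 := hL₁ Y (by omega) b
  have h2 := hL₂ Y (by omega) b
  have h3 := (Set.ncard_le_ncard hsub hfin').trans ((Set.ncard_union_le _ _).trans
    (Nat.add_le_add_right (Set.ncard_union_le _ _) _))
  calc _ ≤ _ := Nat.cast_le.mpr h3
    _ ≤ ε / 3 * Y + ε / 3 * Y + ε / 3 * Y := by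
      push_cast
      exact add_le_add (add_le_add h1 h2) (hcount.trans hfin)
    _ = ε * Y := by ring

theorem gamma (S : Finset ℕ) {c ε δ : ℝ} (hc : 0 < c) (hc1 : c * (2 * S.card + 2) < 1)
    (hε : 0 < ε) (hδ : 0 < δ) (hδ1 : δ ≤ 1) : ∃ L : ℕ, ∀ Y : ℕ, L ≤ Y → ∀ b : ℕ,
    (b : ℝ) ≤ (Y : ℝ) ^ (2 - δ) →
      (({B : ℕ | B ∈ Set.Ioc b (b + Y) ∧ ∃ z n : ℕ, 2 ≤ n ∧ (n : ℝ) ≤ (Y : ℝ) ^ c ∧ n ∣ z ∧
        EqU (S.filter Nat.Prime) B z}.ncard : ℕ) : ℝ) ≤ ε * Y := by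
  classical
  obtain ⟨P, hPdef⟩ : ∃ P, P = S.filter Nat.Prime := ⟨_, rfl⟩
  rw [← hPdef]
  have hP : ∀ l ∈ P, l.Prime := fun l hl => by
    rw [hPdef] at hl; exact (Finset.mem_filter.mp hl).2
  have hPc : (P.card : ℝ) ≤ S.card := by
    have := Finset.card_filter_le S Nat.Prime
    rw [← hPdef] at this
    exact_mod_cast this
  have hc2 : c * (2 * P.card + 2) < 1 := by nlinarith
  obtain ⟨θ, hθ0, hθ1, L₁, hL₁⟩ := bound_small P.card 2 hc hc2 (ε := ε / 4) (by positivity)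
  obtain ⟨Z₀, L₂, hL₂⟩ := beta hP 2 hc hθ0 hθ1 (ε := ε / 4) (by positivity)
  obtain ⟨Q, hQ⟩ : ∃ Q : Finset ℕ, Q = (range Z₀).filter Nat.Prime := ⟨_, rfl⟩
  have hQp : ∀ q ∈ Q, q.Prime := fun q hq => by rw [hQ, mem_filter] at hq; exact hq.2
  obtain ⟨P', hP'⟩ : ∃ P' : Finset ℕ, P' = P ∪ Q ∪ {2, 3} := ⟨_, rfl⟩
  have hP'p : ∀ l ∈ P', l.Prime := by
    intro l hl
    rw [hP', mem_union, mem_union, mem_insert, mem_singleton] at hl
    rcases hl with (h | h) | rfl | rfl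
    · exact hP l h
    · exact hQp l h
    · exact Nat.prime_two
    · exact Nat.prime_three
  have hPP' : P ⊆ P' := by
    rw [hP']
    exact (Finset.subset_union_left.trans Finset.subset_union_left)
  have hQP' : Q ⊆ P' := by
    rw [hP']
    exact (Finset.subset_union_right.trans Finset.subset_union_left)
  have h2P' : 2 ∈ P' := by rw [hP']; simp
  have h3P' : 3 ∈ P' := by rw [hP']; simp
  have hSu : ∀ {m : ℕ}, Su P m → Su P' m := fun h => ⟨h.1, fun l h1 h2 => hPP' (h.2 l h1 h2)⟩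
  have hall : ∀ q : ℕ, ∃ L : ℕ, q ∈ Q → ∀ Y : ℕ, L ≤ Y → ∀ b : ℕ, (b : ℝ) ≤ (Y : ℝ) ^ (2 - δ) →
      (({B : ℕ | B ∈ Set.Ioc b (b + Y) ∧ ∃ z : ℕ, q ∣ z ∧ EqU P' B z}.ncard : ℕ) : ℝ) ≤
          (ε / (4 * (Z₀ + 1))) * Y := by
    intro q
    by_cases hq : q ∈ Q
    · obtain ⟨L, hL⟩ := q_part hP'p (hQp q hq) (hQP' hq) h2P' h3P' (ε := ε / (4 * (Z₀ + 1)))
        (by positivity) hδ hδ1
      exact ⟨L, fun _ => hL⟩
    · exact ⟨0, fun h => absurd h hq⟩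
  choose Lq hLq using hall
  refine ⟨L₁ + L₂ + Q.sup Lq + 1, fun Y hY b hb => ?_⟩
  have hY1 : 1 ≤ Y := by omega
  have hY1R : (1 : ℝ) ≤ Y := by exact_mod_cast hY1
  have hY0 : (0 : ℝ) < Y := by linarith
  have hb2 : b ≤ Y ^ 2 := by
    have : (b : ℝ) ≤ (Y : ℝ) ^ 2 := by
      calc (b : ℝ) ≤ (Y : ℝ) ^ (2 - δ) := hb
        _ ≤ (Y : ℝ) ^ (2 : ℝ) := Real.rpow_le_rpow_of_exponent_le hY1R (by linarith)
        _ = _ := by rw [← Real.rpow_natCast]; norm_num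
    exact_mod_cast this
  obtain ⟨T, hT, hE⟩ := hL₂ Y (by omega) b hb2
  have hB := hL₁ Y (by omega) b hb2
  obtain ⟨k, hk⟩ : ∃ k, k = 8 * (⌊(Y : ℝ) ^ c⌋₊ + 1) ^ (2 * P.card + 2) *
      (⌊(Y : ℝ) ^ θ⌋₊ + 1) ^ 5 * (Nat.log 2 (b + Y) + 1) ^ (P.card + 1) := ⟨_, rfl⟩
  rw [← hk] at hB
  obtain ⟨E₁, hE₁⟩ : ∃ E₁ : Set ℕ, E₁ = {B : ℕ | b < B ∧ B ≤ b + Y ∧ B ∉ T ∧
    Bad P Z₀ ((Y : ℝ) ^ c) 1 B} := ⟨_, rfl⟩
  have hE1 := hE 1 one_pos E₁ (fun B hB => by rw [hE₁] at hB; exact hB)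
  rw [← hk] at hE1
  set E₂ : ℕ → Set ℕ := fun q => {B : ℕ | B ∈ Set.Ioc b (b + Y) ∧ ∃ z : ℕ, q ∣ z ∧ EqU P' B z}
    with hE₂
  have hsub : {B : ℕ | B ∈ Set.Ioc b (b + Y) ∧ ∃ z n : ℕ, 2 ≤ n ∧ (n : ℝ) ≤ (Y : ℝ) ^ c ∧ n ∣ z ∧
        EqU P B z} ⊆ ((T : Set ℕ) ∪ E₁) ∪ ⋃ q ∈ Q, E₂ q := by
    rintro B ⟨hB, z, n, hn2, hnY, hnz, u, v, w, C, y, hy, hz, hu, hv, hw, hC0, hg, heq⟩
    by_cases hBT : B ∈ T
    · exact Or.inl (Or.inl hBT)
    rcases Nat.lt_or_ge n Z₀ with h1 | h1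
    · right
      obtain ⟨q, hq, hqn⟩ := Nat.exists_prime_and_dvd (show n ≠ 1 by omega)
      have hqQ : q ∈ Q := by
        rw [hQ, mem_filter, mem_range]
        exact ⟨lt_of_le_of_lt (Nat.le_of_dvd (by omega) hqn) h1, hq⟩
      rw [Set.mem_iUnion₂]
      exact ⟨q, hqQ, hB, z, hqn.trans hnz, u, v, w, C, y, hy, hz, hSu hu, hSu hv, hSu hw, hC0, hg, heq⟩
    · left
      right
      rw [hE₁]
      exact ⟨hB.1, hB.2, hBT, u, v, w, 1, B, C, 1, y, z, n, one_pos, hy, hz, hu, hv, hw, hC0,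
        by rw [mul_one]; exact hg, by rw [one_pow, mul_one]; exact heq, rfl, Int.natAbs_natCast B,
        h1, hnY, hnz⟩
  have hfI : (Set.Ioc b (b + Y)).Finite := Set.finite_Ioc _ _
  have hfU : (⋃ q ∈ Q, E₂ q).Finite := by
    refine hfI.subset ?_
    intro B h1
    rw [Set.mem_iUnion₂] at h1
    obtain ⟨q, -, h2⟩ := h1
    exact h2.1
  have hfin : (((T : Set ℕ) ∪ E₁) ∪ ⋃ q ∈ Q, E₂ q).Finite :=
    ((Finset.finite_toSet T).union hE1.1).union hfU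
  have hU : ((⋃ q ∈ Q, E₂ q).ncard : ℝ) ≤ ε / 4 * Y := by
    have h1 : (⋃ q ∈ Q, E₂ q).ncard ≤ ∑ q ∈ Q, (E₂ q).ncard := Finset.set_ncard_biUnion_le Q E₂
    have h2 : ∀ q ∈ Q, ((E₂ q).ncard : ℝ) ≤ (ε / (4 * (Z₀ + 1))) * Y := by
      intro q hq
      refine hLq q hq Y ?_ b hb
      have : Lq q ≤ Q.sup Lq := Finset.le_sup hq
      omega
    have h3 : (Q.card : ℝ) ≤ Z₀ + 1 := by
      have : Q.card ≤ Z₀ := by
        rw [hQ]
        exact (card_filter_le _ _).trans (card_range Z₀).le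
      have : (Q.card : ℝ) ≤ Z₀ := by exact_mod_cast this
      linarith
    calc ((⋃ q ∈ Q, E₂ q).ncard : ℝ) ≤ ((∑ q ∈ Q, (E₂ q).ncard : ℕ) : ℝ) := Nat.cast_le.mpr h1
      _ = ∑ q ∈ Q, ((E₂ q).ncard : ℝ) := by push_cast; rfl
      _ ≤ ∑ q ∈ Q, (ε / (4 * (Z₀ + 1))) * Y := Finset.sum_le_sum h2
      _ = Q.card * ((ε / (4 * (Z₀ + 1))) * Y) := by rw [sum_const, nsmul_eq_mul]
      _ ≤ (Z₀ + 1) * ((ε / (4 * (Z₀ + 1))) * Y) := mul_le_mul_of_nonneg_right h3 (by positivity)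
      _ = ε / 4 * Y := by
        have : (Z₀ : ℝ) + 1 ≠ 0 := by positivity
        field_simp
  have hE₁c : (E₁.ncard : ℝ) ≤ ε / 4 * Y := le_trans (by exact_mod_cast hE1.2) hB
  have hTc : ((T : Set ℕ).ncard : ℝ) ≤ ε / 4 * Y := by rw [Set.ncard_coe_finset]; exact hT
  have h3 := (Set.ncard_le_ncard hsub hfin).trans ((Set.ncard_union_le _ _).trans
    (Nat.add_le_add_right (Set.ncard_union_le _ _) _))
  calc _ ≤ _ := Nat.cast_le.mpr h3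
    _ ≤ ε / 4 * Y + ε / 4 * Y + ε / 4 * Y := by
      push_cast
      exact add_le_add (add_le_add hTc hE₁c) hU
    _ ≤ ε * Y := by nlinarith

end Pool.Agent.TH888.G
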