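import Mathlib
import Pool.Agent.TH888.W2.SInt

/-!
Bounds for the third exponent when the third base is not too large.
-/

set_option autoImplicit false

namespace Pool.Agent.TH888.G

open Finset
open Pool.Agent.TH888.W2 (Su cop3 su_exps_nat baker_su)

/-- a third exponent `k' ≤ C₀ T ^ κ + 3` -/
theorem third_exp (P : Finset ℕ) : ∃ C₀ κ : ℕ, ∀ (a b c x y w : ℤ) (T l m k : ℕ), 1 ≤ T →
    (∀ q ∈ P, q ≤ T) → 0 < l → 0 < m → 2 ≤ k →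
    Su P a.natAbs → Su P b.natAbs → Su P c.natAbs →
    Int.gcd ((Int.gcd (a * x) (b * y) : ℕ) : ℤ) (c * w) = 1 → a * x ^ l + b * y ^ m = c * w ^ k →
    x.natAbs ≤ 2 ^ T → y.natAbs ≤ 2 ^ T → w.natAbs ≤ 2 ^ T → x ≠ 0 → y ≠ 0 → w ≠ 0 →
    (∃ p : ℕ, p.Prime ∧ p ≤ T ∧ p ∣ x.natAbs) → (∃ p : ℕ, p.Prime ∧ p ≤ T ∧ p ∣ y.natAbs) →
    ∃ k' : ℕ, 2 ≤ k' ∧ k' ≤ C₀ * T ^ κ + 3 ∧ w ^ k' = w ^ k := by
  obtain ⟨C₀, κ, H⟩ := su_exps_nat P
  refine ⟨C₀, κ, ?_⟩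
  rintro a b c x y w T l m k hT hPT hl hm hk ha hb hc hg h hx hy hw hx0 hy0 hw0
    ⟨p, hp, hpT, hpx⟩ ⟨p', hp', hpT', hpy⟩
  obtain ⟨c1, c2, c3⟩ := cop3 hl hm (by omega) h hg
  have ab : ∀ (u z : ℤ) (i : ℕ), u.natAbs * z.natAbs ^ i = (u * z ^ i).natAbs := by
    intro u z i
    rw [Int.natAbs_mul, Int.natAbs_pow]
  have sq : ∀ u : ℤ, ((u.natAbs : ℕ) : ℤ) ^ 2 = u ^ 2 := by
    intro u
    rw [Int.natCast_natAbs, sq_abs]
  have k1 : ∀ t₁ t₂ t₃ : ℤ, t₁ ∣ t₂ - t₃ ∨ t₁ ∣ t₂ + t₃ →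
      ((t₁.natAbs : ℕ) : ℤ) ∣ ((t₂.natAbs : ℕ) : ℤ) ^ 2 - ((t₃.natAbs : ℕ) : ℤ) ^ 2 := by
    intro t₁ t₂ t₃ hd
    rw [sq, sq, Int.natAbs_dvd]
    have e : t₂ ^ 2 - t₃ ^ 2 = (t₂ - t₃) * (t₂ + t₃) := by ring
    rw [e]
    rcases hd with hd | hd
    · exact Dvd.dvd.mul_right hd _
    · exact Dvd.dvd.mul_left hd _
  obtain ⟨b1, b2, b3, b4, b5, b6⟩ := H a.natAbs b.natAbs c.natAbs x.natAbs y.natAbs w.natAbs T l m k hT
    hPT hl hm (by omega) ha hb hc c1 c2 c3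
    (by rw [ab, ab, ab]
        exact k1 _ _ _ (Or.inl ⟨-1, by linear_combination h⟩))
    (by rw [ab, ab, ab]
        exact k1 _ _ _ (Or.inl ⟨-1, by linear_combination h⟩))
    (by rw [ab, ab, ab]
        exact k1 _ _ _ (Or.inr ⟨1, by linear_combination h⟩))
    (by rw [ab, ab, ab, ← h]; exact Int.natAbs_add_le _ _)
    hx hy hw (Int.natAbs_pos.mpr hx0) (Int.natAbs_pos.mpr hy0) (Int.natAbs_pos.mpr hw0)
    ⟨p, hp, hpT, hpx⟩ ⟨p', hp', hpT', hpy⟩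
  rcases Nat.lt_or_ge w.natAbs 2 with h2 | h2
  · refine ⟨2 + k % 2, by omega, by omega, ?_⟩
    have hw1 : 0 < w.natAbs := Int.natAbs_pos.mpr hw0
    have h4 : w = 1 ∨ w = -1 := Int.natAbs_eq_iff.mp (by omega : w.natAbs = 1)
    rcases h4 with h4 | h4
    · rw [h4, one_pow, one_pow]
    · rw [h4]
      have h5 : k % 2 = 0 ∨ k % 2 = 1 := by omega
      rcases h5 with h5 | h5
      · have h6 : Even k := Nat.even_iff.mpr h5
        rw [h5, h6.neg_one_pow]; norm_num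
      · have h6 : Odd k := Nat.odd_iff.mpr h5
        rw [h5, h6.neg_one_pow]; norm_num
  · exact ⟨k, hk, by have := b6 h2; omega, rfl⟩

/-- the same with one base equal to one -/
theorem su_exps_unit (P : Finset ℕ) : ∃ C₀ κ : ℕ, ∀ A B C Y W T m k : ℕ, 1 ≤ T →
    (∀ q ∈ P, q ≤ T) → 0 < m → 0 < k → Su P A → Su P B → Su P C →
    Nat.Coprime A (B * Y) → Nat.Coprime A (C * W) → Nat.Coprime (B * Y) (C * W) →
    ((A : ℕ) : ℤ) ∣ ((B * Y ^ m : ℕ) : ℤ) ^ 2 - ((C * W ^ k : ℕ) : ℤ) ^ 2 →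
    ((B * Y ^ m : ℕ) : ℤ) ∣ ((A : ℕ) : ℤ) ^ 2 - ((C * W ^ k : ℕ) : ℤ) ^ 2 →
    ((C * W ^ k : ℕ) : ℤ) ∣ ((A : ℕ) : ℤ) ^ 2 - ((B * Y ^ m : ℕ) : ℤ) ^ 2 →
    C * W ^ k ≤ A + B * Y ^ m → Y ≤ 2 ^ T → W ≤ 2 ^ T → 0 < Y → 2 ≤ W →
    (∃ p : ℕ, p.Prime ∧ p ≤ T ∧ p ∣ Y) → k ≤ C₀ * T ^ κ := by
  obtain ⟨C₁, κ₁, hB⟩ := baker_su P
  obtain ⟨s, hs⟩ : ∃ s, s = P.card := ⟨_, rfl⟩
  obtain ⟨K₁, hK₁⟩ : ∃ K₁, K₁ = (4 * s + 3) * C₁ + 1 := ⟨_, rfl⟩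
  obtain ⟨L₀, hL₀⟩ := Pool.Agent.TH888.B1.growth (4 * K₁) (κ₁ + 1)
  refine ⟨K₁ * (L₀ + 1) ^ (κ₁ + 1), κ₁ + 1, ?_⟩
  intro A B C Y W T m k hT hPT hm hk hA hBs hC hab hac hbc h1 h2 h3 hsz hY hW hY0 hW2
    ⟨p', hp', hpT', hpY⟩
  have hW0 : 0 < W := by omega
  have nd : ∀ {q x y : ℕ}, q.Prime → Nat.Coprime x y → q ∣ x → ¬ q ∣ y := by
    intro q x y hq hxy hx hy
    have := Nat.dvd_gcd hx hy
    rw [hxy.gcd_eq_one] at this
    exact hq.one_lt.ne' (Nat.dvd_one.mp this)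
  obtain ⟨E, hE⟩ : ∃ E, E = m + k + ((∑ q ∈ P, A.factorization q) +
    (∑ q ∈ P, B.factorization q) + ∑ q ∈ P, C.factorization q) := ⟨_, rfl⟩
  have hAE : ∀ q, A.factorization q ≤ E := fun q => (hA.fact_le q).trans (by omega)
  have hBE : ∀ q, B.factorization q ≤ E := fun q => (hBs.fact_le q).trans (by omega)
  have hCE : ∀ q, C.factorization q ≤ E := fun q => (hC.fact_le q).trans (by omega)
  obtain ⟨T', hT'⟩ : ∃ T', T' = max T (Nat.log 2 (2 * E) + 1) := ⟨_, rfl⟩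
  have hTT : T ≤ T' := by rw [hT']; exact le_max_left _ _
  have hET : 2 * E ≤ 2 ^ T' := by
    have h4 : 2 * E < 2 ^ (Nat.log 2 (2 * E) + 1) := Nat.lt_pow_succ_log_self (by norm_num) _
    exact h4.le.trans (Nat.pow_le_pow_right (by norm_num) (by rw [hT']; exact le_max_right _ _))
  have h2T : (2 : ℕ) ^ T ≤ 2 ^ T' := Nat.pow_le_pow_right (by norm_num) hTT
  have hP2 : ∀ q ∈ P, q ≤ 2 ^ T := fun q hq => (hPT q hq).trans Nat.lt_two_pow_self.le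
  obtain ⟨D, hD⟩ : ∃ D, D = C₁ * T' ^ κ₁ := ⟨_, rfl⟩
  have key : ∀ q u v x y i j M : ℕ, q.Prime → q ≤ T → Su P u → Su P v → 0 < x → 0 < y → ¬ q ∣ u →
      ¬ q ∣ v → ¬ q ∣ x → ¬ q ∣ y → x ≤ 2 ^ T → y ≤ 2 ^ T → (∀ r, u.factorization r ≤ E) →
      (∀ r, v.factorization r ≤ E) → i ≤ E → j ≤ E → u * x ^ i ≠ v * y ^ j →
      (q : ℤ) ^ M ∣ ((u * x ^ i : ℕ) : ℤ) ^ 2 - ((v * y ^ j : ℕ) : ℤ) ^ 2 → M ≤ D := by
    intro q u v x y i j M hq hqT hu hv hx hy g1 g2 g3 g4 g5 g6 g7 g8 g9 g10 g11 g12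
    rw [hD]
    exact hB q T' hq (hqT.trans hTT) (fun r hr => (hP2 r hr).trans h2T) u v x y i j M hu hv hx hy
      g1 g2 g3 g4 (g5.trans h2T) (g6.trans h2T)
      (fun r => (Nat.mul_le_mul_left 2 (g7 r)).trans hET)
      (fun r => (Nat.mul_le_mul_left 2 (g8 r)).trans hET)
      ((Nat.mul_le_mul_left 2 g9).trans hET) ((Nat.mul_le_mul_left 2 g10).trans hET) g11 g12
  -- nondegeneracy
  have nBC : B * Y ^ m ≠ C * W ^ k := by
    intro he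
    have g1 : p' ∣ C * W ^ k := by
      rw [← he]; exact Dvd.dvd.mul_left (dvd_pow hpY hm.ne') _
    have g2 := nd hp' hbc (Dvd.dvd.mul_left hpY B)
    rcases (Nat.Prime.dvd_mul hp').mp g1 with g3 | g3
    · exact g2 (Dvd.dvd.mul_right g3 _)
    · exact g2 (Dvd.dvd.mul_left (hp'.dvd_of_dvd_pow g3) _)
  have nAC : A * 1 ^ 0 ≠ C * W ^ k := by
    rw [pow_zero, mul_one]
    intro he
    obtain ⟨q, hq, hqW⟩ := Nat.exists_prime_and_dvd (show W ≠ 1 by omega)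
    have g1 : q ∣ A := by
      rw [he]; exact Dvd.dvd.mul_left (dvd_pow hqW hk.ne') _
    exact nd hq hac g1 (Dvd.dvd.mul_left hqW C)
  have nAB : A * 1 ^ 0 ≠ B * Y ^ m := by
    rw [pow_zero, mul_one]
    intro he
    have g1 : p' ∣ A := by
      rw [he]; exact Dvd.dvd.mul_left (dvd_pow hpY hm.ne') _
    exact nd hp' hab g1 (Dvd.dvd.mul_left hpY B)
  -- splitting the non-divisibility
  have sp : ∀ {q u x y : ℕ}, q.Prime → Nat.Coprime u (x * y) → q ∣ u →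
      ¬ q ∣ x ∧ ¬ q ∣ y := by
    intro q u x y hq hc hd
    have g := nd hq hc hd
    exact ⟨fun h => g (Dvd.dvd.mul_right h _), fun h => g (Dvd.dvd.mul_left h _)⟩
  have n1 : ∀ {q : ℕ}, q.Prime → ¬ q ∣ 1 := fun hq => hq.one_lt.ne' ∘ Nat.dvd_one.mp
  have h12 : 1 ≤ 2 ^ T := Nat.one_le_two_pow
  have keyA : ∀ q M : ℕ, q.Prime → q ≤ T → q ∣ A → q ^ M ∣ A → M ≤ D := by
    intro q M hq hqT hd hM
    obtain ⟨g1, g3⟩ := sp hq hab hd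
    obtain ⟨g2, g4⟩ := sp hq hac hd
    refine key q B C Y W m k M hq hqT hBs hC hY0 hW0 g1 g2 g3 g4 hY hW hBE hCE (by omega)
      (by omega) nBC ?_
    exact dvd_trans (by exact_mod_cast hM) h1
  have keyB : ∀ q M : ℕ, q.Prime → q ≤ T → q ∣ B * Y → q ^ M ∣ B * Y ^ m → M ≤ D := by
    intro q M hq hqT hd hM
    have g1 : ¬ q ∣ A := nd hq hab.symm hd
    obtain ⟨g2, g4⟩ := sp hq hbc hd
    refine key q A C 1 W 0 k M hq hqT hA hC one_pos hW0 g1 g2 (n1 hq) g4 h12 hW hAE hCE (by omega)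
      (by omega) nAC ?_
    rw [pow_zero, mul_one]
    exact dvd_trans (by exact_mod_cast hM) h2
  have keyC : ∀ q M : ℕ, q.Prime → q ≤ T → q ∣ C * W → q ^ M ∣ C * W ^ k → M ≤ D := by
    intro q M hq hqT hd hM
    have g1 : ¬ q ∣ A := nd hq hac.symm hd
    obtain ⟨g2, g4⟩ := sp hq hbc.symm hd
    refine key q A B 1 Y 0 m M hq hqT hA hBs one_pos hY0 g1 g2 (n1 hq) g4 h12 hY hAE hBE (by omega)
      (by omega) nAB ?_
    rw [pow_zero, mul_one]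
    exact dvd_trans (by exact_mod_cast hM) h3
  have hmD : m ≤ D := keyB p' m hp' hpT' (Dvd.dvd.mul_left hpY B)
    (Dvd.dvd.mul_left (pow_dvd_pow_of_dvd hpY m) B)
  have vf : ∀ n : ℕ, Su P n → (∀ q M : ℕ, q.Prime → q ≤ T → q ∣ n → q ^ M ∣ n → M ≤ D) →
      ∀ q, n.factorization q ≤ D := by
    intro n hn g q
    by_cases h0 : n.factorization q = 0
    · rw [h0]; exact Nat.zero_le _
    · have g1 : q ∈ n.factorization.support := Finsupp.mem_support_iff.2 h0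
      rw [Nat.support_factorization, Nat.mem_primeFactors] at g1
      exact g q _ g1.1 (hPT q (hn.2 q g1.1 g1.2.1)) g1.2.1 (Nat.ordProj_dvd n q)
  have hAD : ∀ q, A.factorization q ≤ D := vf A hA fun q M hq hqT hd hM =>
    keyA q M hq hqT hd hM
  have hBD : ∀ q, B.factorization q ≤ D := vf B hBs fun q M hq hqT hd hM =>
    keyB q M hq hqT (Dvd.dvd.mul_right hd _) (Dvd.dvd.mul_right hM _)
  have hCD : ∀ q, C.factorization q ≤ D := vf C hC fun q M hq hqT hd hM =>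
    keyC q M hq hqT (Dvd.dvd.mul_right hd _) (Dvd.dvd.mul_right hM _)
  -- the exponent of `W`
  have hkD : k ≤ T * D * (s + 1) + 1 := by
    have e4 : ∀ {a x i : ℕ}, Su P a → (∀ q, a.factorization q ≤ D) → x ≤ 2 ^ T → i ≤ D →
        a * x ^ i ≤ 2 ^ (T * D * (s + 1)) := by
      intro a x i ha had hx hi
      have f1 := ha.le_pow hP2 had
      have f2 : x ^ i ≤ 2 ^ (T * D) := by
        calc x ^ i ≤ (2 ^ T) ^ i := Nat.pow_le_pow_left hx i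
          _ ≤ (2 ^ T) ^ D := Nat.pow_le_pow_right (by positivity) hi
          _ = _ := by rw [← pow_mul]
      calc a * x ^ i ≤ 2 ^ (T * D * P.card) * 2 ^ (T * D) := Nat.mul_le_mul f1 f2
        _ = _ := by rw [← pow_add, hs]; ring_nf
    have e5 := e4 hA hAD h12 (Nat.zero_le D)
    rw [pow_zero, mul_one] at e5
    have e6 := e4 hBs hBD hY hmD
    have e7 : 2 ^ k ≤ 2 ^ (T * D * (s + 1) + 1) := by
      have f1 : 2 ^ k ≤ W ^ k := Nat.pow_le_pow_left hW2 _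
      have f2 : W ^ k ≤ C * W ^ k := Nat.le_mul_of_pos_left _ (Nat.pos_of_ne_zero hC.1)
      rw [pow_succ]
      omega
    exact (Nat.pow_le_pow_iff_right (by norm_num)).mp e7
  have hsum : ∀ {n : ℕ}, (∀ q, n.factorization q ≤ D) → ∑ q ∈ P, n.factorization q ≤ s * D := by
    intro n hn
    calc ∑ q ∈ P, n.factorization q ≤ ∑ _q ∈ P, D := Finset.sum_le_sum fun q _ => hn q
      _ = s * D := by rw [Finset.sum_const, smul_eq_mul, hs]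
  have hT1 : 1 ≤ T' := hT.trans hTT
  have hEB : E ≤ K₁ * T' ^ (κ₁ + 1) := by
    have f1 := hsum hAD
    have f2 := hsum hBD
    have f3 := hsum hCD
    have f4 : D ≤ T' * D := Nat.le_mul_of_pos_left _ hT1
    have f5 : T * D * (s + 1) ≤ T' * D * (s + 1) :=
      Nat.mul_le_mul_right _ (Nat.mul_le_mul_right _ hTT)
    have f6 : s * D ≤ s * (T' * D) := Nat.mul_le_mul_left _ f4
    have f7 : E ≤ (4 * s + 3) * (T' * D) + 1 := by
      have : (4 * s + 3) * (T' * D) = T' * D * (s + 1) + 2 * (T' * D) + 3 * (s * (T' * D)) := by ring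
      omega
    have f8 : (4 * s + 3) * (T' * D) = (4 * s + 3) * C₁ * T' ^ (κ₁ + 1) := by rw [hD]; ring
    have f9 : 1 ≤ T' ^ (κ₁ + 1) := Nat.one_le_pow _ _ hT1
    rw [hK₁, add_mul, one_mul]
    omega
  have hfin : E ≤ K₁ * (L₀ + 1) ^ (κ₁ + 1) * T ^ (κ₁ + 1) := by
    have hS0p : 1 ≤ T ^ (κ₁ + 1) := Nat.one_le_pow _ _ hT
    have hL0p : 1 ≤ (L₀ + 1) ^ (κ₁ + 1) := Nat.one_le_pow _ _ (by omega)
    rcases le_total (Nat.log 2 (2 * E) + 1) T with g1 | g1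
    · have : T' = T := by rw [hT']; exact max_eq_left g1
      rw [this] at hEB
      exact hEB.trans (Nat.mul_le_mul_right _ (Nat.le_mul_of_pos_right _ hL0p))
    · have hSL : T' = Nat.log 2 (2 * E) + 1 := by rw [hT']; exact max_eq_right g1
      have hX0' : 2 * E ≠ 0 := by omega
      have g2 : 2 ^ (Nat.log 2 (2 * E)) ≤ 2 * E := Nat.pow_log_le_self 2 hX0'
      have g3 : 2 ^ T' ≤ 4 * K₁ * T' ^ (κ₁ + 1) := by
        calc 2 ^ T' = 2 * 2 ^ (Nat.log 2 (2 * E)) := by rw [hSL, pow_succ]; ring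
          _ ≤ 2 * (2 * E) := Nat.mul_le_mul_left _ g2
          _ ≤ 2 * (2 * (K₁ * T' ^ (κ₁ + 1))) :=
              Nat.mul_le_mul_left _ (Nat.mul_le_mul_left _ hEB)
          _ = _ := by ring
      have g4 := hL₀ T' g3
      calc E ≤ _ := hEB
        _ ≤ K₁ * (L₀ + 1) ^ (κ₁ + 1) := Nat.mul_le_mul_left _ (Nat.pow_le_pow_left (by omega) _)
        _ ≤ _ := Nat.le_mul_of_pos_right _ hS0p
  exact le_trans (by omega) hfin

/-- a third exponent for `u + v y ^ m = c w ^ k` -/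
theorem third_exp_unit (P : Finset ℕ) : ∃ C₀ κ : ℕ, ∀ (u v c y w : ℤ) (T m k : ℕ), 1 ≤ T →
    (∀ q ∈ P, q ≤ T) → 0 < m → 2 ≤ k →
    Su P u.natAbs → Su P v.natAbs → Su P c.natAbs →
    Int.gcd ((Int.gcd u (v * y) : ℕ) : ℤ) (c * w) = 1 → u + v * y ^ m = c * w ^ k →
    y.natAbs ≤ 2 ^ T → w.natAbs ≤ 2 ^ T → y ≠ 0 → w ≠ 0 →
    (∃ p : ℕ, p.Prime ∧ p ≤ T ∧ p ∣ y.natAbs) →
    ∃ k' : ℕ, 2 ≤ k' ∧ k' ≤ C₀ * T ^ κ + 3 ∧ w ^ k' = w ^ k := by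
  obtain ⟨C₀, κ, H⟩ := su_exps_unit P
  refine ⟨C₀, κ, ?_⟩
  rintro a b c y w T m k hT hPT hm hk ha hb hc hg h hy hw hy0 hw0 ⟨p', hp', hpT', hpy⟩
  rcases Nat.lt_or_ge w.natAbs 2 with h2 | h2
  · refine ⟨2 + k % 2, by omega, by omega, ?_⟩
    have hw1 : 0 < w.natAbs := Int.natAbs_pos.mpr hw0
    have h4 : w = 1 ∨ w = -1 := Int.natAbs_eq_iff.mp (by omega : w.natAbs = 1)
    rcases h4 with h4 | h4
    · rw [h4, one_pow, one_pow]
    · rw [h4]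
      have h5 : k % 2 = 0 ∨ k % 2 = 1 := by omega
      rcases h5 with h5 | h5
      · have h6 : Even k := Nat.even_iff.mpr h5
        rw [h5, h6.neg_one_pow]; norm_num
      · have h6 : Odd k := Nat.odd_iff.mpr h5
        rw [h5, h6.neg_one_pow]; norm_num
  obtain ⟨c1, c2, c3⟩ := cop3 (a := a) (x := 1) (b := b) (y := y) (c := c) (w := w) (l := 1)
    (m := m) (k := k) one_pos hm (by omega)
    (by rw [one_pow, mul_one]; exact h) (by rw [mul_one]; exact hg)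
  rw [Int.natAbs_one, mul_one] at c1 c2
  have ab : ∀ (u z : ℤ) (i : ℕ), u.natAbs * z.natAbs ^ i = (u * z ^ i).natAbs := by
    intro u z i
    rw [Int.natAbs_mul, Int.natAbs_pow]
  have sq : ∀ u : ℤ, ((u.natAbs : ℕ) : ℤ) ^ 2 = u ^ 2 := by
    intro u
    rw [Int.natCast_natAbs, sq_abs]
  have k1 : ∀ t₁ t₂ t₃ : ℤ, t₁ ∣ t₂ - t₃ ∨ t₁ ∣ t₂ + t₃ →
      ((t₁.natAbs : ℕ) : ℤ) ∣ ((t₂.natAbs : ℕ) : ℤ) ^ 2 - ((t₃.natAbs : ℕ) : ℤ) ^ 2 := by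
    intro t₁ t₂ t₃ hd
    rw [sq, sq, Int.natAbs_dvd]
    have e : t₂ ^ 2 - t₃ ^ 2 = (t₂ - t₃) * (t₂ + t₃) := by ring
    rw [e]
    rcases hd with hd | hd
    · exact Dvd.dvd.mul_right hd _
    · exact Dvd.dvd.mul_left hd _
  have b6 := H a.natAbs b.natAbs c.natAbs y.natAbs w.natAbs T m k hT
    hPT hm (by omega) ha hb hc c1 c2 c3
    (by rw [ab, ab]
        exact k1 _ _ _ (Or.inl ⟨-1, by linear_combination h⟩))
    (by rw [ab, ab]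
        exact k1 _ _ _ (Or.inl ⟨-1, by linear_combination h⟩))
    (by rw [ab, ab]
        exact k1 _ _ _ (Or.inr ⟨1, by linear_combination h⟩))
    (by rw [ab, ab, ← h]; exact Int.natAbs_add_le _ _)
    hy hw (Int.natAbs_pos.mpr hy0) h2 ⟨p', hp', hpT', hpy⟩
  exact ⟨k, hk, by omega, rfl⟩

end Pool.Agent.TH888.G
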