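import Mathlib
import Pool.Agent.TH888.G.Gamma
import Pool.Agent.TH888.G.UExp
import Pool.Agent.TH888.G.AlphaMain

/-!
One base an `S`-unit: the third exponent has a divisor up to a power of `Y`, or the third base is at
most the exponential of a power of `Y`.
-/

set_option autoImplicit false

namespace Pool.Agent.TH888.G

open Finset Filter Topology
open Pool.Agent.TH888.W2 (Su)

/-- `u + v B ^ y = w C ^ z` with `S`-units `u`, `v`, `w` -/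
def EqC (P : Finset ℕ) (B z : ℕ) (C : ℤ) : Prop := ∃ (u v w : ℤ) (y : ℕ), 0 < y ∧ 0 < z ∧
  Su P u.natAbs ∧ Su P v.natAbs ∧ Su P w.natAbs ∧ C ≠ 0 ∧
  Int.gcd ((Int.gcd u (v * B) : ℕ) : ℤ) (w * C) = 1 ∧ u + v * (B : ℤ) ^ y = w * C ^ z

theorem gamma2 (S : Finset ℕ) {c : ℝ} (hc : 0 < c) (hc1 : c * (2 * S.card + 2) < 1) :
    ∃ c' : ℝ, 0 < c' ∧ ∀ ε δ : ℝ, 0 < ε → 0 < δ → δ ≤ 1 → ∃ L : ℕ, ∀ Y : ℕ, L ≤ Y → ∀ b : ℕ,
    (b : ℝ) ≤ (Y : ℝ) ^ (2 - δ) →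
      (({B : ℕ | B ∈ Set.Ioc b (b + Y) ∧ ∃ (z : ℕ) (C : ℤ), (MultW ((Y : ℝ) ^ c) z ∨
        (2 ≤ z ∧ |(C : ℝ)| ≤ Real.exp ((Y : ℝ) ^ c'))) ∧
        EqC (S.filter Nat.Prime) B z C}.ncard : ℕ) : ℝ) ≤ ε * Y := by
  classical
  obtain ⟨P, hPdef⟩ : ∃ P, P = S.filter Nat.Prime := ⟨_, rfl⟩
  obtain ⟨C₀, κ, H⟩ := third_exp_unit P
  refine ⟨2 * c / (8 * ((κ : ℝ) + 1)), by positivity, fun ε δ hε hδ hδ1 => ?_⟩
  obtain ⟨F, hF, L₁, hL₁⟩ := kind_two' Nat.prime_two ∅ (ε / 2) (by positivity)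
  obtain ⟨L₂, hL₂⟩ := gamma S hc hc1 (ε := ε / 2) (by positivity) hδ hδ1
  obtain ⟨c₀, hc₀⟩ : ∃ c₀, c₀ = 4 + F.sup id + P.sup id := ⟨_, rfl⟩
  obtain ⟨L₃, hL₃⟩ := small_par' (C₀ + 3) κ c₀ (δ := 2 * c) (by positivity)
  refine ⟨L₁ + L₂ + L₃ + 2, fun Y hY b hb => ?_⟩
  have k1 := hL₂ Y (by omega) b hb
  rw [← hPdef] at k1 ⊢
  obtain ⟨T, hT1, hT2, hT3, hT4⟩ := hL₃ Y (by omega)
  have hY1R : (1 : ℝ) ≤ Y := by exact_mod_cast (by omega : 1 ≤ Y)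
  have hb2 : b ≤ Y ^ 2 := by
    have : (b : ℝ) ≤ (Y : ℝ) ^ 2 := by
      calc (b : ℝ) ≤ (Y : ℝ) ^ (2 - δ) := hb
        _ ≤ (Y : ℝ) ^ (2 : ℝ) := Real.rpow_le_rpow_of_exponent_le hY1R (by linarith)
        _ = _ := by rw [← Real.rpow_natCast]; norm_num
    exact_mod_cast this
  have hc₀T : c₀ ≤ T := (Nat.le_mul_of_pos_right _ (by omega)).trans hT2
  have hN2T : Y ^ 4 ≤ 2 ^ T := by
    calc Y ^ 4 ≤ (2 ^ (Nat.log 2 Y + 1)) ^ 4 :=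
          Nat.pow_le_pow_left (Nat.lt_pow_succ_log_self (by norm_num) Y).le _
      _ = 2 ^ (4 * (Nat.log 2 Y + 1)) := by rw [← pow_mul, mul_comm]
      _ ≤ 2 ^ T := Nat.pow_le_pow_right (by norm_num)
          ((Nat.mul_le_mul_right _ (by omega)).trans hT2)
  have hside : ∀ {B : ℕ}, B ≤ b + Y → B ≤ 2 ^ T := by
    intro B hB
    refine le_trans ?_ hN2T
    have h4 : Y ^ 2 ≤ Y ^ 3 := Nat.pow_le_pow_right (by omega) (by omega)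
    have h5 : Y ^ 1 ≤ Y ^ 3 := Nat.pow_le_pow_right (by omega) (by omega)
    have h6 : Y ^ 4 = Y * Y ^ 3 := by ring
    rw [h6]
    rw [pow_one] at h5
    have h7 : 2 ≤ Y := by omega
    nlinarith
  have hPT : ∀ q ∈ P, q ≤ T := by
    intro q hq
    have := Finset.le_sup (f := id) hq
    simp only [id] at this
    omega
  have hFT : ∀ r ∈ F, r ≤ T := by
    intro r hr
    have := Finset.le_sup (f := id) hr
    simp only [id] at this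
    omega
  have hW : ((C₀ * T ^ κ + 3 : ℕ) : ℝ) ≤ (Y : ℝ) ^ c := by
    have h1 : C₀ * T ^ κ + 3 ≤ (C₀ + 3) * T ^ κ := by
      have : 1 ≤ T ^ κ := Nat.one_le_pow _ _ hT1
      nlinarith
    have h2 : 2 * c / 2 = c := by ring
    rw [h2] at hT4
    exact le_trans (by exact_mod_cast h1) hT4
  obtain ⟨V, hV⟩ : ∃ V : ℝ, V = Real.exp ((Y : ℝ) ^ (2 * c / (8 * ((κ : ℝ) + 1)))) := ⟨_, rfl⟩
  rw [← hV] at hT3 ⊢
  have hnat : ∀ t : ℤ, |(t : ℝ)| ≤ V → t.natAbs ≤ 2 ^ T := by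
    intro t ht
    have h1 : ((t.natAbs : ℕ) : ℝ) ≤ ((2 ^ T : ℕ) : ℝ) := by
      rw [Nat.cast_natAbs]
      push_cast at hT3 ⊢
      exact ht.trans hT3
    exact_mod_cast h1
  obtain ⟨D, hD⟩ : ∃ D : Set ℕ, D = {n : ℕ | ∀ r ∈ F, ¬ r ∣ n} := ⟨_, rfl⟩
  have g1 := hL₁ Y (by omega) b
  rw [← hD] at g1
  have hsub : {B : ℕ | B ∈ Set.Ioc b (b + Y) ∧ ∃ (z : ℕ) (C : ℤ), (MultW ((Y : ℝ) ^ c) z ∨
        (2 ≤ z ∧ |(C : ℝ)| ≤ V)) ∧ EqC P B z C} ⊆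
      {B : ℕ | B ∈ Set.Ioc b (b + Y) ∧ ∃ z n : ℕ, 2 ≤ n ∧ (n : ℝ) ≤ (Y : ℝ) ^ c ∧ n ∣ z ∧
        EqU P B z} ∪ (D ∩ Set.Ioc b (b + Y)) := by
    rintro B ⟨hB, z, C, hcase, u, v, w, y, hy, hz, hu, hv, hw, hC0, hg, heq⟩
    by_cases hDB : B ∈ D
    · exact Or.inr ⟨hDB, hB⟩
    left
    rw [hD] at hDB
    simp only [Set.mem_ofPred_eq, not_forall, not_not] at hDB
    obtain ⟨r, hr, hrB⟩ := hDB
    rcases hcase with ⟨n, hn1, hn2, hn3⟩ | ⟨hz2, hCV⟩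
    · exact ⟨hB, z, n, hn1, hn2, hn3, u, v, w, C, y, hy, hz, hu, hv, hw, hC0, hg, heq⟩
    · have hB0 : (B : ℤ) ≠ 0 := by
        have := hB.1
        exact_mod_cast (by omega : B ≠ 0)
      obtain ⟨k, h1, h2, h3⟩ := H u v w B C T y z hT1 hPT hy hz2 hu hv hw hg heq
        (by rw [Int.natAbs_natCast]; exact hside hB.2) (hnat C hCV) hB0 hC0
        ⟨r, (hF r hr).1, hFT r hr, by rw [Int.natAbs_natCast]; exact hrB⟩
      exact ⟨hB, k, k, h1, le_trans (by exact_mod_cast h2) hW, dvd_rfl, u, v, w, C, y, hy, by omega,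
        hu, hv, hw, hC0, hg, by rw [h3]; exact heq⟩
  have hf1 : {B : ℕ | B ∈ Set.Ioc b (b + Y) ∧ ∃ z n : ℕ, 2 ≤ n ∧ (n : ℝ) ≤ (Y : ℝ) ^ c ∧ n ∣ z ∧
        EqU P B z}.Finite := (Set.finite_Ioc b (b + Y)).subset fun B hB => hB.1
  have hf2 : (D ∩ Set.Ioc b (b + Y)).Finite := (Set.finite_Ioc _ _).subset Set.inter_subset_right
  have h1 := (Set.ncard_le_ncard hsub (hf1.union hf2)).trans (Set.ncard_union_le _ _)
  calc _ ≤ _ := Nat.cast_le.mpr h1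
    _ ≤ ε / 2 * Y + ε / 2 * Y := by
      push_cast
      exact add_le_add k1 g1
    _ = ε * Y := by ring

end Pool.Agent.TH888.G
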