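import Mathlib
import Pool.Agent.H374R2.T.TaskE

/-! Two logarithms at all primes; both numbers are rational. After `Pool.Agent.H374R2.V.TL`. -/

set_option autoImplicit false

namespace Pool.Agent.TH888.G.TLQ

open Finset Pool.Agent.H374R2.T.TaskZ Pool.Agent.H374R2.T.TaskI
open Pool.Agent.H374R2.T.TaskE (exists_rows choose_bound final_arith)

/-- size of one entry of the interpolation matrix -/
theorem entry_bound {p e h ν q i a b A B lam L R S K r s k l : ℕ} (hp : 2 ≤ p) (he : e ≤ p)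
    (hh : 1 ≤ h) (hν : 1 ≤ ν) (hah : a < 2 ^ h) (hbh : b < 2 ^ h)
    (hAν : A < 2 ^ ν) (hBν : B < 2 ^ ν) (hi : i < q) (hpq : 8 * p ≤ q) (hql : q < 2 ^ lam)
    (hL : L = 16 * lam) (hK : K = 8 * p * (R * h + S * ν)) (hr : r < R) (hs : s < S)
    (hk : k < K) (hl : l < L) :
    Nat.choose (r * i + s * q) k * ((a ^ e) ^ (r * l) * (b ^ e) ^ (r * (L - 1 - l)) *
        (A ^ e) ^ (s * l) * (B ^ e) ^ (s * (L - 1 - l))) ≤ 2 ^ (3 * (lam * K)) := by
  have h1 : Nat.choose (r * i + s * q) k ≤ q ^ K := by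
    apply choose_bound (P := 8 * p) (by omega) hpq _ hk.le
    have h2 : r * i + s * q ≤ (R + S) * q := by
      have h3 : r * i ≤ R * q := Nat.mul_le_mul hr.le hi.le
      have h4 : s * q ≤ S * q := Nat.mul_le_mul_right q hs.le
      linarith [add_mul R S q]
    have h3 : (R + S) * (8 * p) ≤ K := by
      rw [hK, mul_comm]
      apply Nat.mul_le_mul_left
      exact add_le_add (Nat.le_mul_of_pos_right R hh) (Nat.le_mul_of_pos_right S hν)
    calc (r * i + s * q) * (8 * p) ≤ (R + S) * q * (8 * p) := Nat.mul_le_mul_right _ h2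
      _ = (R + S) * (8 * p) * q := by ring
      _ ≤ K * q := Nat.mul_le_mul_right _ h3
  have h2 : q ^ K ≤ 2 ^ (lam * K) := by
    rw [pow_mul]
    exact Nat.pow_le_pow_left hql.le K
  have h3 : (a ^ e) ^ (r * l) * (b ^ e) ^ (r * (L - 1 - l)) ≤
      2 ^ (h * e * (R * L)) := by
    calc (a ^ e) ^ (r * l) * (b ^ e) ^ (r * (L - 1 - l))
        ≤ ((2 ^ h) ^ e) ^ (r * l) * ((2 ^ h) ^ e) ^ (r * (L - 1 - l)) := by
          apply Nat.mul_le_mul
          · exact Nat.pow_le_pow_left (Nat.pow_le_pow_left hah.le _) _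
          · exact Nat.pow_le_pow_left (Nat.pow_le_pow_left hbh.le _) _
      _ = 2 ^ (h * e * (r * (l + (L - 1 - l)))) := by
          rw [← pow_add, ← pow_mul, ← pow_mul, mul_add r, mul_assoc]
      _ ≤ 2 ^ (h * e * (R * L)) := by
          apply Nat.pow_le_pow_right (by norm_num)
          apply Nat.mul_le_mul_left
          apply Nat.mul_le_mul hr.le
          omega
  have h4 : (A ^ e) ^ (s * l) * (B ^ e) ^ (s * (L - 1 - l)) ≤ 2 ^ (ν * e * (S * L)) := by
    calc (A ^ e) ^ (s * l) * (B ^ e) ^ (s * (L - 1 - l))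
        ≤ ((2 ^ ν) ^ e) ^ (s * l) * ((2 ^ ν) ^ e) ^ (s * (L - 1 - l)) := by
          apply Nat.mul_le_mul
          · exact Nat.pow_le_pow_left (Nat.pow_le_pow_left hAν.le _) _
          · exact Nat.pow_le_pow_left (Nat.pow_le_pow_left hBν.le _) _
      _ = 2 ^ (ν * e * (s * (l + (L - 1 - l)))) := by
          rw [← pow_add, ← pow_mul, ← pow_mul, mul_add s, mul_assoc]
      _ ≤ 2 ^ (ν * e * (S * L)) := by
          apply Nat.pow_le_pow_right (by norm_num)
          apply Nat.mul_le_mul_left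
          apply Nat.mul_le_mul hs.le
          omega
  have h5 : h * e * (R * L) + ν * e * (S * L) ≤ 2 * (lam * K) := by
    have h6 : h * e * (R * L) + ν * e * (S * L) =
        e * (L * (R * h + S * ν)) := by ring
    rw [h6]
    calc e * (L * (R * h + S * ν)) ≤ p * (L * (R * h + S * ν)) :=
          Nat.mul_le_mul_right _ he
      _ = 2 * (lam * K) := by rw [hL, hK]; ring
  calc Nat.choose (r * i + s * q) k * ((a ^ e) ^ (r * l) * (b ^ e) ^ (r * (L - 1 - l)) *
        (A ^ e) ^ (s * l) * (B ^ e) ^ (s * (L - 1 - l)))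
      = Nat.choose (r * i + s * q) k * (((a ^ e) ^ (r * l) * (b ^ e) ^ (r * (L - 1 - l))) *
        ((A ^ e) ^ (s * l) * (B ^ e) ^ (s * (L - 1 - l)))) := by
          rw [mul_assoc ((a ^ e) ^ (r * l) * (b ^ e) ^ (r * (L - 1 - l)))]
    _ ≤ 2 ^ (lam * K) * (2 ^ (h * e * (R * L)) * 2 ^ (ν * e * (S * L))) :=
        Nat.mul_le_mul (h1.trans h2) (Nat.mul_le_mul h3 h4)
    _ = 2 ^ (lam * K + (h * e * (R * L) + ν * e * (S * L))) := by
        rw [← pow_add, ← pow_add]
    _ ≤ _ := by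
        apply Nat.pow_le_pow_right (by norm_num)
        omega

/-- two logarithms for all primes, the second number being rational (after `H374R2.V.TL`) -/
theorem two_logsQ {p h ν q i y a b A B : ℕ} (hp : p.Prime) (hh : 1 ≤ h) (hν : 1 ≤ ν)
    (ha : 0 < a) (hb : 0 < b) (hA : 0 < A) (hB : 0 < B) (hab : a ≠ b) (hah : a < 2 ^ h) (hbh : b < 2 ^ h)
    (hAν : A < 2 ^ ν) (hBν : B < 2 ^ ν) (hpa : ¬ p ∣ a) (hpb : ¬ p ∣ b) (hpA : ¬ p ∣ A)
    (hpB : ¬ p ∣ B) (hi : 0 < i) (hiq : i < q)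
    (hiqc : Nat.Coprime i q)
    (hrel : (p : ℤ) ^ y ∣ (a : ℤ) ^ (2 * q) * (B : ℤ) ^ (2 * i) -
      (b : ℤ) ^ (2 * q) * (A : ℤ) ^ (2 * i))
    (hqbig : 600 * p * ν * (Nat.log 2 q + 1) ≤ q) :
    y < 150000 * p ^ 2 * (Nat.log 2 q + 1) ^ 2 * h * ν := by
  by_contra hcon
  push Not at hcon
  set lam : ℕ := Nat.log 2 q + 1 with hlam
  have hp2 : 2 ≤ p := hp.two_le
  obtain ⟨ex, hexp, hex1, hexeven, hexf⟩ : ∃ ex : ℕ, ex ≤ p ∧ 1 ≤ ex ∧ (∃ m, ex = 2 * m) ∧
      ∀ x : ℕ, ¬ p ∣ x → x ^ ex ≡ 1 [MOD p] := by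
    rcases eq_or_ne p 2 with h2 | h2
    · refine ⟨2, hp2, by norm_num, ⟨1, rfl⟩, ?_⟩
      intro x hx
      subst h2
      have hodd : x % 2 = 1 := by omega
      have : (x ^ 2) % 2 = 1 := by
        rw [Nat.pow_mod, hodd]
      exact this
    · refine ⟨p - 1, Nat.sub_le _ _, by omega, ?_, ?_⟩
      · obtain ⟨m, hm⟩ := hp.odd_of_ne_two h2
        exact ⟨m, by omega⟩
      · intro x hx
        have hx' : Nat.Coprime x p := by
          rw [Nat.coprime_comm]
          exact (Nat.Prime.coprime_iff_not_dvd hp).mpr hx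
        have := Nat.ModEq.pow_totient hx'
        rwa [Nat.totient_prime hp] at this
  have hql : q < 2 ^ lam := Nat.lt_pow_succ_log_self (by norm_num) q
  have hlam1 : 1 ≤ lam := by omega
  have hq8 : 600 * p ≤ q := by
    calc 600 * p = 600 * p * 1 * 1 := by ring
      _ ≤ 600 * p * ν * lam := Nat.mul_le_mul (Nat.mul_le_mul_left _ hν) hlam1
      _ ≤ q := hqbig
  have hlam2 : 2 ≤ lam := by
    by_contra hc
    have h1 : lam = 1 := by omega
    rw [h1] at hql
    omega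
  set L : ℕ := 16 * lam with hL
  set R₂ : ℕ := 32 * p * L * ν with hR₂
  set S₂ : ℕ := 32 * p * L * h with hS₂
  set R : ℕ := R₂ + L - 1 with hR
  set K : ℕ := 8 * p * (R * h + S₂ * ν) with hK
  set n : ℕ := K * L with hn
  have hLpos : 0 < L := by omega
  have hppos : 0 < p := by omega
  have hR₂pos : 0 < R₂ := by positivity
  have hS₂pos : 0 < S₂ := by positivity
  have hKpos : 0 < K := by
    have : 0 < S₂ * ν := by positivity
    have : 0 < R * h + S₂ * ν := by omega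
    positivity
  -- the main size estimate
  have hsize : 3 * (K * L) ≤ 1548 * (p ^ 2 * L ^ 2 * h * ν) := by
    have h1 : R * h ≤ (R₂ + L) * h := Nat.mul_le_mul_right _ (by omega)
    have h2 : K ≤ 8 * p * ((R₂ + L) * h + S₂ * ν) :=
      Nat.mul_le_mul_left _ (Nat.add_le_add_right h1 _)
    have h3 : 3 * (K * L) ≤ 3 * (8 * p * ((R₂ + L) * h + S₂ * ν) * L) :=
      Nat.mul_le_mul_left _ (Nat.mul_le_mul_right _ h2)
    have h4 : 3 * (8 * p * ((R₂ + L) * h + S₂ * ν) * L) =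
        1536 * (p ^ 2 * L ^ 2 * h * ν) + 8 * (3 * p * 1) * (L ^ 2 * h) := by
      rw [hR₂, hS₂]
      ring
    have h5 : 2 * p * 1 ≤ p * p * ν := Nat.mul_le_mul (Nat.mul_le_mul_right _ hp2) hν
    have h6 : 8 * (3 * p * 1) * (L ^ 2 * h) ≤ 12 * (p * p * ν) * (L ^ 2 * h) :=
      Nat.mul_le_mul_right _ (by omega)
    calc 3 * (K * L) ≤ 1536 * (p ^ 2 * L ^ 2 * h * ν) + 8 * (3 * p * 1) * (L ^ 2 * h) := by
          rw [← h4]; exact h3
      _ ≤ 1536 * (p ^ 2 * L ^ 2 * h * ν) + 12 * (p * p * ν) * (L ^ 2 * h) :=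
          Nat.add_le_add_left h6 _
      _ = 1548 * (p ^ 2 * L ^ 2 * h * ν) := by ring
  have hbase : 0 < p ^ 2 * L ^ 2 * h * ν := by positivity
  have hny : n ≤ y := by
    have h1 : 3 * n ≤ 3 * (150000 * p ^ 2 * lam ^ 2 * h * ν) := by
      calc 3 * n ≤ 1548 * (p ^ 2 * L ^ 2 * h * ν) := hsize
        _ = 396288 * (p ^ 2 * lam ^ 2 * h * ν) := by rw [hL]; ring
        _ ≤ 450000 * (p ^ 2 * lam ^ 2 * h * ν) := Nat.mul_le_mul_right _ (by norm_num)
        _ = _ := by ring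
    have h2 : n ≤ 150000 * p ^ 2 * lam ^ 2 * h * ν := by omega
    exact h2.trans hcon
  have hKL : (K - 1) * L < R₂ * S₂ := by
    have h1 : (K - 1) * L ≤ K * L := Nat.mul_le_mul_right _ (Nat.sub_le _ _)
    have h2 : R₂ * S₂ = 1024 * (p ^ 2 * L ^ 2 * h * ν) := by
      rw [hR₂, hS₂]
      ring
    omega
  have hRq : R₂ ≤ q := by
    have h1 : R₂ = 512 * (p * ν * lam) := by
      rw [hR₂, hL]
      ring
    have h2 : 600 * p * ν * lam = 600 * (p * ν * lam) := by ring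
    omega
  -- the rational parameters
  have ha' : (0 : ℚ) < a := by exact_mod_cast ha
  have hb' : (0 : ℚ) < b := by exact_mod_cast hb
  have hA' : (0 : ℚ) < A := by exact_mod_cast hA
  have hB' : (0 : ℚ) < B := by exact_mod_cast hB
  set β : ℚ := ((a : ℚ) / b) ^ ex with hβ
  set κ : ℚ := ((A : ℚ) / B) ^ ex with hκ
  have hβpos : 0 < β := by positivity
  have hκpos : 0 < κ := by positivity
  have hβ1 : β ≠ 1 := by
    intro h1
    have h2 : (a : ℚ) / b = 1 := by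
      rw [hβ] at h1
      exact (pow_eq_one_iff_of_nonneg (by positivity) (by omega)).mp h1
    rw [div_eq_one_iff_eq hb'.ne'] at h2
    exact hab (by exact_mod_cast h2)
  let e : Fin K × Fin L ≃ Fin (K * L) := finProdFinEquiv
  let M : Matrix (Fin R × Fin S₂) (Fin (K * L)) ℚ := Matrix.of fun ρ c =>
    (Nat.choose (ρ.1 * i + ρ.2 * q) (e.symm c).1 : ℚ) *
      (β ^ (ρ.1 : ℕ) * κ ^ (ρ.2 : ℕ)) ^ ((e.symm c).2 : ℕ)
  have hinj : Function.Injective M.mulVec := by
    have hzero : ∀ d : Fin (K * L) → ℚ, M.mulVec d = 0 → d = 0 := by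
      intro d hd
      have hz := zero_estimate (K := K) (L := L) hβpos hβ1 hκpos hiqc hRq hKL
        (fun k l => d (e (k, l))) (by
          intro r s hr hs
          have h1 := congrFun hd (⟨r, hr⟩, ⟨s, hs⟩)
          simp only [Matrix.mulVec, dotProduct, Pi.zero_apply] at h1
          rw [← h1, ← Fintype.sum_prod_type']
          apply Fintype.sum_equiv e
          intro c
          simp only [M, Matrix.of_apply, Equiv.symm_apply_apply]
          ring)
      funext c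
      have h2 := hz (e.symm c).1 (e.symm c).2
      simpa using h2
    intro u v huv
    have h1 : M.mulVec (u - v) = 0 := by
      rw [Matrix.mulVec_sub, huv, sub_self]
    exact sub_eq_zero.mp (hzero _ h1)
  obtain ⟨f, hf⟩ := exists_rows M hinj
  -- the integer matrix
  set N : Matrix (Fin (K * L)) (Fin (K * L)) ℤ := Matrix.of fun ρ c : Fin (K * L) =>
    ((Nat.choose (((f ρ).1 : ℕ) * i + ((f ρ).2 : ℕ) * q) ((e.symm c).1 : ℕ) *
      ((a ^ ex) ^ (((f ρ).1 : ℕ) * ((e.symm c).2 : ℕ)) *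
        (b ^ ex) ^ (((f ρ).1 : ℕ) * (L - 1 - ((e.symm c).2 : ℕ))) *
        (A ^ ex) ^ (((f ρ).2 : ℕ) * ((e.symm c).2 : ℕ)) *
        (B ^ ex) ^ (((f ρ).2 : ℕ) * (L - 1 - ((e.symm c).2 : ℕ)))) : ℕ) : ℤ) with hN
  have hdvd : (p : ℤ) ^ (n * (n - 1) / 2 - n * K) ∣ N.det := by
    have hfer : ∀ x : ℕ, ¬ p ∣ x → x ^ ex ≡ 1 [MOD p] := hexf
    have hcop : ∀ x : ℕ, ¬ p ∣ x → Nat.Coprime (x ^ ex) p := by
      intro x hx
      apply Nat.Coprime.pow_left
      rw [Nat.coprime_comm]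
      exact (Nat.Prime.coprime_iff_not_dvd hp).mpr hx
    apply det_dvd (n := K * L) (K := K) (L := L) (D := p) (Y := y) (i := i) (q := q)
      (b₁ := a ^ ex) (b₂ := b ^ ex) (c₁ := A ^ ex) (c₂ := B ^ ex) hp.two_le
      (hcop a hpa) (hcop b hpb) (hcop A hpA) (hcop B hpB)
      ((hfer a hpa).trans (hfer b hpb).symm) ((hfer A hpA).trans (hfer B hpB).symm) hny ?_ hiqc hi
      (by omega)
      (fun ρ => (f ρ).1) (fun ρ => (f ρ).2) (fun c => (e.symm c).1) (fun c => (e.symm c).2)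
      (fun c => (e.symm c).1.2) (fun c => (e.symm c).2.2)
    -- the relation
    obtain ⟨m, hm⟩ := hexeven
    have h1 : (p : ℤ) ^ y ∣ ((a : ℤ) ^ (2 * q) * (B : ℤ) ^ (2 * i)) ^ m -
        ((b : ℤ) ^ (2 * q) * (A : ℤ) ^ (2 * i)) ^ m :=
      hrel.trans (sub_dvd_pow_sub_pow _ _ m)
    rw [hm]
    have h2 : (((a ^ (2 * m)) ^ q * (B ^ (2 * m)) ^ i : ℕ) : ℤ) ≡
        (((b ^ (2 * m)) ^ q * (A ^ (2 * m)) ^ i : ℕ) : ℤ) [ZMOD ((p ^ y : ℕ) : ℤ)] := by
      apply Int.ModEq.symm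
      rw [Int.modEq_iff_dvd]
      push_cast
      have h3 : ((a : ℤ) ^ (2 * m)) ^ q * ((B : ℤ) ^ (2 * m)) ^ i -
          ((b : ℤ) ^ (2 * m)) ^ q * ((A : ℤ) ^ (2 * m)) ^ i =
          ((a : ℤ) ^ (2 * q) * (B : ℤ) ^ (2 * i)) ^ m -
            ((b : ℤ) ^ (2 * q) * (A : ℤ) ^ (2 * i)) ^ m := by
        rw [mul_pow, mul_pow]
        simp only [← pow_mul]
        have e1 : 2 * m * q = 2 * q * m := by ring
        have e2 : 2 * m * i = 2 * i * m := by ring
        rw [e1, e2]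
      rw [h3]
      exact h1
    exact (Int.natCast_modEq_iff).mp h2
  have hdet : N.det ≠ 0 := by
    intro h0
    apply hf
    have hrel2 : N.map (Int.cast : ℤ → ℚ) = Matrix.diagonal (fun ρ : Fin (K * L) =>
        ((b : ℚ) ^ ex) ^ (((f ρ).1 : ℕ) * (L - 1)) *
          ((B : ℚ) ^ ex) ^ (((f ρ).2 : ℕ) * (L - 1))) * M.submatrix f id := by
      ext ρ c
      rw [Matrix.diagonal_mul]
      simp only [hN, M, Matrix.map_apply, Matrix.of_apply, Matrix.submatrix_apply, id]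
      push_cast
      have hl := (e.symm c).2.2
      obtain ⟨t, ht⟩ : ∃ t, L - 1 = ((e.symm c).2 : ℕ) + t := ⟨L - 1 - (e.symm c).2, by omega⟩
      have ht2 : L - 1 - ((e.symm c).2 : ℕ) = t := by omega
      rw [ht2, ht, hβ, hκ, div_pow, div_pow, mul_pow, div_pow, div_pow, div_pow, div_pow]
      have hbne : (b : ℚ) ^ ex ≠ 0 := by positivity
      have hBne : (B : ℚ) ^ ex ≠ 0 := by positivity
      rw [mul_add, pow_add, mul_add, pow_add, pow_mul _ _ ((e.symm c).2 : ℕ),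
        pow_mul _ ((f ρ).1 : ℕ) ((e.symm c).2 : ℕ), pow_mul _ ((f ρ).2 : ℕ) ((e.symm c).2 : ℕ),
        pow_mul ((B : ℚ) ^ ex) ((f ρ).2 : ℕ) ((e.symm c).2 : ℕ)]
      field_simp
    have h1 : ((N.det : ℤ) : ℚ) = (N.map (Int.cast : ℤ → ℚ)).det := by
      have := RingHom.map_det (Int.castRingHom ℚ) N
      simpa using this
    rw [hrel2, Matrix.det_mul, Matrix.det_diagonal, h0, Int.cast_zero] at h1
    rcases mul_eq_zero.mp h1.symm with h2 | h2
    · exfalso
      rw [Finset.prod_eq_zero_iff] at h2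
      obtain ⟨ρ, _, hρ⟩ := h2
      have : ((b : ℚ) ^ ex) ^ (((f ρ).1 : ℕ) * (L - 1)) *
          ((B : ℚ) ^ ex) ^ (((f ρ).2 : ℕ) * (L - 1)) ≠ 0 := by positivity
      exact this hρ
    · exact h2
  -- upper bound of the determinant
  have hup : |N.det| ≤ (n.factorial : ℤ) * ((2 : ℤ) ^ (3 * (lam * K))) ^ n := by
    have h1 := Matrix.det_le (A := N) (abv := AbsoluteValue.abs)
      (x := (2 : ℤ) ^ (3 * (lam * K))) (by
        intro ρ c
        have h2 := entry_bound (p := p) (h := h) (ν := ν) (q := q) (i := i) (a := a) (b := b)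
          (A := A) (B := B) (lam := lam) (L := L) (R := R) (S := S₂) (K := K) (r := (f ρ).1)
          (s := (f ρ).2) (k := (e.symm c).1) (l := (e.symm c).2) hp2 hexp hh hν hah hbh hAν hBν hiq
          (by omega) hql hL hK (f ρ).1.2 (f ρ).2.2 (e.symm c).1.2 (e.symm c).2.2
        rw [hN, Matrix.of_apply, AbsoluteValue.abs_apply, Nat.abs_cast]
        exact_mod_cast h2)
    rw [AbsoluteValue.abs_apply, Fintype.card_fin, nsmul_eq_mul] at h1
    exact h1
  have hlow : (p : ℤ) ^ (n * (n - 1) / 2 - n * K) ≤ |N.det| := by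
    apply Int.le_of_dvd (abs_pos.mpr hdet)
    exact (dvd_abs _ _).mpr hdvd
  have hx2 : 2 ≤ lam * K := by nlinarith
  have hn16 : n = 16 * (lam * K) := by
    rw [hn, hL]
    ring
  have hfin := final_arith (K := K) (lam := lam) (x := lam * K) (n := n) rfl hn16 hlam2 hKpos
  have hnle : n ≤ 2 ^ (4 + lam * K) := by
    rw [hn16, pow_add]
    exact Nat.mul_le_mul (by norm_num) (Nat.lt_two_pow_self).le
  have hchain : (2 : ℤ) ^ (n * (n - 1) / 2 - n * K) ≤ 2 ^ ((4 + 4 * (lam * K)) * n) := by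
    calc (2 : ℤ) ^ (n * (n - 1) / 2 - n * K) ≤ (p : ℤ) ^ (n * (n - 1) / 2 - n * K) := by
          apply pow_le_pow_left₀ (by norm_num)
          exact_mod_cast hp.two_le
      _ ≤ |N.det| := hlow
      _ ≤ (n.factorial : ℤ) * ((2 : ℤ) ^ (3 * (lam * K))) ^ n := hup
      _ ≤ (n : ℤ) ^ n * ((2 : ℤ) ^ (3 * (lam * K))) ^ n := by
          apply mul_le_mul_of_nonneg_right _ (by positivity)
          exact_mod_cast Nat.factorial_le_pow n
      _ ≤ ((2 : ℤ) ^ (4 + lam * K)) ^ n * ((2 : ℤ) ^ (3 * (lam * K))) ^ n := by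
          apply mul_le_mul_of_nonneg_right _ (by positivity)
          apply pow_le_pow_left₀ (by positivity)
          exact_mod_cast hnle
      _ = 2 ^ ((4 + 4 * (lam * K)) * n) := by
          rw [← mul_pow, ← pow_add, ← pow_mul]
          congr 1
          ring
  have hcontra := (pow_le_pow_iff_right₀ (by norm_num : (1 : ℤ) < 2)).mp hchain
  omega

end Pool.Agent.TH888.G.TLQ
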