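import Mathlib
import Pool.Agent.H374R2.W.Glue

/-!
The bound for a prime exponent `q` in `U ^ q ∓ A ^ x = t`, where `t` is highly divisible by some small
prime (two logarithms, at this prime and over the reals). After `H374R2.W.QB`, where `t` is a power.
-/

set_option autoImplicit false

namespace Pool.Agent.TH888.G

open Finset
open Pool.Agent.H374R2.V.QB (core dvd_of_pow pow_sub_le pow_add_le)

theorem pow_gap {m n q : ℕ} (hq : 1 ≤ q) (h : m < n) : m ^ q + n ^ (q - 1) ≤ n ^ q := by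
  obtain ⟨k, rfl⟩ : ∃ k, q = k + 1 := ⟨q - 1, by omega⟩
  rw [Nat.add_sub_cancel]
  calc m ^ (k + 1) + n ^ k = m * m ^ k + n ^ k := by rw [pow_succ, mul_comm]
    _ ≤ m * n ^ k + n ^ k := Nat.add_le_add_right
        (Nat.mul_le_mul_left _ (Nat.pow_le_pow_left h.le k)) _
    _ = (m + 1) * n ^ k := by ring
    _ ≤ n * n ^ k := Nat.mul_le_mul_right _ h
    _ = n ^ (k + 1) := by rw [pow_succ, mul_comm]

theorem q_boundD {N R A q x Y U p : ℕ} {s t : ℤ} (hs : s = 1 ∨ s = -1)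
    (hq : q.Prime) (hq3 : 3 ≤ q) (hA : 0 < A) (hx1 : A = 1 → q ∣ x) (hAN : A ≤ N)
    (hUA : Nat.Coprime U A) (hx : 0 < x) (hY : 0 < Y) (hU : 2 ≤ U) (hp : p.Prime) (hpR : p ≤ R)
    (ht0 : t ≠ 0) (hpt : (p : ℤ) ^ Y ∣ t) (htN : t.natAbs < 2 ^ ((Nat.log 2 N + 1) * Y))
    (hpU : ¬ p ∣ U) (hpA : ¬ p ∣ A) (heq : (U : ℤ) ^ q - s * (A : ℤ) ^ x = t) :
    q ≤ 10 ^ 9 * R ^ 2 * (Nat.log 2 q + 1) ^ 2 * (Nat.log 2 N + 1) ^ 2 := by
  by_contra hcon
  rw [not_le] at hcon
  set ν := Nat.log 2 N + 1 with hν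
  set lam := Nat.log 2 q + 1 with hlam
  obtain ⟨D, hD⟩ : ∃ D, D = t.natAbs := ⟨_, rfl⟩
  rw [← hD] at htN
  have hD0 : 0 < D := by rw [hD]; exact Int.natAbs_pos.mpr ht0
  have hR1 : 1 ≤ R := hp.one_lt.le.trans hpR
  have hν1 : 1 ≤ ν := by omega
  have hlam1 : 1 ≤ lam := by omega
  have hR2 : R ≤ R ^ 2 := Nat.le_self_pow (by norm_num) R
  have hν2 : ν ≤ ν ^ 2 := Nat.le_self_pow (by norm_num) ν
  have hl2 : 1 ≤ lam ^ 2 := Nat.one_le_pow _ _ hlam1
  have hv2 : 1 ≤ ν ^ 2 := Nat.one_le_pow _ _ hν1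
  have hr2 : 1 ≤ R ^ 2 := Nat.one_le_pow _ _ hR1
  have hassoc : 10 ^ 9 * R ^ 2 * lam ^ 2 * ν ^ 2 = 10 ^ 9 * (R ^ 2 * lam ^ 2 * ν ^ 2) := by ring
  have hassoc' : 10 ^ 6 * R ^ 2 * lam ^ 2 * ν ^ 2 = 10 ^ 6 * (R ^ 2 * lam ^ 2 * ν ^ 2) := by ring
  have hcon' : 10 ^ 6 * R ^ 2 * lam ^ 2 * ν ^ 2 ≤ q := by omega
  have hqR : R < q := by
    have h1 : R ^ 2 * 1 * 1 ≤ R ^ 2 * lam ^ 2 * ν ^ 2 :=
      Nat.mul_le_mul (Nat.mul_le_mul_left _ hl2) hv2
    omega
  have hqν : 2 * ν + 2 < q := by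
    have h1 : 1 * 1 * ν ^ 2 ≤ R ^ 2 * lam ^ 2 * ν ^ 2 :=
      Nat.mul_le_mul_right _ (Nat.mul_le_mul hr2 hl2)
    omega
  have hqodd : Odd q := hq.odd_of_ne_two (by omega)
  have hss : s * s = 1 := by rcases hs with rfl | rfl <;> norm_num
  have hsq : s ^ q = s := by
    rcases hs with rfl | rfl
    · simp
    · exact hqodd.neg_one_pow
  obtain ⟨r, hr, hrU⟩ := Nat.exists_prime_and_dvd (show U ≠ 1 by omega)
  have hUA' : ∀ l : ℕ, l.Prime → l ∣ U → ¬ l ∣ A := by
    intro l hl h1 h2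
    exact hl.not_dvd_one (hUA ▸ Nat.dvd_gcd h1 h2)
  have hUne : ∀ k, U ≠ A ^ k := by
    intro k he
    exact hUA' r hr hrU (hr.dvd_of_dvd_pow (he ▸ hrU))
  have habs : (D : ℤ) = |t| := by rw [hD, Int.natCast_natAbs]
  have hUD : U ^ q ≤ A ^ x + D := by
    have : (U : ℤ) ^ q ≤ (A : ℤ) ^ x + (D : ℤ) := by
      have hA1 : (0 : ℤ) ≤ (A : ℤ) ^ x := by positivity
      have h1 : t ≤ D := by rw [habs]; exact le_abs_self t
      rcases hs with rfl | rfl <;> linarith
    exact_mod_cast this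
  -- case `q ∣ x`
  by_cases hqx : q ∣ x
  · obtain ⟨x1, rfl⟩ := hqx
    set V := A ^ x1 with hV
    have hpV : ¬ p ∣ V := fun hd => hpA (hp.dvd_of_dvd_pow hd)
    have heq2 : (U : ℤ) ^ q - (s * (V : ℤ)) ^ q = t := by
      rw [← heq, mul_pow, hsq, hV]
      push_cast
      ring
    have hdv : (p : ℤ) ^ Y ∣ (U : ℤ) - s * (V : ℤ) := by
      refine dvd_of_pow hq hY ?_ ?_
      · intro l hl hlp
        have hlp' : l = p := (Nat.prime_dvd_prime_iff_eq hl hp).mp hlp
        subst hlp'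
        refine ⟨by omega, fun h => hpU (by exact_mod_cast h), fun h => hpV ?_⟩
        have := dvd_mul_of_dvd_right h s
        rw [← mul_assoc, hss, one_mul] at this
        exact_mod_cast this
      · rw [heq2]
        exact hpt
    have hne : (U : ℤ) - s * (V : ℤ) ≠ 0 := by
      intro h0
      have h1 : (U : ℤ) = s * V := by linarith
      rw [h1, sub_self] at heq2
      exact ht0 heq2.symm
    have hle : p ^ Y ≤ ((U : ℤ) - s * (V : ℤ)).natAbs := by
      have := Int.natAbs_dvd_natAbs.mpr hdv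
      rw [Int.natAbs_pow, Int.natAbs_natCast] at this
      exact Nat.le_of_dvd (Int.natAbs_pos.mpr hne) this
    have hup : ((U : ℤ) - s * (V : ℤ)).natAbs ^ q ≤ 2 ^ q * D ∧ 2 ^ (q - 1) ≤ D := by
      rcases hs with rfl | rfl
      · rw [one_mul] at heq2 ⊢
        rcases le_total U V with hUV | hUV
        · have hlt : U < V := lt_of_le_of_ne hUV (hUne x1)
          have e1 : ((U : ℤ) - (V : ℤ)).natAbs = V - U := by omega
          rw [e1]
          have h2 := pow_sub_le hq.pos.ne' hUV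
          have hle' : U ^ q ≤ V ^ q := Nat.pow_le_pow_left hUV q
          have h3 : V ^ q = U ^ q + D := by
            have h5 : (U : ℤ) ^ q ≤ (V : ℤ) ^ q := by exact_mod_cast hle'
            have : (V : ℤ) ^ q = (U : ℤ) ^ q + (D : ℤ) := by
              rw [habs, abs_of_nonpos (by linarith)]
              linarith
            exact_mod_cast this
          have h4 : D ≤ 2 ^ q * D := Nat.le_mul_of_pos_left _ (by positivity)
          have h6 := pow_gap (q := q) (by omega) hlt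
          have h7 : 2 ^ (q - 1) ≤ V ^ (q - 1) := Nat.pow_le_pow_left (by omega) _
          exact ⟨by omega, by omega⟩
        · have hlt : V < U := lt_of_le_of_ne hUV (fun h => hUne x1 h.symm)
          have e1 : ((U : ℤ) - (V : ℤ)).natAbs = U - V := by omega
          rw [e1]
          have h2 := pow_sub_le hq.pos.ne' hUV
          have hle' : V ^ q ≤ U ^ q := Nat.pow_le_pow_left hUV q
          have h3 : U ^ q = V ^ q + D := by
            have h5 : (V : ℤ) ^ q ≤ (U : ℤ) ^ q := by exact_mod_cast hle'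
            have : (U : ℤ) ^ q = (V : ℤ) ^ q + (D : ℤ) := by
              rw [habs, abs_of_nonneg (by linarith)]
              linarith
            exact_mod_cast this
          have h4 : D ≤ 2 ^ q * D := Nat.le_mul_of_pos_left _ (by positivity)
          have h6 := pow_gap (q := q) (by omega) hlt
          have h7 : 2 ^ (q - 1) ≤ U ^ (q - 1) := Nat.pow_le_pow_left hU _
          exact ⟨by omega, by omega⟩
      · have e1 : ((U : ℤ) - (-1) * (V : ℤ)).natAbs = U + V := by omega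
        rw [e1]
        have h3 : U ^ q + V ^ q = D := by
          have : (U : ℤ) ^ q + (V : ℤ) ^ q = (D : ℤ) := by
            rw [mul_pow, hsq] at heq2
            have h5 : (0 : ℤ) ≤ (U : ℤ) ^ q := by positivity
            have h6 : (0 : ℤ) ≤ (V : ℤ) ^ q := by positivity
            rw [habs, abs_of_nonneg (by linarith)]
            linarith
          exact_mod_cast this
        refine ⟨(pow_add_le U V q).trans (Nat.mul_le_mul_left _ h3.le), ?_⟩
        have h7 : 2 ^ (q - 1) ≤ U ^ (q - 1) := Nat.pow_le_pow_left hU _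
        have h8 : U ^ (q - 1) ≤ U ^ q := Nat.pow_le_pow_right (by omega) (by omega)
        omega
    obtain ⟨hup1, hup2⟩ := hup
    have g1 : q - 1 < ν * Y := by
      have := hup2.trans_lt htN
      exact (Nat.pow_lt_pow_iff_right (by norm_num : 1 < 2)).mp this
    have h1 : 2 ^ (Y * q) ≤ 2 ^ (q + ν * Y) := by
      calc 2 ^ (Y * q) = (2 ^ Y) ^ q := by rw [pow_mul]
        _ ≤ (p ^ Y) ^ q := Nat.pow_le_pow_left (Nat.pow_le_pow_left hp.two_le Y) q
        _ ≤ _ := Nat.pow_le_pow_left hle q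
        _ ≤ 2 ^ q * D := hup1
        _ ≤ 2 ^ q * 2 ^ (ν * Y) := Nat.mul_le_mul_left _ htN.le
        _ = _ := by rw [← pow_add]
    have h2 := (Nat.pow_le_pow_iff_right (by norm_num : 1 < 2)).mp h1
    obtain ⟨Z, hZ⟩ : ∃ Z, Y = Z + 1 := ⟨Y - 1, by omega⟩
    rw [hZ] at h2 g1
    have hZ1 : 1 ≤ Z := by
      by_contra hc
      have : Z = 0 := by omega
      rw [this] at g1
      simp only [zero_add, mul_one] at g1
      omega
    have h3 : Z * q ≤ ν * (2 * Z) := by
      have e1 : (Z + 1) * q = Z * q + q := by ring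
      have e2 : ν * (Z + 1) ≤ ν * (2 * Z) := Nat.mul_le_mul_left _ (by omega)
      omega
    have h4 : Z * q ≤ Z * (2 * ν) := h3.trans (by ring_nf; exact le_refl _)
    have h5 := Nat.le_of_mul_le_mul_left h4 (by omega : 0 < Z)
    omega
  -- case `¬ q ∣ x`
  have hA2 : 2 ≤ A := by
    by_contra h
    exact hqx (hx1 (by omega))
  set i := x % q with hi
  set x1 := x / q with hx1'
  have hxi : x = q * x1 + i := (Nat.div_add_mod x q).symm
  have hi0 : 0 < i := Nat.pos_of_ne_zero fun h => hqx (Nat.dvd_of_mod_eq_zero h)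
  have hiq : i < q := Nat.mod_lt _ hq.pos
  rcases le_or_gt (A ^ x) (D ^ 2) with hcase | hcase
  · -- (R1)
    refine absurd (core (N := N) (R := R) (q := q) (y := Y) (p := p) (U := U) (V := A ^ x1)
      (A := A) (i := i) hq hp hpR hA hAN (by positivity) hU (hUne _) hpU
      (fun hd => hpA (hp.dvd_of_dvd_pow hd)) hpA hi0 hiq ?_ ?_) (not_lt.mpr hcon')
    · have e1 : (U : ℤ) ^ (2 * q) - ((A ^ x1 : ℕ) : ℤ) ^ (2 * q) * (A : ℤ) ^ (2 * i) =
          ((U : ℤ) ^ q - s * (A : ℤ) ^ x) * ((U : ℤ) ^ q + s * (A : ℤ) ^ x) := by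
        have e2 : ((A ^ x1 : ℕ) : ℤ) ^ (2 * q) * (A : ℤ) ^ (2 * i) =
            (A : ℤ) ^ x * (A : ℤ) ^ x := by
          rw [hxi]
          push_cast
          ring
        rw [e2]
        linear_combination (((A : ℤ) ^ x) ^ 2) * hss
      rw [e1, heq]
      exact hpt.mul_right _
    · have hD2 : D ^ 2 < 2 ^ (2 * (ν * Y)) := by
        calc D ^ 2 < (2 ^ (ν * Y)) ^ 2 := Nat.pow_lt_pow_left htN (by norm_num)
          _ = _ := by rw [← pow_mul, mul_comm]
      have hDD : D ≤ D ^ 2 := Nat.le_self_pow (by norm_num) D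
      have hV1 : (A ^ x1) ^ q ≤ A ^ x := by
        rw [← pow_mul]
        exact Nat.pow_le_pow_right hA (by rw [hxi, mul_comm]; omega)
      have hpow : 2 ^ (2 * (ν * Y) + 1) = 2 * 2 ^ (2 * (ν * Y)) := by rw [pow_succ, mul_comm]
      rw [hpow]
      rcases max_choice U (A ^ x1) with hc | hc
      · rw [hc]; omega
      · rw [hc]; omega
  · -- (R2)
    have hDD : D ≤ D ^ 2 := Nat.le_self_pow (by norm_num) D
    have hs1 : s = 1 := by
      rcases hs with h | h
      · exact h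
      · exfalso
        rw [h] at heq
        have hU0 : (0 : ℤ) ≤ (U : ℤ) ^ q := by positivity
        have h1 : (A : ℤ) ^ x ≤ (D : ℤ) := by
          rw [habs]
          have := le_abs_self t
          linarith
        have h2 : A ^ x ≤ D := by exact_mod_cast h1
        omega
    rw [hs1, one_mul] at heq
    have hreal : |(U : ℝ) ^ q - (A : ℝ) ^ x| = (D : ℝ) := by
      have h1 : (U : ℝ) ^ q - (A : ℝ) ^ x = (t : ℝ) := by exact_mod_cast heq
      rw [h1, hD, Nat.cast_natAbs, Int.cast_abs]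
    have hle : (D : ℝ) ≤ (A : ℝ) ^ ((x : ℝ) / 2) := by
      have h1 : (D : ℝ) ^ 2 ≤ (A : ℝ) ^ x := by exact_mod_cast hcase.le
      have h3 : ((A : ℝ) ^ ((x : ℝ) / 2)) ^ 2 = (A : ℝ) ^ x := by
        rw [← Real.rpow_natCast ((A : ℝ) ^ ((x : ℝ) / 2)) 2, ← Real.rpow_mul (by positivity)]
        rw [← Real.rpow_natCast (A : ℝ) x]
        congr 1
        push_cast
        ring
      rw [← h3] at h1
      exact (pow_le_pow_iff_left₀ (by positivity) (by positivity) (by norm_num)).mp h1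
    have h1 := Pool.Agent.H374R2.W.real_two_logs hA2 hU hq hqx hx (hreal.trans_le hle)
    rw [← hlam] at h1
    have h2 : Nat.log 2 A + 1 ≤ ν := by
      have := Nat.log_mono_right (b := 2) hAN
      omega
    have h3 : 10 ^ 9 * (Nat.log 2 A + 1) * lam ^ 2 ≤ 10 ^ 9 * (R ^ 2 * lam ^ 2 * ν ^ 2) := by
      calc 10 ^ 9 * (Nat.log 2 A + 1) * lam ^ 2 = 10 ^ 9 * (1 * lam ^ 2 * (Nat.log 2 A + 1)) := by
            ring
        _ ≤ 10 ^ 9 * (R ^ 2 * lam ^ 2 * ν ^ 2) := by
            apply Nat.mul_le_mul_left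
            exact Nat.mul_le_mul (Nat.mul_le_mul_right _ hr2) (h2.trans hν2)
    omega

/-- the logarithm of `q` is small -/
theorem log_four (q : ℕ) (hq : 1 ≤ q) : (Nat.log 2 q + 1) ^ 4 ≤ 64 * q := by
  have h1 : 2 ^ Nat.log 2 q ≤ q := Nat.pow_log_le_self 2 (by omega)
  have h2 : ∀ k : ℕ, (k + 1) ^ 4 ≤ 64 * 2 ^ k := by
    intro k
    rcases Nat.lt_or_ge k 6 with hk | hk
    · interval_cases k <;> norm_num
    · induction k, hk using Nat.le_induction with
      | base => norm_num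
      | succ k hk ih =>
        have h3 : (k + 1 + 1) ^ 4 ≤ 2 * (k + 1) ^ 4 := by
          obtain ⟨m, rfl⟩ : ∃ m, k = m + 6 := ⟨k - 6, by omega⟩
          have : 2 * (m + 6 + 1) ^ 4 - (m + 6 + 1 + 1) ^ 4 ≥ 0 := Nat.zero_le _
          nlinarith [sq_nonneg (m : ℤ), Nat.zero_le (m ^ 4), Nat.zero_le (m ^ 3),
            Nat.zero_le (m ^ 2), Nat.zero_le m]
        calc (k + 1 + 1) ^ 4 ≤ 2 * (k + 1) ^ 4 := h3
          _ ≤ 2 * (64 * 2 ^ k) := Nat.mul_le_mul_left _ ih
          _ = 64 * 2 ^ (k + 1) := by ring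
  exact (h2 _).trans (Nat.mul_le_mul_left _ h1)

/-- solving `q ≤ M (log q + 1) ^ 2` -/
theorem q_solve {q M : ℕ} (hq : 1 ≤ q) (h : q ≤ M * (Nat.log 2 q + 1) ^ 2) : q ≤ 64 * M ^ 2 := by
  have h1 := Nat.mul_le_mul h h
  have h2 : M * (Nat.log 2 q + 1) ^ 2 * (M * (Nat.log 2 q + 1) ^ 2) =
      M ^ 2 * (Nat.log 2 q + 1) ^ 4 := by ring
  rw [h2] at h1
  have h3 := h1.trans (Nat.mul_le_mul_left _ (log_four q hq))
  have h4 : M ^ 2 * (64 * q) = 64 * M ^ 2 * q := by ring
  rw [h4] at h3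
  exact Nat.le_of_mul_le_mul_right h3 (by omega)

end Pool.Agent.TH888.G
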