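import Mathlib
import Pool.Agent.TH888.G.QBD
import Pool.Agent.TH888.G.UExp

/-!
`± x ^ p + b y ^ q = ± z ^ r` with an `S`-unit `b`: the least prime factor of `r` is at most a power of
the logarithms of `x` and `y`, if `y` has a small prime factor.
-/

set_option autoImplicit false

namespace Pool.Agent.TH888.G

open Finset
open Pool.Agent.TH888.W2 (Su cop3)

theorem sgn_of_natAbs {t : ℤ} {n : ℕ} (h : t.natAbs = n) :
    ∃ σ : ℤ, (σ = 1 ∨ σ = -1) ∧ t = σ * n := by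
  rcases Int.natAbs_eq t with h1 | h1
  · exact ⟨1, Or.inl rfl, by rw [one_mul, ← h]; exact h1⟩
  · exact ⟨-1, Or.inr rfl, by rw [neg_one_mul, ← h]; exact h1⟩

/-- a prime `≤ T` which divides `b y ^ q` to a high power -/
theorem high_prime {P : Finset ℕ} (hP : ∀ ℓ ∈ P, ℓ.Prime) {b y q T : ℕ} (hT : 1 ≤ T)
    (hPT : ∀ ℓ ∈ P, ℓ ≤ T) (hq : 0 < q) (hb : Su P b) (hy0 : 0 < y) (hy : y ≤ 2 ^ T)
    (hpy : ∃ p₀ : ℕ, p₀.Prime ∧ p₀ ≤ T ∧ p₀ ∣ y) :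
    ∃ p₁ E : ℕ, p₁.Prime ∧ p₁ ≤ T ∧ 0 < E ∧ p₁ ∣ b * y ∧ p₁ ^ E ∣ b * y ^ q ∧
      b * y ^ q < 2 ^ ((Nat.log 2 (2 ^ (T * (P.card + 1))) + 1) * E) := by
  classical
  obtain ⟨E, hE⟩ : ∃ E, E = max q (P.sup b.factorization) := ⟨_, rfl⟩
  have hqE : q ≤ E := by rw [hE]; exact le_max_left _ _
  have hfE : ∀ ℓ ∈ P, b.factorization ℓ ≤ E := by
    intro ℓ hℓ
    rw [hE]
    exact (Finset.le_sup (f := b.factorization) hℓ).trans (le_max_right _ _)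
  have hE0 : 0 < E := by omega
  have hT2 : T ≤ 2 ^ T := Nat.lt_two_pow_self.le
  have hsize : b * y ^ q < 2 ^ ((Nat.log 2 (2 ^ (T * (P.card + 1))) + 1) * E) := by
    have h1 : b ≤ 2 ^ (T * P.card * E) := by
      calc b = ∏ l ∈ P, l ^ b.factorization l := hb.prod.symm
        _ ≤ ∏ _l ∈ P, 2 ^ (T * E) := by
          apply Finset.prod_le_prod' 
          intro l hl
          calc l ^ b.factorization l ≤ (2 ^ T) ^ b.factorization l :=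
                Nat.pow_le_pow_left ((hPT l hl).trans hT2) _
            _ ≤ (2 ^ T) ^ E := Nat.pow_le_pow_right (by positivity) (hfE l hl)
            _ = 2 ^ (T * E) := by rw [← pow_mul]
        _ = 2 ^ (T * P.card * E) := by
          rw [Finset.prod_const, ← pow_mul]
          congr 1
          ring
    have h2 : y ^ q ≤ 2 ^ (T * E) := by
      calc y ^ q ≤ (2 ^ T) ^ q := Nat.pow_le_pow_left hy _
        _ ≤ (2 ^ T) ^ E := Nat.pow_le_pow_right (by positivity) hqE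
        _ = 2 ^ (T * E) := by rw [← pow_mul]
    calc b * y ^ q ≤ 2 ^ (T * P.card * E) * 2 ^ (T * E) := Nat.mul_le_mul h1 h2
      _ = 2 ^ (T * (P.card + 1) * E) := by rw [← pow_add]; congr 1; ring
      _ < _ := by
        apply Nat.pow_lt_pow_right (by norm_num)
        rw [Nat.log_pow (by norm_num)]
        have : (T * (P.card + 1) + 1) * E = T * (P.card + 1) * E + E := by ring
        omega
  rcases Nat.lt_or_ge q (P.sup b.factorization) with hc | hc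
  · have hEf : E = P.sup b.factorization := by rw [hE]; exact max_eq_right hc.le
    have hne : P.Nonempty := by
      rw [Finset.nonempty_iff_ne_empty]
      rintro rfl
      rw [Finset.sup_empty] at hc
      exact absurd hc (by simp)
    obtain ⟨ℓ, hℓ, hℓE⟩ := Finset.exists_mem_eq_sup P hne b.factorization
    rw [← hEf] at hℓE
    have hd : ℓ ^ E ∣ b := by rw [hℓE]; exact Nat.ordProj_dvd b ℓ
    exact ⟨ℓ, E, hP ℓ hℓ, hPT ℓ hℓ, hE0, ((dvd_pow_self ℓ hE0.ne').trans hd).mul_right _,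
      hd.mul_right _, hsize⟩
  · have hEq : E = q := by rw [hE]; exact max_eq_left hc
    obtain ⟨p₀, h1, h2, h3⟩ := hpy
    refine ⟨p₀, E, h1, h2, hE0, h3.mul_left _, ?_, hsize⟩
    rw [hEq]
    exact (pow_dvd_pow_of_dvd h3 q).mul_left _

theorem third_pm (P : Finset ℕ) (hP : ∀ ℓ ∈ P, ℓ.Prime) : ∃ C : ℕ,
    ∀ (a b c x y z : ℤ) (T p q r : ℕ), 1 ≤ T → (∀ ℓ ∈ P, ℓ ≤ T) → 0 < p → 0 < q → 2 ≤ r →
    a.natAbs = 1 → Su P b.natAbs → c.natAbs = 1 →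
    Int.gcd ((Int.gcd (a * x) (b * y) : ℕ) : ℤ) (c * z) = 1 → a * x ^ p + b * y ^ q = c * z ^ r →
    x.natAbs ≤ 2 ^ T → y.natAbs ≤ 2 ^ T → 2 ≤ x.natAbs → y ≠ 0 → 2 ≤ z.natAbs →
    (∃ p₀ : ℕ, p₀.Prime ∧ p₀ ≤ T ∧ p₀ ∣ y.natAbs) → r.minFac ≤ C * T ^ 8 := by
  refine ⟨64 * (4 * 10 ^ 9 * (P.card + 1) ^ 2) ^ 2, ?_⟩
  intro a b c x y z T p q r hT hPT hp hq hr ha hb hc hg heq hx hy hx2 hy0 hz2 hpy
  obtain ⟨q₀, hq₀⟩ : ∃ q₀, q₀ = r.minFac := ⟨_, rfl⟩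
  rw [← hq₀]
  have hq₀p : q₀.Prime := by rw [hq₀]; exact Nat.minFac_prime (by omega)
  have hC1 : 1 ≤ (4 * 10 ^ 9 * (P.card + 1) ^ 2) ^ 2 := Nat.one_le_pow _ _ (by positivity)
  have hT8 : 1 ≤ T ^ 8 := Nat.one_le_pow _ _ hT
  rcases Nat.lt_or_ge q₀ 3 with hq3 | hq3
  · nlinarith
  obtain ⟨k, hk⟩ : ∃ k, r = q₀ * k := by rw [hq₀]; exact Nat.minFac_dvd r
  have hk0 : 0 < k := Nat.pos_of_ne_zero fun h => by rw [h] at hk; omega
  obtain ⟨c1, c2, c3⟩ := cop3 hp hq (by omega) heq hg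
  rw [ha, one_mul] at c1 c2
  rw [hc, one_mul] at c2 c3
  obtain ⟨U, hU⟩ : ∃ U, U = z.natAbs ^ k := ⟨_, rfl⟩
  have hU2 : 2 ≤ U := by
    rw [hU]
    exact hz2.trans (Nat.le_self_pow hk0.ne' _)
  obtain ⟨σ₁, hσ₁, e1⟩ := sgn_of_natAbs (t := c * z ^ r) (n := U ^ q₀) (by
    rw [Int.natAbs_mul, hc, one_mul, Int.natAbs_pow, hU, hk, ← pow_mul, mul_comm])
  obtain ⟨σ₂, hσ₂, e2⟩ := sgn_of_natAbs (t := a * x ^ p) (n := x.natAbs ^ p) (by
    rw [Int.natAbs_mul, ha, one_mul, Int.natAbs_pow])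
  have hσσ : σ₁ * σ₁ = 1 := by rcases hσ₁ with rfl | rfl <;> norm_num
  have hs : σ₁ * σ₂ = 1 ∨ σ₁ * σ₂ = -1 := by
    rcases hσ₁ with rfl | rfl <;> rcases hσ₂ with rfl | rfl <;> norm_num
  have hσn : σ₁.natAbs = 1 := by rcases hσ₁ with rfl | rfl <;> rfl
  obtain ⟨t, ht⟩ : ∃ t : ℤ, t = σ₁ * (b * y ^ q) := ⟨_, rfl⟩
  have htn : t.natAbs = b.natAbs * y.natAbs ^ q := by
    rw [ht, Int.natAbs_mul, hσn, one_mul, Int.natAbs_mul, Int.natAbs_pow]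
  have hyn : 0 < y.natAbs := Int.natAbs_pos.mpr hy0
  have hbn : 0 < b.natAbs := Nat.pos_of_ne_zero hb.1
  have ht0 : t ≠ 0 := by
    rw [← Int.natAbs_ne_zero, htn]
    positivity
  have heq' : (U : ℤ) ^ q₀ - σ₁ * σ₂ * ((x.natAbs : ℕ) : ℤ) ^ p = t := by
    rw [heq.symm] at e1
    push_cast at e1 e2
    rw [ht]
    push_cast
    have e3 : b * y ^ q = σ₁ * (U : ℤ) ^ q₀ - σ₂ * |x| ^ p := by
      rw [← e1, ← e2]; ring
    rw [e3]
    linear_combination (-(U : ℤ) ^ q₀) * hσσ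
  obtain ⟨p₁, E, hp₁, hp₁T, hE0, hp₁d, hp₁E, hsize⟩ := high_prime hP hT hPT hq hb hyn hy hpy
  obtain ⟨N, hN⟩ : ∃ N, N = 2 ^ (T * (P.card + 1)) := ⟨_, rfl⟩
  rw [← hN, ← htn] at hsize
  have hpx : ¬ p₁ ∣ x.natAbs := fun h =>
    hp₁.not_dvd_one (c1 ▸ Nat.dvd_gcd h hp₁d)
  have hpz : ¬ p₁ ∣ z.natAbs := fun h =>
    hp₁.not_dvd_one (c3 ▸ Nat.dvd_gcd hp₁d h)
  have hxN : x.natAbs ≤ N := by
    rw [hN]
    exact hx.trans (Nat.pow_le_pow_right (by norm_num) (Nat.le_mul_of_pos_right _ (by omega)))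
  have hmain := q_boundD (N := N) (R := T) (A := x.natAbs) (q := q₀) (x := p) (Y := E) (U := U)
    (p := p₁) (s := σ₁ * σ₂) (t := t) hs hq₀p hq3 (by omega) (fun h => by omega) hxN
    (by rw [hU]; exact Nat.Coprime.pow_left _ c2.symm) hp hE0 hU2 hp₁ hp₁T ht0
    (by
      have h1 : p₁ ^ E ∣ t.natAbs := by rw [htn]; exact hp₁E
      have h2 : ((p₁ ^ E : ℕ) : ℤ) ∣ t := Int.natCast_dvd.mpr h1
      exact_mod_cast h2) hsize
    (by rw [hU]; exact fun h => hpz (hp₁.dvd_of_dvd_pow h)) hpx heq'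
  have hlogN : Nat.log 2 N + 1 ≤ 2 * T * (P.card + 1) := by
    rw [hN, Nat.log_pow (by norm_num)]
    have : 1 ≤ T * (P.card + 1) := Nat.mul_pos hT (by omega)
    have e : 2 * T * (P.card + 1) = 2 * (T * (P.card + 1)) := by ring
    omega
  have h1 : q₀ ≤ (4 * 10 ^ 9 * (P.card + 1) ^ 2 * T ^ 4) * (Nat.log 2 q₀ + 1) ^ 2 := by
    refine hmain.trans ?_
    calc 10 ^ 9 * T ^ 2 * (Nat.log 2 q₀ + 1) ^ 2 * (Nat.log 2 N + 1) ^ 2 ≤
        10 ^ 9 * T ^ 2 * (Nat.log 2 q₀ + 1) ^ 2 * (2 * T * (P.card + 1)) ^ 2 :=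
          Nat.mul_le_mul_left _ (Nat.pow_le_pow_left hlogN 2)
      _ = _ := by ring
  have h2 := q_solve (by omega) h1
  calc q₀ ≤ _ := h2
    _ = _ := by ring

end Pool.Agent.TH888.G
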