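import Mathlib
import Pool.Agent.TH888.G.TwoPM

/-!
`u + v y ^ m = w z ^ r` with an `S`-unit `v`, where `w = ± 1` and `u` is bounded, or `u = ± 1` and `w` is
bounded: the least prime factor of `r` is bounded, if `y` has a small prime factor.
-/

set_option autoImplicit false

namespace Pool.Agent.TH888.G

open Finset
open Pool.Agent.TH888.W2 (Su cop3)

theorem unit_pm (P : Finset ℕ) (hP : ∀ ℓ ∈ P, ℓ.Prime) : ∃ C : ℕ,
    ∀ (u v w y z : ℤ) (T m r : ℕ), 1 ≤ T → (∀ ℓ ∈ P, ℓ ≤ T) → 0 < m → 2 ≤ r → u ≠ 0 →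
    Su P v.natAbs → w ≠ 0 →
    ((w.natAbs = 1 ∧ u.natAbs ≤ 2 ^ T) ∨ (u.natAbs = 1 ∧ w.natAbs ≤ 2 ^ T)) →
    Int.gcd ((Int.gcd u (v * y) : ℕ) : ℤ) (w * z) = 1 → u + v * y ^ m = w * z ^ r →
    y.natAbs ≤ 2 ^ T → y ≠ 0 → 2 ≤ z.natAbs →
    (∃ p₀ : ℕ, p₀.Prime ∧ p₀ ≤ T ∧ p₀ ∣ y.natAbs) → r.minFac ≤ C * T ^ 10 := by
  obtain ⟨C₁, H₁⟩ := third_pm P hP
  refine ⟨C₁ + 64 * (4 * 10 ^ 9 * (P.card + 1) ^ 2) ^ 2, ?_⟩
  intro u v w y z T m r hT hPT hm hr hu0 hv hw0 hcase hg heq hy hy0 hz2 hpy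
  obtain ⟨q₀, hq₀⟩ : ∃ q₀, q₀ = r.minFac := ⟨_, rfl⟩
  rw [← hq₀]
  have hq₀p : q₀.Prime := by rw [hq₀]; exact Nat.minFac_prime (by omega)
  have hT810 : T ^ 8 ≤ T ^ 10 := Nat.pow_le_pow_right hT (by norm_num)
  -- case 1
  rcases Nat.lt_or_ge 1 u.natAbs with hu2 | hu2
  · have hw1 : w.natAbs = 1 ∧ u.natAbs ≤ 2 ^ T := by
      rcases hcase with h | h
      · exact h
      · omega
    have h1 := H₁ 1 v w u y z T 1 m r hT hPT (by norm_num) hm hr rfl hv hw1.1
      (by rw [one_mul]; exact hg) (by rw [one_mul, pow_one]; exact heq) hw1.2 hy hu2 hy0 hz2 hpy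
    rw [← hq₀] at h1
    calc q₀ ≤ C₁ * T ^ 8 := h1
      _ ≤ C₁ * T ^ 10 := Nat.mul_le_mul_left _ hT810
      _ ≤ _ := Nat.mul_le_mul_right _ (by omega)
  have hu1 : u.natAbs = 1 := by
    have := Int.natAbs_pos.mpr hu0
    omega
  have hwT : w.natAbs ≤ 2 ^ T := by
    rcases hcase with h | h
    · rw [h.1]; exact Nat.one_le_two_pow
    · exact h.2
  have hK : 1 ≤ (P.card + 1) ^ 2 := Nat.one_le_pow _ _ (by omega)
  have hC1 : 1 ≤ (4 * 10 ^ 9 * (P.card + 1) ^ 2) ^ 2 := Nat.one_le_pow _ _ (by positivity)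
  have hT10 : 1 ≤ T ^ 10 := Nat.one_le_pow _ _ hT
  rcases Nat.lt_or_ge q₀ 3 with hq3 | hq3
  · nlinarith [Nat.zero_le (C₁ * T ^ 10)]
  obtain ⟨k, hk⟩ : ∃ k, r = q₀ * k := by rw [hq₀]; exact Nat.minFac_dvd r
  have hk0 : 0 < k := Nat.pos_of_ne_zero fun h => by rw [h] at hk; omega
  obtain ⟨U, hU⟩ : ∃ U, U = z.natAbs ^ k := ⟨_, rfl⟩
  have hU2 : 2 ≤ U := by
    rw [hU]
    exact hz2.trans (Nat.le_self_pow hk0.ne' _)
  obtain ⟨W, hW⟩ : ∃ W, W = w.natAbs := ⟨_, rfl⟩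
  have hW0 : 0 < W := by rw [hW]; exact Int.natAbs_pos.mpr hw0
  obtain ⟨σ₁, hσ₁, e1⟩ := sgn_of_natAbs (t := w * z ^ r) (n := W * U ^ q₀) (by
    rw [Int.natAbs_mul, ← hW, Int.natAbs_pow, hU, hk, ← pow_mul, mul_comm q₀ k])
  obtain ⟨σ₂, hσ₂, e2⟩ := sgn_of_natAbs (t := u) (n := 1) hu1
  have hσσ : σ₁ * σ₁ = 1 := by rcases hσ₁ with rfl | rfl <;> norm_num
  have hs : σ₁ * σ₂ = 1 ∨ σ₁ * σ₂ = -1 := by
    rcases hσ₁ with rfl | rfl <;> rcases hσ₂ with rfl | rfl <;> norm_num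
  have hσn : σ₁.natAbs = 1 := by rcases hσ₁ with rfl | rfl <;> rfl
  obtain ⟨t, ht⟩ : ∃ t : ℤ, t = σ₁ * (v * y ^ m) := ⟨_, rfl⟩
  have htn : t.natAbs = v.natAbs * y.natAbs ^ m := by
    rw [ht, Int.natAbs_mul, hσn, one_mul, Int.natAbs_mul, Int.natAbs_pow]
  have hyn : 0 < y.natAbs := Int.natAbs_pos.mpr hy0
  have hvn : 0 < v.natAbs := Nat.pos_of_ne_zero hv.1
  have ht0 : t ≠ 0 := by
    rw [← Int.natAbs_ne_zero, htn]
    positivity
  have heq' : (W : ℤ) * (U : ℤ) ^ q₀ - σ₁ * σ₂ = t := by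
    rw [heq.symm] at e1
    push_cast at e1 e2
    rw [ht]
    have e3 : v * y ^ m = σ₁ * ((W : ℤ) * (U : ℤ) ^ q₀) - σ₂ := by
      rw [← e1, e2]; ring
    rw [e3]
    linear_combination (-(W : ℤ) * (U : ℤ) ^ q₀) * hσσ
  obtain ⟨p₁, E, hp₁, hp₁T, hE0, hp₁d, hp₁E, hsize⟩ := high_prime hP hT hPT hm hv hyn hy hpy
  obtain ⟨N, hN⟩ : ∃ N, N = 2 ^ (T * (P.card + 1)) := ⟨_, rfl⟩
  rw [← hN, ← htn] at hsize
  have hp₁t : (p₁ : ℤ) ^ E ∣ t := by
    have h1 : p₁ ^ E ∣ t.natAbs := by rw [htn]; exact hp₁E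
    have h2 : ((p₁ ^ E : ℕ) : ℤ) ∣ t := Int.natCast_dvd.mpr h1
    exact_mod_cast h2
  have hp₁t1 : (p₁ : ℤ) ∣ t := (dvd_pow_self _ hE0.ne').trans hp₁t
  have hpn1 : ¬ (p₁ : ℤ) ∣ σ₁ * σ₂ := by
    intro h
    have h1 : (p₁ : ℤ) ∣ 1 := by
      rcases hs with h2 | h2
      · rwa [h2] at h
      · rw [h2] at h; exact (dvd_neg).mp h
    exact hp₁.not_dvd_one (by exact_mod_cast h1)
  have hpWU : ¬ (p₁ : ℤ) ∣ (W : ℤ) * (U : ℤ) ^ q₀ := by
    intro h
    apply hpn1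
    have e : σ₁ * σ₂ = (W : ℤ) * (U : ℤ) ^ q₀ - t := by rw [← heq']; ring
    rw [e]
    exact dvd_sub h hp₁t1
  have hpW : ¬ p₁ ∣ W := fun h => hpWU ((Int.natCast_dvd_natCast.mpr h).mul_right _)
  have hpU : ¬ p₁ ∣ U := fun h => hpWU
    ((dvd_pow (Int.natCast_dvd_natCast.mpr h) (by omega)).mul_left _)
  have hlogN : Nat.log 2 N + 1 ≤ 2 * T * (P.card + 1) := by
    rw [hN, Nat.log_pow (by norm_num)]
    have : 1 ≤ T * (P.card + 1) := Nat.mul_pos hT (by omega)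
    have e : 2 * T * (P.card + 1) = 2 * (T * (P.card + 1)) := by ring
    omega
  obtain ⟨lam, hlam⟩ : ∃ lam, lam = Nat.log 2 q₀ + 1 := ⟨_, rfl⟩
  have hlam1 : 1 ≤ lam := by omega
  have hfin : q₀ ≤ (4 * 10 ^ 9 * (P.card + 1) ^ 2 * T ^ 5) * (Nat.log 2 q₀ + 1) ^ 2 := by
    rw [← hlam]
    rcases Nat.lt_or_ge 1 W with hW2 | hW1
    · -- case 3
      obtain ⟨g, hgdef⟩ : ∃ g, g = Nat.log 2 U := ⟨_, rfl⟩
      have hg1 : 1 ≤ g := by
        rw [hgdef]
        exact Nat.le_log_of_pow_le (by norm_num) (by simpa using hU2)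
      have hWT : W < 2 ^ (T + 1) := by
        rw [hW]
        exact hwT.trans_lt (Nat.pow_lt_pow_right (by norm_num) (by omega))
      by_cases hbig : 600 * p₁ * (T + 1) * (Nat.log 2 q₀ + 1) ≤ q₀
      · obtain ⟨h, hh⟩ : ∃ h, h = Nat.log 2 (W * U) + 1 := ⟨_, rfl⟩
        have hWU : W * U < 2 ^ h := by
          rw [hh]
          exact Nat.lt_pow_succ_log_self (by norm_num) _
        have hWU4 : 4 ≤ W * U := Nat.mul_le_mul hW2 hU2
        have hh1 : 1 ≤ h := by omega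
        have hhg : h ≤ (T + 2) * g := by
          have h1 : W * U < 2 ^ (T + g + 1) := by
            calc W * U ≤ 2 ^ T * U := Nat.mul_le_mul_right _ (by rw [hW]; exact hwT)
              _ < 2 ^ T * 2 ^ (g + 1) := by
                apply Nat.mul_lt_mul_of_pos_left _ (by positivity)
                rw [hgdef]
                exact Nat.lt_pow_succ_log_self (by norm_num) _
              _ = 2 ^ (T + g + 1) := by rw [← pow_add, add_assoc]
          have h2 : Nat.log 2 (W * U) < T + g + 1 :=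
            Nat.log_lt_of_lt_pow (by omega) h1
          nlinarith
        have h2 := Pool.Agent.H374R2.V.TL.two_logs (p := p₁) (h := h) (ν := T + 1) (q := q₀)
          (i := q₀ - 1) (y := E) (a := W * U) (b := 1) (A := W) hp₁ hh1 (by omega) (by omega)
          (by norm_num) hW0 (by omega) hWU (by omega) hWT
          (fun h => (hp₁.dvd_mul.mp h).elim hpW hpU) hp₁.not_dvd_one hpW (by omega) (by omega)
          (by
            have h3 : Nat.Coprime (q₀ - 1) (q₀ - 1 + 1) := Nat.coprime_self_add_right.mpr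
              (Nat.coprime_one_right _)
            rwa [Nat.sub_add_cancel (by omega)] at h3)
          (by
            obtain ⟨j, hj⟩ : ∃ j, q₀ = j + 1 := ⟨q₀ - 1, by omega⟩
            have e : ((W * U : ℕ) : ℤ) ^ (2 * q₀) - ((1 : ℕ) : ℤ) ^ (2 * q₀) * (W : ℤ) ^ (2 * (q₀ - 1)) =
                (W : ℤ) ^ (2 * (q₀ - 1)) * (((W : ℤ) * (U : ℤ) ^ q₀ - σ₁ * σ₂) *
                  ((W : ℤ) * (U : ℤ) ^ q₀ + σ₁ * σ₂)) := by
              have h4 : (σ₁ * σ₂) * (σ₁ * σ₂) = 1 := by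
                rcases hs with h | h <;> rw [h] <;> norm_num
              have h5 : ((W : ℤ) * (U : ℤ) ^ q₀ - σ₁ * σ₂) * ((W : ℤ) * (U : ℤ) ^ q₀ + σ₁ * σ₂) =
                  ((W : ℤ) * (U : ℤ) ^ q₀) ^ 2 - 1 := by
                linear_combination -h4
              rw [h5, hj]
              have h6 : j + 1 - 1 = j := by omega
              rw [h6]
              push_cast
              ring
            rw [e, heq']
            exact (hp₁t.mul_right _).mul_left _)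
          hbig
        rw [← hlam] at h2
        -- the size
        have hgq : g * q₀ ≤ 2 * T * (P.card + 1) * E := by
          have h3 : U ^ q₀ ≤ 1 + t.natAbs := by
            have h4 : (W : ℤ) * (U : ℤ) ^ q₀ ≤ 1 + (t.natAbs : ℤ) := by
              have h5 : t ≤ (t.natAbs : ℤ) := Int.le_natAbs
              have h6 : σ₁ * σ₂ ≤ 1 := by rcases hs with h | h <;> rw [h] <;> norm_num
              linarith
            have h7 : W * U ^ q₀ ≤ 1 + t.natAbs := by exact_mod_cast h4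
            exact (Nat.le_mul_of_pos_left _ hW0).trans h7
          have h8 : 1 ≤ t.natAbs := Int.natAbs_pos.mpr ht0
          have h9 : 2 ^ (g * q₀) < 2 ^ (2 * T * (P.card + 1) * E + 1) := by
            calc 2 ^ (g * q₀) = (2 ^ g) ^ q₀ := by rw [pow_mul]
              _ ≤ U ^ q₀ := Nat.pow_le_pow_left (by
                  rw [hgdef]; exact Nat.pow_log_le_self 2 (by omega)) _
              _ ≤ 2 * t.natAbs := by omega
              _ < 2 * 2 ^ ((Nat.log 2 N + 1) * E) := by omega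
              _ ≤ 2 * 2 ^ (2 * T * (P.card + 1) * E) := Nat.mul_le_mul_left _
                  (Nat.pow_le_pow_right (by norm_num) (Nat.mul_le_mul_right _ hlogN))
              _ = _ := by rw [pow_succ, mul_comm]
          have := (Nat.pow_lt_pow_iff_right (by norm_num : 1 < 2)).mp h9
          omega
        have hEle : E ≤ 150000 * T ^ 2 * lam ^ 2 * ((3 * T) * g) * (2 * T) := by
          refine h2.le.trans ?_
          refine Nat.mul_le_mul (Nat.mul_le_mul (Nat.mul_le_mul_right _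
            (Nat.mul_le_mul_left _ (Nat.pow_le_pow_left hp₁T 2))) ?_) (by omega)
          exact hhg.trans (Nat.mul_le_mul_right _ (by omega))
        have h3 : g * q₀ ≤ g * ((4 * 10 ^ 9 * (P.card + 1) ^ 2 * T ^ 5) * lam ^ 2) := by
          calc g * q₀ ≤ 2 * T * (P.card + 1) * E := hgq
            _ ≤ 2 * T * (P.card + 1) * (150000 * T ^ 2 * lam ^ 2 * ((3 * T) * g) * (2 * T)) :=
                Nat.mul_le_mul_left _ hEle
            _ = g * (1800000 * (P.card + 1) * T ^ 5 * lam ^ 2) := by ring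
            _ ≤ g * ((4 * 10 ^ 9 * (P.card + 1) ^ 2 * T ^ 5) * lam ^ 2) := by
                apply Nat.mul_le_mul_left
                apply Nat.mul_le_mul_right
                apply Nat.mul_le_mul_right
                nlinarith
        exact Nat.le_of_mul_le_mul_left h3 (by omega)
      · push Not at hbig
        rw [← hlam] at hbig
        calc q₀ ≤ 600 * p₁ * (T + 1) * lam := hbig.le
          _ ≤ 600 * T * (2 * T) * lam := by
              apply Nat.mul_le_mul_right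
              exact Nat.mul_le_mul (Nat.mul_le_mul_left _ hp₁T) (by omega)
          _ = 1200 * T ^ 2 * lam := by ring
          _ ≤ (4 * 10 ^ 9 * (P.card + 1) ^ 2 * T ^ 5) * lam ^ 2 := by
              apply Nat.mul_le_mul _ (Nat.le_self_pow (by norm_num) _)
              apply Nat.mul_le_mul _ (Nat.pow_le_pow_right hT (by norm_num))
              nlinarith
    · -- case 2
      have hW1' : W = 1 := by omega
      rw [hW1', Nat.cast_one, one_mul] at heq'
      have hmain := q_boundD (N := N) (R := T) (A := 1) (q := q₀) (x := q₀) (Y := E) (U := U)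
        (p := p₁) (s := σ₁ * σ₂) (t := t) hs hq₀p hq3 (by norm_num) (fun _ => dvd_rfl)
        (by rw [hN]; exact Nat.one_le_two_pow) (Nat.coprime_one_right _) (by omega) hE0 hU2 hp₁ hp₁T
        ht0 hp₁t hsize hpU hp₁.not_dvd_one (by rw [Nat.cast_one, one_pow, mul_one]; exact heq')
      rw [← hlam] at hmain
      refine hmain.trans ?_
      calc 10 ^ 9 * T ^ 2 * lam ^ 2 * (Nat.log 2 N + 1) ^ 2 ≤
          10 ^ 9 * T ^ 2 * lam ^ 2 * (2 * T * (P.card + 1)) ^ 2 :=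
            Nat.mul_le_mul_left _ (Nat.pow_le_pow_left hlogN 2)
        _ = (4 * 10 ^ 9 * (P.card + 1) ^ 2 * T ^ 4) * lam ^ 2 := by ring
        _ ≤ _ := Nat.mul_le_mul_right _ (Nat.mul_le_mul_left _
            (Nat.pow_le_pow_right hT (by norm_num)))
  have h2 := q_solve (by omega) hfin
  calc q₀ ≤ _ := h2
    _ = (64 * (4 * 10 ^ 9 * (P.card + 1) ^ 2) ^ 2) * T ^ 10 := by ring
    _ ≤ _ := Nat.mul_le_mul_right _ (by omega)

end Pool.Agent.TH888.G
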