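import Mathlib
import Pool.Agent.TH888.G.TLQ
import Pool.Agent.TH888.G.UnitPM

/-!
`K₂ U ^ q ≡ ± K₁ u ^ x` modulo a high power of `p`: three numbers, reduced to two logarithms by Thue's
lemma modulo `q`.
-/

set_option autoImplicit false

namespace Pool.Agent.TH888.G

open Finset

/-- Thue's lemma -/
theorem thue {q x : ℕ} (hq : 2 ≤ q) : ∃ (e₁ : ℤ) (e₂ : ℕ), 0 < e₂ ∧ e₂ ≤ Nat.sqrt q ∧
    |e₁| ≤ Nat.sqrt q ∧ (q : ℤ) ∣ e₁ - x * e₂ := by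
  classical
  have : NeZero q := ⟨by omega⟩
  obtain ⟨s, hs⟩ : ∃ s, s = Nat.sqrt q := ⟨_, rfl⟩
  rw [← hs]
  have hsq : s < q := by rw [hs]; exact Nat.sqrt_lt_self (by omega)
  have hcard : (Finset.univ : Finset (ZMod q)).card < (range (s + 1) ×ˢ range (s + 1)).card := by
    rw [Finset.card_univ, ZMod.card, card_product, card_range, hs]
    exact Nat.lt_succ_sqrt q
  obtain ⟨a, ha, b, hb, hne, hab⟩ := Finset.exists_ne_map_eq_of_card_lt_of_maps_to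
    (f := fun t : ℕ × ℕ => ((t.1 : ℤ) - x * t.2 : ZMod q)) hcard (fun _ _ => Finset.mem_univ _)
  rw [mem_product, mem_range, mem_range] at ha hb
  have key : ∀ a b : ℕ × ℕ, a.1 < s + 1 → b.1 < s + 1 → a.2 < s + 1 → b.2 < a.2 →
      (((a.1 : ℤ) - x * a.2 : ZMod q)) = ((b.1 : ℤ) - x * b.2 : ZMod q) →
      ∃ (e₁ : ℤ) (e₂ : ℕ), 0 < e₂ ∧ e₂ ≤ s ∧ |e₁| ≤ s ∧ (q : ℤ) ∣ e₁ - x * e₂ := by
    intro a b ha1 hb1 ha2 hlt h
    refine ⟨(a.1 : ℤ) - b.1, a.2 - b.2, by omega, by omega, ?_, ?_⟩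
    · rw [abs_le]
      constructor <;> omega
    · rw [← ZMod.intCast_zmod_eq_zero_iff_dvd]
      rw [Nat.cast_sub hlt.le]
      push_cast
      push_cast at h
      linear_combination h
  rcases lt_trichotomy a.2 b.2 with h | h | h
  · exact key b a hb.1 ha.1 hb.2 h hab.symm
  · exfalso
    apply hne
    rw [h] at hab
    have h1 : ((a.1 : ℕ) : ZMod q) = ((b.1 : ℕ) : ZMod q) := by
      push_cast at hab
      linear_combination hab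
    have h2 := (ZMod.natCast_eq_natCast_iff' _ _ _).mp h1
    rw [Nat.mod_eq_of_lt (by omega), Nat.mod_eq_of_lt (by omega)] at h2
    exact Prod.ext h2 h
  · exact key a b ha.1 hb.1 ha.2 h hab

theorem core2 {q u K₁ K₂ U x E p T Z R r₀ : ℕ} {s : ℤ} (hs : s = 1 ∨ s = -1) (hq : q.Prime)
    (hp : p.Prime) (hpR : p ≤ R) (hT : 1 ≤ T) (hu0 : 0 < u) (hK₁0 : 0 < K₁) (hK₂0 : 0 < K₂)
    (hU0 : 0 < U) (hu : u ≤ 2 ^ T) (hK₁ : K₁ ≤ 2 ^ T) (hK₂ : K₂ ≤ 2 ^ T)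
    (hpU : ¬ p ∣ U) (hpu : ¬ p ∣ u) (hpK₁ : ¬ p ∣ K₁) (hpK₂ : ¬ p ∣ K₂)
    (hr₀ : r₀.Prime) (hr₀U : r₀ ∣ U) (hr₀u : ¬ r₀ ∣ u) (hr₀K₂ : ¬ r₀ ∣ K₂)
    (hrel : (p : ℤ) ^ E ∣ (K₂ : ℤ) * (U : ℤ) ^ q - s * ((K₁ : ℤ) * (u : ℤ) ^ x))
    (hZ₁ : K₂ * U ^ q ≤ 2 ^ Z) (hZ₂ : K₁ * u ^ x ≤ 2 ^ Z)
    (hbig : 600 * p * (3 * (Nat.sqrt q * T)) * (Nat.log 2 q + 1) ≤ q) :
    E < 150000 * R ^ 2 * (Nat.log 2 q + 1) ^ 2 * (Z / q + 6 * (Nat.sqrt q * T)) *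
      (3 * (Nat.sqrt q * T)) := by
  obtain ⟨e₁, e₂, he₂, he₂s, he₁s, hdvd⟩ := thue (q := q) (x := x) hq.two_le
  obtain ⟨σ, hσ⟩ : ∃ σ, σ = Nat.sqrt q := ⟨_, rfl⟩
  rw [← hσ] at he₂s he₁s hbig ⊢
  have hσ1 : 1 ≤ σ := by omega
  have hσq : σ < q := by rw [hσ]; exact Nat.sqrt_lt_self hq.one_lt
  -- the inverse of `e₂`
  have hcop : Nat.Coprime e₂ q := by
    rw [Nat.coprime_comm, hq.coprime_iff_not_dvd]
    exact Nat.not_dvd_of_pos_of_lt he₂ (by omega)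
  obtain ⟨i, hiq, hi⟩ : ∃ i, i < q ∧ (e₂ * i) % q = 1 := by
    obtain ⟨i, h1, h2⟩ := Nat.exists_mul_mod_eq_one_of_coprime hcop hq.one_lt
    exact ⟨i, h1, h2⟩
  have hi0 : 0 < i := Nat.pos_of_ne_zero fun h => by
    rw [h, mul_zero, Nat.zero_mod] at hi
    omega
  obtain ⟨f₂, hf₂⟩ : ∃ f₂, f₂ = (e₂ * i) / q := ⟨_, rfl⟩
  have hf₂e : i * e₂ = 1 + q * f₂ := by
    have := Nat.div_add_mod (e₂ * i) q
    rw [hi, ← hf₂] at this
    rw [mul_comm i e₂]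
    omega
  have hf₂σ : f₂ ≤ σ := by
    have h1 : q * f₂ < q * e₂ := by
      calc q * f₂ < i * e₂ := by omega
        _ ≤ q * e₂ := Nat.mul_le_mul_right _ hiq.le
    have := Nat.lt_of_mul_lt_mul_left h1
    omega
  -- `f₁`
  obtain ⟨f₁, hf₁⟩ : ∃ f₁ : ℤ, (i : ℤ) * e₁ - x = q * f₁ := by
    obtain ⟨t, ht⟩ := hdvd
    refine ⟨i * t + x * f₂, ?_⟩
    have h1 : (i : ℤ) * e₂ = 1 + q * f₂ := by exact_mod_cast hf₂e
    linear_combination (i : ℤ) * ht + (x : ℤ) * h1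
  have hqZ : (0 : ℤ) < q := by exact_mod_cast hq.pos
  have hiqZ : (i : ℤ) ≤ q := by exact_mod_cast hiq.le
  have hiZ : (0 : ℤ) ≤ i := Int.natCast_nonneg _
  obtain ⟨he₁l, he₁u⟩ := abs_le.mp he₁s
  have hf₁u : f₁ ≤ σ := by
    have h1 : (q : ℤ) * f₁ ≤ q * σ := by
      have h2 : (i : ℤ) * e₁ ≤ i * σ := mul_le_mul_of_nonneg_left he₁u hiZ
      have h3 : (i : ℤ) * σ ≤ q * σ := mul_le_mul_of_nonneg_right hiqZ (Int.natCast_nonneg _)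
      have h4 : (0 : ℤ) ≤ x := Int.natCast_nonneg _
      linarith
    exact le_of_mul_le_mul_left h1 hqZ
  obtain ⟨xq, hxq⟩ : ∃ xq, xq = x / q := ⟨_, rfl⟩
  have hf₁l : -f₁ ≤ (xq : ℤ) + 1 + σ := by
    have h1 : (q : ℤ) * (-f₁) ≤ q * ((xq : ℤ) + 1 + σ) := by
      have h2 : -((i : ℤ) * e₁) ≤ i * σ := by
        have := mul_le_mul_of_nonneg_left he₁l hiZ
        linarith
      have h3 : (i : ℤ) * σ ≤ q * σ := mul_le_mul_of_nonneg_right hiqZ (Int.natCast_nonneg _)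
      have h4 : (x : ℤ) ≤ q * ((xq : ℤ) + 1) := by
        have h5 := Nat.div_add_mod x q
        have h6 := Nat.mod_lt x hq.pos
        rw [← hxq] at h5
        have h7 : x ≤ q * (xq + 1) := by rw [mul_add, mul_one]; omega
        exact_mod_cast h7
      have h8 : (q : ℤ) * ((xq : ℤ) + 1 + σ) = q * ((xq : ℤ) + 1) + q * σ := by ring
      rw [h8]
      linarith
    exact le_of_mul_le_mul_left h1 hqZ
  obtain ⟨ep, hep⟩ : ∃ ep, ep = e₁.toNat := ⟨_, rfl⟩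
  obtain ⟨em, hem⟩ : ∃ em, em = (-e₁).toNat := ⟨_, rfl⟩
  obtain ⟨fp, hfp⟩ : ∃ fp, fp = f₁.toNat := ⟨_, rfl⟩
  obtain ⟨fm, hfm⟩ : ∃ fm, fm = (-f₁).toNat := ⟨_, rfl⟩
  have he : e₁ = (ep : ℤ) - em := by omega
  have hf : f₁ = (fp : ℤ) - fm := by omega
  have hepσ : ep ≤ σ := by omega
  have hemσ : em ≤ σ := by omega
  have hfpσ : fp ≤ σ := by omega
  have hfmσ : fm ≤ xq + 1 + σ := by omega
  have hexp : i * ep + q * fm = x + (q * fp + i * em) := by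
    have h1 : (i : ℤ) * ep + q * fm = x + (q * fp + i * em) := by
      rw [he, hf] at hf₁
      linear_combination hf₁
    exact_mod_cast h1
  obtain ⟨A, hA⟩ : ∃ A, A = u ^ ep * K₁ ^ e₂ := ⟨_, rfl⟩
  obtain ⟨B, hB⟩ : ∃ B, B = u ^ em * K₂ ^ e₂ := ⟨_, rfl⟩
  obtain ⟨a, ha⟩ : ∃ a, a = U * u ^ fp * K₁ ^ f₂ := ⟨_, rfl⟩
  obtain ⟨b, hb⟩ : ∃ b, b = u ^ fm * K₂ ^ f₂ := ⟨_, rfl⟩
  have hpow : ∀ {n k : ℕ} (m : ℕ), n ≤ 2 ^ T → k ≤ m → n ^ k ≤ 2 ^ (T * m) := by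
    intro n k m hn hk
    calc n ^ k ≤ (2 ^ T) ^ k := Nat.pow_le_pow_left hn _
      _ ≤ (2 ^ T) ^ m := Nat.pow_le_pow_right (by positivity) hk
      _ = _ := by rw [← pow_mul]
  have hT3 : 1 ≤ σ * T := Nat.mul_pos hσ1 hT
  have hTσ : T ≤ σ * T := Nat.le_mul_of_pos_left _ hσ1
  have hcomm : T * σ = σ * T := mul_comm _ _
  have hAν : A < 2 ^ (3 * (σ * T)) := by
    calc A ≤ 2 ^ (T * σ) * 2 ^ (T * σ) := by
          rw [hA]; exact Nat.mul_le_mul (hpow σ hu hepσ) (hpow σ hK₁ he₂s)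
      _ = 2 ^ (T * σ + T * σ) := by rw [← pow_add]
      _ < _ := Nat.pow_lt_pow_right (by norm_num) (by rw [hcomm]; omega)
  have hBν : B < 2 ^ (3 * (σ * T)) := by
    calc B ≤ 2 ^ (T * σ) * 2 ^ (T * σ) := by
          rw [hB]; exact Nat.mul_le_mul (hpow σ hu hemσ) (hpow σ hK₂ he₂s)
      _ = 2 ^ (T * σ + T * σ) := by rw [← pow_add]
      _ < _ := Nat.pow_lt_pow_right (by norm_num) (by rw [hcomm]; omega)
  obtain ⟨G, hG⟩ : ∃ G, G = Z / q + 1 := ⟨_, rfl⟩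
  have hZG : Z < q * G := by
    rw [hG, mul_add, mul_one]
    have h5 := Nat.div_add_mod Z q
    have h6 := Nat.mod_lt Z hq.pos
    omega
  have root : ∀ {n : ℕ}, n ^ q ≤ 2 ^ Z → n < 2 ^ G := by
    intro n hn
    by_contra hc
    rw [not_lt] at hc
    have h1 : (2 ^ G) ^ q ≤ 2 ^ Z := (Nat.pow_le_pow_left hc q).trans hn
    rw [← pow_mul] at h1
    have h2 := (Nat.pow_le_pow_iff_right (by norm_num : 1 < 2)).mp h1
    rw [mul_comm G q] at h2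
    omega
  have hUG : U < 2 ^ G := root ((Nat.le_mul_of_pos_left _ hK₂0).trans hZ₁)
  have huG : u ^ xq < 2 ^ G := by
    apply root
    rw [← pow_mul, hxq]
    calc u ^ (x / q * q) ≤ u ^ x := Nat.pow_le_pow_right hu0 (Nat.div_mul_le_self _ _)
      _ ≤ K₁ * u ^ x := Nat.le_mul_of_pos_left _ hK₁0
      _ ≤ 2 ^ Z := hZ₂
  obtain ⟨h, hh⟩ : ∃ h, h = Z / q + 6 * (σ * T) := ⟨_, rfl⟩
  have hah : a < 2 ^ h := by
    calc a ≤ U * 2 ^ (T * σ) * 2 ^ (T * σ) := by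
          rw [ha]
          exact Nat.mul_le_mul (Nat.mul_le_mul_left _ (hpow σ hu hfpσ)) (hpow σ hK₁ hf₂σ)
      _ < 2 ^ G * 2 ^ (T * σ) * 2 ^ (T * σ) := by
          apply Nat.mul_lt_mul_of_pos_right _ (by positivity)
          exact Nat.mul_lt_mul_of_pos_right hUG (by positivity)
      _ = 2 ^ (G + T * σ + T * σ) := by rw [← pow_add, ← pow_add]
      _ ≤ _ := Nat.pow_le_pow_right (by norm_num) (by rw [hcomm]; omega)
  have hbh : b < 2 ^ h := by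
    have h1 : u ^ fm ≤ u ^ xq * 2 ^ (T * (1 + σ)) := by
      calc u ^ fm ≤ u ^ (xq + (1 + σ)) := Nat.pow_le_pow_right hu0 (by omega)
        _ = u ^ xq * u ^ (1 + σ) := pow_add _ _ _
        _ ≤ _ := Nat.mul_le_mul_left _ (hpow (1 + σ) hu le_rfl)
    calc b ≤ u ^ xq * 2 ^ (T * (1 + σ)) * 2 ^ (T * σ) := by
          rw [hb]
          exact Nat.mul_le_mul h1 (hpow σ hK₂ hf₂σ)
      _ < 2 ^ G * 2 ^ (T * (1 + σ)) * 2 ^ (T * σ) := by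
          apply Nat.mul_lt_mul_of_pos_right _ (by positivity)
          exact Nat.mul_lt_mul_of_pos_right huG (by positivity)
      _ = 2 ^ (G + T * (1 + σ) + T * σ) := by rw [← pow_add, ← pow_add]
      _ ≤ _ := Nat.pow_le_pow_right (by norm_num) (by
          have : T * (1 + σ) = T + σ * T := by ring
          rw [this, hcomm]; omega)
  have hab : a ≠ b := by
    intro h0
    have h1 : r₀ ∣ b := by
      rw [← h0, ha]
      exact (hr₀U.mul_right _).mul_right _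
    rw [hb] at h1
    rcases hr₀.dvd_mul.mp h1 with h2 | h2
    · exact hr₀u (hr₀.dvd_of_dvd_pow h2)
    · exact hr₀K₂ (hr₀.dvd_of_dvd_pow h2)
  have ndp : ∀ {n : ℕ} (k : ℕ), ¬ p ∣ n → ¬ p ∣ n ^ k := fun k hn h => hn (hp.dvd_of_dvd_pow h)
  have ndm : ∀ {m n : ℕ}, ¬ p ∣ m → ¬ p ∣ n → ¬ p ∣ m * n := fun hm hn h =>
    (hp.dvd_mul.mp h).elim hm hn
  have hmain := TLQ.two_logsQ (p := p) (h := h) (ν := 3 * (σ * T)) (q := q) (i := i) (y := E)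
    (a := a) (b := b) (A := A) (B := B) hp (by omega) (by omega) (by rw [ha]; positivity)
    (by rw [hb]; positivity) (by rw [hA]; positivity) (by rw [hB]; positivity) hab hah hbh hAν hBν
    (by rw [ha]; exact ndm (ndm hpU (ndp _ hpu)) (ndp _ hpK₁))
    (by rw [hb]; exact ndm (ndp _ hpu) (ndp _ hpK₂))
    (by rw [hA]; exact ndm (ndp _ hpu) (ndp _ hpK₁))
    (by rw [hB]; exact ndm (ndp _ hpu) (ndp _ hpK₂)) hi0 hiq
    (by
      rw [Nat.coprime_comm, hq.coprime_iff_not_dvd]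
      exact Nat.not_dvd_of_pos_of_lt hi0 hiq)
    (by
      obtain ⟨W, hW⟩ : ∃ W : ℤ, W = ((K₁ : ℤ) * K₂) ^ (q * f₂) * (u : ℤ) ^ (q * fp + i * em) :=
        ⟨_, rfl⟩
      have e1 : (a : ℤ) ^ q * (B : ℤ) ^ i = (K₂ : ℤ) * (U : ℤ) ^ q * W := by
        rw [ha, hB, hW]
        push_cast
        rw [mul_pow, mul_pow, mul_pow, mul_pow, ← pow_mul, ← pow_mul, ← pow_mul, ← pow_mul,
          mul_comm f₂ q, mul_comm e₂ i, hf₂e, pow_add (K₂ : ℤ), pow_one, mul_comm fp q,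
          mul_comm em i, pow_add (u : ℤ)]
        ring
      have e2 : (b : ℤ) ^ q * (A : ℤ) ^ i = (K₁ : ℤ) * (u : ℤ) ^ x * W := by
        rw [hb, hA, hW]
        push_cast
        rw [mul_pow, mul_pow, mul_pow, ← pow_mul, ← pow_mul, ← pow_mul, ← pow_mul,
          mul_comm f₂ q, mul_comm e₂ i, hf₂e, pow_add (K₁ : ℤ), pow_one, mul_comm fm q,
          mul_comm ep i]
        have e3 : (u : ℤ) ^ (q * fm) * (u : ℤ) ^ (i * ep) =
            (u : ℤ) ^ x * (u : ℤ) ^ (q * fp + i * em) := by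
          rw [← pow_add, ← pow_add]
          congr 1
          omega
        linear_combination ((K₂ : ℤ) ^ (q * f₂) * K₁ * (K₁ : ℤ) ^ (q * f₂)) * e3
      have e4 : (a : ℤ) ^ (2 * q) * (B : ℤ) ^ (2 * i) - (b : ℤ) ^ (2 * q) * (A : ℤ) ^ (2 * i) =
          ((K₂ : ℤ) * (U : ℤ) ^ q - s * ((K₁ : ℤ) * (u : ℤ) ^ x)) *
            (((K₂ : ℤ) * (U : ℤ) ^ q + s * ((K₁ : ℤ) * (u : ℤ) ^ x)) * W ^ 2) := by
        have hss : s * s = 1 := by rcases hs with rfl | rfl <;> norm_num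
        have e5 : (a : ℤ) ^ (2 * q) * (B : ℤ) ^ (2 * i) = ((a : ℤ) ^ q * (B : ℤ) ^ i) ^ 2 := by
          rw [mul_pow, ← pow_mul, ← pow_mul, mul_comm q 2, mul_comm i 2]
        have e6 : (b : ℤ) ^ (2 * q) * (A : ℤ) ^ (2 * i) = ((b : ℤ) ^ q * (A : ℤ) ^ i) ^ 2 := by
          rw [mul_pow, ← pow_mul, ← pow_mul, mul_comm q 2, mul_comm i 2]
        rw [e5, e6, e1, e2]
        linear_combination (((K₁ : ℤ) * (u : ℤ) ^ x) ^ 2 * W ^ 2) * hss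
      rw [e4]
      exact hrel.mul_right _)
    hbig
  refine hmain.trans_le ?_
  rw [← hh]
  apply Nat.mul_le_mul_right
  apply Nat.mul_le_mul_right
  apply Nat.mul_le_mul_right
  exact Nat.mul_le_mul_left _ (Nat.pow_le_pow_left hpR 2)

end Pool.Agent.TH888.G
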