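import Mathlib
import Pool.Agent.TH888.G.Core2
import Pool.Agent.TH888.G.TwoPM
import Pool.Agent.TH888.G.UExp

/-!
`a x ^ p + b y ^ q = c z ^ r` with small `S`-units `a`, `b`, `c`: the least prime factor of `r` is at
most a power of the logarithms of the data, or so is the logarithm of `z`.
-/

set_option autoImplicit false

namespace Pool.Agent.TH888.G

open Finset
open Pool.Agent.TH888.W2 (Su cop3)

theorem solve_a {q T p σ : ℕ} (hσ : σ ^ 2 ≤ q) (hq : 1 ≤ q) (hp : p ≤ T)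
    (h : q < 600 * p * (3 * (σ * T)) * (Nat.log 2 q + 1)) : q ≤ 64 * ((1800 * T ^ 2) ^ 2) ^ 2 := by
  obtain ⟨L, hL⟩ : ∃ L, L = Nat.log 2 q + 1 := ⟨_, rfl⟩
  apply q_solve hq
  rw [← hL] at h ⊢
  have h1 : q ≤ 1800 * T ^ 2 * σ * L := by
    calc q ≤ 600 * p * (3 * (σ * T)) * L := h.le
      _ ≤ 600 * T * (3 * (σ * T)) * L :=
        Nat.mul_le_mul_right _ (Nat.mul_le_mul_right _ (Nat.mul_le_mul_left _ hp))
      _ = _ := by ring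
  have h2 : q * q ≤ (1800 * T ^ 2) ^ 2 * L ^ 2 * q := by
    calc q * q ≤ (1800 * T ^ 2 * σ * L) * (1800 * T ^ 2 * σ * L) := Nat.mul_le_mul h1 h1
      _ = (1800 * T ^ 2) ^ 2 * L ^ 2 * σ ^ 2 := by ring
      _ ≤ _ := Nat.mul_le_mul_left _ hσ
  exact Nat.le_of_mul_le_mul_right h2 (by omega)

theorem solve_b {q T ν E σ L : ℕ} (hσ : σ ^ 2 ≤ q) (hν : 1 ≤ ν) (hE : 1 ≤ E)
    (h : E < 150000 * T ^ 2 * L ^ 2 * ((ν * E + 1) / q + 6 * (σ * T)) * (3 * (σ * T))) :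
    σ ≤ 1800000 * T ^ 3 * ν * L ^ 2 ∨ E < 5400000 * T ^ 4 * L ^ 2 * q := by
  by_contra hc
  rw [not_or, not_le, not_lt] at hc
  obtain ⟨h1, h2⟩ := hc
  obtain ⟨Y, hY⟩ : ∃ Y, Y = (ν * E + 1) / q := ⟨_, rfl⟩
  rw [← hY] at h
  have h3 : Y * σ ^ 2 ≤ 2 * ν * E := by
    calc Y * σ ^ 2 ≤ Y * q := Nat.mul_le_mul_left _ hσ
      _ ≤ ν * E + 1 := by rw [hY]; exact Nat.div_mul_le_self _ _
      _ ≤ _ := by nlinarith
  have hσ0 : 0 < σ := by omega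
  have h4 : 2 * σ * E < 2 * σ * (150000 * T ^ 2 * L ^ 2 * (Y + 6 * (σ * T)) * (3 * (σ * T))) :=
    Nat.mul_lt_mul_of_pos_left h (by omega)
  have h5 : 2 * σ * (150000 * T ^ 2 * L ^ 2 * (Y + 6 * (σ * T)) * (3 * (σ * T))) =
      900000 * T ^ 3 * L ^ 2 * (Y * σ ^ 2) + 5400000 * T ^ 4 * L ^ 2 * σ ^ 2 * σ := by ring
  rw [h5] at h4
  have h6 : 900000 * T ^ 3 * L ^ 2 * (Y * σ ^ 2) ≤ σ * E := by
    calc 900000 * T ^ 3 * L ^ 2 * (Y * σ ^ 2) ≤ 900000 * T ^ 3 * L ^ 2 * (2 * ν * E) :=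
          Nat.mul_le_mul_left _ h3
      _ = (1800000 * T ^ 3 * ν * L ^ 2) * E := by ring
      _ ≤ σ * E := Nat.mul_le_mul_right _ h1.le
  have h7 : 5400000 * T ^ 4 * L ^ 2 * σ ^ 2 * σ ≤ E * σ := by
    apply Nat.mul_le_mul_right
    exact (Nat.mul_le_mul_left _ hσ).trans h2
  have h8 : E * σ = σ * E := mul_comm _ _
  have h9 : 2 * σ * E = σ * E + σ * E := by ring
  omega

theorem solve_b1 {q M : ℕ} (hq : 1 ≤ q) (h : Nat.sqrt q ≤ M * (Nat.log 2 q + 1) ^ 2) :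
    q ≤ (64 * (8 * M) ^ 2) ^ 2 := by
  obtain ⟨σ, hσ⟩ : ∃ σ, σ = Nat.sqrt q := ⟨_, rfl⟩
  rw [← hσ] at h
  have hσ1 : 1 ≤ σ := by rw [hσ]; exact Nat.sqrt_pos.mpr hq
  have hqσ : q < (σ + 1) ^ 2 := by rw [hσ, pow_two]; exact Nat.lt_succ_sqrt q
  obtain ⟨l, hl⟩ : ∃ l, l = Nat.log 2 (σ + 1) + 1 := ⟨_, rfl⟩
  have hL : Nat.log 2 q + 1 ≤ 2 * l := by
    have h1 : q < 2 ^ (2 * l) := by
      calc q < (σ + 1) ^ 2 := hqσ
        _ ≤ (2 ^ l) ^ 2 := Nat.pow_le_pow_left (by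
            rw [hl]; exact (Nat.lt_pow_succ_log_self (by norm_num) _).le) _
        _ = 2 ^ (2 * l) := by rw [← pow_mul, mul_comm]
    exact Nat.log_lt_of_lt_pow (by omega) h1
  have h2 : σ + 1 ≤ 8 * M * (Nat.log 2 (σ + 1) + 1) ^ 2 := by
    rw [← hl]
    calc σ + 1 ≤ 2 * σ := by omega
      _ ≤ 2 * (M * (Nat.log 2 q + 1) ^ 2) := Nat.mul_le_mul_left _ h
      _ ≤ 2 * (M * (2 * l) ^ 2) :=
        Nat.mul_le_mul_left _ (Nat.mul_le_mul_left _ (Nat.pow_le_pow_left hL 2))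
      _ = _ := by ring
  have h3 := q_solve (by omega) h2
  exact hqσ.le.trans (Nat.pow_le_pow_left h3 2)

theorem third_ordered (P : Finset ℕ) (hP : ∀ ℓ ∈ P, ℓ.Prime) : ∃ C d : ℕ,
    ∀ (a b c x y z : ℤ) (T p q r : ℕ), 1 ≤ T → (∀ ℓ ∈ P, ℓ ≤ T) → 0 < p → 0 < q → 2 ≤ r →
    Su P a.natAbs → Su P b.natAbs → Su P c.natAbs →
    Int.gcd ((Int.gcd (a * x) (b * y) : ℕ) : ℤ) (c * z) = 1 → a * x ^ p + b * y ^ q = c * z ^ r →
    a.natAbs ≤ 2 ^ T → c.natAbs ≤ 2 ^ T →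
    x.natAbs ≤ 2 ^ T → y.natAbs ≤ 2 ^ T → x ≠ 0 → y ≠ 0 → 2 ≤ z.natAbs →
    (∃ p₀ : ℕ, p₀.Prime ∧ p₀ ≤ T ∧ p₀ ∣ x.natAbs) →
    (∃ p₀ : ℕ, p₀.Prime ∧ p₀ ≤ T ∧ p₀ ∣ y.natAbs) →
    (a * x ^ p).natAbs ≤ (b * y ^ q).natAbs →
    r.minFac ≤ C * T ^ d ∨ z.natAbs ≤ 2 ^ (C * T ^ d) := by
  obtain ⟨C₀, κ₀, H₀⟩ := Pool.Agent.TH888.W2.su_exps_nat P
  obtain ⟨C₁, κ₁, H₁⟩ := third_exp P
  obtain ⟨C₂, hC₂⟩ : ∃ C₂, C₂ = Nat.log 2 (C₁ + 3) + 1 + κ₁ := ⟨_, rfl⟩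
  obtain ⟨N, hN⟩ : ∃ N, N = P.card + 1 := ⟨_, rfl⟩
  obtain ⟨B₁, hB₁⟩ : ∃ B₁, B₁ = 64 * ((1800 : ℕ) ^ 2) ^ 2 := ⟨_, rfl⟩
  obtain ⟨B₂, hB₂⟩ : ∃ B₂, B₂ = (64 * (8 * (3600000 * N)) ^ 2) ^ 2 := ⟨_, rfl⟩
  obtain ⟨B₃, hB₃⟩ : ∃ B₃, B₃ = 64 * (30000000 * N * C₂ ^ 2) ^ 2 := ⟨_, rfl⟩
  refine ⟨C₀ + B₁ + B₂ + B₃, κ₀ + 16, ?_⟩
  intro a b c x y z T p q r hT hPT hp hq hr ha hb hc hg heq haT hcT hx hy hx0 hy0 hz2 hpx hpy hle
  have hTd : ∀ {j : ℕ}, j ≤ κ₀ + 16 → T ^ j ≤ T ^ (κ₀ + 16) := fun h => Nat.pow_le_pow_right hT h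
  have wrap : ∀ {B j : ℕ}, B ≤ C₀ + B₁ + B₂ + B₃ → j ≤ κ₀ + 16 →
      B * T ^ j ≤ (C₀ + B₁ + B₂ + B₃) * T ^ (κ₀ + 16) := fun h1 h2 => Nat.mul_le_mul h1 (hTd h2)
  obtain ⟨q₀, hq₀⟩ : ∃ q₀, q₀ = r.minFac := ⟨_, rfl⟩
  rw [← hq₀]
  have hq₀p : q₀.Prime := by rw [hq₀]; exact Nat.minFac_prime (by omega)
  have hq₀r : q₀ ≤ r := by rw [hq₀]; exact Nat.minFac_le (by omega)
  obtain ⟨k, hk⟩ : ∃ k, r = q₀ * k := by rw [hq₀]; exact Nat.minFac_dvd r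
  have hk0 : 0 < k := Nat.pos_of_ne_zero fun h => by rw [h] at hk; omega
  obtain ⟨c1, c2, c3⟩ := cop3 hp hq (by omega) heq hg
  have hxn : 0 < x.natAbs := Int.natAbs_pos.mpr hx0
  have hyn : 0 < y.natAbs := Int.natAbs_pos.mpr hy0
  have han : 0 < a.natAbs := Nat.pos_of_ne_zero ha.1
  have hbn : 0 < b.natAbs := Nat.pos_of_ne_zero hb.1
  have hcn : 0 < c.natAbs := Nat.pos_of_ne_zero hc.1
  -- a prime of `z` outside `c`
  by_cases hr₀ : ∃ r₀ : ℕ, r₀.Prime ∧ r₀ ∣ z.natAbs ∧ ¬ r₀ ∣ c.natAbs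
  swap
  · left
    obtain ⟨ℓ, hℓ, hℓz⟩ := Nat.exists_prime_and_dvd (show z.natAbs ≠ 1 by omega)
    have hall : ∀ r₀ : ℕ, r₀.Prime → r₀ ∣ z.natAbs → r₀ ∣ c.natAbs := by
      intro r₀ h1 h2
      by_contra h3
      exact hr₀ ⟨r₀, h1, h2, h3⟩
    have hSu : Su P (c.natAbs * z.natAbs ^ r) := by
      refine ⟨by positivity, fun l hl hd => ?_⟩
      rcases hl.dvd_mul.mp hd with h1 | h1
      · exact hc.2 l hl h1
      · exact hc.2 l hl (hall l hl (hl.dvd_of_dvd_pow h1))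
    have ab : ∀ (u w : ℤ) (i : ℕ), u.natAbs * w.natAbs ^ i = (u * w ^ i).natAbs := by
      intro u w i
      rw [Int.natAbs_mul, Int.natAbs_pow]
    have sq : ∀ u : ℤ, ((u.natAbs : ℕ) : ℤ) ^ 2 = u ^ 2 := by
      intro u
      rw [Int.natCast_natAbs, sq_abs]
    have k1 : ∀ t₁ t₂ t₃ : ℤ, t₁ ∣ t₂ - t₃ ∨ t₁ ∣ t₂ + t₃ →
        ((t₁.natAbs : ℕ) : ℤ) ∣ ((t₂.natAbs : ℕ) : ℤ) ^ 2 - ((t₃.natAbs : ℕ) : ℤ) ^ 2 := by
      intro t₁ t₂ t₃ hd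
      rw [sq, sq, Int.natAbs_dvd]
      have e : t₂ ^ 2 - t₃ ^ 2 = (t₂ - t₃) * (t₂ + t₃) := by ring
      rw [e]
      rcases hd with hd | hd
      · exact hd.mul_right _
      · exact hd.mul_left _
    have hcopz : ∀ {m : ℕ}, Nat.Coprime m (c.natAbs * z.natAbs) →
        Nat.Coprime m (c.natAbs * z.natAbs ^ r * 1) := by
      intro m hm
      rw [mul_one]
      exact Nat.Coprime.mul_right (Nat.Coprime.coprime_mul_right_right hm)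
        ((Nat.Coprime.coprime_mul_left_right hm).pow_right r)
    obtain ⟨-, -, -, -, h5, -⟩ := H₀ a.natAbs b.natAbs (c.natAbs * z.natAbs ^ r) x.natAbs y.natAbs 1 T
      p q 1 hT hPT hp hq one_pos ha hb hSu c1 (hcopz c2) (hcopz c3)
      (by
        rw [ab, ab, ab, one_pow, mul_one]
        apply k1
        left
        exact ⟨-1, by linear_combination heq⟩)
      (by
        rw [ab, ab, ab, one_pow, mul_one]
        apply k1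
        left
        exact ⟨-1, by linear_combination heq⟩)
      (by
        rw [ab, ab, ab, one_pow, mul_one]
        apply k1
        right
        exact ⟨1, by linear_combination heq⟩)
      (by
        rw [ab, ab, ab, one_pow, mul_one, ← heq]
        exact Int.natAbs_add_le _ _)
      hx hy Nat.one_le_two_pow hxn hyn one_pos hpx hpy
    have h6 := h5 ℓ
    have h7 : r ≤ (c.natAbs * z.natAbs ^ r).factorization ℓ := by
      rw [← hℓ.pow_dvd_iff_le_factorization (by positivity)]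
      exact (pow_dvd_pow_of_dvd hℓz r).mul_left _
    exact hq₀r.trans (h7.trans (h6.trans (wrap (by omega) (by omega))))
  obtain ⟨r₀, hr₀p, hr₀z, hr₀c⟩ := hr₀
  obtain ⟨U, hU⟩ : ∃ U, U = z.natAbs ^ k := ⟨_, rfl⟩
  have hzU : z.natAbs ≤ U := by rw [hU]; exact Nat.le_self_pow hk0.ne' _
  obtain ⟨σ₁, hσ₁, e1⟩ := sgn_of_natAbs (t := c * z ^ r) (n := c.natAbs * U ^ q₀) (by
    rw [Int.natAbs_mul, Int.natAbs_pow, hU, hk, ← pow_mul, mul_comm k])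
  obtain ⟨σ₂, hσ₂, e2⟩ := sgn_of_natAbs (t := a * x ^ p) (n := a.natAbs * x.natAbs ^ p) (by
    rw [Int.natAbs_mul, Int.natAbs_pow])
  have hσσ : σ₁ * σ₁ = 1 := by rcases hσ₁ with rfl | rfl <;> norm_num
  have hs : σ₁ * σ₂ = 1 ∨ σ₁ * σ₂ = -1 := by
    rcases hσ₁ with rfl | rfl <;> rcases hσ₂ with rfl | rfl <;> norm_num
  obtain ⟨p₁, E, hp₁, hp₁T, hE0, hp₁d, hp₁E, hsize⟩ := high_prime hP hT hPT hq hb hyn hy hpy
  obtain ⟨ν, hν⟩ : ∃ ν, ν = Nat.log 2 (2 ^ (T * (P.card + 1))) + 1 := ⟨_, rfl⟩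
  rw [← hν] at hsize
  have hνN : ν ≤ 2 * N * T := by
    rw [hν, hN, Nat.log_pow (by norm_num)]
    have : 1 ≤ T * (P.card + 1) := Nat.mul_pos hT (by omega)
    have e : 2 * (P.card + 1) * T = 2 * (T * (P.card + 1)) := by ring
    omega
  have hν1 : 1 ≤ ν := by omega
  have hD : (b * y ^ q).natAbs = b.natAbs * y.natAbs ^ q := by
    rw [Int.natAbs_mul, Int.natAbs_pow]
  have hA : (a * x ^ p).natAbs = a.natAbs * x.natAbs ^ p := by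
    rw [Int.natAbs_mul, Int.natAbs_pow]
  have hCz : (c * z ^ r).natAbs = c.natAbs * U ^ q₀ := by
    rw [Int.natAbs_mul, Int.natAbs_pow, hU, hk, ← pow_mul, mul_comm k]
  have hZ₂ : a.natAbs * x.natAbs ^ p ≤ 2 ^ (ν * E + 1) := by
    rw [← hA]
    rw [hD] at hle
    exact hle.trans (hsize.le.trans (Nat.pow_le_pow_right (by norm_num) (by omega)))
  have hZ₁ : c.natAbs * U ^ q₀ ≤ 2 ^ (ν * E + 1) := by
    rw [← hCz, ← heq, pow_succ]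
    have h1 := Int.natAbs_add_le (a * x ^ p) (b * y ^ q)
    rw [hD] at hle h1
    omega
  have hrel : (p₁ : ℤ) ^ E ∣ ((c.natAbs : ℕ) : ℤ) * (U : ℤ) ^ q₀ -
      σ₁ * σ₂ * (((a.natAbs : ℕ) : ℤ) * ((x.natAbs : ℕ) : ℤ) ^ p) := by
    have h1 : ((p₁ ^ E : ℕ) : ℤ) ∣ b * y ^ q := by
      rw [Int.natCast_dvd, hD]
      exact hp₁E
    have h2 : ((c.natAbs : ℕ) : ℤ) * (U : ℤ) ^ q₀ -
        σ₁ * σ₂ * (((a.natAbs : ℕ) : ℤ) * ((x.natAbs : ℕ) : ℤ) ^ p) = σ₁ * (b * y ^ q) := by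
      rw [heq.symm] at e1
      rw [Nat.cast_mul, Nat.cast_pow] at e1 e2
      have e3 : b * y ^ q = σ₁ * (((c.natAbs : ℕ) : ℤ) * (U : ℤ) ^ q₀) -
          σ₂ * (((a.natAbs : ℕ) : ℤ) * ((x.natAbs : ℕ) : ℤ) ^ p) := by
        rw [← e1, ← e2]; ring
      rw [e3]
      linear_combination (-(((c.natAbs : ℕ) : ℤ) * (U : ℤ) ^ q₀)) * hσσ
    rw [h2]
    push_cast at h1
    exact h1.mul_left _
  have nd : ∀ {m n : ℕ}, Nat.Coprime m n → p₁ ∣ m → ¬ p₁ ∣ n := fun h h1 h2 =>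
    hp₁.not_dvd_one (h ▸ Nat.dvd_gcd h1 h2)
  have hp₁x : ¬ p₁ ∣ a.natAbs * x.natAbs := nd c1.symm hp₁d
  have hp₁z : ¬ p₁ ∣ c.natAbs * z.natAbs := nd c3 hp₁d
  have hr₀x : ¬ r₀ ∣ x.natAbs := fun h =>
    hr₀p.not_dvd_one (c2 ▸ Nat.dvd_gcd (h.mul_left _) (hr₀z.mul_left _))
  obtain ⟨σ, hσ⟩ : ∃ σ, σ = Nat.sqrt q₀ := ⟨_, rfl⟩
  have hσ2 : σ ^ 2 ≤ q₀ := by rw [hσ]; exact Nat.sqrt_le' q₀
  obtain ⟨L, hL⟩ : ∃ L, L = Nat.log 2 q₀ + 1 := ⟨_, rfl⟩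
  by_cases hbig : 600 * p₁ * (3 * (Nat.sqrt q₀ * T)) * (Nat.log 2 q₀ + 1) ≤ q₀
  swap
  · left
    rw [not_le, ← hσ] at hbig
    have h1 := solve_a hσ2 hq₀p.one_lt.le hp₁T hbig
    refine h1.trans (le_trans (le_of_eq ?_) (wrap (B := B₁) (j := 8) (by omega) (by omega)))
    rw [hB₁]
    ring
  have hcore := core2 (q := q₀) (u := x.natAbs) (K₁ := a.natAbs) (K₂ := c.natAbs) (U := U) (x := p)
    (E := E) (p := p₁) (T := T) (Z := ν * E + 1) (R := T) (r₀ := r₀) hs hq₀p hp₁ hp₁T hT hxn han hcn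
    (by omega) hx haT hcT
    (by rw [hU]; exact fun h => hp₁z ((hp₁.dvd_of_dvd_pow h).mul_left _))
    (fun h => hp₁x (h.mul_left _)) (fun h => hp₁x (h.mul_right _)) (fun h => hp₁z (h.mul_right _))
    hr₀p (by rw [hU]; exact hr₀z.trans (dvd_pow_self _ hk0.ne')) hr₀x hr₀c hrel hZ₁ hZ₂ hbig
  rw [← hσ, ← hL] at hcore
  rcases solve_b hσ2 hν1 hE0 hcore with h1 | h1
  · left
    have h2 : Nat.sqrt q₀ ≤ 3600000 * N * T ^ 4 * (Nat.log 2 q₀ + 1) ^ 2 := by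
      rw [← hσ, ← hL]
      refine h1.trans (Nat.mul_le_mul_right _ ?_)
      calc 1800000 * T ^ 3 * ν ≤ 1800000 * T ^ 3 * (2 * N * T) := Nat.mul_le_mul_left _ hνN
        _ = _ := by ring
    have h3 := solve_b1 hq₀p.one_lt.le h2
    refine h3.trans (le_trans (le_of_eq ?_) (wrap (B := B₂) (j := 16) (by omega) (by omega)))
    rw [hB₂]
    ring
  · right
    obtain ⟨M, hM⟩ : ∃ M, M = 21600000 * N * T ^ 5 := ⟨_, rfl⟩
    have h2 : ν * E + 1 ≤ M * L ^ 2 * q₀ := by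
      have h3 : 2 * ν * E ≤ 2 * (2 * N * T) * (5400000 * T ^ 4 * L ^ 2 * q₀) :=
        Nat.mul_le_mul (Nat.mul_le_mul_left _ hνN) h1.le
      have h4 : 2 * (2 * N * T) * (5400000 * T ^ 4 * L ^ 2 * q₀) = M * L ^ 2 * q₀ := by
        rw [hM]; ring
      rw [h4] at h3
      have h5 : 1 ≤ ν * E := Nat.mul_pos hν1 hE0
      have h6 : 2 * ν * E = ν * E + ν * E := by ring
      omega
    have hzM : z.natAbs ≤ 2 ^ (M * L ^ 2) := by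
      have h3 : z.natAbs ^ q₀ ≤ (2 ^ (M * L ^ 2)) ^ q₀ := by
        calc z.natAbs ^ q₀ ≤ U ^ q₀ := Nat.pow_le_pow_left hzU _
          _ ≤ c.natAbs * U ^ q₀ := Nat.le_mul_of_pos_left _ hcn
          _ ≤ 2 ^ (ν * E + 1) := hZ₁
          _ ≤ 2 ^ (M * L ^ 2 * q₀) := Nat.pow_le_pow_right (by norm_num) h2
          _ = _ := by rw [pow_mul]
      exact (Nat.pow_le_pow_iff_left hq₀p.pos.ne').mp h3
    obtain ⟨m, hm⟩ : ∃ m, m = Nat.log 2 z.natAbs + 1 := ⟨_, rfl⟩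
    have hzm : z.natAbs ≤ 2 ^ m := by
      rw [hm]; exact (Nat.lt_pow_succ_log_self (by norm_num) _).le
    have hmM : m ≤ M * L ^ 2 + 1 := by
      have h3 := Nat.log_mono_right (b := 2) hzM
      rw [Nat.log_pow (by norm_num)] at h3
      omega
    obtain ⟨T', hT'⟩ : ∃ T', T' = T + m := ⟨_, rfl⟩
    have hTT' : T ≤ T' := by omega
    have h2T : 2 ^ T ≤ 2 ^ T' := Nat.pow_le_pow_right (by norm_num) hTT'
    have hz0 : z ≠ 0 := by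
      rintro rfl
      simp at hz2
    obtain ⟨k', hk2, hk', hkk⟩ := H₁ a b c x y z T' p q r (by omega) (fun l hl => (hPT l hl).trans hTT')
      hp hq hr ha hb hc hg heq (hx.trans h2T) (hy.trans h2T)
      (hzm.trans (Nat.pow_le_pow_right (by norm_num) (by omega))) hx0 hy0 hz0
      (by obtain ⟨t, t1, t2, t3⟩ := hpx; exact ⟨t, t1, t2.trans hTT', t3⟩)
      (by obtain ⟨t, t1, t2, t3⟩ := hpy; exact ⟨t, t1, t2.trans hTT', t3⟩)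
    have hkr : k' = r := by
      have h3 : z.natAbs ^ k' = z.natAbs ^ r := by
        rw [← Int.natAbs_pow, ← Int.natAbs_pow, hkk]
      exact Nat.pow_right_injective hz2 h3
    obtain ⟨l', hl'⟩ : ∃ l', l' = Nat.log 2 T' + 1 := ⟨_, rfl⟩
    have hqC : q₀ < 2 ^ (C₂ * l') := by
      have h3 : q₀ ≤ (C₁ + 3) * T' ^ κ₁ := by
        have h4 : 1 ≤ T' ^ κ₁ := Nat.one_le_pow _ _ (by omega)
        have h5 : (C₁ + 3) * T' ^ κ₁ = C₁ * T' ^ κ₁ + 3 * T' ^ κ₁ := by ring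
        omega
      have h4 : T' ^ κ₁ ≤ 2 ^ (κ₁ * l') := by
        calc T' ^ κ₁ ≤ (2 ^ l') ^ κ₁ := Nat.pow_le_pow_left (by
              rw [hl']; exact (Nat.lt_pow_succ_log_self (by norm_num) _).le) _
          _ = _ := by rw [← pow_mul, mul_comm]
      have h5 : C₁ + 3 < 2 ^ (Nat.log 2 (C₁ + 3) + 1) := Nat.lt_pow_succ_log_self (by norm_num) _
      calc q₀ ≤ (C₁ + 3) * T' ^ κ₁ := h3
        _ ≤ (C₁ + 3) * 2 ^ (κ₁ * l') := Nat.mul_le_mul_left _ h4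
        _ < 2 ^ (Nat.log 2 (C₁ + 3) + 1) * 2 ^ (κ₁ * l') :=
          Nat.mul_lt_mul_of_pos_right h5 (by positivity)
        _ = 2 ^ (Nat.log 2 (C₁ + 3) + 1 + κ₁ * l') := by rw [← pow_add]
        _ ≤ _ := by
          apply Nat.pow_le_pow_right (by norm_num)
          rw [hC₂]
          have h6 : 1 ≤ l' := by rw [hl']; exact Nat.succ_pos _
          have h7 : Nat.log 2 (C₁ + 3) + 1 ≤ (Nat.log 2 (C₁ + 3) + 1) * l' :=
            Nat.le_mul_of_pos_right _ h6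
          have h8 : (Nat.log 2 (C₁ + 3) + 1 + κ₁) * l' =
              (Nat.log 2 (C₁ + 3) + 1) * l' + κ₁ * l' := by ring
          rw [h8]
          exact Nat.add_le_add_right h7 _
    have hLC : L ≤ C₂ * l' := by
      rw [hL]
      exact Nat.log_lt_of_lt_pow (by have := hq₀p.pos; omega) hqC
    have hL1 : 1 ≤ L := by omega
    have hN1 : 1 ≤ N := by omega
    have hT5 : 1 ≤ T ^ 5 := Nat.one_le_pow _ _ hT
    have hT15 : T ≤ T ^ 5 := Nat.le_self_pow (by norm_num) _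
    have hfin : T' ≤ 30000000 * N * T ^ 5 * C₂ ^ 2 * (Nat.log 2 T' + 1) ^ 2 := by
      rw [← hl']
      have h3 : T' ≤ 30000000 * N * T ^ 5 * L ^ 2 := by
        have h4 : T + 1 ≤ 8000000 * N * T ^ 5 * L ^ 2 := by
          have h5 : 1 ≤ L ^ 2 := Nat.one_le_pow _ _ hL1
          have h6 : T ^ 5 ≤ N * T ^ 5 * L ^ 2 := by
            calc T ^ 5 ≤ N * T ^ 5 := Nat.le_mul_of_pos_left _ hN1
              _ ≤ N * T ^ 5 * L ^ 2 := Nat.le_mul_of_pos_right _ h5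
          have h7 : 8000000 * N * T ^ 5 * L ^ 2 = 8000000 * (N * T ^ 5 * L ^ 2) := by ring
          omega
        have h5 : M * L ^ 2 + 8000000 * N * T ^ 5 * L ^ 2 ≤ 30000000 * N * T ^ 5 * L ^ 2 := by
          rw [hM]
          have h6 : 21600000 * N * T ^ 5 * L ^ 2 = 21600000 * (N * T ^ 5 * L ^ 2) := by ring
          have h7 : 8000000 * N * T ^ 5 * L ^ 2 = 8000000 * (N * T ^ 5 * L ^ 2) := by ring
          have h8 : 30000000 * N * T ^ 5 * L ^ 2 = 30000000 * (N * T ^ 5 * L ^ 2) := by ring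
          omega
        omega
      calc T' ≤ 30000000 * N * T ^ 5 * L ^ 2 := h3
        _ ≤ 30000000 * N * T ^ 5 * (C₂ * l') ^ 2 := Nat.mul_le_mul_left _ (Nat.pow_le_pow_left hLC 2)
        _ = _ := by ring
    have h3 := q_solve (by omega) hfin
    refine hzm.trans (Nat.pow_le_pow_right (by norm_num) ((by omega : m ≤ T').trans (h3.trans ?_)))
    refine le_trans (le_of_eq ?_) (wrap (B := B₃) (j := 10) (by omega) (by omega))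
    rw [hB₃]
    ring

end Pool.Agent.TH888.G
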