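import Mathlib
import Pool.Agent.TH888.G.Gamma2
import Pool.Agent.TH888.G.ThreeU

/-!
`a x ^ n = b t ^ m + c` with fixed `a`, `b`, `c`, without any coprimality condition: reduction to an
equation with `S`-unit coefficients, and a bound for the least prime factor of `n` or for `x`.
-/

set_option autoImplicit false

namespace Pool.Agent.TH888.G

open Finset
open Pool.Agent.TH888.W2 (Su cop3)

/-- removing common factors: an equation with `S`-unit coefficients -/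
theorem pil_red {P : Finset ℕ} (hP : ∀ ℓ ∈ P, ℓ.Prime) {a b c x : ℤ} {s t' m n : ℕ}
    (ha : a ≠ 0) (hb : b ≠ 0) (hc : c ≠ 0) (hx : x ≠ 0)
    (hS : ∀ ℓ : ℕ, ℓ.Prime → (ℓ : ℤ) ∣ a * b * c → ℓ ∈ P) (hs : Su P s) (ht : Free P t')
    (ht0 : 0 < t') (hm : 0 < m) (hn : 0 < n) (heq : a * x ^ n = b * ((s * t' : ℕ) : ℤ) ^ m + c) :
    ∃ X : ℕ, 0 < X ∧ X ∣ x.natAbs ∧ Free P X ∧ EqC P t' n (X : ℤ) := by
  obtain ⟨e, X, he, hX, hX0, heX⟩ := split_su hP x.natAbs (Int.natAbs_pos.mpr hx)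
  refine ⟨X, hX0, ⟨e, by rw [← heX, mul_comm]⟩, hX, ?_⟩
  obtain ⟨σ, hσ, hxσ⟩ := sgn_natAbs x
  have hPs : ∀ (f : ℤ), f ≠ 0 → (∀ ℓ : ℕ, ℓ.Prime → (ℓ : ℤ) ∣ f → ℓ ∈ P) → Su P f.natAbs :=
    fun f hf h => ⟨Int.natAbs_ne_zero.mpr hf, fun l hl hd => h l hl (Int.natCast_dvd.mpr hd)⟩
  have hSc : ∀ ℓ : ℕ, ℓ.Prime → (ℓ : ℤ) ∣ c → ℓ ∈ P := fun ℓ hℓ h => hS ℓ hℓ (h.mul_left (a * b))
  have hSb : ∀ ℓ : ℕ, ℓ.Prime → (ℓ : ℤ) ∣ b → ℓ ∈ P := fun ℓ hℓ h =>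
    hS ℓ hℓ ((h.mul_left a).mul_right c)
  have hSa : ∀ ℓ : ℕ, ℓ.Prime → (ℓ : ℤ) ∣ a → ℓ ∈ P := fun ℓ hℓ h =>
    hS ℓ hℓ ((h.mul_right b).mul_right c)
  -- the coefficients before the division
  obtain ⟨w₁, hw₁⟩ : ∃ w₁, w₁ = a * (σ * e) ^ n := ⟨_, rfl⟩
  obtain ⟨v₁, hv₁⟩ : ∃ v₁, v₁ = b * (s : ℤ) ^ m := ⟨_, rfl⟩
  have hσ0 : σ ≠ 0 := by rcases hσ with rfl | rfl <;> norm_num
  have he0 : (e : ℤ) ≠ 0 := by exact_mod_cast he.1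
  have hs0 : (s : ℤ) ≠ 0 := by exact_mod_cast hs.1
  have hw0 : w₁ ≠ 0 := by rw [hw₁]; exact mul_ne_zero ha (pow_ne_zero _ (mul_ne_zero hσ0 he0))
  have hv0 : v₁ ≠ 0 := by rw [hv₁]; exact mul_ne_zero hb (pow_ne_zero _ hs0)
  have hSw : ∀ ℓ : ℕ, ℓ.Prime → (ℓ : ℤ) ∣ w₁ → ℓ ∈ P := by
    intro ℓ hℓ h
    rw [hw₁] at h
    have hi := Nat.prime_iff_prime_int.mp hℓ
    rcases hi.dvd_or_dvd h with h1 | h1
    · exact hSa ℓ hℓ h1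
    · rcases hi.dvd_or_dvd (hi.dvd_of_dvd_pow h1) with h2 | h2
      · exfalso
        apply hi.not_isUnit
        rcases hσ with rfl | rfl
        · exact isUnit_of_dvd_one h2
        · exact isUnit_of_dvd_one ((dvd_neg).mp h2)
      · exact he.2 ℓ hℓ (by exact_mod_cast h2)
  have hSv : ∀ ℓ : ℕ, ℓ.Prime → (ℓ : ℤ) ∣ v₁ → ℓ ∈ P := by
    intro ℓ hℓ h
    rw [hv₁] at h
    have hi := Nat.prime_iff_prime_int.mp hℓ
    rcases hi.dvd_or_dvd h with h1 | h1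
    · exact hSb ℓ hℓ h1
    · exact hs.2 ℓ hℓ (by exact_mod_cast hi.dvd_of_dvd_pow h1)
  have heq₁ : c + v₁ * (t' : ℤ) ^ m = w₁ * (X : ℤ) ^ n := by
    have h1 : x = σ * e * X := by
      rw [hxσ, ← heX]; push_cast; ring
    rw [h1] at heq
    rw [hv₁, hw₁]
    push_cast at heq
    linear_combination -heq
  -- the common divisor
  obtain ⟨g, hg⟩ : ∃ g, g = Int.gcd (v₁ * (t' : ℤ) ^ m) (w₁ * (X : ℤ) ^ n) := ⟨_, rfl⟩
  have hgv : (g : ℤ) ∣ v₁ * (t' : ℤ) ^ m := by rw [hg]; exact Int.gcd_dvd_left _ _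
  have hgw : (g : ℤ) ∣ w₁ * (X : ℤ) ^ n := by rw [hg]; exact Int.gcd_dvd_right _ _
  have hgc : (g : ℤ) ∣ c := by
    have h1 : c = w₁ * (X : ℤ) ^ n - v₁ * (t' : ℤ) ^ m := by rw [← heq₁]; ring
    rw [h1]
    exact dvd_sub hgw hgv
  have hg0 : g ≠ 0 := by
    rintro rfl
    apply hc
    exact zero_dvd_iff.mp (by exact_mod_cast hgc)
  have hgSu : Su P g := ⟨hg0, fun l hl hd => hSc l hl ((Int.natCast_dvd_natCast.mpr hd).trans hgc)⟩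
  have hcop : ∀ {f : ℤ} {k : ℕ} (j : ℕ), Free P k → (g : ℤ) ∣ f * (k : ℤ) ^ j → (g : ℤ) ∣ f := by
    intro f k j hk h
    have h1 : IsCoprime (g : ℤ) ((k : ℤ) ^ j) :=
      (Nat.isCoprime_iff_coprime.mpr (cop_su_free hgSu hk)).pow_right
    exact h1.dvd_of_dvd_mul_right h
  obtain ⟨u, hu⟩ := hgc
  obtain ⟨v, hv⟩ := hcop m ht hgv
  obtain ⟨w, hw⟩ := hcop n hX hgw
  have hgZ : (g : ℤ) ≠ 0 := by exact_mod_cast hg0
  have hfin : u + v * (t' : ℤ) ^ m = w * (X : ℤ) ^ n := by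
    apply mul_left_cancel₀ hgZ
    have h1 : (g : ℤ) * (u + v * (t' : ℤ) ^ m) = (g * u) + (g * v) * (t' : ℤ) ^ m := by ring
    rw [h1, ← hu, ← hv, heq₁, hw]
    ring
  refine ⟨u, v, w, m, hm, hn, hPs u ?_ ?_, hPs v ?_ ?_, hPs w ?_ ?_, by exact_mod_cast hX0.ne', ?_,
    hfin⟩
  · rintro rfl; exact hc (by rw [hu, mul_zero])
  · exact fun ℓ hℓ h => hSc ℓ hℓ (by rw [hu]; exact h.mul_left _)
  · rintro rfl; exact hv0 (by rw [hv, mul_zero])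
  · exact fun ℓ hℓ h => hSv ℓ hℓ (by rw [hv]; exact h.mul_left _)
  · rintro rfl; exact hw0 (by rw [hw, mul_zero])
  · exact fun ℓ hℓ h => hSw ℓ hℓ (by rw [hw]; exact h.mul_left _)
  · rw [gcd3_iff]
    intro ℓ hℓ h1 h2 h3
    have h4 : (ℓ : ℤ) ∣ v * (t' : ℤ) ^ m := h2.trans (mul_dvd_mul_left v (dvd_pow_self _ hm.ne'))
    have h5 : (ℓ : ℤ) ∣ w * (X : ℤ) ^ n := h3.trans (mul_dvd_mul_left w (dvd_pow_self _ hn.ne'))
    have h6 : ((g * ℓ : ℕ) : ℤ) ∣ v₁ * (t' : ℤ) ^ m := by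
      rw [hv, mul_assoc]; push_cast; exact mul_dvd_mul_left _ h4
    have h7 : ((g * ℓ : ℕ) : ℤ) ∣ w₁ * (X : ℤ) ^ n := by
      rw [hw, mul_assoc]; push_cast; exact mul_dvd_mul_left _ h5
    have h8 := Int.dvd_coe_gcd h6 h7
    rw [← hg] at h8
    have h9 : g * ℓ ∣ g := Int.natCast_dvd_natCast.mp h8
    have h10 := Nat.le_of_dvd (Nat.pos_of_ne_zero hg0) h9
    have h11 := hℓ.two_le
    have h12 := Nat.pos_of_ne_zero hg0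
    nlinarith

theorem pil_core (P : Finset ℕ) : ∃ C d : ℕ,
    ∀ (a b c x : ℤ) (T t t' X p₁ m n : ℕ), 1 ≤ T → (∀ ℓ ∈ P, ℓ ≤ T) → 0 < m → 2 ≤ n →
    a ≠ 0 → b ≠ 0 → c ≠ 0 → a.natAbs ≤ 2 ^ T → b.natAbs ≤ 2 ^ T → c.natAbs ≤ 2 ^ T →
    (∀ ℓ : ℕ, ℓ.Prime → (ℓ : ℤ) ∣ a * b * c → ℓ ∈ P) →
    0 < t → t ≤ 2 ^ T → t' ≤ t → 0 < t' → p₁.Prime → p₁ ≤ T → p₁ ∣ t → p₁ ∣ t' → p₁ ∉ P →
    2 ≤ X → X ∣ x.natAbs → x ≠ 0 → Free P X → EqC P t' n (X : ℤ) →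
    a * x ^ n = b * (t : ℤ) ^ m + c → n.minFac ≤ C * T ^ d ∨ X ≤ 2 ^ (C * T ^ d) := by
  obtain ⟨C₁, κ₁, H₁⟩ := third_exp_unit P
  obtain ⟨C₂, hC₂⟩ : ∃ C₂, C₂ = Nat.log 2 (C₁ + 3) + 1 + κ₁ := ⟨_, rfl⟩
  obtain ⟨B₁, hB₁⟩ : ∃ B₁, B₁ = 64 * ((1800 : ℕ) ^ 2) ^ 2 := ⟨_, rfl⟩
  obtain ⟨B₂, hB₂⟩ : ∃ B₂, B₂ = (64 * (8 * (3600000 * 2)) ^ 2) ^ 2 := ⟨_, rfl⟩
  obtain ⟨B₃, hB₃⟩ : ∃ B₃, B₃ = 64 * (30000000 * 2 * C₂ ^ 2) ^ 2 := ⟨_, rfl⟩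
  refine ⟨B₁ + B₂ + B₃, 16, ?_⟩
  intro a b c x T t t' X p₁ m n hT hPT hm hn ha hb hc haT hbT hcT hS ht0 htT htt ht'0 hp₁ hp₁T hp₁t
    hp₁t' hp₁P hX2 hXx hx0 hX hE heq
  have wrap : ∀ {B j : ℕ}, B ≤ B₁ + B₂ + B₃ → j ≤ 16 → B * T ^ j ≤ (B₁ + B₂ + B₃) * T ^ 16 :=
    fun h1 h2 => Nat.mul_le_mul h1 (Nat.pow_le_pow_right hT h2)
  obtain ⟨q₀, hq₀⟩ : ∃ q₀, q₀ = n.minFac := ⟨_, rfl⟩
  rw [← hq₀]
  have hq₀p : q₀.Prime := by rw [hq₀]; exact Nat.minFac_prime (by omega)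
  have hq₀r : q₀ ≤ n := by rw [hq₀]; exact Nat.minFac_le (by omega)
  obtain ⟨k, hk⟩ : ∃ k, n = q₀ * k := by rw [hq₀]; exact Nat.minFac_dvd n
  have hk0 : 0 < k := Nat.pos_of_ne_zero fun h => by rw [h] at hk; omega
  have hxn : 0 < x.natAbs := Int.natAbs_pos.mpr hx0
  have han : 0 < a.natAbs := Int.natAbs_pos.mpr ha
  have hcn : 0 < c.natAbs := Int.natAbs_pos.mpr hc
  have hXle : X ≤ x.natAbs := Nat.le_of_dvd hxn hXx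
  obtain ⟨r₀, hr₀p, hr₀X⟩ := Nat.exists_prime_and_dvd (show X ≠ 1 by omega)
  have hr₀a : ¬ r₀ ∣ a.natAbs := fun h => hX r₀
    (hS r₀ hr₀p (((Int.natCast_dvd.mpr h).mul_right b).mul_right c)) hr₀X
  obtain ⟨U, hU⟩ : ∃ U, U = x.natAbs ^ k := ⟨_, rfl⟩
  have hXU : X ≤ U := by rw [hU]; exact hXle.trans (Nat.le_self_pow hk0.ne' _)
  obtain ⟨σ₁, hσ₁, e1⟩ := sgn_of_natAbs (t := a * x ^ n) (n := a.natAbs * U ^ q₀) (by
    rw [Int.natAbs_mul, Int.natAbs_pow, hU, hk, ← pow_mul, mul_comm k])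
  obtain ⟨σ₂, hσ₂, e2⟩ := sgn_of_natAbs (t := c) (n := c.natAbs) rfl
  have hσσ : σ₁ * σ₁ = 1 := by rcases hσ₁ with rfl | rfl <;> norm_num
  have hs : σ₁ * σ₂ = 1 ∨ σ₁ * σ₂ = -1 := by
    rcases hσ₁ with rfl | rfl <;> rcases hσ₂ with rfl | rfl <;> norm_num
  obtain ⟨ν, hν⟩ : ∃ ν, ν = 2 * T + 1 := ⟨_, rfl⟩
  have hν1 : 1 ≤ ν := by omega
  have hbt : (b * (t : ℤ) ^ m).natAbs ≤ 2 ^ (2 * T * m) := by
    rw [Int.natAbs_mul, Int.natAbs_pow, Int.natAbs_natCast]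
    calc b.natAbs * t ^ m ≤ 2 ^ T * (2 ^ T) ^ m := Nat.mul_le_mul hbT (Nat.pow_le_pow_left htT _)
      _ = 2 ^ (T + T * m) := by rw [← pow_mul, ← pow_add]
      _ ≤ _ := Nat.pow_le_pow_right (by norm_num) (by nlinarith)
  have hTm : T ≤ 2 * T * m := by nlinarith
  have hcZ : c.natAbs ≤ 2 ^ (2 * T * m) := hcT.trans (Nat.pow_le_pow_right (by norm_num) hTm)
  have hZ₁ : a.natAbs * U ^ q₀ ≤ 2 ^ (ν * m + 1) := by
    have h1 : (a * x ^ n).natAbs = a.natAbs * U ^ q₀ := by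
      rw [Int.natAbs_mul, Int.natAbs_pow, hU, hk, ← pow_mul, mul_comm k]
    rw [← h1, heq]
    have h2 := Int.natAbs_add_le (b * (t : ℤ) ^ m) c
    have h3 : 2 ^ (2 * T * m + 1) ≤ 2 ^ (ν * m + 1) :=
      Nat.pow_le_pow_right (by norm_num) (by rw [hν]; nlinarith)
    have h4 : 2 ^ (2 * T * m + 1) = 2 ^ (2 * T * m) + 2 ^ (2 * T * m) := by ring
    omega
  have hZ₂ : c.natAbs * 1 ^ 0 ≤ 2 ^ (ν * m + 1) := by
    rw [one_pow, mul_one]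
    exact hcZ.trans (Nat.pow_le_pow_right (by norm_num) (by rw [hν]; nlinarith))
  have hrel : (p₁ : ℤ) ^ m ∣ ((a.natAbs : ℕ) : ℤ) * (U : ℤ) ^ q₀ -
      σ₁ * σ₂ * (((c.natAbs : ℕ) : ℤ) * ((1 : ℕ) : ℤ) ^ 0) := by
    have h1 : (p₁ : ℤ) ^ m ∣ b * (t : ℤ) ^ m :=
      (pow_dvd_pow_of_dvd (Int.natCast_dvd_natCast.mpr hp₁t) m).mul_left _
    have h2 : ((a.natAbs : ℕ) : ℤ) * (U : ℤ) ^ q₀ -
        σ₁ * σ₂ * (((c.natAbs : ℕ) : ℤ) * ((1 : ℕ) : ℤ) ^ 0) = σ₁ * (b * (t : ℤ) ^ m) := by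
      have e0 : b * (t : ℤ) ^ m = a * x ^ n - c := by rw [heq]; ring
      rw [Nat.cast_mul, Nat.cast_pow] at e1
      have e3 : b * (t : ℤ) ^ m = σ₁ * (((a.natAbs : ℕ) : ℤ) * (U : ℤ) ^ q₀) -
          σ₂ * ((c.natAbs : ℕ) : ℤ) := by
        rw [← e1, ← e2]; exact e0
      rw [e3, pow_zero, mul_one]
      linear_combination (-(((a.natAbs : ℕ) : ℤ) * (U : ℤ) ^ q₀)) * hσσ
    rw [h2]
    exact h1.mul_left _
  have hp₁a : ¬ p₁ ∣ a.natAbs := fun h =>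
    hp₁P (hS p₁ hp₁ (((Int.natCast_dvd.mpr h).mul_right b).mul_right c))
  have hp₁c : ¬ p₁ ∣ c.natAbs := fun h => hp₁P (hS p₁ hp₁ ((Int.natCast_dvd.mpr h).mul_left (a * b)))
  have hp₁x : ¬ p₁ ∣ x.natAbs := by
    intro h
    apply hp₁c
    rw [← Int.natCast_dvd]
    have h1 : c = a * x ^ n - b * (t : ℤ) ^ m := by rw [heq]; ring
    rw [h1]
    exact dvd_sub (((Int.natCast_dvd.mpr h).trans (dvd_pow_self _ (by omega))).mul_left _)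
      (((Int.natCast_dvd_natCast.mpr hp₁t).trans (dvd_pow_self _ hm.ne')).mul_left _)
  obtain ⟨σ, hσ⟩ : ∃ σ, σ = Nat.sqrt q₀ := ⟨_, rfl⟩
  have hσ2 : σ ^ 2 ≤ q₀ := by rw [hσ]; exact Nat.sqrt_le' q₀
  obtain ⟨L, hL⟩ : ∃ L, L = Nat.log 2 q₀ + 1 := ⟨_, rfl⟩
  by_cases hbig : 600 * p₁ * (3 * (Nat.sqrt q₀ * T)) * (Nat.log 2 q₀ + 1) ≤ q₀
  swap
  · left
    rw [not_le, ← hσ] at hbig
    have h1 := solve_a hσ2 hq₀p.one_lt.le hp₁T hbig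
    refine h1.trans (le_trans (le_of_eq ?_) (wrap (B := B₁) (j := 8) (by omega) (by omega)))
    rw [hB₁]
    ring
  have hcore := core2 (q := q₀) (u := 1) (K₁ := c.natAbs) (K₂ := a.natAbs) (U := U) (x := 0)
    (E := m) (p := p₁) (T := T) (Z := ν * m + 1) (R := T) (r₀ := r₀) hs hq₀p hp₁ hp₁T hT one_pos hcn
    han (by omega) Nat.one_le_two_pow hcT haT
    (by rw [hU]; exact fun h => hp₁x (hp₁.dvd_of_dvd_pow h))
    hp₁.not_dvd_one hp₁c hp₁a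
    hr₀p (by rw [hU]; exact (hr₀X.trans hXx).trans (dvd_pow_self _ hk0.ne')) hr₀p.not_dvd_one hr₀a
    hrel hZ₁ hZ₂ hbig
  rw [← hσ, ← hL] at hcore
  have hν3 : ν ≤ 2 * 2 * T := by omega
  rcases solve_b hσ2 hν1 hm hcore with h1 | h1
  · left
    have h2 : Nat.sqrt q₀ ≤ 3600000 * 2 * T ^ 4 * (Nat.log 2 q₀ + 1) ^ 2 := by
      rw [← hσ, ← hL]
      refine h1.trans (Nat.mul_le_mul_right _ ?_)
      calc 1800000 * T ^ 3 * ν ≤ 1800000 * T ^ 3 * (2 * 2 * T) := Nat.mul_le_mul_left _ hν3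
        _ = _ := by ring
    have h3 := solve_b1 hq₀p.one_lt.le h2
    refine h3.trans (le_trans (le_of_eq ?_) (wrap (B := B₂) (j := 16) (by omega) (by omega)))
    rw [hB₂]
    ring
  · right
    obtain ⟨M, hM⟩ : ∃ M, M = 21600000 * 2 * T ^ 5 := ⟨_, rfl⟩
    have h2 : ν * m + 1 ≤ M * L ^ 2 * q₀ := by
      have h3 : 2 * ν * m ≤ 2 * (2 * 2 * T) * (5400000 * T ^ 4 * L ^ 2 * q₀) :=
        Nat.mul_le_mul (Nat.mul_le_mul_left _ hν3) h1.le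
      have h4 : 2 * (2 * 2 * T) * (5400000 * T ^ 4 * L ^ 2 * q₀) = M * L ^ 2 * q₀ := by
        rw [hM]; ring
      rw [h4] at h3
      have h5 : 1 ≤ ν * m := Nat.mul_pos hν1 hm
      have h6 : 2 * ν * m = ν * m + ν * m := by ring
      omega
    have hzM : X ≤ 2 ^ (M * L ^ 2) := by
      have h3 : X ^ q₀ ≤ (2 ^ (M * L ^ 2)) ^ q₀ := by
        calc X ^ q₀ ≤ U ^ q₀ := Nat.pow_le_pow_left hXU _
          _ ≤ a.natAbs * U ^ q₀ := Nat.le_mul_of_pos_left _ han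
          _ ≤ 2 ^ (ν * m + 1) := hZ₁
          _ ≤ 2 ^ (M * L ^ 2 * q₀) := Nat.pow_le_pow_right (by norm_num) h2
          _ = _ := by rw [pow_mul]
      exact (Nat.pow_le_pow_iff_left hq₀p.pos.ne').mp h3
    obtain ⟨μ, hμ⟩ : ∃ μ, μ = Nat.log 2 X + 1 := ⟨_, rfl⟩
    have hzm : X ≤ 2 ^ μ := by
      rw [hμ]; exact (Nat.lt_pow_succ_log_self (by norm_num) _).le
    have hmM : μ ≤ M * L ^ 2 + 1 := by
      have h3 := Nat.log_mono_right (b := 2) hzM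
      rw [Nat.log_pow (by norm_num)] at h3
      omega
    obtain ⟨T', hT'⟩ : ∃ T', T' = T + μ := ⟨_, rfl⟩
    have hTT' : T ≤ T' := by omega
    have h2T : 2 ^ T ≤ 2 ^ T' := Nat.pow_le_pow_right (by norm_num) hTT'
    obtain ⟨u', v', w', y', hy', -, hu', hv', hw', hX0', hg', he'⟩ := hE
    obtain ⟨k', hk2, hk', hkk⟩ := H₁ u' v' w' (t' : ℤ) (X : ℤ) T' y' n (by omega)
      (fun l hl => (hPT l hl).trans hTT') hy' hn hu' hv' hw' hg' he'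
      (by rw [Int.natAbs_natCast]; exact (htt.trans htT).trans h2T)
      (by rw [Int.natAbs_natCast]; exact hzm.trans (Nat.pow_le_pow_right (by norm_num) (by omega)))
      (by exact_mod_cast ht'0.ne') hX0'
      ⟨p₁, hp₁, hp₁T.trans hTT', by rw [Int.natAbs_natCast]; exact hp₁t'⟩
    have hkr : k' = n := by
      have h3 : X ^ k' = X ^ n := by exact_mod_cast hkk
      exact Nat.pow_right_injective hX2 h3
    obtain ⟨l', hl'⟩ : ∃ l', l' = Nat.log 2 T' + 1 := ⟨_, rfl⟩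
    have hqC : q₀ < 2 ^ (C₂ * l') := by
      have h3 : q₀ ≤ (C₁ + 3) * T' ^ κ₁ := by
        have h4 : 1 ≤ T' ^ κ₁ := Nat.one_le_pow _ _ (by omega)
        have h5 : (C₁ + 3) * T' ^ κ₁ = C₁ * T' ^ κ₁ + 3 * T' ^ κ₁ := by ring
        omega
      have h4 : T' ^ κ₁ ≤ 2 ^ (κ₁ * l') := by
        calc T' ^ κ₁ ≤ (2 ^ l') ^ κ₁ := Nat.pow_le_pow_left (by
              rw [hl']; exact (Nat.lt_pow_succ_log_self (by norm_num) _).le) _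
          _ = _ := by rw [← pow_mul, mul_comm]
      have h5 : C₁ + 3 < 2 ^ (Nat.log 2 (C₁ + 3) + 1) := Nat.lt_pow_succ_log_self (by norm_num) _
      calc q₀ ≤ (C₁ + 3) * T' ^ κ₁ := h3
        _ ≤ (C₁ + 3) * 2 ^ (κ₁ * l') := Nat.mul_le_mul_left _ h4
        _ < 2 ^ (Nat.log 2 (C₁ + 3) + 1) * 2 ^ (κ₁ * l') :=
          Nat.mul_lt_mul_of_pos_right h5 (by positivity)
        _ = 2 ^ (Nat.log 2 (C₁ + 3) + 1 + κ₁ * l') := by rw [← pow_add]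
        _ ≤ _ := by
          apply Nat.pow_le_pow_right (by norm_num)
          rw [hC₂]
          have h6 : 1 ≤ l' := by rw [hl']; exact Nat.succ_pos _
          have h7 : Nat.log 2 (C₁ + 3) + 1 ≤ (Nat.log 2 (C₁ + 3) + 1) * l' :=
            Nat.le_mul_of_pos_right _ h6
          have h8 : (Nat.log 2 (C₁ + 3) + 1 + κ₁) * l' =
              (Nat.log 2 (C₁ + 3) + 1) * l' + κ₁ * l' := by ring
          rw [h8]
          exact Nat.add_le_add_right h7 _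
    have hLC : L ≤ C₂ * l' := by
      rw [hL]
      exact Nat.log_lt_of_lt_pow (by have := hq₀p.pos; omega) hqC
    have hL1 : 1 ≤ L := by omega
    have hT5 : 1 ≤ T ^ 5 := Nat.one_le_pow _ _ hT
    have hT15 : T ≤ T ^ 5 := Nat.le_self_pow (by norm_num) _
    have hfin : T' ≤ 30000000 * 2 * T ^ 5 * C₂ ^ 2 * (Nat.log 2 T' + 1) ^ 2 := by
      rw [← hl']
      have h3 : T' ≤ 30000000 * 2 * T ^ 5 * L ^ 2 := by
        have h5 : 1 ≤ L ^ 2 := Nat.one_le_pow _ _ hL1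
        have h6 : T ^ 5 ≤ T ^ 5 * L ^ 2 := Nat.le_mul_of_pos_right _ h5
        have h7 : M * L ^ 2 = 43200000 * (T ^ 5 * L ^ 2) := by rw [hM]; ring
        have h8 : 30000000 * 2 * T ^ 5 * L ^ 2 = 60000000 * (T ^ 5 * L ^ 2) := by ring
        omega
      calc T' ≤ 30000000 * 2 * T ^ 5 * L ^ 2 := h3
        _ ≤ 30000000 * 2 * T ^ 5 * (C₂ * l') ^ 2 := Nat.mul_le_mul_left _ (Nat.pow_le_pow_left hLC 2)
        _ = _ := by ring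
    have h3 := q_solve (by omega) hfin
    refine hzm.trans (Nat.pow_le_pow_right (by norm_num) ((by omega : μ ≤ T').trans (h3.trans ?_)))
    refine le_trans (le_of_eq ?_) (wrap (B := B₃) (j := 10) (by omega) (by omega))
    rw [hB₃]
    ring

end Pool.Agent.TH888.G
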