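import Mathlib
import Pool.Agent.TH888.G.Pil
import Pool.Agent.TH888.B1.FreeMain

/-!
`a x ^ n = b t ^ m + c` with fixed `a`, `b`, `c` has no solution for almost all `t`.
-/

set_option autoImplicit false

namespace Pool.Agent.TH888.G

open Finset Filter Topology
open Pool.Agent.TH888.W2 (Su)

theorem pil_count_s (P : Finset ℕ) (hP : ∀ ℓ ∈ P, ℓ.Prime) (a b c : ℤ) (ha : a ≠ 0) (hb : b ≠ 0)
    (hc : c ≠ 0) (hS : ∀ ℓ : ℕ, ℓ.Prime → (ℓ : ℤ) ∣ a * b * c → ℓ ∈ P) (s : ℕ) (ε δ : ℝ)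
    (hε : 0 < ε) (hδ : 0 < δ) (hδ1 : δ ≤ 1) : ∃ L : ℕ, ∀ Y : ℕ, L ≤ Y → ∀ b₀ : ℕ,
    (b₀ : ℝ) ≤ (Y : ℝ) ^ (2 - δ) →
      (({t : ℕ | t ∈ Set.Ioc b₀ (b₀ + Y) ∧ Su P s ∧ Free P t ∧ ∃ (x : ℤ) (m n : ℕ), x ≠ 0 ∧ 0 < m ∧
        2 ≤ n ∧ a * x ^ n = b * ((s * t : ℕ) : ℤ) ^ m + c}.ncard : ℕ) : ℝ) ≤ ε * Y := by
  classical
  obtain ⟨cc, hcc⟩ : ∃ cc : ℝ, cc = 1 / (2 * (P.card : ℝ) + 3) := ⟨_, rfl⟩
  have hcc0 : 0 < cc := by rw [hcc]; positivity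
  have hcc1 : cc * (2 * P.card + 2) < 1 := by
    rw [hcc, div_mul_eq_mul_div, one_mul, div_lt_one (by positivity)]
    linarith
  obtain ⟨c₂, hc₂, hmain⟩ := gamma2 P hcc0 hcc1
  rw [Finset.filter_true_of_mem hP] at hmain
  obtain ⟨K, d, H⟩ := pil_core P
  obtain ⟨η, hη⟩ : ∃ η, η = min cc c₂ := ⟨_, rfl⟩
  have hη0 : 0 < η := by rw [hη]; exact lt_min hcc0 hc₂
  obtain ⟨F, hF, L₁, hL₁⟩ := kind_two' Nat.prime_two P (ε / 2) (by positivity)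
  obtain ⟨L₂, hL₂⟩ := hmain (ε / 2) δ (by positivity) hδ hδ1
  obtain ⟨c₀, hc₀⟩ : ∃ c₀, c₀ = 4 + s + F.sup id + P.sup id + a.natAbs + b.natAbs + c.natAbs :=
    ⟨_, rfl⟩
  obtain ⟨L₃, hL₃⟩ := Pool.Agent.TH888.B1.polylog_rpow (K * c₀ ^ d) d η hη0
  refine ⟨L₁ + L₂ + L₃ + 2, fun Y hY b₀ hb₀ => ?_⟩
  have k1 := hL₂ Y (by omega) b₀ hb₀
  have k2 := hL₁ Y (by omega) b₀
  have k3 := hL₃ Y (by omega)
  obtain ⟨T, hT⟩ : ∃ T, T = c₀ * (Nat.log 2 Y + 1) := ⟨_, rfl⟩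
  have hc₀T : c₀ ≤ T := by rw [hT]; exact Nat.le_mul_of_pos_right _ (by omega)
  have hT1 : 1 ≤ T := by omega
  have hY1R : (1 : ℝ) ≤ Y := by exact_mod_cast (by omega : 1 ≤ Y)
  have hKT : ((K * T ^ d : ℕ) : ℝ) ≤ (Y : ℝ) ^ η := by
    refine le_trans (le_of_eq ?_) k3
    rw [hT, mul_pow]
    push_cast
    ring
  have hb2 : b₀ ≤ Y ^ 2 := by
    have : (b₀ : ℝ) ≤ (Y : ℝ) ^ 2 := by
      calc (b₀ : ℝ) ≤ (Y : ℝ) ^ (2 - δ) := hb₀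
        _ ≤ (Y : ℝ) ^ (2 : ℝ) := Real.rpow_le_rpow_of_exponent_le hY1R (by linarith)
        _ = _ := by rw [← Real.rpow_natCast]; norm_num
    exact_mod_cast this
  have hside : ∀ {t : ℕ}, t ≤ b₀ + Y → s * t ≤ 2 ^ T := by
    intro t ht
    have h2 : t ≤ Y ^ 3 := by
      have h4 : Y ^ 2 + Y ≤ Y ^ 3 := by
        have : 2 ≤ Y := by omega
        nlinarith [mul_self_nonneg Y]
      omega
    have h3 : Y ^ 3 ≤ 2 ^ (3 * (Nat.log 2 Y + 1)) := by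
      calc Y ^ 3 ≤ (2 ^ (Nat.log 2 Y + 1)) ^ 3 :=
            Nat.pow_le_pow_left (Nat.lt_pow_succ_log_self (by norm_num) Y).le _
        _ = _ := by rw [← pow_mul, mul_comm]
    calc s * t ≤ 2 ^ s * 2 ^ (3 * (Nat.log 2 Y + 1)) :=
          Nat.mul_le_mul Nat.lt_two_pow_self.le (h2.trans h3)
      _ = 2 ^ (s + 3 * (Nat.log 2 Y + 1)) := by rw [← pow_add]
      _ ≤ 2 ^ T := by
        apply Nat.pow_le_pow_right (by norm_num)
        have h5 : (3 + s) * (Nat.log 2 Y + 1) ≤ T := by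
          rw [hT]; exact Nat.mul_le_mul_right _ (by omega)
        have h6 : s ≤ s * (Nat.log 2 Y + 1) := Nat.le_mul_of_pos_right _ (by omega)
        have h7 : (3 + s) * (Nat.log 2 Y + 1) = 3 * (Nat.log 2 Y + 1) + s * (Nat.log 2 Y + 1) := by
          ring
        omega
  have hPT : ∀ q ∈ P, q ≤ T := by
    intro q hq
    have := Finset.le_sup (f := id) hq
    simp only [id] at this
    omega
  have hFT : ∀ r ∈ F, r ≤ T := by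
    intro r hr
    have := Finset.le_sup (f := id) hr
    simp only [id] at this
    omega
  have hcoef : ∀ {f : ℤ}, f.natAbs ≤ c₀ → f.natAbs ≤ 2 ^ T := fun h =>
    (h.trans hc₀T).trans Nat.lt_two_pow_self.le
  obtain ⟨D, hD⟩ : ∃ D : Set ℕ, D = {n : ℕ | ∀ r ∈ F, ¬ r ∣ n} := ⟨_, rfl⟩
  rw [← hD] at k2
  have hsub : {t : ℕ | t ∈ Set.Ioc b₀ (b₀ + Y) ∧ Su P s ∧ Free P t ∧ ∃ (x : ℤ) (m n : ℕ), x ≠ 0 ∧
        0 < m ∧ 2 ≤ n ∧ a * x ^ n = b * ((s * t : ℕ) : ℤ) ^ m + c} ⊆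
      {B : ℕ | B ∈ Set.Ioc b₀ (b₀ + Y) ∧ ∃ (z : ℕ) (C : ℤ), (MultW ((Y : ℝ) ^ cc) z ∨
        (2 ≤ z ∧ |(C : ℝ)| ≤ Real.exp ((Y : ℝ) ^ c₂))) ∧ EqC P B z C} ∪
        (D ∩ Set.Ioc b₀ (b₀ + Y)) := by
    rintro t ⟨ht, hs, hfree, x, m, n, hx, hm, hn, heq⟩
    by_cases hDt : t ∈ D
    · exact Or.inr ⟨hDt, ht⟩
    left
    rw [hD] at hDt
    simp only [Set.mem_ofPred_eq, not_forall, not_not] at hDt
    obtain ⟨r, hr, hrt⟩ := hDt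
    obtain ⟨hrp, hrP, -⟩ := hF r hr
    have ht0 : 0 < t := by have := ht.1; omega
    obtain ⟨X, hX0, hXx, hXf, hE⟩ := pil_red hP ha hb hc hx hS hs hfree ht0 hm (by omega) heq
    refine ⟨ht, n, (X : ℤ), ?_, hE⟩
    rcases Nat.lt_or_ge X 2 with hX2 | hX2
    · right
      refine ⟨hn, ?_⟩
      have h1 : X = 1 := by omega
      rw [h1]
      push_cast
      rw [abs_one]
      exact Real.one_le_exp (Real.rpow_nonneg (Nat.cast_nonneg _) _)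
    · have hs0 : 0 < s := Nat.pos_of_ne_zero hs.1
      rcases H a b c x T (s * t) t X r m n hT1 hPT hm hn ha hb hc (hcoef (by omega))
        (hcoef (by omega)) (hcoef (by omega)) hS (Nat.mul_pos hs0 ht0) (hside ht.2)
        (Nat.le_mul_of_pos_left _ hs0) ht0 hrp (hFT r hr) (hrt.mul_left _) hrt hrP hX2 hXx hx hXf hE
        heq with h1 | h1
      · left
        refine ⟨n.minFac, (Nat.minFac_prime (by omega)).two_le, ?_, Nat.minFac_dvd n⟩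
        refine le_trans (by exact_mod_cast h1) (hKT.trans ?_)
        exact Real.rpow_le_rpow_of_exponent_le hY1R (by rw [hη]; exact min_le_left _ _)
      · right
        refine ⟨hn, ?_⟩
        have h2 : ((2 ^ (K * T ^ d) : ℕ) : ℝ) ≤ Real.exp ((K * T ^ d : ℕ) : ℝ) := by
          rw [Nat.cast_pow, ← Real.exp_one_pow]
          apply pow_le_pow_left₀ (by norm_num)
          have := Real.add_one_le_exp (1 : ℝ)
          push_cast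
          linarith
        have h3 : |((X : ℤ) : ℝ)| ≤ ((2 ^ (K * T ^ d) : ℕ) : ℝ) := by
          rw [Int.cast_natCast, abs_of_nonneg (Nat.cast_nonneg _)]
          exact_mod_cast h1
        exact h3.trans (h2.trans (Real.exp_le_exp.mpr (hKT.trans
          (Real.rpow_le_rpow_of_exponent_le hY1R (by rw [hη]; exact min_le_right _ _)))))
  have hf1 : {B : ℕ | B ∈ Set.Ioc b₀ (b₀ + Y) ∧ ∃ (z : ℕ) (C : ℤ), (MultW ((Y : ℝ) ^ cc) z ∨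
        (2 ≤ z ∧ |(C : ℝ)| ≤ Real.exp ((Y : ℝ) ^ c₂))) ∧ EqC P B z C}.Finite :=
    (Set.finite_Ioc b₀ (b₀ + Y)).subset fun B hB => hB.1
  have hf2 : (D ∩ Set.Ioc b₀ (b₀ + Y)).Finite := (Set.finite_Ioc _ _).subset Set.inter_subset_right
  have h1 := (Set.ncard_le_ncard hsub (hf1.union hf2)).trans (Set.ncard_union_le _ _)
  calc _ ≤ _ := Nat.cast_le.mpr h1
    _ ≤ ε / 2 * Y + ε / 2 * Y := by
      push_cast
      exact add_le_add k1 k2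
    _ = ε * Y := by ring

theorem add_div_le {B Y q : ℕ} (hq : 0 < q) : (B + Y) / q ≤ B / q + (Y / q + 1) := by
  have h1 := Nat.div_add_mod B q
  have h2 := Nat.mod_lt B hq
  have h3 := Nat.div_add_mod Y q
  have h4 := Nat.mod_lt Y hq
  have h5 : (B + Y) / q < B / q + Y / q + 2 := by
    apply Nat.div_lt_of_lt_mul
    have h6 : q * (B / q + Y / q + 2) = q * (B / q) + q * (Y / q) + 2 * q := by ring
    omega
  omega

theorem mult_count {q : ℕ} (hq : 0 < q) (B Y : ℕ) :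
    {t : ℕ | t ∈ Set.Ioc B (B + Y) ∧ q ∣ t}.ncard ≤ Y / q + 1 := by
  have hsub : {t : ℕ | t ∈ Set.Ioc B (B + Y) ∧ q ∣ t} ⊆
      (fun j => q * j) '' (Set.Ioc (B / q) (B / q + (Y / q + 1))) := by
    rintro t ⟨ht, j, rfl⟩
    refine ⟨j, ⟨Nat.div_lt_of_lt_mul ht.1, ?_⟩, rfl⟩
    refine le_trans ?_ (add_div_le hq)
    rw [Nat.le_div_iff_mul_le hq, mul_comm]
    exact ht.2
  have hfin : (Set.Ioc (B / q) (B / q + (Y / q + 1))).Finite := Set.finite_Ioc _ _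
  have h1 := Set.ncard_le_ncard hsub (hfin.image _)
  have h2 := Set.ncard_image_le (f := fun j => q * j) hfin
  have h3 : (Set.Ioc (B / q) (B / q + (Y / q + 1))).ncard = Y / q + 1 := by
    rw [← Finset.coe_Ioc, Set.ncard_coe_finset, Nat.card_Ioc, Nat.add_sub_cancel_left]
  exact h1.trans (h2.trans h3.le)

theorem pil_main (a b c : ℤ) (ha : a ≠ 0) (hb : b ≠ 0) (hc : c ≠ 0) (ε δ : ℝ) (hε : 0 < ε)
    (hδ : 0 < δ) (hδ1 : δ ≤ 1) : ∃ L : ℕ, ∀ Y : ℕ, L ≤ Y → ∀ B : ℕ,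
    (B : ℝ) ≤ (Y : ℝ) ^ (2 - δ) →
      (({t : ℕ | t ∈ Set.Ioc B (B + Y) ∧ ∃ (x : ℤ) (m n : ℕ), x ≠ 0 ∧ 0 < m ∧
        2 ≤ n ∧ a * x ^ n = b * (t : ℤ) ^ m + c}.ncard : ℕ) : ℝ) ≤ ε * Y := by
  classical
  obtain ⟨P, hPd⟩ : ∃ P, P = (a * b * c).natAbs.primeFactors := ⟨_, rfl⟩
  have habc : a * b * c ≠ 0 := mul_ne_zero (mul_ne_zero ha hb) hc
  have hP : ∀ ℓ ∈ P, ℓ.Prime := fun ℓ h => by
    rw [hPd] at h; exact Nat.prime_of_mem_primeFactors h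
  have hS : ∀ ℓ : ℕ, ℓ.Prime → (ℓ : ℤ) ∣ a * b * c → ℓ ∈ P := by
    intro ℓ hℓ h
    rw [hPd, Nat.mem_primeFactors]
    exact ⟨hℓ, Int.natCast_dvd.mp h, Int.natAbs_ne_zero.mpr habc⟩
  obtain ⟨p, hp⟩ : ∃ p : ℝ, p = (P.card : ℝ) := ⟨_, rfl⟩
  have hp0 : 0 ≤ p := by rw [hp]; exact Nat.cast_nonneg _
  obtain ⟨k₀, hk₀⟩ := exists_nat_gt (p / (ε / 4))
  have hk₀' : p ≤ ε / 4 * (2 : ℝ) ^ k₀ := by
    have h1 : (k₀ : ℝ) ≤ (2 : ℝ) ^ k₀ := by exact_mod_cast Nat.lt_two_pow_self.le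
    rw [div_lt_iff₀ (by positivity)] at hk₀
    nlinarith
  obtain ⟨M, hM⟩ : ∃ M, M = ∏ ℓ ∈ P, ℓ ^ k₀ := ⟨_, rfl⟩
  have hM1 : 1 ≤ M := by
    rw [hM]
    exact Nat.one_le_iff_ne_zero.mpr
      (Finset.prod_ne_zero_iff.mpr fun ℓ hℓ => pow_ne_zero _ (hP ℓ hℓ).ne_zero)
  have hM1R : (1 : ℝ) ≤ M := by exact_mod_cast hM1
  have hM0R : (0 : ℝ) < M := by linarith
  choose L hL using fun s : ℕ => pil_count_s P hP a b c ha hb hc hS s (ε / (4 * M)) (δ / 2)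
    (by positivity) (by positivity) (by linarith)
  obtain ⟨L₁, hL₁⟩ := exists_nat_gt (p / (ε / 4))
  have htend : Tendsto (fun Y : ℕ => (Y : ℝ) ^ (δ / 2)) atTop atTop :=
    (tendsto_rpow_atTop (by positivity)).comp tendsto_natCast_atTop_atTop
  obtain ⟨L₂, hL₂⟩ := (htend.eventually_ge_atTop ((M : ℝ) ^ (2 : ℝ))).exists_forall_of_atTop
  obtain ⟨L₀, hL₀⟩ : ∃ L₀, L₀ = ∑ s ∈ Finset.Icc 1 M, L s := ⟨_, rfl⟩
  refine ⟨M * L₀ + L₁ + L₂ + 1, fun Y hY B hB => ?_⟩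
  have hY1 : 1 ≤ Y := by omega
  have hY1R : (1 : ℝ) ≤ Y := by exact_mod_cast hY1
  have hY0R : (0 : ℝ) < Y := by linarith
  obtain ⟨A, hA⟩ : ∃ A : ℕ → Set ℕ, A = fun s => {t : ℕ | t ∈ Set.Ioc (B / s) (B / s + (Y / s + 1)) ∧
    Su P s ∧ Free P t ∧ ∃ (x : ℤ) (m n : ℕ), x ≠ 0 ∧ 0 < m ∧
        2 ≤ n ∧ a * x ^ n = b * ((s * t : ℕ) : ℤ) ^ m + c} := ⟨_, rfl⟩
  obtain ⟨D, hD⟩ : ∃ D : ℕ → Set ℕ, D = fun ℓ => {t : ℕ | t ∈ Set.Ioc B (B + Y) ∧ ℓ ^ k₀ ∣ t} :=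
    ⟨_, rfl⟩
  have hAf : ∀ s, (A s).Finite := by
    intro s
    rw [hA]
    exact (Set.finite_Ioc _ _).subset fun t ht => ht.1
  have hDf : ∀ ℓ, (D ℓ).Finite := by
    intro ℓ
    rw [hD]
    exact (Set.finite_Ioc _ _).subset fun t ht => ht.1
  have hsub : {t : ℕ | t ∈ Set.Ioc B (B + Y) ∧ ∃ (x : ℤ) (m n : ℕ), x ≠ 0 ∧ 0 < m ∧
        2 ≤ n ∧ a * x ^ n = b * (t : ℤ) ^ m + c} ⊆
      (⋃ s ∈ Finset.Icc 1 M, (fun t => s * t) '' A s) ∪ ⋃ ℓ ∈ P, D ℓ := by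
    rintro t ⟨ht, x, m, n, hx, hm, hn, heq⟩
    by_cases hbad : ∃ ℓ ∈ P, ℓ ^ k₀ ∣ t
    · right
      obtain ⟨ℓ, hℓ, hd⟩ := hbad
      simp only [Set.mem_iUnion]
      refine ⟨ℓ, hℓ, ?_⟩
      rw [hD]
      exact ⟨ht, hd⟩
    · left
      push Not at hbad
      obtain ⟨s, t', hs, ht', ht'0, hst⟩ := split_su hP t (by have := ht.1; omega)
      have hs0 : 0 < s := Nat.pos_of_ne_zero hs.1
      have hsM : s ≤ M := by
        rw [hM, ← hs.prod]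
        apply Finset.prod_le_prod'
        intro ℓ hℓ
        apply Nat.pow_le_pow_right (hP ℓ hℓ).pos
        by_contra h
        rw [not_le] at h
        apply hbad ℓ hℓ
        rw [← hst]
        exact ((pow_dvd_pow ℓ h.le).trans (Nat.ordProj_dvd s ℓ)).mul_right _
      simp only [Set.mem_iUnion]
      refine ⟨s, Finset.mem_Icc.mpr ⟨hs0, hsM⟩, t', ?_, hst⟩
      rw [hA]
      rw [← hst] at ht heq
      refine ⟨⟨Nat.div_lt_of_lt_mul ht.1, ?_⟩, hs, ht', x, m, n, hx, hm, hn, heq⟩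
      refine le_trans ?_ (add_div_le hs0)
      rw [Nat.le_div_iff_mul_le hs0, mul_comm]
      exact ht.2
  have hU1 : (⋃ s ∈ Finset.Icc 1 M, (fun t => s * t) '' A s).Finite :=
    (Finset.Icc 1 M).finite_toSet.biUnion fun s _ => (hAf s).image _
  have hU2 : (⋃ ℓ ∈ P, D ℓ).Finite := P.finite_toSet.biUnion fun ℓ _ => hDf ℓ
  have h1 := (Set.ncard_le_ncard hsub (hU1.union hU2)).trans (Set.ncard_union_le _ _)
  have h2 := Finset.set_ncard_biUnion_le (Finset.Icc 1 M) (fun s => (fun t => s * t) '' A s)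
  have h3 := Finset.set_ncard_biUnion_le P D
  -- the sets `A s`
  have h4 : ∀ s ∈ Finset.Icc 1 M, ((((fun t => s * t) '' A s).ncard : ℕ) : ℝ) ≤
      ε / (4 * M) * (2 * Y) := by
    intro s hs
    rw [Finset.mem_Icc] at hs
    have h5 : ((fun t => s * t) '' A s).ncard ≤ (A s).ncard := Set.ncard_image_le (hAf s)
    have hLs : L s ≤ L₀ := by
      rw [hL₀]
      exact Finset.single_le_sum (f := L) (fun _ _ => Nat.zero_le _) (Finset.mem_Icc.mpr hs)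
    have hYs : Y / M ≤ Y / s := Nat.div_le_div_left hs.2 hs.1
    have hYL : L s ≤ Y / s + 1 := by
      have h6 : L₀ ≤ Y / M := by
        rw [Nat.le_div_iff_mul_le hM1, mul_comm]
        omega
      omega
    have hbd : ((B / s : ℕ) : ℝ) ≤ ((Y / s + 1 : ℕ) : ℝ) ^ (2 - δ / 2) := by
      have h6 : (Y : ℝ) / M ≤ ((Y / s + 1 : ℕ) : ℝ) := by
        rw [div_le_iff₀ hM0R]
        have h7 : Y ≤ (Y / s + 1) * M := by
          have h8 := Nat.div_add_mod Y s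
          have h9 := Nat.mod_lt Y hs.1
          calc Y ≤ s * (Y / s + 1) := by rw [mul_add, mul_one]; omega
            _ ≤ M * (Y / s + 1) := Nat.mul_le_mul_right _ hs.2
            _ = _ := mul_comm _ _
        exact_mod_cast h7
      have h7 : (M : ℝ) ^ (2 - δ / 2) ≤ (Y : ℝ) ^ (δ / 2) :=
        (Real.rpow_le_rpow_of_exponent_le hM1R (by linarith)).trans (hL₂ Y (by omega))
      calc ((B / s : ℕ) : ℝ) ≤ (B : ℝ) := by exact_mod_cast Nat.div_le_self B s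
        _ ≤ (Y : ℝ) ^ (2 - δ) := hB
        _ ≤ ((Y : ℝ) / M) ^ (2 - δ / 2) := by
          rw [Real.div_rpow hY0R.le hM0R.le, le_div_iff₀ (Real.rpow_pos_of_pos hM0R _)]
          calc (Y : ℝ) ^ (2 - δ) * (M : ℝ) ^ (2 - δ / 2) ≤ (Y : ℝ) ^ (2 - δ) * (Y : ℝ) ^ (δ / 2) :=
                mul_le_mul_of_nonneg_left h7 (Real.rpow_nonneg hY0R.le _)
            _ = (Y : ℝ) ^ (2 - δ / 2) := by rw [← Real.rpow_add hY0R]; congr 1; ring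
        _ ≤ _ := Real.rpow_le_rpow (by positivity) h6 (by linarith)
    have h6 := hL s (Y / s + 1) hYL (B / s) hbd
    have h7 : (A s).ncard = ({t : ℕ | t ∈ Set.Ioc (B / s) (B / s + (Y / s + 1)) ∧
      Su P s ∧ Free P t ∧ ∃ (x : ℤ) (m n : ℕ), x ≠ 0 ∧ 0 < m ∧
        2 ≤ n ∧ a * x ^ n = b * ((s * t : ℕ) : ℤ) ^ m + c}).ncard := by rw [hA]
    rw [← h7] at h6
    have h8 : ((Y / s + 1 : ℕ) : ℝ) ≤ 2 * Y := by
      have h9 : Y / s + 1 ≤ 2 * Y := by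
        have := Nat.div_le_self Y s
        omega
      exact_mod_cast h9
    calc ((((fun t => s * t) '' A s).ncard : ℕ) : ℝ) ≤ ((A s).ncard : ℝ) := by exact_mod_cast h5
      _ ≤ ε / (4 * M) * ((Y / s + 1 : ℕ) : ℝ) := h6
      _ ≤ _ := mul_le_mul_of_nonneg_left h8 (by positivity)
  have h5 : ((∑ s ∈ Finset.Icc 1 M, ((fun t => s * t) '' A s).ncard : ℕ) : ℝ) ≤ ε / 2 * Y := by
    push_cast
    calc _ ≤ ∑ _s ∈ Finset.Icc 1 M, ε / (4 * M) * (2 * Y) := Finset.sum_le_sum h4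
      _ = M * (ε / (4 * M) * (2 * Y)) := by
        rw [Finset.sum_const, Nat.card_Icc, nsmul_eq_mul]; norm_num
      _ = ε / 2 * Y := by field_simp; ring
  -- the sets `D ℓ`
  have h6 : ∀ ℓ ∈ P, (((D ℓ).ncard : ℕ) : ℝ) ≤ Y / (2 : ℝ) ^ k₀ + 1 := by
    intro ℓ hℓ
    have h7 : (D ℓ).ncard ≤ Y / ℓ ^ k₀ + 1 := by
      rw [hD]
      exact mult_count (pow_pos (hP ℓ hℓ).pos _) B Y
    have h8 : Y / ℓ ^ k₀ ≤ Y / 2 ^ k₀ :=
      Nat.div_le_div_left (Nat.pow_le_pow_left (hP ℓ hℓ).two_le _) (by positivity)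
    have h9 : ((Y / 2 ^ k₀ : ℕ) : ℝ) ≤ (Y : ℝ) / ((2 ^ k₀ : ℕ) : ℝ) := Nat.cast_div_le
    push_cast at h9
    calc (((D ℓ).ncard : ℕ) : ℝ) ≤ ((Y / 2 ^ k₀ + 1 : ℕ) : ℝ) := by
          exact_mod_cast h7.trans (Nat.add_le_add_right h8 1)
      _ ≤ _ := by push_cast; linarith
  have h7 : ((∑ ℓ ∈ P, (D ℓ).ncard : ℕ) : ℝ) ≤ ε / 2 * Y := by
    push_cast
    calc _ ≤ ∑ _ℓ ∈ P, (Y / (2 : ℝ) ^ k₀ + 1) := Finset.sum_le_sum h6
      _ = p * (Y / (2 : ℝ) ^ k₀ + 1) := by rw [Finset.sum_const, nsmul_eq_mul, hp]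
      _ = p * (Y / (2 : ℝ) ^ k₀) + p := by ring
      _ ≤ ε / 4 * Y + ε / 4 * Y := by
        apply add_le_add
        · rw [mul_div_assoc', div_le_iff₀ (by positivity)]
          nlinarith
        · have h8 : (L₁ : ℝ) ≤ Y := by exact_mod_cast (by omega : L₁ ≤ Y)
          rw [div_lt_iff₀ (by positivity)] at hL₁
          nlinarith
      _ = _ := by ring
  have h8 : (({t : ℕ | t ∈ Set.Ioc B (B + Y) ∧ ∃ (x : ℤ) (m n : ℕ), x ≠ 0 ∧ 0 < m ∧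
        2 ≤ n ∧ a * x ^ n = b * (t : ℤ) ^ m + c}.ncard : ℕ) : ℝ) ≤
      ((∑ s ∈ Finset.Icc 1 M, ((fun t => s * t) '' A s).ncard : ℕ) : ℝ) +
        ((∑ ℓ ∈ P, (D ℓ).ncard : ℕ) : ℝ) := by
    exact_mod_cast h1.trans (Nat.add_le_add h2 h3)
  linarith

end Pool.Agent.TH888.G
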