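import Mathlib
import Pool.Agent.TH888.G.AlphaMain
import Pool.Agent.TH888.G.UExp
import Pool.Agent.TH888.G.Kind

/-!
Almost all pairs: the third exponent has a divisor up to a power of the side of the box, or the third
base is at most the exponential of a power of the side.
-/

set_option autoImplicit false

namespace Pool.Agent.TH888.G

open Finset Filter Topology
open Pool.Agent.TH888.W2 (Su)
open Pool.Agent.H755R5 (SSol)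

/-- the pairs of bases of an `S`-solution whose third exponent is a multiple of some `n` with
`2 ≤ n ≤ W`, or is at least `2` while the third base is at most `V` -/
def ExcV (S : Finset ℕ) (W V : ℝ) : Set (ℕ × ℕ) :=
  {w | ∃ (a b c x y z : ℤ) (p q r : ℕ), SSol S a b c x y z p q r ∧
    ((x.natAbs = w.1 ∧ y.natAbs = w.2 ∧ (MultW W r ∨ (2 ≤ r ∧ |(z : ℝ)| ≤ V))) ∨
     (x.natAbs = w.1 ∧ z.natAbs = w.2 ∧ (MultW W q ∨ (2 ≤ q ∧ |(y : ℝ)| ≤ V))) ∨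
     (y.natAbs = w.1 ∧ z.natAbs = w.2 ∧ (MultW W p ∨ (2 ≤ p ∧ |(x : ℝ)| ≤ V))))}

theorem su_filter {S : Finset ℕ} {t : ℤ} (ht : t ≠ 0) (h : ∀ ℓ : ℕ, ℓ.Prime → (ℓ : ℤ) ∣ t → ℓ ∈ S) :
    Su (S.filter Nat.Prime) t.natAbs := by
  refine ⟨Int.natAbs_ne_zero.mpr ht, fun ℓ hℓ hd => ?_⟩
  rw [Finset.mem_filter]
  exact ⟨h ℓ hℓ (Int.natCast_dvd.mpr hd), hℓ⟩

theorem excV_sub (S : Finset ℕ) : ∃ C₀ κ : ℕ, ∀ (W V : ℝ) (T u v : ℕ), 1 ≤ T →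
    (∀ q ∈ S.filter Nat.Prime, q ≤ T) → u ≤ 2 ^ T → v ≤ 2 ^ T → V ≤ ((2 ^ T : ℕ) : ℝ) →
    ((C₀ * T ^ κ + 3 : ℕ) : ℝ) ≤ W → (∃ p : ℕ, p.Prime ∧ p ≤ T ∧ p ∣ u) →
    (∃ p : ℕ, p.Prime ∧ p ≤ T ∧ p ∣ v) → (u, v) ∈ ExcV S W V → (u, v) ∈ ExcW S W := by
  obtain ⟨C₀, κ, H⟩ := third_exp (S.filter Nat.Prime)
  refine ⟨C₀, κ, ?_⟩
  rintro W V T u v hT hPT hu hv hV hW hpu hpv ⟨a, b, c, x, y, z, p, q, r, hsol, hcase⟩
  have hsol' := hsol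
  obtain ⟨hp, hq, hr, ha, hb, hc, hx, hy, hz, hS, hgcd, heq⟩ := hsol
  simp only at hcase
  have hg := (gcd3_iff _ _ _).mp hgcd
  have hSa : ∀ ℓ : ℕ, ℓ.Prime → (ℓ : ℤ) ∣ a → ℓ ∈ S := fun ℓ hℓ h => hS ℓ hℓ ((h.mul_right b).mul_right c)
  have hSb : ∀ ℓ : ℕ, ℓ.Prime → (ℓ : ℤ) ∣ b → ℓ ∈ S := fun ℓ hℓ h => hS ℓ hℓ ((h.mul_left a).mul_right c)
  have hSc : ∀ ℓ : ℕ, ℓ.Prime → (ℓ : ℤ) ∣ c → ℓ ∈ S := fun ℓ hℓ h => hS ℓ hℓ (h.mul_left (a * b))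
  have hSa' : ∀ ℓ : ℕ, ℓ.Prime → (ℓ : ℤ) ∣ -a → ℓ ∈ S := fun ℓ hℓ h => hSa ℓ hℓ ((dvd_neg).mp h)
  have hSb' : ∀ ℓ : ℕ, ℓ.Prime → (ℓ : ℤ) ∣ -b → ℓ ∈ S := fun ℓ hℓ h => hSb ℓ hℓ ((dvd_neg).mp h)
  have hSc' : ∀ ℓ : ℕ, ℓ.Prime → (ℓ : ℤ) ∣ -c → ℓ ∈ S := fun ℓ hℓ h => hSc ℓ hℓ ((dvd_neg).mp h)
  have dn : ∀ {ℓ : ℕ} {s t : ℤ}, (ℓ : ℤ) ∣ -s * t → (ℓ : ℤ) ∣ s * t := by
    intro ℓ s t h
    rw [neg_mul, dvd_neg] at h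
    exact h
  have hnat : ∀ t : ℤ, |(t : ℝ)| ≤ V → t.natAbs ≤ 2 ^ T := by
    intro t ht
    have h1 : ((t.natAbs : ℕ) : ℝ) ≤ ((2 ^ T : ℕ) : ℝ) := by
      rw [Nat.cast_natAbs]
      push_cast at hV ⊢
      exact ht.trans hV
    exact_mod_cast h1
  have hmult : ∀ {k : ℕ}, 2 ≤ k → k ≤ C₀ * T ^ κ + 3 → MultW W k := by
    intro k h1 h2
    exact ⟨k, h1, le_trans (by exact_mod_cast h2) hW, dvd_rfl⟩
  rcases hcase with ⟨hxu, hyv, hm | ⟨hr2, hzV⟩⟩ | ⟨hxu, hzv, hm | ⟨hq2, hyV⟩⟩ |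
    ⟨hyu, hzv, hm | ⟨hp2, hxV⟩⟩
  · exact ⟨a, b, c, x, y, z, p, q, r, hsol', Or.inl ⟨hxu, hyv, hm⟩⟩
  · obtain ⟨k, h1, h2, h3⟩ := H a b c x y z T p q r hT hPT hp hq hr2 (su_filter ha hSa)
      (su_filter hb hSb) (su_filter hc hSc) hgcd heq (by rw [hxu]; exact hu) (by rw [hyv]; exact hv)
      (hnat z hzV) hx hy hz (by rw [hxu]; exact hpu) (by rw [hyv]; exact hpv)
    exact ⟨a, b, c, x, y, z, p, q, k, ⟨hp, hq, by omega, ha, hb, hc, hx, hy, hz, hS, hgcd,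
      by rw [h3]; exact heq⟩, Or.inl ⟨hxu, hyv, hmult h1 h2⟩⟩
  · exact ⟨a, b, c, x, y, z, p, q, r, hsol', Or.inr (Or.inl ⟨hxu, hzv, hm⟩)⟩
  · obtain ⟨k, h1, h2, h3⟩ := H a (-c) (-b) x z y T p r q hT hPT hp hr hq2 (su_filter ha hSa)
      (su_filter (neg_ne_zero.mpr hc) hSc') (su_filter (neg_ne_zero.mpr hb) hSb')
      ((gcd3_iff _ _ _).mpr fun ℓ h1 h2 h3 h4 => hg ℓ h1 h2 (dn h4) (dn h3))
      (by linear_combination heq) (by rw [hxu]; exact hu) (by rw [hzv]; exact hv)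
      (hnat y hyV) hx hz hy (by rw [hxu]; exact hpu) (by rw [hzv]; exact hpv)
    exact ⟨a, b, c, x, y, z, p, k, r, ⟨hp, by omega, hr, ha, hb, hc, hx, hy, hz, hS, hgcd,
      by rw [h3]; exact heq⟩, Or.inr (Or.inl ⟨hxu, hzv, hmult h1 h2⟩)⟩
  · exact ⟨a, b, c, x, y, z, p, q, r, hsol', Or.inr (Or.inr ⟨hyu, hzv, hm⟩)⟩
  · obtain ⟨k, h1, h2, h3⟩ := H b (-c) (-a) y z x T q r p hT hPT hq hr hp2 (su_filter hb hSb)
      (su_filter (neg_ne_zero.mpr hc) hSc') (su_filter (neg_ne_zero.mpr ha) hSa')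
      ((gcd3_iff _ _ _).mpr fun ℓ h1 h2 h3 h4 => hg ℓ h1 (dn h4) h2 (dn h3))
      (by linear_combination heq) (by rw [hyu]; exact hu) (by rw [hzv]; exact hv)
      (hnat x hxV) hy hz hx (by rw [hyu]; exact hpu) (by rw [hzv]; exact hpv)
    exact ⟨a, b, c, x, y, z, k, q, r, ⟨by omega, hq, hr, ha, hb, hc, hx, hy, hz, hS, hgcd,
      by rw [h3]; exact heq⟩, Or.inr (Or.inr ⟨hyu, hzv, hmult h1 h2⟩)⟩

theorem alpha2 (S : Finset ℕ) {c : ℝ} (hc : 0 < c) (hc1 : c * (2 * S.card + 2) < 1) :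
    ∃ c' : ℝ, 0 < c' ∧ ∀ (K : ℕ) (ε : ℝ), 0 < ε → ∃ L : ℕ, ∀ X Y : ℕ, L ≤ X → L ≤ Y → ∀ a b : ℕ,
      a ≤ (max X Y) ^ K → b ≤ (max X Y) ^ K →
      ((ExcV S (((max X Y : ℕ) : ℝ) ^ c) (Real.exp (((max X Y : ℕ) : ℝ) ^ c')) ∩
        (Set.Ioc a (a + X) ×ˢ Set.Ioc b (b + Y))).ncard : ℝ) ≤ ε * (X * Y) := by
  classical
  obtain ⟨C₀, κ, H⟩ := excV_sub S
  refine ⟨2 * c / (8 * ((κ : ℝ) + 1)), by positivity, fun K ε hε => ?_⟩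
  obtain ⟨F, hF, L₁, hL₁⟩ := kind_two' Nat.prime_two ∅ (ε / 4) (by positivity)
  obtain ⟨L₂, hL₂⟩ := alpha S K hc hc1 (ε := ε / 2) (by positivity)
  obtain ⟨c₀, hc₀⟩ : ∃ c₀, c₀ = K + 2 + F.sup id + (S.filter Nat.Prime).sup id := ⟨_, rfl⟩
  obtain ⟨L₃, hL₃⟩ := small_par' (C₀ + 3) κ c₀ (δ := 2 * c) (by positivity)
  refine ⟨L₁ + L₂ + L₃ + 2, fun X Y hX hY a b ha hb => ?_⟩
  have k1 := hL₂ X Y (by omega) (by omega) a b ha hb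
  obtain ⟨N, hN⟩ : ∃ N, N = max X Y := ⟨_, rfl⟩
  have hXN : X ≤ N := by rw [hN]; exact le_max_left _ _
  have hYN : Y ≤ N := by rw [hN]; exact le_max_right _ _
  rw [← hN] at k1 ha hb ⊢
  obtain ⟨T, hT1, hT2, hT3, hT4⟩ := hL₃ N (by omega)
  have hlog1 : 1 ≤ Nat.log 2 N + 1 := by omega
  have hc₀T : c₀ ≤ T := (Nat.le_mul_of_pos_right _ (by omega)).trans hT2
  have hN2T : N ^ (K + 2) ≤ 2 ^ T := by
    calc N ^ (K + 2) ≤ (2 ^ (Nat.log 2 N + 1)) ^ (K + 2) :=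
          Nat.pow_le_pow_left (Nat.lt_pow_succ_log_self (by norm_num) N).le _
      _ = 2 ^ ((K + 2) * (Nat.log 2 N + 1)) := by rw [← pow_mul, mul_comm]
      _ ≤ 2 ^ T := Nat.pow_le_pow_right (by norm_num)
          ((Nat.mul_le_mul_right _ (by omega)).trans hT2)
  have hside : ∀ {t Z w : ℕ}, t ≤ N ^ K → Z ≤ N → w ≤ t + Z → w ≤ 2 ^ T := by
    intro t Z w h1 h2 h3
    refine le_trans ?_ hN2T
    have h4 : N ^ K ≤ N ^ (K + 1) := Nat.pow_le_pow_right (by omega) (by omega)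
    have h5 : N ^ 1 ≤ N ^ (K + 1) := Nat.pow_le_pow_right (by omega) (by omega)
    have h6 : N ^ (K + 2) = N * N ^ (K + 1) := by ring
    rw [h6]
    rw [pow_one] at h5
    have h7 : 2 ≤ N := by omega
    nlinarith
  have hPT : ∀ q ∈ S.filter Nat.Prime, q ≤ T := by
    intro q hq
    have := Finset.le_sup (f := id) hq
    simp only [id] at this
    omega
  have hFT : ∀ r ∈ F, r ≤ T := by
    intro r hr
    have := Finset.le_sup (f := id) hr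
    simp only [id] at this
    omega
  have hW : ((C₀ * T ^ κ + 3 : ℕ) : ℝ) ≤ (N : ℝ) ^ c := by
    have h1 : C₀ * T ^ κ + 3 ≤ (C₀ + 3) * T ^ κ := by
      have : 1 ≤ T ^ κ := Nat.one_le_pow _ _ hT1
      nlinarith
    have h2 : 2 * c / 2 = c := by ring
    rw [h2] at hT4
    exact le_trans (by exact_mod_cast h1) hT4
  obtain ⟨V, hV⟩ : ∃ V : ℝ, V = Real.exp ((N : ℝ) ^ (2 * c / (8 * ((κ : ℝ) + 1)))) := ⟨_, rfl⟩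
  rw [← hV] at hT3 ⊢
  obtain ⟨D, hD⟩ : ∃ D : Set ℕ, D = {n : ℕ | ∀ r ∈ F, ¬ r ∣ n} := ⟨_, rfl⟩
  have g1 := hL₁ X (by omega) a
  have g2 := hL₁ Y (by omega) b
  rw [← hD] at g1 g2
  obtain ⟨box, hbox⟩ : ∃ box : Set (ℕ × ℕ), box = Set.Ioc a (a + X) ×ˢ Set.Ioc b (b + Y) := ⟨_, rfl⟩
  rw [← hbox] at k1 ⊢
  have hbf : box.Finite := by
    rw [hbox]; exact (Set.finite_Ioc _ _).prod (Set.finite_Ioc _ _)
  have hfa : (Set.Ioc a (a + X)).Finite := Set.finite_Ioc _ _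
  have hfb : (Set.Ioc b (b + Y)).Finite := Set.finite_Ioc _ _
  have hsub : ExcV S ((N : ℝ) ^ c) V ∩ box ⊆ (ExcW S ((N : ℝ) ^ c) ∩ box) ∪
      (((D ∩ Set.Ioc a (a + X)) ×ˢ Set.Ioc b (b + Y)) ∪
        (Set.Ioc a (a + X) ×ˢ (D ∩ Set.Ioc b (b + Y)))) := by
    rintro ⟨u, v⟩ ⟨h1, h2⟩
    have h2' := h2
    rw [hbox] at h2'
    obtain ⟨hu, hv⟩ := h2'
    simp only at hu hv
    by_cases hDu : u ∈ D
    · exact Or.inr (Or.inl ⟨⟨hDu, hu⟩, hv⟩)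
    by_cases hDv : v ∈ D
    · exact Or.inr (Or.inr ⟨hu, ⟨hDv, hv⟩⟩)
    left
    rw [hD] at hDu hDv
    simp only [Set.mem_ofPred_eq, not_forall, not_not] at hDu hDv
    obtain ⟨r₁, hr₁, hr₁u⟩ := hDu
    obtain ⟨r₂, hr₂, hr₂v⟩ := hDv
    exact ⟨H _ V T u v hT1 hPT (hside ha hXN hu.2) (hside hb hYN hv.2) hT3 hW
      ⟨r₁, (hF r₁ hr₁).1, hFT r₁ hr₁, hr₁u⟩ ⟨r₂, (hF r₂ hr₂).1, hFT r₂ hr₂, hr₂v⟩ h1, h2⟩
  have hf1 : ((D ∩ Set.Ioc a (a + X)) ×ˢ Set.Ioc b (b + Y)).Finite :=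
    (hfa.subset Set.inter_subset_right).prod hfb
  have hf2 : (Set.Ioc a (a + X) ×ˢ (D ∩ Set.Ioc b (b + Y))).Finite :=
    hfa.prod (hfb.subset Set.inter_subset_right)
  have h1 := (Set.ncard_le_ncard hsub ((hbf.subset Set.inter_subset_right).union
    (hf1.union hf2))).trans (Set.ncard_union_le _ _)
  have h2 := Set.ncard_union_le ((D ∩ Set.Ioc a (a + X)) ×ˢ Set.Ioc b (b + Y))
    (Set.Ioc a (a + X) ×ˢ (D ∩ Set.Ioc b (b + Y)))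
  have hca : (Set.Ioc a (a + X)).ncard = X := by
    rw [← Finset.coe_Ioc, Set.ncard_coe_finset, Nat.card_Ioc]; omega
  have hcb : (Set.Ioc b (b + Y)).ncard = Y := by
    rw [← Finset.coe_Ioc, Set.ncard_coe_finset, Nat.card_Ioc]; omega
  rw [Set.ncard_prod, Set.ncard_prod, hca, hcb] at h2
  have h3 : ((ExcV S ((N : ℝ) ^ c) V ∩ box).ncard : ℝ) ≤ (ExcW S ((N : ℝ) ^ c) ∩ box).ncard +
      ((D ∩ Set.Ioc a (a + X)).ncard * Y + X * (D ∩ Set.Ioc b (b + Y)).ncard) := by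
    exact_mod_cast h1.trans (Nat.add_le_add_left h2 _)
  have hX0 : (0 : ℝ) ≤ X := Nat.cast_nonneg _
  have hY0 : (0 : ℝ) ≤ Y := Nat.cast_nonneg _
  have h4 := mul_le_mul_of_nonneg_right g1 hY0
  have h5 := mul_le_mul_of_nonneg_left g2 hX0
  nlinarith

end Pool.Agent.TH888.G
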