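import Mathlib
import Pool.Agent.TH888.G.Alpha2
import Pool.Agent.TH888.G.TwoPM

/-!
Almost all pairs: the third exponent has a divisor up to a power of the side of the box, or the third
base is at most the exponential of a power of the side, or the coefficients of the third base and of one
of the two given bases are `± 1`.
-/

set_option autoImplicit false

namespace Pool.Agent.TH888.G

open Finset Filter Topology
open Pool.Agent.TH888.W2 (Su)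
open Pool.Agent.H755R5 (SSol)

/-- the third exponent `r` (and the third base `z`) of a solution with coefficients `a`, `b` of the
two given bases and `c` of the third one -/
def Third (W V : ℝ) (a b c z : ℤ) (r : ℕ) : Prop :=
  MultW W r ∨ (2 ≤ r ∧ (|(z : ℝ)| ≤ V ∨ (c.natAbs = 1 ∧ (a.natAbs = 1 ∨ b.natAbs = 1))))

/-- the pairs of bases of an `S`-solution whose third exponent is a multiple of some `n` with
`2 ≤ n ≤ W`, or is at least `2` while the third base is at most `V` or the coefficients of the third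
base and of one of the two bases are `± 1` -/
def ExcX (S : Finset ℕ) (W V : ℝ) : Set (ℕ × ℕ) :=
  {w | ∃ (a b c x y z : ℤ) (p q r : ℕ), SSol S a b c x y z p q r ∧
    ((x.natAbs = w.1 ∧ y.natAbs = w.2 ∧ Third W V a b c z r) ∨
     (x.natAbs = w.1 ∧ z.natAbs = w.2 ∧ Third W V a c b y q) ∨
     (y.natAbs = w.1 ∧ z.natAbs = w.2 ∧ Third W V b c a x p))}

theorem third_case {P : Finset ℕ} {C : ℕ} {W V : ℝ} {T : ℕ} (hT : 1 ≤ T) (hPT : ∀ ℓ ∈ P, ℓ ≤ T)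
    (hV : 1 ≤ V) (hW : ((C * T ^ 8 : ℕ) : ℝ) ≤ W)
    (H : ∀ (a b c x y z : ℤ) (T p q r : ℕ), 1 ≤ T → (∀ ℓ ∈ P, ℓ ≤ T) → 0 < p → 0 < q → 2 ≤ r →
      a.natAbs = 1 → Su P b.natAbs → c.natAbs = 1 →
      Int.gcd ((Int.gcd (a * x) (b * y) : ℕ) : ℤ) (c * z) = 1 → a * x ^ p + b * y ^ q = c * z ^ r →
      x.natAbs ≤ 2 ^ T → y.natAbs ≤ 2 ^ T → 2 ≤ x.natAbs → y ≠ 0 → 2 ≤ z.natAbs →
      (∃ p₀ : ℕ, p₀.Prime ∧ p₀ ≤ T ∧ p₀ ∣ y.natAbs) → r.minFac ≤ C * T ^ 8)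
    {a b c x y z : ℤ} {p q r : ℕ} (hp : 0 < p) (hq : 0 < q) (ha : Su P a.natAbs)
    (hb : Su P b.natAbs) (hg : Int.gcd ((Int.gcd (a * x) (b * y) : ℕ) : ℤ) (c * z) = 1)
    (heq : a * x ^ p + b * y ^ q = c * z ^ r) (hx0 : x ≠ 0) (hy0 : y ≠ 0)
    (hx : x.natAbs ≤ 2 ^ T) (hy : y.natAbs ≤ 2 ^ T)
    (hpx : ∃ p₀ : ℕ, p₀.Prime ∧ p₀ ≤ T ∧ p₀ ∣ x.natAbs)
    (hpy : ∃ p₀ : ℕ, p₀.Prime ∧ p₀ ≤ T ∧ p₀ ∣ y.natAbs) (h : Third W V a b c z r) :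
    MultW W r ∨ (2 ≤ r ∧ |(z : ℝ)| ≤ V) := by
  rcases h with h | ⟨hr, hz | ⟨hc, hab⟩⟩
  · exact Or.inl h
  · exact Or.inr ⟨hr, hz⟩
  · rcases Nat.lt_or_ge z.natAbs 2 with hz2 | hz2
    · right
      refine ⟨hr, le_trans ?_ hV⟩
      have h1 : ((z.natAbs : ℕ) : ℝ) ≤ 1 := by exact_mod_cast (by omega : z.natAbs ≤ 1)
      rwa [Nat.cast_natAbs, Int.cast_abs] at h1
    · left
      have two : ∀ {t : ℤ}, t ≠ 0 → (∃ p₀ : ℕ, p₀.Prime ∧ p₀ ≤ T ∧ p₀ ∣ t.natAbs) →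
          2 ≤ t.natAbs := by
        rintro t ht ⟨p₀, h1, -, h3⟩
        exact h1.two_le.trans (Nat.le_of_dvd (Int.natAbs_pos.mpr ht) h3)
      have hmin : r.minFac ≤ C * T ^ 8 := by
        rcases hab with h1 | h1
        · exact H a b c x y z T p q r hT hPT hp hq hr h1 hb hc hg heq hx hy (two hx0 hpx) hy0 hz2 hpy
        · refine H b a c y x z T q p r hT hPT hq hp hr h1 ha hc ?_ (by linear_combination heq) hy hx
            (two hy0 hpy) hx0 hz2 hpx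
          rw [Int.gcd_comm (b * y) (a * x)]
          exact hg
      exact ⟨r.minFac, (Nat.minFac_prime (by omega)).two_le,
        le_trans (by exact_mod_cast hmin) hW, Nat.minFac_dvd r⟩

theorem excX_sub (S : Finset ℕ) : ∃ C : ℕ, ∀ (W V : ℝ) (T u v : ℕ), 1 ≤ T → 1 ≤ V →
    (∀ q ∈ S.filter Nat.Prime, q ≤ T) → u ≤ 2 ^ T → v ≤ 2 ^ T →
    ((C * T ^ 8 : ℕ) : ℝ) ≤ W → (∃ p : ℕ, p.Prime ∧ p ≤ T ∧ p ∣ u) →
    (∃ p : ℕ, p.Prime ∧ p ≤ T ∧ p ∣ v) → (u, v) ∈ ExcX S W V → (u, v) ∈ ExcV S W V := by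
  obtain ⟨C, H⟩ := third_pm (S.filter Nat.Prime) (fun ℓ h => (Finset.mem_filter.mp h).2)
  refine ⟨C, ?_⟩
  rintro W V T u v hT hV hPT hu hv hW hpu hpv ⟨a, b, c, x, y, z, p, q, r, hsol, hcase⟩
  have hsol' := hsol
  obtain ⟨hp, hq, hr, ha, hb, hc, hx, hy, hz, hS, hgcd, heq⟩ := hsol
  simp only at hcase
  have hg := (gcd3_iff _ _ _).mp hgcd
  have hSa : ∀ ℓ : ℕ, ℓ.Prime → (ℓ : ℤ) ∣ a → ℓ ∈ S := fun ℓ hℓ h => hS ℓ hℓ ((h.mul_right b).mul_right c)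
  have hSb : ∀ ℓ : ℕ, ℓ.Prime → (ℓ : ℤ) ∣ b → ℓ ∈ S := fun ℓ hℓ h => hS ℓ hℓ ((h.mul_left a).mul_right c)
  have hSc : ∀ ℓ : ℕ, ℓ.Prime → (ℓ : ℤ) ∣ c → ℓ ∈ S := fun ℓ hℓ h => hS ℓ hℓ (h.mul_left (a * b))
  have dn : ∀ {ℓ : ℕ} {s t : ℤ}, (ℓ : ℤ) ∣ -s * t → (ℓ : ℤ) ∣ s * t := by
    intro ℓ s t h
    rw [neg_mul, dvd_neg] at h
    exact h
  have neg3 : ∀ {a' b' c' t : ℤ} {k : ℕ}, Third W V a' b' c' t k → Third W V a' (-b') (-c') t k := by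
    intro a' b' c' t k h
    unfold Third at h ⊢
    rwa [Int.natAbs_neg, Int.natAbs_neg]
  have hSua := su_filter ha hSa
  have hSub := su_filter hb hSb
  have hSuc : Su (S.filter Nat.Prime) (-c).natAbs := by
    rw [Int.natAbs_neg]
    exact su_filter hc hSc
  rcases hcase with ⟨hxu, hyv, h⟩ | ⟨hxu, hzv, h⟩ | ⟨hyu, hzv, h⟩
  · exact ⟨a, b, c, x, y, z, p, q, r, hsol', Or.inl ⟨hxu, hyv,
      third_case hT hPT hV hW H hp hq hSua hSub hgcd heq hx hy (by rw [hxu]; exact hu)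
        (by rw [hyv]; exact hv) (by rw [hxu]; exact hpu) (by rw [hyv]; exact hpv) h⟩⟩
  · exact ⟨a, b, c, x, y, z, p, q, r, hsol', Or.inr (Or.inl ⟨hxu, hzv,
      third_case (a := a) (b := -c) (c := -b) (x := x) (y := z) (z := y) (p := p) (q := r) (r := q)
        hT hPT hV hW H hp hr hSua hSuc
        ((gcd3_iff _ _ _).mpr fun ℓ h1 h2 h3 h4 => hg ℓ h1 h2 (dn h4) (dn h3))
        (by linear_combination heq) hx hz (by rw [hxu]; exact hu)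
        (by rw [hzv]; exact hv) (by rw [hxu]; exact hpu) (by rw [hzv]; exact hpv) (neg3 h)⟩)⟩
  · exact ⟨a, b, c, x, y, z, p, q, r, hsol', Or.inr (Or.inr ⟨hyu, hzv,
      third_case (a := b) (b := -c) (c := -a) (x := y) (y := z) (z := x) (p := q) (q := r) (r := p)
        hT hPT hV hW H hq hr hSub hSuc
        ((gcd3_iff _ _ _).mpr fun ℓ h1 h2 h3 h4 => hg ℓ h1 (dn h4) h2 (dn h3))
        (by linear_combination heq) hy hz (by rw [hyu]; exact hu)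
        (by rw [hzv]; exact hv) (by rw [hyu]; exact hpu) (by rw [hzv]; exact hpv) (neg3 h)⟩)⟩

theorem alpha3 (S : Finset ℕ) {c : ℝ} (hc : 0 < c) (hc1 : c * (2 * S.card + 2) < 1) :
    ∃ c' : ℝ, 0 < c' ∧ ∀ (K : ℕ) (ε : ℝ), 0 < ε → ∃ L : ℕ, ∀ X Y : ℕ, L ≤ X → L ≤ Y → ∀ a b : ℕ,
      a ≤ (max X Y) ^ K → b ≤ (max X Y) ^ K →
      ((ExcX S (((max X Y : ℕ) : ℝ) ^ c) (Real.exp (((max X Y : ℕ) : ℝ) ^ c')) ∩
        (Set.Ioc a (a + X) ×ˢ Set.Ioc b (b + Y))).ncard : ℝ) ≤ ε * (X * Y) := by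
  classical
  obtain ⟨C₀, H⟩ := excX_sub S
  obtain ⟨c', hc', hmain⟩ := alpha2 S hc hc1
  refine ⟨c', hc', fun K ε hε => ?_⟩
  obtain ⟨F, hF, L₁, hL₁⟩ := kind_two' Nat.prime_two ∅ (ε / 4) (by positivity)
  obtain ⟨L₂, hL₂⟩ := hmain K (ε / 2) (by positivity)
  obtain ⟨c₀, hc₀⟩ : ∃ c₀, c₀ = K + 2 + F.sup id + (S.filter Nat.Prime).sup id := ⟨_, rfl⟩
  obtain ⟨L₃, hL₃⟩ := small_par' (C₀ + 3) 8 c₀ (δ := 2 * c) (by positivity)
  refine ⟨L₁ + L₂ + L₃ + 2, fun X Y hX hY a b ha hb => ?_⟩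
  have k1 := hL₂ X Y (by omega) (by omega) a b ha hb
  obtain ⟨N, hN⟩ : ∃ N, N = max X Y := ⟨_, rfl⟩
  have hXN : X ≤ N := by rw [hN]; exact le_max_left _ _
  have hYN : Y ≤ N := by rw [hN]; exact le_max_right _ _
  rw [← hN] at k1 ha hb ⊢
  obtain ⟨T, hT1, hT2, -, hT4⟩ := hL₃ N (by omega)
  have hlog1 : 1 ≤ Nat.log 2 N + 1 := by omega
  have hc₀T : c₀ ≤ T := (Nat.le_mul_of_pos_right _ (by omega)).trans hT2
  have hN2T : N ^ (K + 2) ≤ 2 ^ T := by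
    calc N ^ (K + 2) ≤ (2 ^ (Nat.log 2 N + 1)) ^ (K + 2) :=
          Nat.pow_le_pow_left (Nat.lt_pow_succ_log_self (by norm_num) N).le _
      _ = 2 ^ ((K + 2) * (Nat.log 2 N + 1)) := by rw [← pow_mul, mul_comm]
      _ ≤ 2 ^ T := Nat.pow_le_pow_right (by norm_num)
          ((Nat.mul_le_mul_right _ (by omega)).trans hT2)
  have hside : ∀ {t Z w : ℕ}, t ≤ N ^ K → Z ≤ N → w ≤ t + Z → w ≤ 2 ^ T := by
    intro t Z w h1 h2 h3
    refine le_trans ?_ hN2T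
    have h4 : N ^ K ≤ N ^ (K + 1) := Nat.pow_le_pow_right (by omega) (by omega)
    have h5 : N ^ 1 ≤ N ^ (K + 1) := Nat.pow_le_pow_right (by omega) (by omega)
    have h6 : N ^ (K + 2) = N * N ^ (K + 1) := by ring
    rw [h6]
    rw [pow_one] at h5
    have h7 : 2 ≤ N := by omega
    nlinarith
  have hPT : ∀ q ∈ S.filter Nat.Prime, q ≤ T := by
    intro q hq
    have := Finset.le_sup (f := id) hq
    simp only [id] at this
    omega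
  have hFT : ∀ r ∈ F, r ≤ T := by
    intro r hr
    have := Finset.le_sup (f := id) hr
    simp only [id] at this
    omega
  have hW : ((C₀ * T ^ 8 : ℕ) : ℝ) ≤ (N : ℝ) ^ c := by
    have h1 : C₀ * T ^ 8 ≤ (C₀ + 3) * T ^ 8 := Nat.mul_le_mul_right _ (by omega)
    have h2 : 2 * c / 2 = c := by ring
    rw [h2] at hT4
    exact le_trans (by exact_mod_cast h1) hT4
  obtain ⟨V, hV⟩ : ∃ V : ℝ, V = Real.exp ((N : ℝ) ^ c') := ⟨_, rfl⟩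
  have hV1 : 1 ≤ V := by
    rw [hV]
    exact Real.one_le_exp (Real.rpow_nonneg (Nat.cast_nonneg _) _)
  rw [← hV] at k1 ⊢
  obtain ⟨D, hD⟩ : ∃ D : Set ℕ, D = {n : ℕ | ∀ r ∈ F, ¬ r ∣ n} := ⟨_, rfl⟩
  have g1 := hL₁ X (by omega) a
  have g2 := hL₁ Y (by omega) b
  rw [← hD] at g1 g2
  obtain ⟨box, hbox⟩ : ∃ box : Set (ℕ × ℕ), box = Set.Ioc a (a + X) ×ˢ Set.Ioc b (b + Y) := ⟨_, rfl⟩
  rw [← hbox] at k1 ⊢
  have hbf : box.Finite := by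
    rw [hbox]; exact (Set.finite_Ioc _ _).prod (Set.finite_Ioc _ _)
  have hfa : (Set.Ioc a (a + X)).Finite := Set.finite_Ioc _ _
  have hfb : (Set.Ioc b (b + Y)).Finite := Set.finite_Ioc _ _
  have hsub : ExcX S ((N : ℝ) ^ c) V ∩ box ⊆ (ExcV S ((N : ℝ) ^ c) V ∩ box) ∪
      (((D ∩ Set.Ioc a (a + X)) ×ˢ Set.Ioc b (b + Y)) ∪
        (Set.Ioc a (a + X) ×ˢ (D ∩ Set.Ioc b (b + Y)))) := by
    rintro ⟨u, v⟩ ⟨h1, h2⟩
    have h2' := h2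
    rw [hbox] at h2'
    obtain ⟨hu, hv⟩ := h2'
    simp only at hu hv
    by_cases hDu : u ∈ D
    · exact Or.inr (Or.inl ⟨⟨hDu, hu⟩, hv⟩)
    by_cases hDv : v ∈ D
    · exact Or.inr (Or.inr ⟨hu, ⟨hDv, hv⟩⟩)
    left
    rw [hD] at hDu hDv
    simp only [Set.mem_ofPred_eq, not_forall, not_not] at hDu hDv
    obtain ⟨r₁, hr₁, hr₁u⟩ := hDu
    obtain ⟨r₂, hr₂, hr₂v⟩ := hDv
    exact ⟨H _ V T u v hT1 hV1 hPT (hside ha hXN hu.2) (hside hb hYN hv.2) hW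
      ⟨r₁, (hF r₁ hr₁).1, hFT r₁ hr₁, hr₁u⟩ ⟨r₂, (hF r₂ hr₂).1, hFT r₂ hr₂, hr₂v⟩ h1, h2⟩
  have hf1 : ((D ∩ Set.Ioc a (a + X)) ×ˢ Set.Ioc b (b + Y)).Finite :=
    (hfa.subset Set.inter_subset_right).prod hfb
  have hf2 : (Set.Ioc a (a + X) ×ˢ (D ∩ Set.Ioc b (b + Y))).Finite :=
    hfa.prod (hfb.subset Set.inter_subset_right)
  have h1 := (Set.ncard_le_ncard hsub ((hbf.subset Set.inter_subset_right).union
    (hf1.union hf2))).trans (Set.ncard_union_le _ _)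
  have h2 := Set.ncard_union_le ((D ∩ Set.Ioc a (a + X)) ×ˢ Set.Ioc b (b + Y))
    (Set.Ioc a (a + X) ×ˢ (D ∩ Set.Ioc b (b + Y)))
  have hca : (Set.Ioc a (a + X)).ncard = X := by
    rw [← Finset.coe_Ioc, Set.ncard_coe_finset, Nat.card_Ioc]; omega
  have hcb : (Set.Ioc b (b + Y)).ncard = Y := by
    rw [← Finset.coe_Ioc, Set.ncard_coe_finset, Nat.card_Ioc]; omega
  rw [Set.ncard_prod, Set.ncard_prod, hca, hcb] at h2
  have h3 : ((ExcX S ((N : ℝ) ^ c) V ∩ box).ncard : ℝ) ≤ (ExcV S ((N : ℝ) ^ c) V ∩ box).ncard +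
      ((D ∩ Set.Ioc a (a + X)).ncard * Y + X * (D ∩ Set.Ioc b (b + Y)).ncard) := by
    exact_mod_cast h1.trans (Nat.add_le_add_left h2 _)
  have hX0 : (0 : ℝ) ≤ X := Nat.cast_nonneg _
  have hY0 : (0 : ℝ) ≤ Y := Nat.cast_nonneg _
  have h4 := mul_le_mul_of_nonneg_right g1 hY0
  have h5 := mul_le_mul_of_nonneg_left g2 hX0
  nlinarith

end Pool.Agent.TH888.G
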