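import Mathlib
import Pool.Agent.TH888.G.Alpha3
import Pool.Agent.TH888.G.Three

/-!
Almost all pairs: the third exponent has a divisor up to a power of the side of the box, or the third
base, or all three coefficients, are at most the exponential of a power of the side, or the
coefficients of the third base and of one of the two given bases are `± 1`.
-/

set_option autoImplicit false

namespace Pool.Agent.TH888.G

open Finset Filter Topology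
open Pool.Agent.TH888.W2 (Su)
open Pool.Agent.H755R5 (SSol)

theorem third_v (P : Finset ℕ) (hP : ∀ ℓ ∈ P, ℓ.Prime) : ∃ C d : ℕ,
    ∀ (a b c x y z : ℤ) (T p q r : ℕ), 1 ≤ T → (∀ ℓ ∈ P, ℓ ≤ T) → 0 < p → 0 < q → 2 ≤ r →
    Su P a.natAbs → Su P b.natAbs → Su P c.natAbs →
    Int.gcd ((Int.gcd (a * x) (b * y) : ℕ) : ℤ) (c * z) = 1 → a * x ^ p + b * y ^ q = c * z ^ r →
    a.natAbs ≤ 2 ^ T → b.natAbs ≤ 2 ^ T → c.natAbs ≤ 2 ^ T →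
    x.natAbs ≤ 2 ^ T → y.natAbs ≤ 2 ^ T → x ≠ 0 → y ≠ 0 → 2 ≤ z.natAbs →
    (∃ p₀ : ℕ, p₀.Prime ∧ p₀ ≤ T ∧ p₀ ∣ x.natAbs) →
    (∃ p₀ : ℕ, p₀.Prime ∧ p₀ ≤ T ∧ p₀ ∣ y.natAbs) →
    r.minFac ≤ C * T ^ d ∨ z.natAbs ≤ 2 ^ (C * T ^ d) := by
  obtain ⟨C, d, H⟩ := third_ordered P hP
  refine ⟨C, d, ?_⟩
  intro a b c x y z T p q r hT hPT hp hq hr ha hb hc hg heq haT hbT hcT hx hy hx0 hy0 hz2 hpx hpy
  rcases le_total (a * x ^ p).natAbs (b * y ^ q).natAbs with h | h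
  · exact H a b c x y z T p q r hT hPT hp hq hr ha hb hc hg heq haT hcT hx hy hx0 hy0 hz2 hpx hpy h
  · refine H b a c y x z T q p r hT hPT hq hp hr hb ha hc ?_ (by linear_combination heq) hbT hcT hy hx
      hy0 hx0 hz2 hpy hpx h
    rw [Int.gcd_comm (b * y) (a * x)]
    exact hg

/-- the third exponent `r` (and the third base `z`) of a solution with coefficients `a`, `b` of the
two given bases and `c` of the third one -/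
def Third' (W V : ℝ) (a b c z : ℤ) (r : ℕ) : Prop :=
  MultW W r ∨ (2 ≤ r ∧ (|(z : ℝ)| ≤ V ∨ (|(a : ℝ)| ≤ V ∧ |(b : ℝ)| ≤ V ∧ |(c : ℝ)| ≤ V) ∨
    (c.natAbs = 1 ∧ (a.natAbs = 1 ∨ b.natAbs = 1))))

/-- the pairs of bases of an `S`-solution whose third exponent is a multiple of some `n` with
`2 ≤ n ≤ W`, or is at least `2` while the third base, or all three coefficients, are at most `V`, or
the coefficients of the third base and of one of the two bases are `± 1` -/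
def ExcZ (S : Finset ℕ) (W V : ℝ) : Set (ℕ × ℕ) :=
  {w | ∃ (a b c x y z : ℤ) (p q r : ℕ), SSol S a b c x y z p q r ∧
    ((x.natAbs = w.1 ∧ y.natAbs = w.2 ∧ Third' W V a b c z r) ∨
     (x.natAbs = w.1 ∧ z.natAbs = w.2 ∧ Third' W V a c b y q) ∨
     (y.natAbs = w.1 ∧ z.natAbs = w.2 ∧ Third' W V b c a x p))}

theorem third_case' {P : Finset ℕ} {C d : ℕ} {W V V' : ℝ} {T : ℕ} (hT : 1 ≤ T)
    (hPT : ∀ ℓ ∈ P, ℓ ≤ T) (hV : 1 ≤ V') (hVV : V ≤ V') (hVT : V ≤ ((2 ^ T : ℕ) : ℝ))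
    (hW : ((C * T ^ d : ℕ) : ℝ) ≤ W) (hV' : ((2 ^ (C * T ^ d) : ℕ) : ℝ) ≤ V')
    (H : ∀ (a b c x y z : ℤ) (T p q r : ℕ), 1 ≤ T → (∀ ℓ ∈ P, ℓ ≤ T) → 0 < p → 0 < q → 2 ≤ r →
      Su P a.natAbs → Su P b.natAbs → Su P c.natAbs →
      Int.gcd ((Int.gcd (a * x) (b * y) : ℕ) : ℤ) (c * z) = 1 → a * x ^ p + b * y ^ q = c * z ^ r →
      a.natAbs ≤ 2 ^ T → b.natAbs ≤ 2 ^ T → c.natAbs ≤ 2 ^ T →
      x.natAbs ≤ 2 ^ T → y.natAbs ≤ 2 ^ T → x ≠ 0 → y ≠ 0 → 2 ≤ z.natAbs →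
      (∃ p₀ : ℕ, p₀.Prime ∧ p₀ ≤ T ∧ p₀ ∣ x.natAbs) →
      (∃ p₀ : ℕ, p₀.Prime ∧ p₀ ≤ T ∧ p₀ ∣ y.natAbs) →
      r.minFac ≤ C * T ^ d ∨ z.natAbs ≤ 2 ^ (C * T ^ d))
    {a b c x y z : ℤ} {p q r : ℕ} (hp : 0 < p) (hq : 0 < q) (ha : Su P a.natAbs)
    (hb : Su P b.natAbs) (hc : Su P c.natAbs)
    (hg : Int.gcd ((Int.gcd (a * x) (b * y) : ℕ) : ℤ) (c * z) = 1)
    (heq : a * x ^ p + b * y ^ q = c * z ^ r) (hx0 : x ≠ 0) (hy0 : y ≠ 0)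
    (hx : x.natAbs ≤ 2 ^ T) (hy : y.natAbs ≤ 2 ^ T)
    (hpx : ∃ p₀ : ℕ, p₀.Prime ∧ p₀ ≤ T ∧ p₀ ∣ x.natAbs)
    (hpy : ∃ p₀ : ℕ, p₀.Prime ∧ p₀ ≤ T ∧ p₀ ∣ y.natAbs) (h : Third' W V a b c z r) :
    Third W V' a b c z r := by
  have cast : ∀ {t : ℤ}, ((t.natAbs : ℕ) : ℝ) = |(t : ℝ)| := by
    intro t
    rw [Nat.cast_natAbs, Int.cast_abs]
  rcases h with h | ⟨hr, hz | ⟨h1, h2, h3⟩ | hab⟩
  · exact Or.inl h
  · exact Or.inr ⟨hr, Or.inl (hz.trans hVV)⟩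
  · rcases Nat.lt_or_ge z.natAbs 2 with hz2 | hz2
    · right
      refine ⟨hr, Or.inl (le_trans ?_ hV)⟩
      rw [← cast]
      exact_mod_cast (by omega : z.natAbs ≤ 1)
    · have up : ∀ {t : ℤ}, |(t : ℝ)| ≤ V → t.natAbs ≤ 2 ^ T := by
        intro t ht
        have h4 : ((t.natAbs : ℕ) : ℝ) ≤ ((2 ^ T : ℕ) : ℝ) := by
          rw [cast]
          exact ht.trans hVT
        exact_mod_cast h4
      rcases H a b c x y z T p q r hT hPT hp hq hr ha hb hc hg heq (up h1) (up h2) (up h3) hx hy hx0 hy0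
        hz2 hpx hpy with h4 | h4
      · left
        exact ⟨r.minFac, (Nat.minFac_prime (by omega)).two_le,
          le_trans (by exact_mod_cast h4) hW, Nat.minFac_dvd r⟩
      · right
        refine ⟨hr, Or.inl (le_trans ?_ hV')⟩
        rw [← cast]
        exact_mod_cast h4
  · exact Or.inr ⟨hr, Or.inr hab⟩

theorem excZ_sub (S : Finset ℕ) : ∃ C d : ℕ, ∀ (W V V' : ℝ) (T u v : ℕ), 1 ≤ T → 1 ≤ V' → V ≤ V' →
    V ≤ ((2 ^ T : ℕ) : ℝ) →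
    (∀ q ∈ S.filter Nat.Prime, q ≤ T) → u ≤ 2 ^ T → v ≤ 2 ^ T →
    ((C * T ^ d : ℕ) : ℝ) ≤ W → ((2 ^ (C * T ^ d) : ℕ) : ℝ) ≤ V' →
    (∃ p : ℕ, p.Prime ∧ p ≤ T ∧ p ∣ u) →
    (∃ p : ℕ, p.Prime ∧ p ≤ T ∧ p ∣ v) → (u, v) ∈ ExcZ S W V → (u, v) ∈ ExcX S W V' := by
  obtain ⟨C, d, H⟩ := third_v (S.filter Nat.Prime) (fun ℓ h => (Finset.mem_filter.mp h).2)
  refine ⟨C, d, ?_⟩
  rintro W V V' T u v hT hV hVV hVT hPT hu hv hW hV' hpu hpv ⟨a, b, c, x, y, z, p, q, r, hsol, hcase⟩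
  have hsol' := hsol
  obtain ⟨hp, hq, hr, ha, hb, hc, hx, hy, hz, hS, hgcd, heq⟩ := hsol
  simp only at hcase
  have hg := (gcd3_iff _ _ _).mp hgcd
  have hSa : ∀ ℓ : ℕ, ℓ.Prime → (ℓ : ℤ) ∣ a → ℓ ∈ S := fun ℓ hℓ h => hS ℓ hℓ ((h.mul_right b).mul_right c)
  have hSb : ∀ ℓ : ℕ, ℓ.Prime → (ℓ : ℤ) ∣ b → ℓ ∈ S := fun ℓ hℓ h => hS ℓ hℓ ((h.mul_left a).mul_right c)
  have hSc : ∀ ℓ : ℕ, ℓ.Prime → (ℓ : ℤ) ∣ c → ℓ ∈ S := fun ℓ hℓ h => hS ℓ hℓ (h.mul_left (a * b))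
  have dn : ∀ {ℓ : ℕ} {s t : ℤ}, (ℓ : ℤ) ∣ -s * t → (ℓ : ℤ) ∣ s * t := by
    intro ℓ s t h
    rw [neg_mul, dvd_neg] at h
    exact h
  have neg3 : ∀ {a' b' c' t : ℤ} {k : ℕ}, Third' W V a' b' c' t k →
      Third' W V a' (-b') (-c') t k := by
    intro a' b' c' t k h
    unfold Third' at h ⊢
    rwa [Int.natAbs_neg, Int.natAbs_neg, Int.cast_neg, Int.cast_neg, abs_neg, abs_neg]
  have neg3' : ∀ {a' b' c' t : ℤ} {k : ℕ}, Third W V' a' (-b') (-c') t k →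
      Third W V' a' b' c' t k := by
    intro a' b' c' t k h
    unfold Third at h ⊢
    rwa [Int.natAbs_neg, Int.natAbs_neg] at h
  have hSua := su_filter ha hSa
  have hSub := su_filter hb hSb
  have hSuc := su_filter hc hSc
  have hSua' : Su (S.filter Nat.Prime) (-a).natAbs := by rw [Int.natAbs_neg]; exact hSua
  have hSub' : Su (S.filter Nat.Prime) (-b).natAbs := by rw [Int.natAbs_neg]; exact hSub
  have hSuc' : Su (S.filter Nat.Prime) (-c).natAbs := by rw [Int.natAbs_neg]; exact hSuc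
  rcases hcase with ⟨hxu, hyv, h⟩ | ⟨hxu, hzv, h⟩ | ⟨hyu, hzv, h⟩
  · exact ⟨a, b, c, x, y, z, p, q, r, hsol', Or.inl ⟨hxu, hyv,
      third_case' hT hPT hV hVV hVT hW hV' H hp hq hSua hSub hSuc hgcd heq hx hy
        (by rw [hxu]; exact hu) (by rw [hyv]; exact hv) (by rw [hxu]; exact hpu)
        (by rw [hyv]; exact hpv) h⟩⟩
  · exact ⟨a, b, c, x, y, z, p, q, r, hsol', Or.inr (Or.inl ⟨hxu, hzv,
      neg3' (third_case' (a := a) (b := -c) (c := -b) (x := x) (y := z) (z := y) (p := p) (q := r)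
        (r := q) hT hPT hV hVV hVT hW hV' H hp hr hSua hSuc' hSub'
        ((gcd3_iff _ _ _).mpr fun ℓ h1 h2 h3 h4 => hg ℓ h1 h2 (dn h4) (dn h3))
        (by linear_combination heq) hx hz (by rw [hxu]; exact hu)
        (by rw [hzv]; exact hv) (by rw [hxu]; exact hpu) (by rw [hzv]; exact hpv) (neg3 h))⟩)⟩
  · exact ⟨a, b, c, x, y, z, p, q, r, hsol', Or.inr (Or.inr ⟨hyu, hzv,
      neg3' (third_case' (a := b) (b := -c) (c := -a) (x := y) (y := z) (z := x) (p := q) (q := r)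
        (r := p) hT hPT hV hVV hVT hW hV' H hq hr hSub hSuc' hSua'
        ((gcd3_iff _ _ _).mpr fun ℓ h1 h2 h3 h4 => hg ℓ h1 (dn h4) h2 (dn h3))
        (by linear_combination heq) hy hz (by rw [hyu]; exact hu)
        (by rw [hzv]; exact hv) (by rw [hyu]; exact hpu) (by rw [hzv]; exact hpv) (neg3 h))⟩)⟩

theorem alpha4 (S : Finset ℕ) {c : ℝ} (hc : 0 < c) (hc1 : c * (2 * S.card + 2) < 1) :
    ∃ c' : ℝ, 0 < c' ∧ ∀ (K : ℕ) (ε : ℝ), 0 < ε → ∃ L : ℕ, ∀ X Y : ℕ, L ≤ X → L ≤ Y → ∀ a b : ℕ,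
      a ≤ (max X Y) ^ K → b ≤ (max X Y) ^ K →
      ((ExcZ S (((max X Y : ℕ) : ℝ) ^ c) (Real.exp (((max X Y : ℕ) : ℝ) ^ c')) ∩
        (Set.Ioc a (a + X) ×ˢ Set.Ioc b (b + Y))).ncard : ℝ) ≤ ε * (X * Y) := by
  classical
  obtain ⟨C₀, d, H⟩ := excZ_sub S
  obtain ⟨c₃, hc₃, hmain⟩ := alpha3 S hc hc1
  obtain ⟨δ, hδd⟩ : ∃ δ, δ = 2 * min c c₃ := ⟨_, rfl⟩
  have hδ : 0 < δ := by rw [hδd]; have := lt_min hc hc₃; positivity
  have hδc : δ / 2 ≤ c := by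
    rw [hδd]; have := min_le_left c c₃; linarith
  have hδc₃ : δ / 2 ≤ c₃ := by
    rw [hδd]; have := min_le_right c c₃; linarith
  obtain ⟨c', hc'd⟩ : ∃ c', c' = δ / (8 * ((d : ℝ) + 1)) := ⟨_, rfl⟩
  have hc'0 : 0 < c' := by rw [hc'd]; positivity
  have hc'3 : c' ≤ c₃ := by
    refine le_trans ?_ hδc₃
    rw [hc'd]
    apply div_le_div_of_nonneg_left hδ.le (by norm_num)
    have : (0 : ℝ) ≤ d := Nat.cast_nonneg _
    linarith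
  refine ⟨c', hc'0, fun K ε hε => ?_⟩
  obtain ⟨F, hF, L₁, hL₁⟩ := kind_two' Nat.prime_two ∅ (ε / 4) (by positivity)
  obtain ⟨L₂, hL₂⟩ := hmain K (ε / 2) (by positivity)
  obtain ⟨c₀, hc₀⟩ : ∃ c₀, c₀ = K + 2 + F.sup id + (S.filter Nat.Prime).sup id := ⟨_, rfl⟩
  obtain ⟨L₃, hL₃⟩ := small_par' (C₀ + 3) d c₀ (δ := δ) hδ
  refine ⟨L₁ + L₂ + L₃ + 2, fun X Y hX hY a b ha hb => ?_⟩
  have k1 := hL₂ X Y (by omega) (by omega) a b ha hb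
  obtain ⟨N, hN⟩ : ∃ N, N = max X Y := ⟨_, rfl⟩
  have hXN : X ≤ N := by rw [hN]; exact le_max_left _ _
  have hYN : Y ≤ N := by rw [hN]; exact le_max_right _ _
  rw [← hN] at k1 ha hb ⊢
  obtain ⟨T, hT1, hT2, hT3, hT4⟩ := hL₃ N (by omega)
  have hlog1 : 1 ≤ Nat.log 2 N + 1 := by omega
  have hc₀T : c₀ ≤ T := (Nat.le_mul_of_pos_right _ (by omega)).trans hT2
  have hN2T : N ^ (K + 2) ≤ 2 ^ T := by
    calc N ^ (K + 2) ≤ (2 ^ (Nat.log 2 N + 1)) ^ (K + 2) :=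
          Nat.pow_le_pow_left (Nat.lt_pow_succ_log_self (by norm_num) N).le _
      _ = 2 ^ ((K + 2) * (Nat.log 2 N + 1)) := by rw [← pow_mul, mul_comm]
      _ ≤ 2 ^ T := Nat.pow_le_pow_right (by norm_num)
          ((Nat.mul_le_mul_right _ (by omega)).trans hT2)
  have hside : ∀ {t Z w : ℕ}, t ≤ N ^ K → Z ≤ N → w ≤ t + Z → w ≤ 2 ^ T := by
    intro t Z w h1 h2 h3
    refine le_trans ?_ hN2T
    have h4 : N ^ K ≤ N ^ (K + 1) := Nat.pow_le_pow_right (by omega) (by omega)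
    have h5 : N ^ 1 ≤ N ^ (K + 1) := Nat.pow_le_pow_right (by omega) (by omega)
    have h6 : N ^ (K + 2) = N * N ^ (K + 1) := by ring
    rw [h6]
    rw [pow_one] at h5
    have h7 : 2 ≤ N := by omega
    nlinarith
  have hPT : ∀ q ∈ S.filter Nat.Prime, q ≤ T := by
    intro q hq
    have := Finset.le_sup (f := id) hq
    simp only [id] at this
    omega
  have hFT : ∀ r ∈ F, r ≤ T := by
    intro r hr
    have := Finset.le_sup (f := id) hr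
    simp only [id] at this
    omega
  have hN1 : (1 : ℝ) ≤ N := by exact_mod_cast (by omega : 1 ≤ N)
  have hCT : ((C₀ * T ^ d : ℕ) : ℝ) ≤ (N : ℝ) ^ (δ / 2) := by
    have h1 : C₀ * T ^ d ≤ (C₀ + 3) * T ^ d := Nat.mul_le_mul_right _ (by omega)
    exact le_trans (by exact_mod_cast h1) hT4
  have hW : ((C₀ * T ^ d : ℕ) : ℝ) ≤ (N : ℝ) ^ c :=
    hCT.trans (Real.rpow_le_rpow_of_exponent_le hN1 hδc)
  obtain ⟨V, hV⟩ : ∃ V : ℝ, V = Real.exp ((N : ℝ) ^ c') := ⟨_, rfl⟩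
  obtain ⟨V', hV'⟩ : ∃ V' : ℝ, V' = Real.exp ((N : ℝ) ^ c₃) := ⟨_, rfl⟩
  have hV1 : 1 ≤ V' := by
    rw [hV']
    exact Real.one_le_exp (Real.rpow_nonneg (Nat.cast_nonneg _) _)
  have hVV : V ≤ V' := by
    rw [hV, hV']
    exact Real.exp_le_exp.mpr (Real.rpow_le_rpow_of_exponent_le hN1 hc'3)
  have hVT : V ≤ ((2 ^ T : ℕ) : ℝ) := by
    rw [hV, hc'd]
    exact hT3
  have hV2 : ((2 ^ (C₀ * T ^ d) : ℕ) : ℝ) ≤ V' := by
    rw [hV']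
    have h1 : ((2 ^ (C₀ * T ^ d) : ℕ) : ℝ) ≤ Real.exp ((C₀ * T ^ d : ℕ) : ℝ) := by
      rw [Nat.cast_pow, ← Real.exp_one_pow]
      apply pow_le_pow_left₀ (by norm_num)
      have := Real.add_one_le_exp (1 : ℝ)
      push_cast
      linarith
    exact h1.trans (Real.exp_le_exp.mpr
      (hCT.trans (Real.rpow_le_rpow_of_exponent_le hN1 hδc₃)))
  rw [← hV'] at k1
  rw [← hV]
  obtain ⟨D, hD⟩ : ∃ D : Set ℕ, D = {n : ℕ | ∀ r ∈ F, ¬ r ∣ n} := ⟨_, rfl⟩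
  have g1 := hL₁ X (by omega) a
  have g2 := hL₁ Y (by omega) b
  rw [← hD] at g1 g2
  obtain ⟨box, hbox⟩ : ∃ box : Set (ℕ × ℕ), box = Set.Ioc a (a + X) ×ˢ Set.Ioc b (b + Y) := ⟨_, rfl⟩
  rw [← hbox] at k1 ⊢
  have hbf : box.Finite := by
    rw [hbox]; exact (Set.finite_Ioc _ _).prod (Set.finite_Ioc _ _)
  have hfa : (Set.Ioc a (a + X)).Finite := Set.finite_Ioc _ _
  have hfb : (Set.Ioc b (b + Y)).Finite := Set.finite_Ioc _ _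
  have hsub : ExcZ S ((N : ℝ) ^ c) V ∩ box ⊆ (ExcX S ((N : ℝ) ^ c) V' ∩ box) ∪
      (((D ∩ Set.Ioc a (a + X)) ×ˢ Set.Ioc b (b + Y)) ∪
        (Set.Ioc a (a + X) ×ˢ (D ∩ Set.Ioc b (b + Y)))) := by
    rintro ⟨u, v⟩ ⟨h1, h2⟩
    have h2' := h2
    rw [hbox] at h2'
    obtain ⟨hu, hv⟩ := h2'
    simp only at hu hv
    by_cases hDu : u ∈ D
    · exact Or.inr (Or.inl ⟨⟨hDu, hu⟩, hv⟩)
    by_cases hDv : v ∈ D
    · exact Or.inr (Or.inr ⟨hu, ⟨hDv, hv⟩⟩)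
    left
    rw [hD] at hDu hDv
    simp only [Set.mem_ofPred_eq, not_forall, not_not] at hDu hDv
    obtain ⟨r₁, hr₁, hr₁u⟩ := hDu
    obtain ⟨r₂, hr₂, hr₂v⟩ := hDv
    exact ⟨H _ V V' T u v hT1 hV1 hVV hVT hPT (hside ha hXN hu.2) (hside hb hYN hv.2) hW hV2
      ⟨r₁, (hF r₁ hr₁).1, hFT r₁ hr₁, hr₁u⟩ ⟨r₂, (hF r₂ hr₂).1, hFT r₂ hr₂, hr₂v⟩ h1, h2⟩
  have hf1 : ((D ∩ Set.Ioc a (a + X)) ×ˢ Set.Ioc b (b + Y)).Finite :=
    (hfa.subset Set.inter_subset_right).prod hfb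
  have hf2 : (Set.Ioc a (a + X) ×ˢ (D ∩ Set.Ioc b (b + Y))).Finite :=
    hfa.prod (hfb.subset Set.inter_subset_right)
  have h1 := (Set.ncard_le_ncard hsub ((hbf.subset Set.inter_subset_right).union
    (hf1.union hf2))).trans (Set.ncard_union_le _ _)
  have h2 := Set.ncard_union_le ((D ∩ Set.Ioc a (a + X)) ×ˢ Set.Ioc b (b + Y))
    (Set.Ioc a (a + X) ×ˢ (D ∩ Set.Ioc b (b + Y)))
  have hca : (Set.Ioc a (a + X)).ncard = X := by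
    rw [← Finset.coe_Ioc, Set.ncard_coe_finset, Nat.card_Ioc]; omega
  have hcb : (Set.Ioc b (b + Y)).ncard = Y := by
    rw [← Finset.coe_Ioc, Set.ncard_coe_finset, Nat.card_Ioc]; omega
  rw [Set.ncard_prod, Set.ncard_prod, hca, hcb] at h2
  have h3 : ((ExcZ S ((N : ℝ) ^ c) V ∩ box).ncard : ℝ) ≤ (ExcX S ((N : ℝ) ^ c) V' ∩ box).ncard +
      ((D ∩ Set.Ioc a (a + X)).ncard * Y + X * (D ∩ Set.Ioc b (b + Y)).ncard) := by
    exact_mod_cast h1.trans (Nat.add_le_add_left h2 _)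
  have hX0 : (0 : ℝ) ≤ X := Nat.cast_nonneg _
  have hY0 : (0 : ℝ) ≤ Y := Nat.cast_nonneg _
  have h4 := mul_le_mul_of_nonneg_right g1 hY0
  have h5 := mul_le_mul_of_nonneg_left g2 hX0
  nlinarith

end Pool.Agent.TH888.G
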