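import Mathlib
import Pool.Agent.TH888.W2.SMain
import Pool.Agent.TH888.G.Alpha4

/-!
Two polynomial bases, a free third base of any size, third exponents without small prime factors.
-/

set_option autoImplicit false

namespace Pool.Agent.TH888.G

open Finset Polynomial Filter Topology
open Pool.Agent.TH888.B1 (polylog_rpow aux_prime hbig_of good_classes small_values eval_bound ht)
open Pool.Agent.TH888.W2

theorem mainG (P : Finset ℕ) : ∃ c : ℝ → ℝ, (∀ δ : ℝ, 0 < δ → 0 < c δ) ∧ ∀ f g : ℤ[X],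
    0 < f.natDegree → 0 < g.natDegree →
    IsCoprime (f.map (Int.castRingHom ℚ)) (g.map (Int.castRingHom ℚ)) →
    ∀ ε : ℝ, 0 < ε → ∃ (M Pm : ℕ) (G : Finset ℕ), 0 < M ∧ G ⊆ range M ∧
      (1 - ε) * M ≤ (G.card : ℝ) ∧
      (∀ n : ℕ, n % M ∈ G → (∃ p : ℕ, p.Prime ∧ p ≠ 2 ∧ p ≤ Pm ∧ (p : ℤ) ∣ f.eval (n : ℤ)) ∧
        (∃ p : ℕ, p.Prime ∧ p ≠ 2 ∧ p ≤ Pm ∧ (p : ℤ) ∣ g.eval (n : ℤ))) ∧
      ∀ δ : ℝ, 0 < δ → ∃ N₀ : ℕ, ∀ N : ℕ, N₀ ≤ N →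
        (({n : ℕ | 1 ≤ n ∧ n ≤ N ∧ n % M ∈ G ∧
          n ∈ ExcSu P f g (Real.exp ((N : ℝ) ^ c δ))}.ncard : ℝ)) ≤ (N : ℝ) ^ (1 / 2 + δ) := by
  classical
  obtain ⟨C₀, κ, H⟩ := su_exps P
  obtain ⟨s, hs⟩ : ∃ s, s = P.card := ⟨_, rfl⟩
  obtain ⟨K, hK⟩ : ∃ K, K = (κ + 1) * (6 + 3 * s) := ⟨_, rfl⟩
  refine ⟨fun δ => min δ 1 / (8 * (K + 1)), fun δ hδ => by positivity, ?_⟩
  intro f g hf hg hcop ε hε
  obtain ⟨M, Pm, G, hM, hG, hGc, hgood⟩ := good_classes f g hf hg ε hε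
  obtain ⟨r₀, hr₀⟩ := ls_mod hf hcop
  refine ⟨M, Pm, G, hM, hG, hGc, hgood, fun δ' hδ' => ?_⟩
  obtain ⟨δ, hδdef⟩ : ∃ δ, δ = min δ' 1 := ⟨_, rfl⟩
  have hδ : 0 < δ := by rw [hδdef]; positivity
  have hδ1 : δ ≤ 1 := by rw [hδdef]; exact min_le_right _ _
  have hδδ : δ ≤ δ' := by rw [hδdef]; exact min_le_left _ _
  simp only [← hδdef]
  have hg0 : g ≠ 0 := by rintro rfl; simp at hg
  obtain ⟨D, hD⟩ : ∃ D, D = f.natDegree + g.natDegree := ⟨_, rfl⟩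
  obtain ⟨q₀, hq₀⟩ : ∃ q₀, q₀ = P.sup id := ⟨_, rfl⟩
  have hPq : ∀ q ∈ P, q ≤ q₀ := fun q hq => by rw [hq₀]; exact Finset.le_sup (f := id) hq
  obtain ⟨c₀, hc₀⟩ : ∃ c₀, c₀ = Pm + ht f + ht g + D + 3 + q₀ := ⟨_, rfl⟩
  obtain ⟨Y₀, hY₀⟩ : ∃ Y₀, Y₀ = (C₀ + 8) * (s + 2) := ⟨_, rfl⟩
  obtain ⟨L₁, hL₁⟩ := small_par (81 * Y₀ ^ (6 + 3 * s)) K c₀ hδ
  obtain ⟨L₃, hL₃⟩ := aux_prime δ hδ (r₀ + q₀)
  refine ⟨L₁ + L₃ + 2, fun N hN => ?_⟩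
  obtain ⟨x, r, hr, hx, hx16, hx2, hxr, hr4, hr₀r, hxh⟩ := hL₃ N (by omega)
  obtain ⟨T, hT1, hTY, hW, hp1⟩ := hL₁ N (by omega)
  have hN1 : 1 ≤ N := by omega
  have hN1R : (1 : ℝ) ≤ N := by exact_mod_cast hN1
  obtain ⟨Y, hY⟩ : ∃ Y, Y = Nat.log 2 N + 1 := ⟨_, rfl⟩
  rw [← hY] at hTY
  have hY1 : 1 ≤ Y := by omega
  have hNY : N ≤ 2 ^ Y := by rw [hY]; exact (Nat.lt_pow_succ_log_self (by norm_num) N).le
  have hc₀T : c₀ ≤ T := (Nat.le_mul_of_pos_right _ hY1).trans hTY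
  obtain ⟨B, hB⟩ : ∃ B, B = C₀ * T ^ κ + 7 := ⟨_, rfl⟩
  obtain ⟨S, hS⟩ : ∃ S, S = T * B * P.card + T := ⟨_, rfl⟩
  obtain ⟨Z, hZ⟩ : ∃ Z, Z = Y₀ * T ^ (κ + 1) := ⟨_, rfl⟩
  have hTκ : 1 ≤ T ^ κ := Nat.one_le_pow _ _ hT1
  have hTκ1 : T ^ κ ≤ T ^ (κ + 1) := Nat.pow_le_pow_right hT1 (by omega)
  have hTT : T ≤ T ^ (κ + 1) := Nat.le_self_pow (by omega) T
  have hBT : B + 1 ≤ (C₀ + 8) * T ^ κ := by
    rw [hB, add_mul]
    have : 8 ≤ 8 * T ^ κ := by omega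
    omega
  have hBZ : B + 1 ≤ Z := by
    calc B + 1 ≤ (C₀ + 8) * T ^ κ := hBT
      _ ≤ (C₀ + 8) * T ^ (κ + 1) := Nat.mul_le_mul_left _ hTκ1
      _ ≤ (C₀ + 8) * (s + 2) * T ^ (κ + 1) :=
          Nat.mul_le_mul_right _ (Nat.le_mul_of_pos_right _ (by omega))
      _ = Z := by rw [hZ, hY₀]
  have hSZ : S ≤ Z := by
    have e1 : T * B ≤ (C₀ + 8) * T ^ (κ + 1) := by
      calc T * B ≤ T * ((C₀ + 8) * T ^ κ) := Nat.mul_le_mul_left _ (by omega)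
        _ = _ := by rw [pow_succ]; ring
    have e2 : T ≤ (C₀ + 8) * T ^ (κ + 1) := hTT.trans (Nat.le_mul_of_pos_left _ (by omega))
    calc S = T * B * s + T := by rw [hS, hs]
      _ ≤ (C₀ + 8) * T ^ (κ + 1) * s + (C₀ + 8) * T ^ (κ + 1) :=
          Nat.add_le_add (Nat.mul_le_mul_right _ e1) e2
      _ ≤ (C₀ + 8) * T ^ (κ + 1) * s + (C₀ + 8) * T ^ (κ + 1) * 2 := by omega
      _ = Z := by rw [hZ, hY₀]; ring
  have hDZ : D ≤ Z := by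
    have e2 : T ≤ (C₀ + 8) * T ^ (κ + 1) := hTT.trans (Nat.le_mul_of_pos_left _ (by omega))
    have e3 : (C₀ + 8) * T ^ (κ + 1) ≤ Z := by
      rw [hZ, hY₀]
      exact Nat.mul_le_mul_right _ (Nat.le_mul_of_pos_right _ (by omega))
    omega
  have hZ81 : 81 * Z ^ (6 + 3 * s) = 81 * Y₀ ^ (6 + 3 * s) * T ^ K := by
    rw [hZ, mul_pow, ← pow_mul, hK, mul_assoc]
  rw [← hZ81] at hp1
  have hp2 : ((81 * Z ^ (6 + 3 * s) : ℕ) : ℝ) ≤ (N : ℝ) ^ (1 / 2 : ℝ) :=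
    hp1.trans (Real.rpow_le_rpow_of_exponent_le hN1R (by linarith))
  have hBr : B < r := by
    have h1 : B + 1 ≤ 81 * Z ^ (6 + 3 * s) := by
      have e1 : Z ≤ Z ^ (6 + 3 * s) := Nat.le_self_pow (by omega) Z
      omega
    have h2 : ((B + 1 : ℕ) : ℝ) ≤ ((81 * Z ^ (6 + 3 * s) : ℕ) : ℝ) := by exact_mod_cast h1
    push_cast at h2 hp2
    have h3 : (B : ℝ) < r := by linarith
    exact_mod_cast h3
  have hbig := hbig_of (S := S) hx16 hx2 hxr hN1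
  have hval : ∀ (F : ℤ[X]), F.natDegree ≤ D → ht F ≤ ht f + ht g → ∀ n : ℕ,
      1 ≤ n → n ≤ N → (F.eval (n : ℤ)).natAbs ≤ 2 ^ T := by
    intro F hFD hFh n h1 h2
    refine (eval_bound F hFD h1 (h2.trans hNY)).trans (Nat.pow_le_pow_right (by norm_num) ?_)
    calc ht F + D * Y ≤ (ht f + ht g) * Y + D * Y :=
          Nat.add_le_add_right (hFh.trans (Nat.le_mul_of_pos_right _ hY1)) _
      _ = (ht f + ht g + D) * Y := by ring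
      _ ≤ c₀ * Y := Nat.mul_le_mul_right _ (by omega)
      _ ≤ T := hTY
  obtain ⟨A, hA⟩ : ∃ A : Finset ℕ, A = (Icc 1 N).filter (fun n : ℕ => ∃ e ∈ Ind P B, ∃ w : ℤ,
      |w| ≤ ((2 ^ S : ℕ) : ℤ) ∧ w ^ e.1.2.2 =
        (LS f g e.1.1 e.1.2.1 e.1.2.2 e.2.1 e.2.2.1 e.2.2.2).eval (n : ℤ)) := ⟨_, rfl⟩
  have hAc := count_su (D := D) (P := P) hf hg0 hcop (by omega) (by omega) hr hBr
    (fun q hq => by have := hPq q hq; omega)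
    (fun l m k a b c => hr₀ r hr (by omega) l m k a b c) hN1 hbig A (by
      intro n hn
      rw [hA, mem_filter, mem_Icc] at hn
      exact ⟨hn.1.1, hn.1.2, hn.2⟩)
  obtain ⟨hsf, hsf'⟩ := small_values f hf
  obtain ⟨hsg, hsg'⟩ := small_values g hg
  obtain ⟨cc, hcc⟩ : ∃ cc : ℝ, cc = δ / (8 * (K + 1)) := ⟨_, rfl⟩
  rw [← hcc] at hW ⊢
  have hsub : {n : ℕ | 1 ≤ n ∧ n ≤ N ∧ n % M ∈ G ∧
      n ∈ ExcSu P f g (Real.exp ((N : ℝ) ^ cc))} ⊆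
      ({n : ℕ | (f.eval (n : ℤ)).natAbs ≤ 1} ∪ {n : ℕ | (g.eval (n : ℤ)).natAbs ≤ 1}) ∪
          (A : Set ℕ) := by
    rintro n ⟨hn1, hnN, hnG, hn⟩
    refine Or.inr ?_
    obtain ⟨⟨p', hp', hp'2, hp'P, hpf⟩, ⟨p, hp, hp2, hpP, hpg⟩⟩ := hgood n hnG
    rw [mem_coe, hA, mem_filter, mem_Icc]
    exact ⟨⟨hn1, hnN⟩, mem_eq H hT1 (fun q hq => by have := hPq q hq; omega) hB hS hW hn
      (hval f (by omega) (by omega) n hn1 hnN)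
      (hval g (by omega) (by omega) n hn1 hnN) ⟨p', hp', by omega, hpf⟩ ⟨p, hp, by omega, hpg⟩⟩
  have hcard : {n : ℕ | 1 ≤ n ∧ n ≤ N ∧ n % M ∈ G ∧
      n ∈ ExcSu P f g (Real.exp ((N : ℝ) ^ cc))}.ncard ≤
      3 * D + ((B + 1) ^ 3 * (2 * (B + 1) ^ s) ^ 3) *
        (B * D * (N / r + 1) + r * (B * (B * S + B * D))) := by
    refine (Set.ncard_le_ncard hsub ((hsf.union hsg).union (Finset.finite_toSet _))).trans ?_
    refine (Set.ncard_union_le _ _).trans (Nat.add_le_add ?_ (by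
      rw [Set.ncard_coe_finset, hs]; exact hAc))
    refine (Set.ncard_union_le _ _).trans ((Nat.add_le_add hsf' hsg').trans ?_)
    rw [hD]; omega
  have hfin := final_su (B := B) (D := D) (S := S) (Z := Z) (N := N) (s := s) hBZ hSZ hDZ hx16 hx2
    hxr hr4
  have hNpos : (0 : ℝ) < N := by exact_mod_cast hN1
  calc (({n : ℕ | 1 ≤ n ∧ n ≤ N ∧ n % M ∈ G ∧
          n ∈ ExcSu P f g (Real.exp ((N : ℝ) ^ cc))}.ncard : ℝ))
      ≤ ((3 * D + ((B + 1) ^ 3 * (2 * (B + 1) ^ s) ^ 3) * (B * D * (N / r + 1) +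
        r * (B * (B * S + B * D))) : ℕ) : ℝ) := by exact_mod_cast hcard
    _ ≤ x * ((81 * Z ^ (6 + 3 * s) : ℕ) : ℝ) := hfin
    _ ≤ x * (N : ℝ) ^ (δ / 2) := mul_le_mul_of_nonneg_left hp1 (by linarith)
    _ = (N : ℝ) ^ (1 / 2 + δ) := by
        rw [hx, ← Real.rpow_add hNpos]
        congr 1
        ring
    _ ≤ (N : ℝ) ^ (1 / 2 + δ') := Real.rpow_le_rpow_of_exponent_le hN1R (by linarith)


/-- `f n` and `g n` are two bases of a solution with coefficients composed of the primes of `P`,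
whose third base is at most `W`, or whose coefficients are at most `V` and all prime factors of the
third exponent exceed `R` -/
def ExcF (P : Finset ℕ) (f g : ℤ[X]) (V R W : ℝ) : Set ℕ :=
  {n | ∃ (a b c w : ℤ) (l m k : ℕ), 0 < l ∧ 0 < m ∧ 0 < k ∧
    m * k + k * l + l * m ≤ l * m * k ∧ Su P a.natAbs ∧ Su P b.natAbs ∧ Su P c.natAbs ∧
    f.eval (n : ℤ) ≠ 0 ∧ g.eval (n : ℤ) ≠ 0 ∧ w ≠ 0 ∧
    Int.gcd ((Int.gcd (a * f.eval (n : ℤ)) (b * g.eval (n : ℤ)) : ℕ) : ℤ) (c * w) = 1 ∧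
    a * f.eval (n : ℤ) ^ l + b * g.eval (n : ℤ) ^ m = c * w ^ k ∧
    (|(w : ℝ)| ≤ W ∨ (|(a : ℝ)| ≤ V ∧ |(b : ℝ)| ≤ V ∧ |(c : ℝ)| ≤ V ∧ 2 ≤ k ∧
      ∀ ℓ : ℕ, ℓ.Prime → ℓ ∣ k → R < ℓ))}

theorem log_nat_le {N : ℕ} (hN : 3 ≤ N) : ((Nat.log 2 N + 1 : ℕ) : ℝ) ≤ 3 * Real.log N := by
  have hNR : (3 : ℝ) ≤ N := by exact_mod_cast hN
  have h1 : (2 : ℝ) ^ (Nat.log 2 N) ≤ N := by
    exact_mod_cast Nat.pow_log_le_self 2 (by omega)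
  have h2 : (Nat.log 2 N : ℝ) * Real.log 2 ≤ Real.log N := by
    rw [← Real.log_pow]
    exact Real.log_le_log (by positivity) h1
  have h3 := Real.log_two_gt_d9
  have h4 : 1 ≤ Real.log N := by
    rw [Real.le_log_iff_exp_le (by linarith)]
    have := Real.exp_one_lt_d9
    linarith
  push_cast
  have h5 : (0 : ℝ) ≤ Nat.log 2 N := Nat.cast_nonneg _
  nlinarith

theorem ftb (S : Finset ℕ) : ∃ (κ : ℕ) (c : ℝ → ℝ), (∀ δ : ℝ, 0 < δ → 0 < c δ) ∧ ∀ f g : ℤ[X],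
    0 < f.natDegree → 0 < g.natDegree →
    IsCoprime (f.map (Int.castRingHom ℚ)) (g.map (Int.castRingHom ℚ)) →
    ∀ ε : ℝ, 0 < ε → ∃ (M : ℕ) (G : Finset ℕ), 0 < M ∧ G ⊆ range M ∧ (1 - ε) * M ≤ (G.card : ℝ) ∧
      ∀ (δ : ℝ) (K : ℕ), 0 < δ → ∃ N₀ : ℕ, ∀ N : ℕ, N₀ ≤ N →
        (({n : ℕ | 1 ≤ n ∧ n ≤ N ∧ n % M ∈ G ∧
          n ∈ ExcF S f g ((N : ℝ) ^ K) (Real.log N ^ κ) (Real.exp ((N : ℝ) ^ c δ))}.ncard : ℝ)) ≤
            (N : ℝ) ^ (1 / 2 + δ) := by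
  classical
  obtain ⟨c, hc, hmain⟩ := mainG S
  obtain ⟨P, hPd⟩ : ∃ P, P = S.filter Nat.Prime := ⟨_, rfl⟩
  obtain ⟨C, d, H⟩ := third_v P (fun ℓ h => by rw [hPd] at h; exact (Finset.mem_filter.mp h).2)
  refine ⟨d + 1, c, hc, fun f g hf hg hcop ε hε => ?_⟩
  obtain ⟨M, Pm, G, hM, hG, hGc, hgood, h2⟩ := hmain f g hf hg hcop ε hε
  refine ⟨M, G, hM, hG, hGc, fun δ K hδ => ?_⟩
  obtain ⟨N₁, h3⟩ := h2 δ hδ
  obtain ⟨D, hD⟩ : ∃ D, D = f.natDegree + g.natDegree := ⟨_, rfl⟩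
  obtain ⟨c₀, hc₀⟩ : ∃ c₀, c₀ = Pm + ht f + ht g + D + 3 + P.sup id + K := ⟨_, rfl⟩
  -- largeness
  have hlog : Tendsto (fun N : ℕ => Real.log (N : ℝ)) atTop atTop :=
    Real.tendsto_log_atTop.comp tendsto_natCast_atTop_atTop
  obtain ⟨N₂, hN₂⟩ := (hlog.eventually_ge_atTop
    ((C : ℝ) * (3 * c₀) ^ d)).exists_forall_of_atTop
  obtain ⟨N₃, hN₃⟩ := polylog_rpow (C * c₀ ^ d) d (c δ) (hc δ hδ)
  refine ⟨N₁ + N₂ + N₃ + 3, fun N hN => le_trans ?_ (h3 N (by omega))⟩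
  have hN3 : 3 ≤ N := by omega
  have hN1R : (1 : ℝ) ≤ N := by exact_mod_cast (by omega : 1 ≤ N)
  have g2 := hN₂ N (by omega)
  have g3 := hN₃ N (by omega)
  obtain ⟨Y, hY⟩ : ∃ Y, Y = Nat.log 2 N + 1 := ⟨_, rfl⟩
  have hY1 : 1 ≤ Y := by omega
  have hNY : N ≤ 2 ^ Y := by rw [hY]; exact (Nat.lt_pow_succ_log_self (by norm_num) N).le
  have hYlog : (Y : ℝ) ≤ 3 * Real.log N := by rw [hY]; exact log_nat_le hN3
  have hlog0 : 0 ≤ Real.log N := Real.log_nonneg hN1R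
  obtain ⟨T, hT⟩ : ∃ T, T = c₀ * Y := ⟨_, rfl⟩
  have hc₀T : c₀ ≤ T := by rw [hT]; exact Nat.le_mul_of_pos_right _ hY1
  have hT1 : 1 ≤ T := by omega
  have hCT : ((C * T ^ d : ℕ) : ℝ) ≤ (N : ℝ) ^ c δ := by
    refine le_trans (le_of_eq ?_) g3
    rw [hT, hY, mul_pow]
    push_cast
    ring
  have hCR : ((C * T ^ d : ℕ) : ℝ) ≤ Real.log N ^ (d + 1) := by
    rw [hT]
    push_cast
    calc (C : ℝ) * ((c₀ : ℝ) * Y) ^ d ≤ C * ((c₀ : ℝ) * (3 * Real.log N)) ^ d := by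
          apply mul_le_mul_of_nonneg_left _ (Nat.cast_nonneg _)
          exact pow_le_pow_left₀ (by positivity)
            (mul_le_mul_of_nonneg_left hYlog (Nat.cast_nonneg _)) _
      _ = (C * (3 * c₀) ^ d) * Real.log N ^ d := by
          rw [← mul_assoc, mul_comm (c₀ : ℝ) 3, mul_pow (3 * (c₀ : ℝ))]; ring
      _ ≤ Real.log N * Real.log N ^ d := mul_le_mul_of_nonneg_right g2 (by positivity)
      _ = _ := by rw [pow_succ]; ring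
  have hval : ∀ (F : ℤ[X]), F.natDegree ≤ D → ht F ≤ ht f + ht g → ∀ n : ℕ,
      1 ≤ n → n ≤ N → (F.eval (n : ℤ)).natAbs ≤ 2 ^ T := by
    intro F hFD hFh n h1 h2
    refine (eval_bound F hFD h1 (h2.trans hNY)).trans (Nat.pow_le_pow_right (by norm_num) ?_)
    calc ht F + D * Y ≤ (ht f + ht g) * Y + D * Y :=
          Nat.add_le_add_right (hFh.trans (Nat.le_mul_of_pos_right _ hY1)) _
      _ = (ht f + ht g + D) * Y := by ring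
      _ ≤ c₀ * Y := Nat.mul_le_mul_right _ (by omega)
      _ = T := hT.symm
  have hNK : ∀ {t : ℤ}, |(t : ℝ)| ≤ (N : ℝ) ^ K → t.natAbs ≤ 2 ^ T := by
    intro t htK
    have h4 : t.natAbs ≤ N ^ K := by
      have h5 : ((t.natAbs : ℕ) : ℝ) ≤ ((N ^ K : ℕ) : ℝ) := by
        rw [Nat.cast_natAbs, Int.cast_abs]
        push_cast
        exact htK
      exact_mod_cast h5
    calc t.natAbs ≤ N ^ K := h4
      _ ≤ (2 ^ Y) ^ K := Nat.pow_le_pow_left hNY _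
      _ = 2 ^ (K * Y) := by rw [← pow_mul, mul_comm]
      _ ≤ 2 ^ T := Nat.pow_le_pow_right (by norm_num) (by
          rw [hT]; exact Nat.mul_le_mul_right _ (by omega))
  have hPT : ∀ q ∈ P, q ≤ T := by
    intro q hq
    have := Finset.le_sup (f := id) hq
    simp only [id] at this
    omega
  have hSuP : ∀ {t : ℕ}, Su S t → Su P t := by
    intro t ht
    refine ⟨ht.1, fun l hl hd => ?_⟩
    rw [hPd, Finset.mem_filter]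
    exact ⟨ht.2 l hl hd, hl⟩
  have hsub : {n : ℕ | 1 ≤ n ∧ n ≤ N ∧ n % M ∈ G ∧
          n ∈ ExcF S f g ((N : ℝ) ^ K) (Real.log N ^ (d + 1)) (Real.exp ((N : ℝ) ^ c δ))} ⊆
      {n : ℕ | 1 ≤ n ∧ n ≤ N ∧ n % M ∈ G ∧ n ∈ ExcSu S f g (Real.exp ((N : ℝ) ^ c δ))} := by
    rintro n ⟨hn1, hnN, hnG, a, b, c', w, l, m, k, hl, hm, hk, hle, ha, hb, hc', hf0, hg0, hw0, hgcd,
      heq, hcase⟩
    refine ⟨hn1, hnN, hnG, a, b, c', w, l, m, k, hl, hm, hk, hle, ha, hb, hc', hf0, hg0, hw0, ?_, hgcd,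
      heq⟩
    rcases hcase with h | ⟨va, vb, vc, hk2, hR⟩
    · exact h
    rcases Nat.lt_or_ge w.natAbs 2 with hw2 | hw2
    · have h4 : ((w.natAbs : ℕ) : ℝ) ≤ 1 := by exact_mod_cast (by omega : w.natAbs ≤ 1)
      rw [Nat.cast_natAbs, Int.cast_abs] at h4
      exact h4.trans (Real.one_le_exp (Real.rpow_nonneg (Nat.cast_nonneg _) _))
    obtain ⟨⟨p', hp', hp'2, hp'P, hpf⟩, ⟨p, hp, hp2, hpP, hpg⟩⟩ := hgood n hnG
    rcases H a b c' (f.eval (n : ℤ)) (g.eval (n : ℤ)) w T l m k hT1 hPT hl hm hk2 (hSuP ha) (hSuP hb)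
      (hSuP hc') hgcd heq (hNK va) (hNK vb) (hNK vc) (hval f (by omega) (by omega) n hn1 hnN)
      (hval g (by omega) (by omega) n hn1 hnN) hf0 hg0 hw2
      ⟨p', hp', by omega, Int.natCast_dvd.mp hpf⟩ ⟨p, hp, by omega, Int.natCast_dvd.mp hpg⟩ with h4 | h4
    · exfalso
      have h5 := hR k.minFac (Nat.minFac_prime (by omega)) (Nat.minFac_dvd k)
      have h6 : ((k.minFac : ℕ) : ℝ) ≤ ((C * T ^ d : ℕ) : ℝ) := by exact_mod_cast h4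
      linarith
    · have h5 : ((w.natAbs : ℕ) : ℝ) ≤ ((2 ^ (C * T ^ d) : ℕ) : ℝ) := by exact_mod_cast h4
      rw [Nat.cast_natAbs, Int.cast_abs] at h5
      have h6 : ((2 ^ (C * T ^ d) : ℕ) : ℝ) ≤ Real.exp ((C * T ^ d : ℕ) : ℝ) := by
        rw [Nat.cast_pow, ← Real.exp_one_pow]
        apply pow_le_pow_left₀ (by norm_num)
        have := Real.add_one_le_exp (1 : ℝ)
        push_cast
        linarith
      exact h5.trans (h6.trans (Real.exp_le_exp.mpr hCT))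
  have hfin : {n : ℕ | 1 ≤ n ∧ n ≤ N ∧ n % M ∈ G ∧
      n ∈ ExcSu S f g (Real.exp ((N : ℝ) ^ c δ))}.Finite :=
    (Finset.finite_toSet (Finset.range (N + 1))).subset fun n hn => by
      rw [Finset.mem_coe, Finset.mem_range]; exact Nat.lt_succ_of_le hn.2.1
  exact_mod_cast Set.ncard_le_ncard hsub hfin

end Pool.Agent.TH888.G
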