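import Mathlib
import Pool.Agent.TH888.G.Gamma2
import Pool.Agent.TH888.G.UnitPM

/-!
One base an `S`-unit: the third exponent has a divisor up to a power of `Y`, or the third base is at
most the exponential of a power of `Y`, or one of the two `S`-units other than the coefficient of `B` is
`± 1` and the other one is at most the exponential of a power of `Y`.
-/

set_option autoImplicit false

namespace Pool.Agent.TH888.G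

open Finset Filter Topology
open Pool.Agent.TH888.W2 (Su)

/-- the third exponent `z` and the third base `C` in `u + v B ^ y = w C ^ z` -/
def ThirdU (W V : ℝ) (u w C : ℤ) (z : ℕ) : Prop :=
  MultW W z ∨ (2 ≤ z ∧ (|(C : ℝ)| ≤ V ∨ (w.natAbs = 1 ∧ |(u : ℝ)| ≤ V) ∨
    (u.natAbs = 1 ∧ |(w : ℝ)| ≤ V)))

theorem gamma3 (S : Finset ℕ) {c : ℝ} (hc : 0 < c) (hc1 : c * (2 * S.card + 2) < 1) :
    ∃ c' : ℝ, 0 < c' ∧ ∀ ε δ : ℝ, 0 < ε → 0 < δ → δ ≤ 1 → ∃ L : ℕ, ∀ Y : ℕ, L ≤ Y → ∀ b : ℕ,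
    (b : ℝ) ≤ (Y : ℝ) ^ (2 - δ) →
      (({B : ℕ | B ∈ Set.Ioc b (b + Y) ∧ ∃ (u v w C : ℤ) (y z : ℕ), 0 < y ∧ 0 < z ∧
        Su (S.filter Nat.Prime) u.natAbs ∧ Su (S.filter Nat.Prime) v.natAbs ∧
        Su (S.filter Nat.Prime) w.natAbs ∧ C ≠ 0 ∧
        Int.gcd ((Int.gcd u (v * B) : ℕ) : ℤ) (w * C) = 1 ∧ u + v * (B : ℤ) ^ y = w * C ^ z ∧
        ThirdU ((Y : ℝ) ^ c) (Real.exp ((Y : ℝ) ^ c')) u w C z}.ncard : ℕ) : ℝ) ≤ ε * Y := by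
  classical
  obtain ⟨P, hPdef⟩ : ∃ P, P = S.filter Nat.Prime := ⟨_, rfl⟩
  obtain ⟨C₀, H⟩ := unit_pm P (fun ℓ h => by rw [hPdef] at h; exact (Finset.mem_filter.mp h).2)
  obtain ⟨c₂, hc₂, hmain⟩ := gamma2 S hc hc1
  have hc3 : 0 < 2 * c / (8 * (((10 : ℕ) : ℝ) + 1)) := by positivity
  refine ⟨min c₂ (2 * c / (8 * (((10 : ℕ) : ℝ) + 1))), lt_min hc₂ hc3, fun ε δ hε hδ hδ1 => ?_⟩
  obtain ⟨F, hF, L₁, hL₁⟩ := kind_two' Nat.prime_two ∅ (ε / 2) (by positivity)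
  obtain ⟨L₂, hL₂⟩ := hmain (ε / 2) δ (by positivity) hδ hδ1
  obtain ⟨c₀, hc₀⟩ : ∃ c₀, c₀ = 4 + F.sup id + P.sup id := ⟨_, rfl⟩
  obtain ⟨L₃, hL₃⟩ := small_par' C₀ 10 c₀ (δ := 2 * c) (by positivity)
  refine ⟨L₁ + L₂ + L₃ + 2, fun Y hY b hb => ?_⟩
  have k1 := hL₂ Y (by omega) b hb
  rw [← hPdef] at k1 ⊢
  obtain ⟨T, hT1, hT2, hT3, hT4⟩ := hL₃ Y (by omega)
  have hY1R : (1 : ℝ) ≤ Y := by exact_mod_cast (by omega : 1 ≤ Y)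
  have hb2 : b ≤ Y ^ 2 := by
    have : (b : ℝ) ≤ (Y : ℝ) ^ 2 := by
      calc (b : ℝ) ≤ (Y : ℝ) ^ (2 - δ) := hb
        _ ≤ (Y : ℝ) ^ (2 : ℝ) := Real.rpow_le_rpow_of_exponent_le hY1R (by linarith)
        _ = _ := by rw [← Real.rpow_natCast]; norm_num
    exact_mod_cast this
  have hc₀T : c₀ ≤ T := (Nat.le_mul_of_pos_right _ (by omega)).trans hT2
  have hN2T : Y ^ 4 ≤ 2 ^ T := by
    calc Y ^ 4 ≤ (2 ^ (Nat.log 2 Y + 1)) ^ 4 :=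
          Nat.pow_le_pow_left (Nat.lt_pow_succ_log_self (by norm_num) Y).le _
      _ = 2 ^ (4 * (Nat.log 2 Y + 1)) := by rw [← pow_mul, mul_comm]
      _ ≤ 2 ^ T := Nat.pow_le_pow_right (by norm_num)
          ((Nat.mul_le_mul_right _ (by omega)).trans hT2)
  have hside : ∀ {B : ℕ}, B ≤ b + Y → B ≤ 2 ^ T := by
    intro B hB
    refine le_trans ?_ hN2T
    have h4 : Y ^ 2 ≤ Y ^ 3 := Nat.pow_le_pow_right (by omega) (by omega)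
    have h5 : Y ^ 1 ≤ Y ^ 3 := Nat.pow_le_pow_right (by omega) (by omega)
    have h6 : Y ^ 4 = Y * Y ^ 3 := by ring
    rw [h6]
    rw [pow_one] at h5
    have h7 : 2 ≤ Y := by omega
    nlinarith
  have hPT : ∀ q ∈ P, q ≤ T := by
    intro q hq
    have := Finset.le_sup (f := id) hq
    simp only [id] at this
    omega
  have hFT : ∀ r ∈ F, r ≤ T := by
    intro r hr
    have := Finset.le_sup (f := id) hr
    simp only [id] at this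
    omega
  have hW : ((C₀ * T ^ 10 : ℕ) : ℝ) ≤ (Y : ℝ) ^ c := by
    have h2 : 2 * c / 2 = c := by ring
    rwa [h2] at hT4
  obtain ⟨V₂, hV₂⟩ : ∃ V₂ : ℝ, V₂ = Real.exp ((Y : ℝ) ^ c₂) := ⟨_, rfl⟩
  rw [← hV₂] at k1
  obtain ⟨V, hV⟩ : ∃ V : ℝ, V = Real.exp ((Y : ℝ) ^
    (min c₂ (2 * c / (8 * (((10 : ℕ) : ℝ) + 1))))) := ⟨_, rfl⟩
  have hVV₂ : V ≤ V₂ := by
    rw [hV, hV₂]
    exact Real.exp_le_exp.2 (Real.rpow_le_rpow_of_exponent_le hY1R (min_le_left _ _))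
  have hVT : V ≤ ((2 ^ T : ℕ) : ℝ) := by
    refine le_trans ?_ hT3
    rw [hV]
    exact Real.exp_le_exp.2 (Real.rpow_le_rpow_of_exponent_le hY1R (min_le_right _ _))
  have hV1 : 1 ≤ V₂ := by
    rw [hV₂]
    exact Real.one_le_exp (Real.rpow_nonneg (Nat.cast_nonneg _) _)
  rw [← hV]
  have hnat : ∀ t : ℤ, |(t : ℝ)| ≤ V → t.natAbs ≤ 2 ^ T := by
    intro t ht
    have h1 : ((t.natAbs : ℕ) : ℝ) ≤ ((2 ^ T : ℕ) : ℝ) := by
      rw [Nat.cast_natAbs, Int.cast_abs]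
      exact ht.trans hVT
    exact_mod_cast h1
  obtain ⟨D, hD⟩ : ∃ D : Set ℕ, D = {n : ℕ | ∀ r ∈ F, ¬ r ∣ n} := ⟨_, rfl⟩
  have g1 := hL₁ Y (by omega) b
  rw [← hD] at g1
  have hsub : {B : ℕ | B ∈ Set.Ioc b (b + Y) ∧ ∃ (u v w C : ℤ) (y z : ℕ), 0 < y ∧ 0 < z ∧
        Su P u.natAbs ∧ Su P v.natAbs ∧ Su P w.natAbs ∧ C ≠ 0 ∧
        Int.gcd ((Int.gcd u (v * B) : ℕ) : ℤ) (w * C) = 1 ∧ u + v * (B : ℤ) ^ y = w * C ^ z ∧
        ThirdU ((Y : ℝ) ^ c) V u w C z} ⊆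
      {B : ℕ | B ∈ Set.Ioc b (b + Y) ∧ ∃ (z : ℕ) (C : ℤ), (MultW ((Y : ℝ) ^ c) z ∨
        (2 ≤ z ∧ |(C : ℝ)| ≤ V₂)) ∧ EqC P B z C} ∪ (D ∩ Set.Ioc b (b + Y)) := by
    rintro B ⟨hB, u, v, w, C, y, z, hy, hz, hu, hv, hw, hC0, hg, heq, hcase⟩
    by_cases hDB : B ∈ D
    · exact Or.inr ⟨hDB, hB⟩
    left
    have hE : EqC P B z C := ⟨u, v, w, y, hy, hz, hu, hv, hw, hC0, hg, heq⟩
    rw [hD] at hDB
    simp only [Set.mem_ofPred_eq, not_forall, not_not] at hDB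
    obtain ⟨r, hr, hrB⟩ := hDB
    rcases hcase with hm | ⟨hz2, hCV | h⟩
    · exact ⟨hB, z, C, Or.inl hm, hE⟩
    · exact ⟨hB, z, C, Or.inr ⟨hz2, hCV.trans hVV₂⟩, hE⟩
    · rcases Nat.lt_or_ge C.natAbs 2 with hC2 | hC2
      · refine ⟨hB, z, C, Or.inr ⟨hz2, le_trans ?_ hV1⟩, hE⟩
        have h1 : ((C.natAbs : ℕ) : ℝ) ≤ 1 := by exact_mod_cast (by omega : C.natAbs ≤ 1)
        rwa [Nat.cast_natAbs, Int.cast_abs] at h1
      · have hB0 : (B : ℤ) ≠ 0 := by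
          have := hB.1
          exact_mod_cast (by omega : B ≠ 0)
        have hmin := H u v w B C T y z hT1 hPT hy hz2 (Int.natAbs_ne_zero.mp hu.1) hv
          (Int.natAbs_ne_zero.mp hw.1)
          (h.imp (fun h => ⟨h.1, hnat u h.2⟩) (fun h => ⟨h.1, hnat w h.2⟩)) hg heq
          (by rw [Int.natAbs_natCast]; exact hside hB.2) hB0 hC2
          ⟨r, (hF r hr).1, hFT r hr, by rw [Int.natAbs_natCast]; exact hrB⟩
        exact ⟨hB, z, C, Or.inl ⟨z.minFac, (Nat.minFac_prime (by omega)).two_le,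
          le_trans (by exact_mod_cast hmin) hW, Nat.minFac_dvd z⟩, hE⟩
  have hf1 : {B : ℕ | B ∈ Set.Ioc b (b + Y) ∧ ∃ (z : ℕ) (C : ℤ), (MultW ((Y : ℝ) ^ c) z ∨
        (2 ≤ z ∧ |(C : ℝ)| ≤ V₂)) ∧ EqC P B z C}.Finite :=
    (Set.finite_Ioc b (b + Y)).subset fun B hB => hB.1
  have hf2 : (D ∩ Set.Ioc b (b + Y)).Finite := (Set.finite_Ioc _ _).subset Set.inter_subset_right
  have h1 := (Set.ncard_le_ncard hsub (hf1.union hf2)).trans (Set.ncard_union_le _ _)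
  calc _ ≤ _ := Nat.cast_le.mpr h1
    _ ≤ ε / 2 * Y + ε / 2 * Y := by
      push_cast
      exact add_le_add k1 g1
    _ = ε * Y := by ring

end Pool.Agent.TH888.G
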